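import Pool.Agent.H13.Q1.Merge
import Pool.Agent.H80.W.PatZ

set_option autoImplicit false
open Finset

/-! # Merging two labels at a cap, for an arbitrary functional of the open labels

`Leaf F o v` : the functional `F` does not see a single open label at the vertex `v` (`o = true`), resp. a
single closed label at the face `v` (`o = false`). `Ec_cap`, `Ec_ties` : for such a functional two labels
at a cap may be replaced by one (`H13/Q1/Merge` for the increments). `tie_O`, `tie_C` : all configurations of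
the two labels but one give the same value. `leaf_iG` : the increments, `leaf_pat` : functionals of the
link pattern of a zone. -/

namespace Pool.Agent.H49.W

open Pool.Agent.Q1 Pool.Agent.H75.Perc Pool.Agent.H75.TwoArm Pool.Agent.H80.Sweep
open Pool.Agent.H75.Four Pool.Agent.H13.Q1 Pool.Agent.H43.Q1 Pool.Agent.H39.Q1

/-- **A dangling label at `v` is not seen by `F`.** -/
structure Leaf (F : Finset (ℤ × ℤ) → ℂ) (o : Bool) (v : ℤ × ℤ) : Prop where
  op : o = true → ∀ (G : Finset (ℤ × ℤ)) (c : ℤ × ℤ), vx c = v → lab c ∉ G →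
    (∀ x, vx x = v → lab x ∉ G) → F (insert (lab c) G) = F G
  cl : o = false → ∀ (G : Finset (ℤ × ℤ)) (c : ℤ × ℤ), fi c = v → lab c ∉ G →
    (∀ x, fi x = v → lab x ∉ G → lab x = lab c) → F (insert (lab c) G) = F G

variable {E W A : Finset (ℤ × ℤ)} {v e1 e2 : ℤ × ℤ} {o : Bool} {q q' : ℤ × ℤ → ℂ}
  {F : Finset (ℤ × ℤ) → ℂ}

/-! ### The values at a cap -/

/-- a vertex inside a cap: the configurations with at most one open label agree -/
theorem tie_O (h : Cap E W true v e1 e2) (hF : Leaf F true v) (hd : Disjoint E W) (hA : A ⊆ E)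
    (h1 : e1 ∉ A) (h2 : e2 ∉ A) :
    F (insert e1 (A ∪ W)) = F (A ∪ W) ∧ F (insert e2 (A ∪ W)) = F (A ∪ W) := by
  obtain ⟨x1, y1, z1⟩ := h.a1
  obtain ⟨x2, y2, z2⟩ := h.a2
  simp only [At, if_true] at y1 y2
  have hw1 : e1 ∉ W := disjoint_left.1 hd h.m1
  have hw2 : e2 ∉ W := disjoint_left.1 hd h.m2
  have n1 : e1 ∉ A ∪ W := by rw [mem_union]; tauto
  have n2 : e2 ∉ A ∪ W := by rw [mem_union]; tauto
  have hv0 : ∀ c, vx c = v → lab c ∉ A ∪ W := by
    intro x hx hl
    by_cases g1 : lab x = e1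
    · rw [g1] at hl; exact n1 hl
    by_cases g2 : lab x = e2
    · rw [g2] at hl; exact n2 hl
    exact h.restO rfl x hx g1 g2 (union_subset_union_left hA hl)
  constructor
  · have := hF.op rfl (A ∪ W) x1 y1 (by rw [z1]; exact n1) hv0
    rwa [z1] at this
  · have := hF.op rfl (A ∪ W) x2 y2 (by rw [z2]; exact n2) hv0
    rwa [z2] at this

/-- a face inside a cap: the configurations with at least one open label agree -/
theorem tie_C (h : Cap E W false v e1 e2) (hF : Leaf F false v) (hd : Disjoint E W)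
    (h1 : e1 ∉ A) (h2 : e2 ∉ A) :
    F (insert e2 (insert e1 (A ∪ W))) = F (insert e1 (A ∪ W)) ∧
      F (insert e2 (insert e1 (A ∪ W))) = F (insert e2 (A ∪ W)) := by
  obtain ⟨x1, y1, z1⟩ := h.a1
  obtain ⟨x2, y2, z2⟩ := h.a2
  simp only [At, Bool.false_eq_true, if_false] at y1 y2
  have hw1 : e1 ∉ W := disjoint_left.1 hd h.m1
  have hw2 : e2 ∉ W := disjoint_left.1 hd h.m2
  have n1 : e1 ∉ A ∪ W := by rw [mem_union]; tauto
  have n2 : e2 ∉ A ∪ W := by rw [mem_union]; tauto
  have hv : ∀ x, fi x = v → lab x ∉ A ∪ W → lab x = e1 ∨ lab x = e2 := by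
    intro x hx hl
    by_contra hcon
    rw [not_or] at hcon
    exact hl (mem_union_right _ (h.restC rfl x hx hcon.1 hcon.2))
  constructor
  · have := hF.cl rfl (insert e1 (A ∪ W)) x2 y2 (by
      rw [z2, mem_insert, not_or]; exact ⟨h.ne.symm, n2⟩) (fun x hx hl => by
      rw [mem_insert, not_or] at hl
      rcases hv x hx hl.2 with g | g
      · exact absurd g hl.1
      · rw [z2]; exact g)
    rwa [z2] at this
  · rw [insert_comm]
    have := hF.cl rfl (insert e2 (A ∪ W)) x1 y1 (by
      rw [z1, mem_insert, not_or]; exact ⟨h.ne, n1⟩) (fun x hx hl => by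
      rw [mem_insert, not_or] at hl
      rcases hv x hx hl.2 with g | g
      · rw [z1]; exact g
      · exact absurd g hl.1)
    rwa [z1] at this

/-! ### One cap -/

/-- the sum over two labels -/
theorem Ec_two (F : Finset (ℤ × ℤ) → ℂ) (h1 : e1 ∈ E) (h2 : e2 ∈ E) (hne : e1 ≠ e2) :
    Ec q E (fun ω => F (ω ∪ W)) = Ec q ((E.erase e2).erase e1) (fun ω =>
      (1 - q e1) * (1 - q e2) * F (ω ∪ W) +
      (1 - q e1) * q e2 * F (insert e2 ω ∪ W) +
      q e1 * (1 - q e2) * F (insert e1 ω ∪ W) +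
      q e1 * q e2 * F (insert e2 (insert e1 ω) ∪ W)) := by
  have hE2 : insert e2 (E.erase e2) = E := insert_erase h2
  have h1' : e1 ∈ E.erase e2 := mem_erase.2 ⟨hne, h1⟩
  have hE1 : insert e1 ((E.erase e2).erase e1) = E.erase e2 := insert_erase h1'
  rw [← hE2, Ec_insert q (notMem_erase e2 E), hE2]
  rw [← hE1, Ec_insert q (notMem_erase e1 _), Ec_insert q (notMem_erase e1 _), hE1]
  simp only [Ec_add, Ec_smul]
  ring

/-- **One cap.** -/
theorem Ec_cap (h : Cap E W o v e1 e2) (hF : Leaf F o v) (hd : Disjoint E W)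
    (hq : q' e1 = mg o (q e1) (q e2)) (hq' : ∀ e ∈ E, e ≠ e1 → e ≠ e2 → q' e = q e) :
    Ec q' (E.erase e2) (fun ω => F (ω ∪ if o then insert e2 W else W)) =
      Ec q E (fun ω => F (ω ∪ W)) := by
  rw [Ec_two F h.m1 h.m2 h.ne]
  have h1' : e1 ∈ E.erase e2 := mem_erase.2 ⟨h.ne, h.m1⟩
  have hE1 : insert e1 ((E.erase e2).erase e1) = E.erase e2 := insert_erase h1'
  have hL : ∀ W', Ec q' (E.erase e2) (fun ω => F (ω ∪ W')) =
      Ec q' ((E.erase e2).erase e1) (fun ω =>
        (1 - q' e1) * F (ω ∪ W') + q' e1 * F (insert e1 ω ∪ W')) := by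
    intro W'
    conv_lhs => rw [← hE1]
    rw [Ec_insert q' (notMem_erase e1 _)]
    simp only [Ec_add, Ec_smul]
  rw [hL, Ec_congr_q (q := q') (q' := q) (fun e he => by
    rw [mem_erase, mem_erase] at he
    exact hq' e he.2.2 he.1 he.2.1)]
  refine Ec_congr fun ω hω => ?_
  have hn1 : e1 ∉ ω := fun h => (mem_erase.1 (hω h)).1 rfl
  have hn2 : e2 ∉ ω := fun h => (mem_erase.1 (mem_erase.1 (hω h)).2).1 rfl
  have hsub : ω ⊆ E := fun x hx => (mem_erase.1 (mem_erase.1 (hω hx)).2).2
  have s1 : insert e2 ω ∪ W = insert e2 (ω ∪ W) := insert_union _ _ _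
  have s2 : insert e1 ω ∪ W = insert e1 (ω ∪ W) := insert_union _ _ _
  have s4 : insert e2 (insert e1 ω) ∪ W = insert e2 (insert e1 (ω ∪ W)) := by
    rw [insert_union, insert_union]
  cases o
  · obtain ⟨k1, k2⟩ := tie_C (A := ω) h hF hd hn1 hn2
    simp only [mg, Bool.false_eq_true, if_false] at hq ⊢
    rw [s1, s2, s4, ← k1, ← k2, hq]
    ring
  · obtain ⟨k1, k2⟩ := tie_O h hF hd hsub hn1 hn2
    simp only [mg, if_true] at hq ⊢
    have s3 : ω ∪ insert e2 W = insert e2 (ω ∪ W) := union_insert _ _ _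
    have s5 : insert e1 ω ∪ insert e2 W = insert e2 (insert e1 (ω ∪ W)) := by
      rw [union_insert, insert_union]
    rw [s1, s2, s3, s4, s5, k1, k2, hq]
    ring

/-! ### Any number of caps -/

/-- **Any number of caps.** -/
theorem Ec_ties {κ : Type*} [DecidableEq κ] (P : Finset κ) (o : κ → Bool) (v e1 e2 : κ → ℤ × ℤ)
    (hP : ∀ k ∈ P, Cap E W (o k) (v k) (e1 k) (e2 k)) (hF : ∀ k ∈ P, Leaf F (o k) (v k))
    (hd : Disjoint E W)
    (hdis : ∀ k ∈ P, ∀ l ∈ P, k ≠ l → e1 k ≠ e1 l ∧ e1 k ≠ e2 l ∧ e2 k ≠ e2 l)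
    (hq : ∀ k ∈ P, q' (e1 k) = mg (o k) (q (e1 k)) (q (e2 k)))
    (hq' : ∀ e ∈ E, (∀ k ∈ P, e ≠ e1 k ∧ e ≠ e2 k) → q' e = q e) :
    Ec q' (E \ P.image e2) (fun ω => F (ω ∪ (W ∪ (P.filter (fun k => o k = true)).image e2))) =
      Ec q E (fun ω => F (ω ∪ W)) := by
  induction P using Finset.induction_on generalizing q' with
  | empty =>
    simp only [image_empty, sdiff_empty, filter_empty, union_empty]
    exact Ec_congr_q (fun e he => hq' e he (fun k hk => absurd hk (notMem_empty _))) _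
  | insert k P hk ih =>
    set q2 : ℤ × ℤ → ℂ := fun e => if e = e1 k ∨ e = e2 k then q e else q' e with hq2
    have hkP := hP k (mem_insert_self _ _)
    have hne : ∀ l ∈ P, l ≠ k := fun l hl h => hk (by rw [← h]; exact hl)
    have d1 : ∀ l ∈ P, e1 k ≠ e1 l ∧ e1 k ≠ e2 l ∧ e2 k ≠ e2 l := fun l hl =>
      hdis k (mem_insert_self _ _) l (mem_insert_of_mem hl) (hne l hl).symm
    have d2 : ∀ l ∈ P, e1 l ≠ e2 k := fun l hl =>
      (hdis l (mem_insert_of_mem hl) k (mem_insert_self _ _) (hne l hl)).2.1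
    have IH := ih (q' := q2) (fun l hl => hP l (mem_insert_of_mem hl))
      (fun l hl => hF l (mem_insert_of_mem hl))
      (fun a ha b hb hab => hdis a (mem_insert_of_mem ha) b (mem_insert_of_mem hb) hab)
      (fun l hl => ?_) (fun e he h => ?_)
    · rw [← IH]
      set EP := E \ P.image e2 with hEP
      set WP := W ∪ (P.filter (fun k => o k = true)).image e2 with hWP
      have hEPsub : EP ⊆ E := sdiff_subset
      have hEW : EP ∪ WP ⊆ E ∪ W := by
        intro x hx
        rw [hEP, hWP] at hx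
        rcases mem_union.1 hx with h | h
        · exact mem_union_left _ (mem_sdiff.1 h).1
        · rcases mem_union.1 h with h | h
          · exact mem_union_right _ h
          · obtain ⟨l, hl, rfl⟩ := mem_image.1 h
            exact mem_union_left _ (hP l (mem_insert_of_mem (mem_filter.1 hl).1)).m2
      have hdP : Disjoint EP WP := by
        rw [disjoint_left]
        intro x hx hx'
        rw [hEP] at hx
        rw [hWP] at hx'
        obtain ⟨x1, x2⟩ := mem_sdiff.1 hx
        rcases mem_union.1 hx' with h | h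
        · exact disjoint_left.1 hd x1 h
        · obtain ⟨l, hl, rfl⟩ := mem_image.1 h
          exact x2 (mem_image_of_mem _ (mem_filter.1 hl).1)
      have hcap : Cap EP WP (o k) (v k) (e1 k) (e2 k) := by
        refine ⟨hkP.a1, hkP.a2, hkP.ne, ?_, ?_, ?_, ?_⟩
        · rw [hEP, mem_sdiff]
          refine ⟨hkP.m1, fun h => ?_⟩
          obtain ⟨l, hl, h'⟩ := mem_image.1 h
          exact (d1 l hl).2.1 h'.symm
        · rw [hEP, mem_sdiff]
          refine ⟨hkP.m2, fun h => ?_⟩
          obtain ⟨l, hl, h'⟩ := mem_image.1 h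
          exact (d1 l hl).2.2 h'.symm
        · intro ho x hx h1 h2 h3
          exact hkP.restO ho x hx h1 h2 (hEW h3)
        · intro ho x hx h1 h2
          exact mem_union_left _ (hkP.restC ho x hx h1 h2)
      have key := Ec_cap (q := q2) (q' := q') hcap (hF k (mem_insert_self _ _)) hdP ?_ ?_
      · rw [← key]
        have a1 : E \ (insert k P).image e2 = EP.erase (e2 k) := by rw [image_insert, sdiff_insert]
        have a2 : W ∪ ((insert k P).filter (fun k => o k = true)).image e2 =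
            (if o k then insert (e2 k) WP else WP) := by
          by_cases ho : o k = true
          · rw [filter_insert, if_pos ho, image_insert, union_insert, if_pos ho]
          · rw [filter_insert, if_neg ho, if_neg ho]
        rw [a1, a2]
      · rw [hq k (mem_insert_self _ _)]
        simp only [hq2, true_or, or_true, if_true]
      · intro e he h1 h2
        simp only [hq2]
        rw [if_neg (by rw [not_or]; exact ⟨h1, h2⟩)]
    · -- weights of the other caps
      have := hq l (mem_insert_of_mem hl)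
      have a1 : ¬ (e1 l = e1 k ∨ e1 l = e2 k) := by
        rw [not_or]; exact ⟨(d1 l hl).1.symm, d2 l hl⟩
      simp only [hq2]
      rw [if_neg a1, this]
    · simp only [hq2]
      by_cases h' : e = e1 k ∨ e = e2 k
      · rw [if_pos h']
      · rw [if_neg h']
        rw [not_or] at h'
        refine hq' e he fun l hl => ?_
        rcases mem_insert.1 hl with h1 | h1
        · rw [h1]; exact h'
        · exact h l h1

/-! ### Instances -/

/-- the increments -/
theorem leaf_iG {c0 c : ℤ × ℤ} (k0 : ℤ) (h0 : ¬ At o v c0) (hc : ¬ At o v c) :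
    Leaf (iG c0 k0 c) o v where
  op ho G x hx hl hv := by
    subst ho
    simp only [At, if_true] at h0 hc
    have := iG_leafO (H := insert (lab x) G) hx rfl (fun z hz hz2 => by
      rcases mem_insert.1 hz2 with h | h
      · exact h
      · exact absurd h (hv z hz)) h0 hc k0
    rw [erase_insert hl] at this
    exact this.symm
  cl ho G x hx hl hv := by
    subst ho
    simp only [At, Bool.false_eq_true, if_false] at h0 hc
    exact iG_leafC hx rfl hv h0 hc k0

/-- the labels at a vertex -/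
theorem not_OutV {Z : Finset (ℤ × ℤ)} (h : ∀ y, IsUnit4 (y - v) → v + y ∈ Z) :
    ¬ H80.W.OutV Z v := by
  rintro ⟨y, h1, h2⟩
  exact h2 (h y h1)

/-- the labels at a face -/
theorem not_OutF {Z : Finset (ℤ × ℤ)} (h : ∀ y, IsUnit4 (y - v) → v + y - (1, 1) ∈ Z) :
    ¬ H80.W.OutF Z v := by
  rintro ⟨y, h1, h2⟩
  exact h2 (h y h1)

/-- an isolated vertex -/
theorem co_iso {G : Finset (ℤ × ℤ)} (h : ∀ y, IsUnit4 (y - v) → v + y ∉ G) {x : ℤ × ℤ}
    (hx : Co G v x) : x = v := by
  induction hx with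
  | refl => rfl
  | tail _ hs ih =>
    subst ih
    exact absurd hs.2 (h _ hs.1)

/-- an isolated face -/
theorem dco_iso {G : Finset (ℤ × ℤ)} (h : ∀ y, IsUnit4 (y - v) → v + y - (1, 1) ∈ G) {x : ℤ × ℤ}
    (hx : DCo G v x) : x = v :=
  DCo.ind (P := fun x => x = v) hx rfl fun a b ha h1 h2 => by
    subst ha
    exact absurd (h _ h1) h2

/-- the corners at a vertex meet its labels -/
theorem corner_v {y : ℤ × ℤ} (h : IsUnit4 (y - v)) : ∃ x, vx x = v ∧ lab x = v + y := by
  obtain ⟨a, b⟩ := v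
  obtain ⟨c, d⟩ := y
  rcases h with h | h | h | h <;> simp only [Prod.mk_sub_mk, Prod.mk.injEq] at h
  · refine ⟨(2 * a + 1, 2 * b), ?_, ?_⟩
    · unfold vx; ext <;> simp only <;> omega
    · unfold lab
      rw [if_pos (by show (2 * b) % 2 = 0; omega), if_neg (by show ¬ (2 * a + 1) % 2 = 0; omega)]
      ext <;> simp only [Prod.mk_add_mk] <;> omega
  · refine ⟨(2 * a + 1, 2 * b + 1), ?_, ?_⟩
    · unfold vx; ext <;> simp only <;> omega
    · unfold lab
      rw [if_neg (by show ¬ (2 * b + 1) % 2 = 0; omega),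
        if_neg (by show ¬ (2 * a + 1) % 2 = 0; omega)]
      ext <;> simp only [Prod.mk_add_mk] <;> omega
  · refine ⟨(2 * a, 2 * b + 1), ?_, ?_⟩
    · unfold vx; ext <;> simp only <;> omega
    · unfold lab
      rw [if_neg (by show ¬ (2 * b + 1) % 2 = 0; omega), if_pos (by show (2 * a) % 2 = 0; omega)]
      ext <;> simp only [Prod.mk_add_mk] <;> omega
  · refine ⟨(2 * a, 2 * b), ?_, ?_⟩
    · unfold vx; ext <;> simp only <;> omega
    · unfold lab
      rw [if_pos (by show (2 * b) % 2 = 0; omega), if_pos (by show (2 * a) % 2 = 0; omega)]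
      ext <;> simp only [Prod.mk_add_mk] <;> omega

/-- the corners at a face meet its labels -/
theorem corner_f {y : ℤ × ℤ} (h : IsUnit4 (y - v)) : ∃ x, fi x = v ∧ lab x = v + y - (1, 1) := by
  obtain ⟨a, b⟩ := v
  obtain ⟨c, d⟩ := y
  rcases h with h | h | h | h <;> simp only [Prod.mk_sub_mk, Prod.mk.injEq] at h
  · refine ⟨(2 * a, 2 * b), ?_, ?_⟩
    · unfold fi; ext <;> simp only <;> omega
    · unfold lab
      rw [if_pos (by show (2 * b) % 2 = 0; omega), if_pos (by show (2 * a) % 2 = 0; omega)]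
      ext <;> simp only [Prod.mk_add_mk, Prod.mk_sub_mk] <;> omega
  · refine ⟨(2 * a - 1, 2 * b), ?_, ?_⟩
    · unfold fi; ext <;> simp only <;> omega
    · unfold lab
      rw [if_pos (by show (2 * b) % 2 = 0; omega), if_neg (by show ¬ (2 * a - 1) % 2 = 0; omega)]
      ext <;> simp only [Prod.mk_add_mk, Prod.mk_sub_mk] <;> omega
  · refine ⟨(2 * a - 1, 2 * b - 1), ?_, ?_⟩
    · unfold fi; ext <;> simp only <;> omega
    · unfold lab
      rw [if_neg (by show ¬ (2 * b - 1) % 2 = 0; omega),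
        if_neg (by show ¬ (2 * a - 1) % 2 = 0; omega)]
      ext <;> simp only [Prod.mk_add_mk, Prod.mk_sub_mk] <;> omega
  · refine ⟨(2 * a, 2 * b - 1), ?_, ?_⟩
    · unfold fi; ext <;> simp only <;> omega
    · unfold lab
      rw [if_neg (by show ¬ (2 * b - 1) % 2 = 0; omega), if_pos (by show (2 * a) % 2 = 0; omega)]
      ext <;> simp only [Prod.mk_add_mk, Prod.mk_sub_mk] <;> omega

/-- **functionals of the link pattern of a zone which contains all labels at `v`** -/
theorem leaf_pat {Z : Finset (ℤ × ℤ)} {Lg : Set (ℤ × ℤ)} (he : ∀ c ∈ Lg, H80.W.Entry Z c)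
    (hF : ∀ G G' : Finset (ℤ × ℤ),
      (∀ c ∈ Lg, ∀ d, H80.W.Pat Z G c d ↔ H80.W.Pat Z G' c d) → F G = F G')
    (hV : o = true → ∀ y, IsUnit4 (y - v) → v + y ∈ Z)
    (hW : o = false → ∀ y, IsUnit4 (y - v) → v + y - (1, 1) ∈ Z) : Leaf F o v where
  op ho G x hx hl hv := by
    have hZ := hV ho
    obtain ⟨u, hu1, hu2⟩ := H80.W.lab_vx x
    rw [hx] at hu1 hu2
    have hiso : ∀ y, IsUnit4 (y - v) → v + y ∉ G := fun y hy => by
      obtain ⟨z, hz1, hz2⟩ := corner_v hy
      rw [← hz2]; exact hv z hz1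
    refine (hF _ _ fun c hc d => ?_).symm
    have h1 : IsUnit4 (v - u) := by
      rw [← neg_sub]
      rcases hu1 with h | h | h | h <;> rw [h]
      · exact Or.inr (Or.inr (Or.inl rfl))
      · exact Or.inr (Or.inr (Or.inr rfl))
      · exact Or.inl rfl
      · exact Or.inr (Or.inl rfl)
    refine H80.W.pat_B (u := u) (v := v) (by rw [← hu2]; exact hZ u hu1) hl h1
      (by rw [add_comm]; exact hu2) (fun h => ?_) (fun y hy => ?_) (he c hc)
    · have h2 := co_iso hiso h.symm
      rw [h2, sub_self] at hu1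
      rcases hu1 with h | h | h | h <;> simp [Prod.ext_iff] at h
    · rw [co_iso hiso hy]; exact not_OutV hZ
  cl ho G x hx hl hv := by
    have hZ := hW ho
    obtain ⟨u, hu1, hu2⟩ := H80.W.lab_fi x
    rw [hx] at hu1 hu2
    have hiso : ∀ y, IsUnit4 (y - v) → v + y - (1, 1) ∈ insert (lab x) G := fun y hy => by
      obtain ⟨z, hz1, hz2⟩ := corner_f hy
      rw [← hz2, mem_insert]
      by_contra hcon
      rw [not_or] at hcon
      exact hcon.1 (hv z hz1 hcon.2)
    refine (hF _ _ fun c hc d => ?_).symm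
    refine H80.W.pat_D (φ := v) (ψ := u) (by rw [← hu2]; exact hZ u hu1) hl hu1
      (by rw [← hu2]; abel) (fun h => ?_) (fun y hy => ?_) (he c hc)
    · have h2 := dco_iso hiso h
      rw [h2, sub_self] at hu1
      rcases hu1 with h | h | h | h <;> simp [Prod.ext_iff] at h
    · rw [dco_iso hiso hy]; exact not_OutF hZ

/-- the pattern functional `F (· ∩ Z)` of a `PatF` -/
theorem leaf_patF {Z : Finset (ℤ × ℤ)} {Lg : Set (ℤ × ℤ)} (hF : H80.W.PatF Z Lg F)
    (hV : o = true → ∀ y, IsUnit4 (y - v) → v + y ∈ Z)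
    (hW : o = false → ∀ y, IsUnit4 (y - v) → v + y - (1, 1) ∈ Z) :
    Leaf (fun G => F (G ∩ Z)) o v := by
  refine leaf_pat hF.entry (fun G G' h => ?_) hV hW
  refine hF.pat _ inter_subset_right _ inter_subset_right fun c hc d => ?_
  rw [H80.W.pat_inter, H80.W.pat_inter]
  exact h c hc d

end Pool.Agent.H49.W
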