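import Mathlib
import Pool.Agent.H49.W.AsmW1

set_option autoImplicit false
open Finset

/-!
# Theorem C with several straight walls in one family: assembly

`WallsV` : a list of straight walls. `asm_wallsV` : the response to weights which are constant on the walls is the sum
over the walls of `DR` times the response of this wall at the weight `1/4`. `add_wallsV` : the responses at the
weight `1/4` are additive (mixed differences are small). `resp_wallV` : bound of one response. `asm_groups` : walls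
with the same weight together.
-/

namespace Pool.Agent.H49.W

open Pool.Agent.H75.Perc Pool.Agent.H75.TwoArm Pool.Agent.H75.Four Pool.Agent.H49.Perc
open Pool.Agent.H69.Q1 Pool.Agent.H39.Q1 Pool.Agent.H25.Q1.Add
open Pool.Agent.H99.NC Pool.Agent.H60.Q1 Pool.Agent.H20.Q1 Pool.Agent.H59.Q1 Pool.Agent.Q1
open Pool.Agent.Q1.M6e Pool.Agent.H15.W Pool.Agent.H44.FM.AsmW

/-- **A list of straight walls**: `wl e` is the wall of the tie `e`, `fw w` the family of the wall `w`. -/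
structure WallsV {ι κ : Type} [DecidableEq ι] (X : Pool.Agent.Q1.Env) (W Bb TT Sg : Finset (ℤ × ℤ))
    (fm : ℤ × ℤ → ι) (co : ι → Bool) (Wl La : ι → Finset (ℤ × ℤ)) (b o : ℤ × ℤ → ℤ × ℤ)
    (rk : ℤ × ℤ → ℤ) (wl : ℤ × ℤ → κ) (fw : κ → ι) (ε : κ → Bool × Bool) (δ : κ → ℤ × ℤ)
    (FlT : κ → Finset (ℤ × ℤ)) (R : ℤ) : Prop where
  hfl : ∀ w, FlatWallV X W Bb TT Sg fm co Wl La b o rk (fw w) (ε w) (δ w) (FlT w) R
  hfw : ∀ e ∈ TT, fm e = fw (wl e)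
  hwl : ∀ w, ∀ e ∈ FlT w, wl e = w
  hloc : ∀ w, ∀ e ∈ FlT w, ∀ e' ∈ TF TT fm (fw w), inR (b e) R (b e') → wl e' = w

section

variable {ι : Type} [DecidableEq ι] {X : Pool.Agent.Q1.Env} {W Bb B TT Sg ω FlT : Finset (ℤ × ℤ)}
  {fm : ℤ × ℤ → ι} {co : ι → Bool} {Wl La : ι → Finset (ℤ × ℤ)}
  {b o : ℤ × ℤ → ℤ × ℤ} {V : Finset (ℤ × ℤ) → Finset (ℤ × ℤ) → ℂ} {s s' : ℤ × ℤ → ℂ} {e e' v δ : ℤ × ℤ} {i : ι}
  {ε : Bool × Bool} {rk : ℤ × ℤ → ℤ} {σ M : ℝ} {m r r1 r2 R : ℤ} {s0 : ℂ}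
  {Q : Finset (ℤ × ℤ) → ℤ × ℤ → Prop}

lemma norm_DV_le (hV : ∀ ω ⊆ B, ∀ P ⊆ TT, ‖V ω P‖ ≤ M) (hω : ω ⊆ B) :
    ‖DV V TT fm co La b e ω‖ ≤ 2 * M := by
  unfold DV
  refine (norm_sub_le _ _).trans ?_
  have g1 := hV ω hω _ (sdiff_subset (s := TT) (t := cls TT fm co La b ω e))
  have g2 := hV ω hω TT (Subset.refl _)
  linarith

/-- main term of a tie: change of the weights outside `FlT` -/
theorem TmV_diff (heT : e ∈ TT)
    (hV : ∀ ω ⊆ B, ∀ P ⊆ TT, ‖V ω P‖ ≤ M)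
    (hQ : ∀ ω ⊆ B, ∀ e ∈ TT, DV V TT fm co La b e ω ≠ 0 → Q ω e) (hσ0 : 0 ≤ σ)
    (hs : ∀ e' ∈ TF TT fm (fm e), ‖s e'‖ ≤ σ) (hs' : ∀ e' ∈ TF TT fm (fm e), ‖s' e'‖ ≤ σ)
    (hag : ∀ e' ∈ FlT, s e' = s' e') :
    ‖TmV V B TT fm co La b rk s e - TmV V B TT fm co La b rk s' e‖ ≤
      4 * M * Ex hf B (crn TT fm co La b rk Q FlT σ e) := by
  classical
  have hM0 : 0 ≤ M := (norm_nonneg _).trans (hV ∅ (empty_subset _) ∅ (empty_subset _))
  unfold TmV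
  rw [← Ec_sub, ← Ex_smul]
  refine Ec_half_norm fun ω hω => ?_
  have n3 : 0 ≤ crn TT fm co La b rk Q FlT σ e ω := crn_nonneg hσ0
  rw [← sub_mul, norm_mul]
  by_cases hD : DV V TT fm co La b e ω = 0
  · rw [hD, norm_zero, mul_zero]
    positivity
  have hnf : Q ω e := hQ ω hω e heT hD
  have hDb : ‖DV V TT fm co La b e ω‖ ≤ 2 * M := norm_DV_le hV hω
  by_cases hcl : ∀ e' ∈ cls TT fm co La b ω e, e' ∈ FlT
  · have h1 : FT (TF TT fm (fm e)) b rk s e (SM TT fm co La b e ω) =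
        FT (TF TT fm (fm e)) b rk s' e (SM TT fm co La b e ω) := by
      rw [FT_cls, FT_cls]
      split_ifs
      · exact prod_congr rfl fun e' h1 => hag e' (hcl e' h1)
      · rfl
    rw [h1, sub_self, norm_zero, zero_mul]
    positivity
  push Not at hcl
  have key : ∀ t : ℤ × ℤ → ℂ, (∀ e' ∈ TF TT fm (fm e), ‖t e'‖ ≤ σ) →
      ‖FT (TF TT fm (fm e)) b rk t e (SM TT fm co La b e ω)‖ ≤
        crn TT fm co La b rk Q FlT σ e ω := by
    intro t ht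
    refine (norm_FT_le ht).trans ?_
    unfold crn
    refine mul_le_mul_of_nonneg_left (ind_mono fun h2 => ⟨h2, hnf, ?_⟩) (pow_nonneg hσ0 _)
    obtain ⟨e', g1, g2⟩ := hcl
    exact ⟨e', g1, g2⟩
  have k1 := norm_sub_le (FT (TF TT fm (fm e)) b rk s e (SM TT fm co La b e ω))
    (FT (TF TT fm (fm e)) b rk s' e (SM TT fm co La b e ω))
  have k2 := key s hs
  have k3 := key s' hs'
  have k4 : ‖FT (TF TT fm (fm e)) b rk s e (SM TT fm co La b e ω) -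
      FT (TF TT fm (fm e)) b rk s' e (SM TT fm co La b e ω)‖ ≤
      2 * crn TT fm co La b rk Q FlT σ e ω := by linarith
  calc _ ≤ (2 * crn TT fm co La b rk Q FlT σ e ω) * (2 * M) :=
        mul_le_mul k4 hDb (norm_nonneg _) (by positivity)
    _ = _ := by ring

/-- main term of a tie outside `FlT` -/
theorem TmV_out (heT : e ∈ TT)
    (hV : ∀ ω ⊆ B, ∀ P ⊆ TT, ‖V ω P‖ ≤ M)
    (hQ : ∀ ω ⊆ B, ∀ e ∈ TT, DV V TT fm co La b e ω ≠ 0 → Q ω e) (hσ0 : 0 ≤ σ)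
    (hs : ∀ e' ∈ TF TT fm (fm e), ‖s e'‖ ≤ σ) (he : e ∉ FlT) :
    ‖TmV V B TT fm co La b rk s e‖ ≤ 2 * M * Ex hf B (crn TT fm co La b rk Q FlT σ e) := by
  have hM0 : 0 ≤ M := (norm_nonneg _).trans (hV ∅ (empty_subset _) ∅ (empty_subset _))
  unfold TmV
  rw [← Ex_smul]
  refine Ec_half_norm fun ω hω => ?_
  have n3 : 0 ≤ crn TT fm co La b rk Q FlT σ e ω := crn_nonneg hσ0
  rw [norm_mul]
  by_cases hD : DV V TT fm co La b e ω = 0
  · rw [hD, norm_zero, mul_zero]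
    positivity
  rw [mul_comm]
  refine mul_le_mul (norm_DV_le hV hω) ?_ (norm_nonneg _) (by positivity)
  refine (norm_FT_le hs).trans ?_
  unfold crn
  exact mul_le_mul_of_nonneg_left (ind_mono fun h2 => ⟨h2, hQ ω hω e heT hD, e, self_cls heT, he⟩)
    (pow_nonneg hσ0 _)

/-- main term of a flat tie -/
theorem TmV_in (hM : Multi X W Bb B TT fm co Wl La b o)
    (hT : VTog V W B TT fm co Wl La b o)
    (hF : FlatWallV X W Bb TT Sg fm co Wl La b o rk i ε δ FlT R) (he : e ∈ FlT)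
    (hV : ∀ ω ⊆ B, ∀ P ⊆ TT, ‖V ω P‖ ≤ M)
    (hQ : ∀ ω ⊆ B, ∀ e ∈ TT, DV V TT fm co La b e ω ≠ 0 → Q ω e)
    (hsb : ∀ e' ∈ TF TT fm i, ‖s e'‖ ≤ σ) (hσ0 : 0 ≤ σ) (hσ1 : σ ≤ 1) (hR : 2 ≤ R) :
    ‖TmV V B TT fm co La b rk s e‖ ≤
      2 * M * (pS σ 1 1 R + Ex hf B (crn TT fm co La b rk Q FlT σ e)) := by
  classical
  have heF := hF.sub he
  obtain ⟨heT, hei⟩ := mem_TF.1 heF
  have hM0 : 0 ≤ M := (norm_nonneg _).trans (hV ∅ (empty_subset _) ∅ (empty_subset _))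
  have hxF : gm ε (b e) ∈ FlX b ε FlT := mem_image.2 ⟨e, he, rfl⟩
  have hE := hF.toFW.env hM hxF
  have e1 : Ex hf B (fun ω => gS σ 1 1 (gm ε (b e)) R (eta co La i ε ω)) = pS σ 1 1 R := by
    rw [Ex_eta (hM.la i) (gS σ 1 1 (gm ε (b e)) R), ← Ex_gS (σ := σ) (κ := 1) (s := 1)
      (x := gm ε (b e)) (R := R) hE.sub]
  rw [← e1, ← Ex_add, ← Ex_smul]
  unfold TmV
  refine Ec_half_norm fun ω hω => ?_
  have n2 : 0 ≤ gS σ 1 1 (gm ε (b e)) R (eta co La i ε ω) := gS_nonneg hσ0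
  have n3 : 0 ≤ crn TT fm co La b rk Q FlT σ e ω := crn_nonneg hσ0
  rw [norm_mul]
  by_cases hD : DV V TT fm co La b e ω = 0
  · rw [hD, norm_zero, mul_zero]
    positivity
  rw [mul_comm]
  refine mul_le_mul (norm_DV_le hV hω) ?_ (norm_nonneg _) (by positivity)
  by_cases hcl : ∀ e' ∈ cls TT fm co La b ω e, e' ∈ FlT
  swap
  · push Not at hcl
    have h1 : ‖FT (TF TT fm (fm e)) b rk s e (SM TT fm co La b e ω)‖ ≤
        crn TT fm co La b rk Q FlT σ e ω := by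
      refine (norm_FT_le (by rw [hei]; exact hsb)).trans ?_
      unfold crn
      refine mul_le_mul_of_nonneg_left (ind_mono fun h2 => ⟨h2, hQ ω hω e heT hD, ?_⟩)
        (pow_nonneg hσ0 _)
      obtain ⟨e', g1, g2⟩ := hcl
      exact ⟨e', g1, g2⟩
    linarith
  have hηL : eta co La i ε ω ⊆ Lx co La i ε := by
    have := push_gr (co := co) (La := La) (i := i) (ε := ε) (hM.la i) hω
    unfold eta Lx
    rw [← this]
    exact inter_subset_right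
  have hG := wallG_of_flat (m := 0) hM heT (by rw [hei]; exact hF.flat e he) le_rfl (by omega)
    (by rw [inR_iff]; omega) (by rw [hei]; exact hF.root e he)
  have hRc : Rch (gm ε (b e)) (gm ε (b e)) R (eta co La i ε ω) := by
    obtain ⟨v, g1, g2⟩ := farV hM hT hG hω heT hD
    refine ⟨gm ε v, ?_, ?_⟩
    · rw [Far_gm, gm_gm]; exact g1
    · unfold eta
      rw [← hei]
      exact Co_gm g2
  have h1 := norm_FT_flat hF.toFW he hsb hσ0 hcl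
  have h2 : σ ^ (CS (Wx TT fm b i ε) (eta co La i ε ω) (gm ε (b e))).ncard *
      ind (∀ v ∈ CS (Wx TT fm b i ε) (eta co La i ε ω) (gm ε (b e)), (gm ε (b e)).1 ≤ v.1) ≤
      gS σ 1 1 (gm ε (b e)) R (eta co La i ε ω) := by
    by_cases hf1 : ∀ v ∈ CS (Wx TT fm b i ε) (eta co La i ε ω) (gm ε (b e)), (gm ε (b e)).1 ≤ v.1
    · rw [ind_true hf1, mul_one]
      exact gS_of (Or.inr rfl) hσ0 hσ1 hE hηL (by omega) hf1 hRc
    · rw [ind_false hf1, mul_zero]; exact n2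
  linarith

end

section sums

variable {ι κ : Type} [DecidableEq ι] [DecidableEq κ] [Fintype κ] {X : Pool.Agent.Q1.Env}
  {W Bb B TT Sg : Finset (ℤ × ℤ)}
  {fm : ℤ × ℤ → ι} {co : ι → Bool} {Wl La : ι → Finset (ℤ × ℤ)}
  {b o : ℤ × ℤ → ℤ × ℤ} {V : Finset (ℤ × ℤ) → Finset (ℤ × ℤ) → ℂ} {s : ℤ × ℤ → ℂ}
  {rk : ℤ × ℤ → ℤ} {wl : ℤ × ℤ → κ} {fw : κ → ι} {ε : κ → Bool × Bool} {δ : κ → ℤ × ℤ}
  {FlT : κ → Finset (ℤ × ℤ)} {σ M : ℝ} {R : ℤ}
  {Q : Finset (ℤ × ℤ) → ℤ × ℤ → Prop}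

lemma FlT_subV (hW : WallsV X W Bb TT Sg fm co Wl La b o rk wl fw ε δ FlT R) (w : κ) :
    FlT w ⊆ TW TT wl w := fun e he => mem_TW.2 ⟨(mem_TF.1 ((hW.hfl w).sub he)).1, hW.hwl w e he⟩

/-- only the ties of the wall contribute -/
lemma sum_w4V (w : κ) : ∑ e ∈ TT, TmV V B TT fm co La b rk (w4 wl {w}) e =
    ∑ e ∈ TW TT wl w, TmV V B TT fm co La b rk (w4 wl {w}) e := by
  refine (sum_subset (filter_subset _ _) fun e h1 h2 => ?_).symm
  refine TmV_zero ?_ h1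
  unfold w4
  rw [if_neg fun h3 => h2 (mem_TW.2 ⟨h1, mem_singleton.1 h3⟩)]

end sums

/-- **Additivity of the natural responses.** -/
theorem add_wallsV {ι κ : Type} [DecidableEq ι] [DecidableEq κ] [Fintype κ]
    {X : Pool.Agent.Q1.Env} {W Bb B TT Sg : Finset (ℤ × ℤ)}
    {fm : ℤ × ℤ → ι} {co : ι → Bool} {Wl La : ι → Finset (ℤ × ℤ)} {b o : ℤ × ℤ → ℤ × ℤ}
    {V : Finset (ℤ × ℤ) → Finset (ℤ × ℤ) → ℂ} {rk : ℤ × ℤ → ℤ} {wl : ℤ × ℤ → κ} {fw : κ → ι} {ε : κ → Bool × Bool}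
    {δ : κ → ℤ × ℤ} {FlT : κ → Finset (ℤ × ℤ)} {M Z' : ℝ} {R : ℤ}
    {Q : Finset (ℤ × ℤ) → ℤ × ℤ → Prop} {EF' : κ → ℝ} {EF : ℝ} {f0 : ℂ}
    (hW : WallsV X W Bb TT Sg fm co Wl La b o rk wl fw ε δ FlT R)
    (hV : ∀ ω ⊆ B, ∀ P ⊆ TT, ‖V ω P‖ ≤ M)
    (hQ : ∀ ω ⊆ B, ∀ e ∈ TT, DV V TT fm co La b e ω ≠ 0 → Q ω e) (S : Finset κ)
    (hEF : ‖TotV V B TT (w4 wl S) - f0 -
        ∑ e ∈ TT, TmV V B TT fm co La b rk (w4 wl S) e‖ ≤ EF)
    (hEF' : ∀ w, ‖TotV V B TT (w4 wl {w}) - f0 -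
        ∑ e ∈ TT, TmV V B TT fm co La b rk (w4 wl {w}) e‖ ≤ EF' w)
    (hZ' : Ex hf B (fun ω => ∑ e ∈ TT, crn TT fm co La b rk Q (FlT (wl e)) (1 / 4) e ω) ≤ Z') :
    ‖TotV V B TT (w4 wl S) - f0 -
      ∑ w ∈ S, (TotV V B TT (w4 wl {w}) - f0)‖ ≤ EF + ∑ w ∈ S, EF' w + 4 * M * Z' := by
  have hM0 : 0 ≤ M := (norm_nonneg _).trans (hV ∅ (empty_subset _) ∅ (empty_subset _))
  -- the main terms
  have key : ∀ e ∈ TT, ‖TmV V B TT fm co La b rk (w4 wl S) e -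
      (if wl e ∈ S then TmV V B TT fm co La b rk (w4 wl {wl e}) e else 0)‖ ≤
      4 * M * Ex hf B (crn TT fm co La b rk Q (FlT (wl e)) (1 / 4) e) := by
    intro e he
    have n0 : 0 ≤ Ex hf B (crn TT fm co La b rk Q (FlT (wl e)) (1 / 4) e) :=
      Ex_nonneg hf_pb fun ω _ => crn_nonneg (by norm_num)
    split_ifs with h
    · refine TmV_diff he hV hQ (by norm_num) (fun e' _ => norm_w4 _ _ _) (fun e' _ => norm_w4 _ _ _)
        fun e' h1 => ?_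
      have h2 := hW.hwl _ e' h1
      unfold w4
      rw [h2, if_pos h, if_pos (mem_singleton_self _)]
    · rw [TmV_zero (by unfold w4; rw [if_neg h]) he, sub_zero, norm_zero]
      positivity
  have e1 : ∑ e ∈ TT, (if wl e ∈ S then TmV V B TT fm co La b rk (w4 wl {wl e}) e else 0) =
      ∑ w ∈ S, ∑ e ∈ TT, TmV V B TT fm co La b rk (w4 wl {w}) e := by
    rw [sum_TW (wl := wl)]
    rw [← sum_subset (subset_univ S)]
    · refine sum_congr rfl fun w hw => ?_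
      rw [sum_w4V]
      refine sum_congr rfl fun e he => ?_
      obtain ⟨-, h2⟩ := mem_TW.1 he
      rw [h2, if_pos hw]
    · intro w _ hw
      refine sum_eq_zero fun e he => ?_
      obtain ⟨-, h2⟩ := mem_TW.1 he
      rw [h2, if_neg hw]
  have e2 : TotV V B TT (w4 wl S) - f0 -
      ∑ w ∈ S, (TotV V B TT (w4 wl {w}) - f0) =
      (TotV V B TT (w4 wl S) - f0 -
        ∑ e ∈ TT, TmV V B TT fm co La b rk (w4 wl S) e) -
      ∑ w ∈ S, (TotV V B TT (w4 wl {w}) - f0 -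
        ∑ e ∈ TT, TmV V B TT fm co La b rk (w4 wl {w}) e) +
      ∑ e ∈ TT, (TmV V B TT fm co La b rk (w4 wl S) e -
        (if wl e ∈ S then TmV V B TT fm co La b rk (w4 wl {wl e}) e else 0)) := by
    rw [sum_sub_distrib (s := TT), e1, sum_sub_distrib (s := S)
      (f := fun w => TotV V B TT (w4 wl {w}) - f0)]
    ring
  rw [e2]
  refine (norm_add_le _ _).trans (add_le_add ((norm_sub_le _ _).trans (add_le_add hEF
    ((norm_sum_le _ _).trans (sum_le_sum fun w _ => hEF' w)))) ((norm_sum_le _ _).trans ?_))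
  refine (sum_le_sum key).trans ?_
  rw [← mul_sum, ← Ex_sum]
  exact mul_le_mul_of_nonneg_left hZ' (by positivity)

end Pool.Agent.H49.W
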