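import Mathlib
import Pool.Agent.H15.W.C.J45
import Pool.Agent.H15.W.C.NRV
import Pool.Agent.H95.W.BrS2

set_option autoImplicit false
open Finset

/-!
# From tied environments with an abstract functional to totals with groups of walls

`toM x gr` : the total of the case `x` as a function of the weights of its walls, `gr` : the groups of the walls.
`ClsM P M` : the cases of the class `P` whose functional is bounded by `M`, with arbitrary groups. `clsP_of`,
`lrJ_of` : this class satisfies `ClsP`, `LrJ` if `P` satisfies `FineVP`.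
-/

namespace Pool.Agent.H49.W

open Pool.Agent.Q1 Pool.Agent.Q1.M6e Pool.Agent.Q1.M6e.Wn Pool.Agent.H15.W
open Pool.Agent.H95.W.BrS

variable {Γ : Type} [DecidableEq Γ]

/-- the total of a case with groups of walls -/
noncomputable def toM (x : CaseV) (gr : x.κ → Γ) : ModG Γ where
  κ := x.κ
  dk := x.dk
  fk := x.fk
  T := x.tot
  gr := gr

/-- the cases of the class `P` with a functional bounded by `M` -/
def ClsM (P : ℝ → ℕ → CaseV → Prop) (M η : ℝ) (R : ℕ) (y : ModG Γ) : Prop :=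
  ∃ (x : CaseV) (gr : x.κ → Γ), P η R x ∧ x.HV M ∧ y = toM x gr

/-- all weights zero: everything is tied -/
lemma TotV_zero (V : Finset (ℤ × ℤ) → Finset (ℤ × ℤ) → ℂ) (B TT : Finset (ℤ × ℤ)) :
    TotV V B TT (fun _ => 0) = Tot0V V B TT := by
  unfold TotV Tot0V
  refine Ec_congr fun ω _ => ?_
  have key : ∀ (T : Finset (ℤ × ℤ)) (F : Finset (ℤ × ℤ) → ℂ),
      Ec (fun _ => (1 - 0 : ℂ)) T F = F T := by
    intro T
    induction T using Finset.induction_on with
    | empty => intro F; simp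
    | insert e T he ih =>
      intro F
      rw [Ec_insert _ he, ih, ih]
      ring
  exact key TT _

omit [DecidableEq Γ] in
lemma toM_T0 (x : CaseV) (gr : x.κ → Γ) : (toM x gr).T0 = x.tot0 :=
  TotV_zero x.V x.d.B x.d.TT

omit [DecidableEq Γ] in
/-- **The natural responses.** -/
theorem clsP_of {P : ℝ → ℕ → CaseV → Prop} (hF : FineVP P) {M : ℝ} (hM : 0 ≤ M) :
    ClsP (ClsM (Γ := Γ) P M) := by
  intro η hη
  obtain ⟨N0, C0, c0, K0, ζ0, R1, hC0, hc0, hK0, hζ0, hN⟩ := hF η hη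
  obtain ⟨C1, R2, hC1, hnr⟩ := nrV hF η hη
  obtain ⟨C2, c, R3, hC2, hc, hmx⟩ := mixV hF η hη
  refine ⟨N0, (C1 + C2) * M, c, max R1 (max R2 R3), by positivity, hc, ?_⟩
  rintro R hR _ ⟨x, gr, hx, hV, rfl⟩
  have h1 : R1 ≤ R := (le_max_left _ _).trans hR
  have h2 : R2 ≤ R := ((le_max_left _ _).trans (le_max_right _ _)).trans hR
  have h3 : R3 ≤ R := ((le_max_right _ _).trans (le_max_right _ _)).trans hR
  refine ⟨(hN R h1 x hx).1, fun S => ?_, fun w => ?_⟩
  · rw [toM_T0]
    refine (hmx R h3 x hx M hV S).trans ?_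
    refine mul_le_mul_of_nonneg_right ?_ (by positivity)
    nlinarith
  · rw [toM_T0]
    refine (hnr R h2 x hx M hV w).trans ?_
    refine div_le_div_of_nonneg_right ?_ (Nat.cast_nonneg _)
    nlinarith

omit [DecidableEq Γ] in
/-- **The linear response.** -/
theorem lrJ_of (h45 : Fine45) (hH45 : HV45) {P : ℝ → ℕ → CaseV → Prop} (hF : FineVP P) (M : ℝ) :
    LrJ (ClsM (Γ := Γ) P M) := by
  obtain ⟨C, c, hc, H⟩ := lrVJ h45 hH45
  refine ⟨C, c, hc, fun η η' hη hη' ε hε Y => ?_⟩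
  set K : ℝ := max M 1 with hK
  have hK1 : 1 ≤ K := le_max_right _ _
  obtain ⟨ρ1, hρ1, H⟩ := H P hF η η' hη hη' (ε / K) (by positivity) Y
  refine ⟨ρ1, hρ1, fun ρ hρ hρl => ?_⟩
  obtain ⟨R0, H⟩ := H ρ hρ hρl
  refine ⟨R0, fun R hR => ?_⟩
  obtain ⟨G, hG, hL, H⟩ := H R hR
  have hεK : ε / K ≤ ε := div_le_self hε.le hK1
  refine ⟨G, hG, ?_, ?_⟩
  · intro w h O hO top S hS p q hp hq t ht d hd
    refine (hL w h O hO top S hS p q hp hq t ht d hd).trans ?_
    refine mul_le_mul_of_nonneg_right (mul_le_mul_of_nonneg_right hεK hρ.le) ?_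
    positivity
  · rintro _ ⟨x, gr, hx, hV, rfl⟩ S z hz
    rw [toM_T0]
    refine (H x hx M hV S z hz).trans ?_
    have h1 : ε / K * ρ * M ≤ ε / K * ρ * K :=
      mul_le_mul_of_nonneg_left (le_max_left _ _) (by positivity)
    refine h1.trans (le_of_eq ?_)
    field_simp

end Pool.Agent.H49.W
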