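import Mathlib
import Pool.Agent.H40.W.NMCor
import Pool.Agent.H31.Sp.Poly

set_option autoImplicit false
open Finset

/-! # Exits of a layer outside of `P^p` (class `H54.W.Win`)

Successor of `H46/Sp/RingC`. `lyL` .. `lyC` : the layer tiles in terms of the tiles of `P^p`. `near_of`,
`fill_of` : near tiles and fill tiles in terms of the tiles of `P^p`. `no_fz` : a frozen tile with the state of
the arc `i` which touches a fill tile of `i` is not available. `no_st` : a frozen tile with the other state is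
not available. `no_ly` : layer tiles whose outer neighbour belongs to `i` are not available. -/

namespace Pool.Agent.H49.W.N

open Pool.Agent.H75.Perc Pool.Agent.H75.TwoArm Pool.Agent.Q1 Pool.Agent.H33.Q1
open Pool.Agent.H69.Q1
open Pool.Agent.H54.W (Win)
open Pool.Agent.H54.W.Win
open Pool.Agent.H72.W.N
open Pool.Agent.H31.Sp (LL LF LC)
open Pool.Agent.H42.Sp (Sd Ix kt rt kt_odd rt_even)
open Pool.Agent.H13.R45 (ev gp ev_true ev_false Tg)
open Pool.Agent.H39.Q1 (TF mem_TF av)

variable {D : Win} {p : Bool} {x y u v s0 L i : ℤ} {s : Sd} {g : ℤ × ℤ} {O : OutB D} {S : Finset (ℤ × ℤ)}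

/-! ### Layer tiles -/

/-- the rows of `InP` -/
lemma inP_row : InP D p u v ↔ 0 ≤ v ∧ v < D.h ∧ D.a v ≤ u + sh p ∧ u + sh p < D.w := Iff.rfl

lemma lyL : LL (InP D p) x y ↔ LyA D p .L x y := by
  unfold LL LyA LyP
  rw [inP_row, inP_row, inP_row, inP_row, show x + 1 + sh p = x + sh p + 1 by ring]
  set V := x + sh p
  constructor
  · rintro ⟨⟨h1, h2, h3, h4⟩, h5, h6, h7⟩
    refine ⟨h1, h2, by omega, fun h => ?_, fun h => ?_⟩
    · by_contra hc
      exact h7 ⟨by omega, by omega, by omega, by omega⟩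
    · by_contra hc
      exact h6 ⟨by omega, by omega, by omega, by omega⟩
  · rintro ⟨h1, h2, h3, h4, h5⟩
    have o1 := D.aw y h1 h2
    refine ⟨⟨h1, h2, by omega, by omega⟩, by omega, fun h => ?_, fun h => ?_⟩
    · have := h5 h.2.1; omega
    · have := h4 (by omega); omega

lemma lyR : Pool.Agent.H31.Sp.LR (InP D p) x y ↔ LyA D p .R x y := by
  unfold Pool.Agent.H31.Sp.LR LyA LyP
  rw [inP_row, inP_row, inP_row, inP_row, show x - 1 + sh p = x + sh p - 1 by ring]
  set V := x + sh p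
  constructor
  · rintro ⟨⟨h1, h2, h3, h4⟩, h5, h6, h7⟩
    exact ⟨h1, h2, by omega⟩
  · rintro ⟨h1, h2, h3⟩
    have o1 := D.aw y h1 h2
    exact ⟨⟨h1, h2, by omega, by omega⟩, by omega, by omega, by omega⟩

lemma lyF : LF (InP D p) x y ↔ LyA D p .F x y := by
  unfold LF LyA LyP
  rw [inP_row, inP_row, inP_row, inP_row, show x + 1 + sh p = x + sh p + 1 by ring,
    show x - 1 + sh p = x + sh p - 1 by ring]
  set V := x + sh p
  constructor
  · rintro ⟨⟨h1, h2, h3, h4⟩, h5, h6, h7⟩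
    refine ⟨by omega, by omega, by omega, by omega, fun h => ?_⟩
    have := D.aw y h (by omega)
    omega
  · rintro ⟨h1, h2, h3, h4, h5⟩
    refine ⟨⟨by omega, by omega, by omega, by omega⟩, fun h => ?_, fun h => ?_, fun h => ?_⟩
    · have := h5 h.1; omega
    · have := h5 h.1; omega
    · have := h5 h.1; omega

lemma lyC : LC (InP D p) x y ↔ LyA D p .C x y := by
  unfold LC LyA LyP
  rw [inP_row, inP_row, inP_row, inP_row, show x + 1 + sh p = x + sh p + 1 by ring,
    show x - 1 + sh p = x + sh p - 1 by ring]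
  set V := x + sh p
  constructor
  · rintro ⟨⟨h1, h2, h3, h4⟩, h5, h6, h7⟩
    refine ⟨by omega, by omega, by omega, by omega, fun h => ?_⟩
    have := D.aw y (by omega) h
    omega
  · rintro ⟨h1, h2, h3, h4, h5⟩
    refine ⟨⟨by omega, by omega, by omega, by omega⟩, fun h => ?_, fun h => ?_, fun h => ?_⟩
    · have := h5 h.2.1; omega
    · have := h5 h.2.1; omega
    · have := h5 h.2.1; omega

/-! ### Tiles near `P^p` -/

lemma near_of (h : InP D p u v) (h1 : x ≤ u + 1) (h2 : u ≤ x + 1) (h3 : y ≤ v + 1) (h4 : v ≤ y + 1) :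
    NearP D (x + sh p) y := by
  obtain ⟨k1, k2, k3, k4⟩ := h
  exact ⟨v, by omega, by omega, k1, k2, by omega, by omega⟩

lemma fill_of (h : ∀ u v, x ≤ u + 1 → u ≤ x + 1 → y ≤ v + 1 → v ≤ y + 1 → ¬ InP D p u v) :
    Fill D p x y := by
  rintro ⟨Z, k1, k2, k3, k4, k5, k6⟩
  have ha := D.aw Z k3 k4
  by_cases c1 : x + sh p < D.a Z
  · exact h (x + 1) Z (by omega) (by omega) (by omega) (by omega) ⟨k3, k4, by omega, by omega⟩
  by_cases c2 : D.w ≤ x + sh p
  · exact h (x - 1) Z (by omega) (by omega) (by omega) (by omega) ⟨k3, k4, by omega, by omega⟩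
  · exact h x Z (by omega) (by omega) (by omega) (by omega) ⟨k3, k4, by omega, by omega⟩

/-- frozen tiles -/
lemma fr_of (hn : NearP D (x + sh p) y) (h0 : ¬ InP D p x y)
    (h : ∀ k, CA D p k → kt k = (x, y) ∨ rt k = (x, y) → False) : FRt D p x y :=
  ⟨⟨hn, h0⟩, fun ⟨k, h1, h2⟩ => h k h1 (Or.inl h2), fun ⟨k, h1, h2⟩ => h k h1 (Or.inr h2)⟩

/-- a frozen tile which is not a layer tile -/
lemma fr_of_not_ly (hn : NearP D (x + sh p) y) (h0 : ¬ InP D p x y) (h : ∀ s, ¬ LyA D p s x y) :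
    FRt D p x y := by
  refine fr_of hn h0 fun k h1 h2 => ?_
  rcases h2 with h2 | h2
  · have := h1.kt_ly
    rw [h2] at this
    exact h _ this
  · have := h1.rt_ly
    rw [h2] at this
    exact h _ this

/-- the tie points of a tile -/
lemma tp_L {a b : ℤ} (h : kt (.L, (a, b)) = (u, v) ∨ rt (.L, (a, b)) = (u, v)) :
    a = u ∧ (b = v ∨ b = v + 1) := by
  unfold kt rt at h
  simp only at h
  split_ifs at h <;> simp only [Prod.mk.injEq] at h <;> omega

lemma tp_R {a b : ℤ} (h : kt (.R, (a, b)) = (u, v) ∨ rt (.R, (a, b)) = (u, v)) :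
    a = u + 1 ∧ (b = v ∨ b = v + 1) := by
  unfold kt rt at h
  simp only at h
  split_ifs at h <;> simp only [Prod.mk.injEq] at h <;> omega

lemma tp_F {a b : ℤ} (h : kt (.F, (a, b)) = (u, v) ∨ rt (.F, (a, b)) = (u, v)) :
    (a = u ∨ a = u + 1) ∧ b = v := by
  unfold kt rt at h
  simp only at h
  split_ifs at h <;> simp only [Prod.mk.injEq] at h <;> omega

lemma tp_C {a b : ℤ} (h : kt (.C, (a, b)) = (u, v) ∨ rt (.C, (a, b)) = (u, v)) :
    (a = u ∨ a = u + 1) ∧ b = v + 1 := by
  unfold kt rt at h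
  simp only at h
  split_ifs at h <;> simp only [Prod.mk.injEq] at h <;> omega

/-! ### Available tiles -/

/-- tiles which are available for the arc `i` and outside of `P^p` -/
lemma av_out (hav : av (EN D p) (WA O p S) (TA D p) (fmA D p s0) (colp D) (WlA D p s0 L S) i (lt (x, y)))
    (h0 : ¬ InP D p x y) :
    (colp D i = true ∧ ((lt (x, y) ∈ TA D p ∧ fmA D p s0 (lt (x, y)) ≠ i) ∨
      (lt (x, y) ∈ WA O p S ∧ lt (x, y) ∉ WlA D p s0 L S i))) ∨
    (colp D i = false ∧ lt (x, y) ∉ WA O p S ∧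
      ¬ (lt (x, y) ∈ TA D p ∧ fmA D p s0 (lt (x, y)) = i) ∧ lt (x, y) ∉ WlA D p s0 L S i) := by
  unfold av at hav
  cases hc : colp D i
  · rw [hc, if_neg Bool.false_ne_true, mem_union, mem_union, mem_TF] at hav
    right
    tauto
  · rw [hc, if_pos rfl, mem_union, mem_union, mem_sdiff, mem_sdiff, mem_TF, mem_EN] at hav
    left
    tauto

/-- frozen tiles in `WA` -/
lemma fr_WA (h : FRt D p x y) : lt (x, y) ∈ WA O p S ↔ lt (x, y) ∈ S := by
  rw [mem_WA]
  constructor
  · rintro (⟨-, h1, -⟩ | h1 | h1 | h1)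
    · exact (h1 h.1.1).elim
    · obtain ⟨k, h2, h3, -⟩ := h1
      exact (h.2.2 ⟨k, h2, h3⟩).elim
    · exact h1
    · exact (O.far x y h1 h.1.inB).elim
  · exact fun h1 => Or.inr (Or.inr (Or.inl h1))

lemma fr_TA (h : FRt D p x y) : lt (x, y) ∉ TA D p := by
  rw [mem_TA]
  intro h1
  exact h.2.1 (KA_iff.2 h1)

/-- the state of an available frozen tile -/
lemma av_fr (hav : av (EN D p) (WA O p S) (TA D p) (fmA D p s0) (colp D) (WlA D p s0 L S) i (lt (x, y)))
    (h : FRt D p x y) :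
    (lt (x, y) ∈ S ↔ colp D i = true) ∧ lt (x, y) ∉ WlA D p s0 L S i := by
  have h1 := fr_TA h
  have h2 := fr_WA (O := O) (S := S) h
  rcases av_out hav h.1.2 with ⟨k1, k2 | k2⟩ | ⟨k1, k2, k3, k4⟩
  · exact (h1 k2.1).elim
  · rw [h2] at k2
    exact ⟨⟨fun _ => k1, fun _ => k2.1⟩, k2.2⟩
  · rw [h2] at k2
    exact ⟨⟨fun h => (k2 h).elim, fun h => by rw [k1] at h; simp at h⟩, k4⟩

/-- **A frozen tile with the other state is not available.** -/
theorem no_st (hav : av (EN D p) (WA O p S) (TA D p) (fmA D p s0) (colp D) (WlA D p s0 L S) i (lt (x, y)))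
    (h : FRt D p x y) (h2 : lt (x, y) ∈ S ↔ colp D i = false) : False := by
  have h1 := (av_fr hav h).1
  rw [h2] at h1
  revert h1
  cases colp D i <;> simp

/-- fill tiles near `P^p` -/
lemma fiA_of (hL : 5 ≤ L) (hf : Fill D p x y) (hi : arc D p s0 x y = i) (h : InP D p u v)
    (h1 : x ≤ u + 3) (h2 : u ≤ x + 3) (h3 : y ≤ v + 3) (h4 : v ≤ y + 3) : FiA D p s0 L i x y := by
  have hb := h.box
  have hB : InB D x y := by unfold InB; omega
  exact ⟨InL_of_InB hL hB, hf, hi, fun _ => hB⟩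

/-- frozen tiles of the wall -/
lemma fz_mem (hL : 5 ≤ L) (hfr : FRt D p x y) (hst : lt (x, y) ∈ S ↔ colp D i = true)
    (hg : ev g = colp D i) (h1 : OnT g x y) (hfi : FiA D p s0 L i u v) (h2 : OnT g u v) :
    lt (x, y) ∈ WlA D p s0 L S i := by
  rw [mem_WlA hL]
  exact Or.inr ⟨hfr, hst, g, hg, h1, u, v, hfi, h2⟩

/-- **A frozen tile with the state of `i` which touches a fill tile of `i` is not available.** -/
theorem no_fz (hL : 5 ≤ L)
    (hav : av (EN D p) (WA O p S) (TA D p) (fmA D p s0) (colp D) (WlA D p s0 L S) i (lt (x, y)))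
    (hfr : FRt D p x y) (hg : ev g = colp D i) (h1 : OnT g x y) (hfi : FiA D p s0 L i u v)
    (h2 : OnT g u v) : False := by
  obtain ⟨h3, h4⟩ := av_fr hav hfr
  exact h4 (fz_mem hL hfr h3 hg h1 hfi h2)

/-- the outer point of a layer tile with the colour `c` -/
lemma exists_outer (s : Sd) (c : Bool) (x y : ℤ) :
    ∃ g, ev g = c ∧ OnT g x y ∧ OnT g (x - (dr s).1) (y - (dr s).2) := by
  have key : ∀ a b a' b' : ℤ, (a + b) % 2 ≠ (a' + b') % 2 → OnT (a, b) x y →
      OnT (a, b) (x - (dr s).1) (y - (dr s).2) → OnT (a', b') x y →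
      OnT (a', b') (x - (dr s).1) (y - (dr s).2) →
      ∃ g, ev g = c ∧ OnT g x y ∧ OnT g (x - (dr s).1) (y - (dr s).2) := by
    intro a b a' b' h1 h2 h3 h4 h5
    rcases Int.emod_two_eq_zero_or_one (a + b) with h6 | h6
    · cases c
      · exact ⟨(a', b'), ev_false.2 (by omega), h4, h5⟩
      · exact ⟨(a, b), ev_true.2 h6, h2, h3⟩
    · cases c
      · exact ⟨(a, b), ev_false.2 h6, h2, h3⟩
      · exact ⟨(a', b'), ev_true.2 (by omega), h4, h5⟩
  cases s
  · exact key x y x (y + 1) (by omega) (by unfold OnT; simp only; omega)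
      (by unfold OnT dr; simp only; omega) (by unfold OnT; simp only; omega)
      (by unfold OnT dr; simp only; omega)
  · exact key (x + 1) y (x + 1) (y + 1) (by omega) (by unfold OnT; simp only; omega)
      (by unfold OnT dr; simp only; omega) (by unfold OnT; simp only; omega)
      (by unfold OnT dr; simp only; omega)
  · exact key x y (x + 1) y (by omega) (by unfold OnT; simp only; omega)
      (by unfold OnT dr; simp only; omega) (by unfold OnT; simp only; omega)
      (by unfold OnT dr; simp only; omega)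
  · exact key x (y + 1) (x + 1) (y + 1) (by omega) (by unfold OnT; simp only; omega)
      (by unfold OnT dr; simp only; omega) (by unfold OnT; simp only; omega)
      (by unfold OnT dr; simp only; omega)

/-- the colour of a removed tile -/
lemma rt_col {k : Ix} (h : CA D p k) (ht : rt k = (x, y)) :
    (k.2.1 + k.2.2) % 2 = 1 ↔ natc D p (x - (dr k.1).1) (y - (dr k.1).2) = true := by
  obtain ⟨s, a, b⟩ := k
  cases s <;> simp only [rt, CA, Col4, dr] at h ht ⊢ <;> split_ifs at ht <;>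
    simp only [Prod.mk.injEq] at ht <;> obtain ⟨rfl, rfl⟩ := ht
  all_goals
    simp only [sub_zero, sub_neg_eq_add, sub_add_cancel] at *
    tauto

/-- **Layer tiles whose outer neighbour belongs to `i` are not available.** -/
theorem no_ly (hL : 5 ≤ L) (hS : S ⊆ FR D p)
    (hav : av (EN D p) (WA O p S) (TA D p) (fmA D p s0) (colp D) (WlA D p s0 L S) i (lt (x, y)))
    (hl : LyA D p s x y) (hi : arc D p s0 (x - (dr s).1) (y - (dr s).2) = i) : False := by
  by_cases hK : KA D p x y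
  · obtain ⟨k, c, ht⟩ := KA_iff.1 hK
    have e := LyA.unique ht.ly hl
    subst e
    have h1 : lt (x, y) ∈ TA D p := mem_TA.2 ⟨_, _, ht⟩
    have h2 : fmA D p s0 (lt (x, y)) = i := by rw [ht.fm, hi]
    rcases av_out hav hl.out with ⟨k1, k2 | k2⟩ | ⟨k1, k2, k3, k4⟩
    · exact k2.2 h2
    · exact (disjoint_left.1 (disj_EWA O hS)) (mem_EA.2 (Or.inr ⟨_, _, ht⟩)) k2.1
    · exact k3 ⟨h1, h2⟩
  by_cases hR : RA' D p x y
  · obtain ⟨k, h1, h2⟩ := hR
    have h3 := h1.rt_ly
    rw [h2] at h3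
    have e := LyA.unique h3 hl
    have h4 := rt_col h1 h2
    have h5 : natc D p (x - (dr k.1).1) (y - (dr k.1).2) = colp D i := by
      rw [e, ← hi, colp_arc]
    rw [h5] at h4
    rcases av_out hav hl.out with ⟨k1, k2 | k2⟩ | ⟨k1, k2, k3, k4⟩
    · exact hK (KA_iff.2 (mem_TA.1 k2.1))
    · rcases mem_WA.1 k2.1 with ⟨-, g1, -⟩ | g1 | g1 | g1
      · exact g1 hl.near
      · obtain ⟨k', g2, g3, g4⟩ := g1
        have g5 := g2.rt_ly
        rw [g3] at g5
        have e' := LyA.unique g5 hl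
        have g6 := rt_col g2 g3
        have g7 : natc D p (x - (dr s).1) (y - (dr s).2) = colp D i := by rw [← hi, colp_arc]
        rw [e', g7, k1] at g6
        obtain ⟨s', a, b⟩ := k'
        rw [ev_true] at g4
        simp only [iff_true] at g6
        omega
      · exact (mem_FR.1 (hS g1)).2.2 ⟨k, h1, h2⟩
      · exact O.far x y g1 (hl.inB (by omega) (by omega) (by omega) (by omega))
    · refine k2 (mem_WA.2 (Or.inr (Or.inl ⟨k, h1, h2, ?_⟩)))
      obtain ⟨s', a, b⟩ := k
      rw [ev_true]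
      rw [k1] at h4
      simp only [Bool.false_eq_true, iff_false] at h4
      omega
  · have hfr : FRt D p x y := ⟨hl.ring, hK, hR⟩
    obtain ⟨g, g1, g2, g3⟩ := exists_outer s (colp D i) x y
    have hin := hl.inn
    refine no_fz hL hav hfr g1 g2 (fiA_of hL hl.far hi hin ?_ ?_ ?_ ?_) g3 <;> cases s <;>
      simp only [dr] <;> omega

end Pool.Agent.H49.W.N
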