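import Mathlib
import Pool.Agent.H49.W.RingC

set_option autoImplicit false
open Finset

/-! # Pockets and diagonal tiles of the ring (class `H54.W.Win`)

Successor of `H46/Sp/PockA`. A pocket is a tile outside of `P^p` with two perpendicular edge neighbours in
`P^p` (`LF` : to the right and above, `LC` : to the right and below); there is no pocket at the right wall
(`no_RF`, `no_RC`). `quad` : the quadrant behind it is outside of `P^p`, near the pocket. `par` : parity and
colour. `quadD` : the quadrant behind a diagonal tile. `dg_R` : the diagonal tiles at the right wall. -/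

namespace Pool.Agent.H49.W.N

open Pool.Agent.H75.Perc Pool.Agent.H75.TwoArm Pool.Agent.Q1 Pool.Agent.H33.Q1
open Pool.Agent.H69.Q1
open Pool.Agent.H54.W (Win)
open Pool.Agent.H54.W.Win
open Pool.Agent.H72.W.N
open Pool.Agent.H42.Sp (Sd Ix kt rt kt_odd rt_even)
open Pool.Agent.H13.R45 (ev gp ev_true ev_false Tg)
open Pool.Agent.H39.Q1 (TF mem_TF av)

variable {D : Win} {p : Bool} {x y u v s0 L i : ℤ} {s : Sd} {g : ℤ × ℤ} {O : OutB D} {S : Finset (ℤ × ℤ)}

/-! ### Pockets below a drop -/

/-- data of a pocket -/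
lemma dat_LF (h0 : ¬ InP D p x y) (h1 : InP D p (x + 1) y) (h2 : InP D p x (y + 1)) :
    0 ≤ y ∧ y + 1 < D.h ∧ D.a y = x + sh p + 1 ∧ D.a (y + 1) < D.a y := by
  rw [inP_row] at h0 h1 h2
  omega

/-- the quadrant behind a pocket -/
lemma quad_LF (h0 : ¬ InP D p x y) (h1 : InP D p (x + 1) y) (h2 : InP D p x (y + 1)) (hu : u ≤ x)
    (hv : v ≤ y) (hv' : y ≤ v + 3) : ¬ InP D p u v := by
  intro h3
  obtain ⟨k1, k2, k3, k4⟩ := dat_LF h0 h1 h2
  rw [inP_row] at h3
  have := drop_lo k1 k2 k4 hv' hv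
  omega

/-- the quadrant behind a diagonal tile -/
lemma quadD_LF (h0 : ¬ InP D p x (y + 1)) (h1 : ¬ InP D p (x + 1) y) (h2 : InP D p (x + 1) (y + 1))
    (hu : u ≤ x) (hv : v ≤ y) (hv' : y ≤ v + 3) : ¬ InP D p u v := by
  intro h3
  rw [inP_row] at h0 h1 h2 h3
  have := drop_lo (D := D) (Y := y) (by omega) (by omega) (by omega) hv' hv
  omega

/-- parity and colour of a pocket -/
lemma par_LF_f (h0 : ¬ InP D false x y) (h1 : InP D false (x + 1) y) (h2 : InP D false x (y + 1)) :
    (x + y) % 2 = 0 ↔ natc D false x y = true := by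
  obtain ⟨k1, k2, k3, k4⟩ := dat_LF h0 h1 h2
  rw [sh_false] at k3
  have k := D.pdn y k1 k2 k4
  have hc : natc D false x y = D.cl y := by
    rw [natc_def, if_neg (by omega), if_neg (by omega), if_pos (by omega)]
  rw [hc, ← k]
  omega

/-- parity and colour of a pocket -/
lemma par_LF_t (h0 : ¬ InP D true x y) (h1 : InP D true (x + 1) y) (h2 : InP D true x (y + 1)) :
    (x + y) % 2 = 1 ↔ natc D true x y = true := by
  obtain ⟨k1, k2, k3, k4⟩ := dat_LF h0 h1 h2
  rw [sh_true] at k3
  have k := D.pdn y k1 k2 k4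
  have hc : natc D true x y = D.cl y := by
    rw [natc_def, if_neg (by omega), if_neg (by omega), if_pos (by omega)]
  rw [hc, ← k]
  omega

/-- a pocket is frozen -/
lemma fr_LF (h0 : ¬ InP D p x y) (h1 : InP D p (x + 1) y) (h2 : InP D p x (y + 1)) : FRt D p x y := by
  refine fr_of_not_ly (near_of h1 (by omega) (by omega) (by omega) (by omega)) h0 fun s hs => ?_
  cases s
  · exact (lyL.2 hs).2.2.1 h2
  · exact quad_LF h0 h1 h2 (by omega) (by omega) (by omega) (lyR.2 hs).1
  · exact (lyF.2 hs).2.2.1 h1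
  · exact quad_LF h0 h1 h2 (by omega) (by omega) (by omega) (lyC.2 hs).1

/-- the neighbour of a pocket along the horizontal wall, away from the corner, is frozen -/
lemma fr1_LF (h0 : ¬ InP D p x y) (h1 : InP D p (x + 1) y) (h2 : InP D p x (y + 1))
    (hc : (x + y) % 2 = 1 ↔ natc D p (x - 1) y = true) : FRt D p (x - 1) y := by
  refine fr_of (near_of h2 (by omega) (by omega) (by omega) (by omega))
    (quad_LF h0 h1 h2 (by omega) (by omega) (by omega)) fun k h3 h4 => ?_
  have h5 : LyA D p k.1 (x - 1) y := by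
    rcases h4 with h4 | h4
    · have := h3.kt_ly; rwa [h4] at this
    · have := h3.rt_ly; rwa [h4] at this
  obtain ⟨s, a, b⟩ := k
  cases s
  · exact quad_LF h0 h1 h2 (by omega) (by omega) (by omega) (lyL.2 h5).1
  · exact quad_LF h0 h1 h2 (by omega) (by omega) (by omega) (lyR.2 h5).1
  · obtain ⟨h6, h7, h8⟩ := h3
    obtain ⟨h9, rfl⟩ := tp_F h4
    rcases h9 with rfl | rfl
    · have h10 := h8.1
      rw [← hc] at h10
      omega
    · rw [sub_add_cancel] at h7
      exact (lyF.2 h7).2.2.1 h1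
  · exact quad_LF h0 h1 h2 (by omega) (by omega) (by omega) (lyC.2 h5).1

/-- the neighbour of a pocket along the vertical wall, away from the corner, is frozen -/
lemma fr2_LF (h0 : ¬ InP D p x y) (h1 : InP D p (x + 1) y) (h2 : InP D p x (y + 1))
    (hc : (x + y) % 2 = 1 ↔ natc D p x (y - 1) = true) : FRt D p x (y - 1) := by
  refine fr_of (near_of h1 (by omega) (by omega) (by omega) (by omega))
    (quad_LF h0 h1 h2 (by omega) (by omega) (by omega)) fun k h3 h4 => ?_
  have h5 : LyA D p k.1 x (y - 1) := by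
    rcases h4 with h4 | h4
    · have := h3.kt_ly; rwa [h4] at this
    · have := h3.rt_ly; rwa [h4] at this
  obtain ⟨s, a, b⟩ := k
  cases s
  · obtain ⟨h6, h7, h8⟩ := h3
    obtain ⟨rfl, h9⟩ := tp_L h4
    rcases h9 with rfl | rfl
    · have h10 := h8.1
      rw [← hc] at h10
      omega
    · rw [sub_add_cancel] at h7
      exact (lyL.2 h7).2.2.1 h2
  · exact quad_LF h0 h1 h2 (by omega) (by omega) (by omega) (lyR.2 h5).1
  · exact quad_LF h0 h1 h2 (by omega) (by omega) (by omega) (lyF.2 h5).1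
  · exact quad_LF h0 h1 h2 (by omega) (by omega) (by omega) (lyC.2 h5).1

/-! ### Pockets above a rise -/

/-- data of a pocket -/
lemma dat_LC (h0 : ¬ InP D p x y) (h1 : InP D p (x + 1) y) (h2 : InP D p x (y - 1)) :
    1 ≤ y ∧ y < D.h ∧ D.a y = x + sh p + 1 ∧ D.a (y - 1) < D.a y := by
  rw [inP_row] at h0 h1 h2
  omega

/-- the quadrant behind a pocket -/
lemma quad_LC (h0 : ¬ InP D p x y) (h1 : InP D p (x + 1) y) (h2 : InP D p x (y - 1)) (hu : u ≤ x)
    (hv : y ≤ v) (hv' : v ≤ y + 3) : ¬ InP D p u v := by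
  intro h3
  obtain ⟨k1, k2, k3, k4⟩ := dat_LC h0 h1 h2
  rw [inP_row] at h3
  have := rise_hi k1 k2 k4 hv hv'
  omega

/-- the quadrant behind a diagonal tile -/
lemma quadD_LC (h0 : ¬ InP D p x (y - 1)) (h1 : ¬ InP D p (x + 1) y) (h2 : InP D p (x + 1) (y - 1))
    (hu : u ≤ x) (hv : y ≤ v) (hv' : v ≤ y + 3) : ¬ InP D p u v := by
  intro h3
  rw [inP_row] at h0 h1 h2 h3
  have := rise_hi (D := D) (Y := y) (by omega) (by omega) (by omega) hv hv'
  omega

/-- parity and colour of a pocket -/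
lemma par_LC_f (h0 : ¬ InP D false x y) (h1 : InP D false (x + 1) y) (h2 : InP D false x (y - 1)) :
    (x + y) % 2 = 1 ↔ natc D false x y = true := by
  obtain ⟨k1, k2, k3, k4⟩ := dat_LC h0 h1 h2
  rw [sh_false] at k3
  have k := D.pup (y - 1) (by omega) (by omega) (by rw [sub_add_cancel]; omega)
  rw [sub_add_cancel] at k
  have hc : natc D false x y = D.cl y := by
    rw [natc_def, if_neg (by omega), if_neg (by omega), if_pos (by omega)]
  rw [hc, ← k]
  omega

/-- parity and colour of a pocket -/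
lemma par_LC_t (h0 : ¬ InP D true x y) (h1 : InP D true (x + 1) y) (h2 : InP D true x (y - 1)) :
    (x + y) % 2 = 0 ↔ natc D true x y = true := by
  obtain ⟨k1, k2, k3, k4⟩ := dat_LC h0 h1 h2
  rw [sh_true] at k3
  have k := D.pup (y - 1) (by omega) (by omega) (by rw [sub_add_cancel]; omega)
  rw [sub_add_cancel] at k
  have hc : natc D true x y = D.cl y := by
    rw [natc_def, if_neg (by omega), if_neg (by omega), if_pos (by omega)]
  rw [hc, ← k]
  omega

/-- a pocket is frozen -/
lemma fr_LC (h0 : ¬ InP D p x y) (h1 : InP D p (x + 1) y) (h2 : InP D p x (y - 1)) : FRt D p x y := by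
  refine fr_of_not_ly (near_of h1 (by omega) (by omega) (by omega) (by omega)) h0 fun s hs => ?_
  cases s
  · exact (lyL.2 hs).2.2.2 h2
  · exact quad_LC h0 h1 h2 (by omega) (by omega) (by omega) (lyR.2 hs).1
  · exact quad_LC h0 h1 h2 (by omega) (by omega) (by omega) (lyF.2 hs).1
  · exact (lyC.2 hs).2.2.1 h1

/-- the neighbour of a pocket along the horizontal wall, away from the corner, is frozen -/
lemma fr1_LC (h0 : ¬ InP D p x y) (h1 : InP D p (x + 1) y) (h2 : InP D p x (y - 1))
    (hc : (x + y) % 2 = 0 ↔ natc D p (x - 1) y = true) : FRt D p (x - 1) y := by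
  refine fr_of (near_of h2 (by omega) (by omega) (by omega) (by omega))
    (quad_LC h0 h1 h2 (by omega) (by omega) (by omega)) fun k h3 h4 => ?_
  have h5 : LyA D p k.1 (x - 1) y := by
    rcases h4 with h4 | h4
    · have := h3.kt_ly; rwa [h4] at this
    · have := h3.rt_ly; rwa [h4] at this
  obtain ⟨s, a, b⟩ := k
  cases s
  · exact quad_LC h0 h1 h2 (by omega) (by omega) (by omega) (lyL.2 h5).1
  · exact quad_LC h0 h1 h2 (by omega) (by omega) (by omega) (lyR.2 h5).1
  · exact quad_LC h0 h1 h2 (by omega) (by omega) (by omega) (lyF.2 h5).1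
  · obtain ⟨h6, h7, h8⟩ := h3
    obtain ⟨h9, rfl⟩ := tp_C h4
    rcases h9 with rfl | rfl
    · have h10 := h8.2.2.1
      simp only [add_sub_cancel_right] at h10
      rw [← hc] at h10
      omega
    · rw [sub_add_cancel, add_sub_cancel_right] at h7
      exact (lyC.2 h7).2.2.1 h1

/-- the neighbour of a pocket along the vertical wall, away from the corner, is frozen -/
lemma fr2_LC (h0 : ¬ InP D p x y) (h1 : InP D p (x + 1) y) (h2 : InP D p x (y - 1))
    (hc : (x + y) % 2 = 0 ↔ natc D p x (y + 1) = true) : FRt D p x (y + 1) := by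
  refine fr_of (near_of h1 (by omega) (by omega) (by omega) (by omega))
    (quad_LC h0 h1 h2 (by omega) (by omega) (by omega)) fun k h3 h4 => ?_
  have h5 : LyA D p k.1 x (y + 1) := by
    rcases h4 with h4 | h4
    · have := h3.kt_ly; rwa [h4] at this
    · have := h3.rt_ly; rwa [h4] at this
  obtain ⟨s, a, b⟩ := k
  cases s
  · obtain ⟨h6, h7, h8⟩ := h3
    obtain ⟨rfl, h9⟩ := tp_L h4
    rcases h9 with rfl | rfl
    · rw [add_sub_cancel_right] at h6
      exact (lyL.2 h6).2.2.2 h2
    · have h10 := h8.2.2.1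
      simp only [add_sub_cancel_right] at h10
      rw [← hc] at h10
      omega
  · exact quad_LC h0 h1 h2 (by omega) (by omega) (by omega) (lyR.2 h5).1
  · exact quad_LC h0 h1 h2 (by omega) (by omega) (by omega) (lyF.2 h5).1
  · exact quad_LC h0 h1 h2 (by omega) (by omega) (by omega) (lyC.2 h5).1

/-! ### The right wall -/

/-- there is no pocket at the right wall -/
lemma no_RF (h0 : ¬ InP D p x y) (h1 : InP D p (x - 1) y) : ¬ InP D p x (y + 1) := by
  rw [inP_row] at h0 h1 ⊢
  omega

lemma no_RC (h0 : ¬ InP D p x y) (h1 : InP D p (x - 1) y) : ¬ InP D p x (y - 1) := by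
  rw [inP_row] at h0 h1 ⊢
  omega

/-- the diagonal tile below the right end of the bottom row -/
lemma dat_RF (h0 : ¬ InP D p x (y + 1)) (h1 : ¬ InP D p (x - 1) y) (h2 : InP D p (x - 1) (y + 1)) :
    x + sh p = D.w ∧ y = -1 := by
  rw [inP_row] at h0 h1 h2
  have := D.aw (y + 1) h2.1 h2.2.1
  by_cases hy : 0 ≤ y
  · have := D.aw y hy (by omega)
    omega
  · omega

/-- the diagonal tile above the right end of the top row -/
lemma dat_RC (h0 : ¬ InP D p x (y - 1)) (h1 : ¬ InP D p (x - 1) y) (h2 : InP D p (x - 1) (y - 1)) :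
    x + sh p = D.w ∧ y = D.h := by
  rw [inP_row] at h0 h1 h2
  have := D.aw (y - 1) h2.1 h2.2.1
  by_cases hy : y < D.h
  · have := D.aw y (by omega) hy
    omega
  · omega

/-- the ring column at the right wall is frozen if it has no ties -/
lemma fr_R (hR : ∀ q, ¬ CA D p (.R, q)) (h1 : InP D p (x - 1) y) (h0 : ¬ InP D p x y) : FRt D p x y := by
  have hl : LyA D p .R x y := lyR.1 ⟨h1, h0, no_RF h0 h1, no_RC h0 h1⟩
  refine ⟨hl.ring, ?_, ?_⟩
  · rintro ⟨k, h3, h4⟩
    have h5 := h3.kt_ly
    rw [h4] at h5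
    obtain ⟨s, q⟩ := k
    have e : s = .R := LyA.unique h5 hl
    subst e
    exact hR q h3
  · rintro ⟨k, h3, h4⟩
    have h5 := h3.rt_ly
    rw [h4] at h5
    obtain ⟨s, q⟩ := k
    have e : s = .R := LyA.unique h5 hl
    subst e
    exact hR q h3

end Pool.Agent.H49.W.N
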