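import Mathlib
import Pool.Agent.H49.W.PockA

set_option autoImplicit false
open Finset

/-! # Pockets are not exits (class `H54.W.Win`)

Successor of `H46/Sp/PockB`. `One D p s0 i x y` : all tiles outside of `P^p` at distance at most 2 from
`(x, y)` belong to the arc `i`. World `false` (line on the left arc): the pockets are not available, for every
`S` (`pkc`). World `true` : they are not exits, if the frozen tiles off the line have natural states (`pkn`,
`natS_t`). `dg` : diagonal tiles. `no_R` : the ring column at the right wall, solid. -/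

namespace Pool.Agent.H49.W.N

open Pool.Agent.H75.Perc Pool.Agent.H75.TwoArm Pool.Agent.Q1 Pool.Agent.H33.Q1
open Pool.Agent.H69.Q1
open Pool.Agent.H54.W (Win)
open Pool.Agent.H54.W.Win
open Pool.Agent.H72.W.N
open Pool.Agent.H42.Sp (Sd Ix kt rt kt_odd rt_even)
open Pool.Agent.H13.R45 (ev gp ev_true ev_false Tg)
open Pool.Agent.H39.Q1 (TF mem_TF av)
open Pool.Agent.H40.W.N (NatS tp)

variable {D : Win} {p : Bool} {x y u v s0 L i : ℤ} {s : Sd} {g : ℤ × ℤ} {O : OutB D} {S : Finset (ℤ × ℤ)}

/-- all tiles outside of `P^p` at distance at most 2 belong to one arc -/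
def One (D : Win) (p : Bool) (s0 i x y : ℤ) : Prop :=
  ∀ u v, x ≤ u + 2 → u ≤ x + 2 → y ≤ v + 2 → v ≤ y + 2 → ¬ InP D p u v → arc D p s0 u v = i

lemma ev_col {a b : ℤ} {c : Bool} (h : (a + b) % 2 = 0 ↔ c = true) : ev (a, b) = c := by
  cases c
  · rw [ev_false]
    simp only [Bool.false_eq_true, iff_false] at h
    omega
  · rw [ev_true]; exact h.2 rfl

lemma col_ev {a b : ℤ} {c : Bool} (h : ev (a, b) = c) : (a + b) % 2 = 0 ↔ c = true := by
  subst h
  rw [ev_true]

/-- the natural states in the world with the line on the right wall -/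
lemma natS_t (hN : NatS D true S) (hfr : FRt D true u v) (hu : u + 1 < D.w) :
    lt (u, v) ∈ S ↔ natc D true u v = true := by
  obtain ⟨⟨⟨Z, z1, z2, z3, z4, z5, z6⟩, hn⟩, -, -⟩ := id hfr
  have hlo := D.hlo Z z3 z4
  rw [inP_row] at hn
  rw [sh_true] at z5 z6 hn
  have ht : ∀ y, tp D true y = D.w := fun y => if_pos rfl
  have hE : ¬ D.InE (tp D true) u v := by
    rintro (h | h | h | h | h)
    · obtain ⟨h1, h2, h3, h4⟩ := h
      exact hn ⟨h1, h2, by omega, hu⟩
    · obtain ⟨h1, h2, h3, h4⟩ := h
      rw [ht] at h3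
      omega
    · obtain ⟨h1, h2, h3, h4⟩ := h
      rw [ht] at h3
      omega
    · obtain ⟨h1, h2, h3⟩ := h
      rw [ht] at h2
      omega
    · obtain ⟨h1, h2, h3⟩ := h
      rw [ht] at h2
      omega
  rw [hN u v (by rw [sh_true]; exact Or.inl hu) hfr hE]
  have hA : ¬ D.TA (tp D true) u v := by
    rintro (⟨h1, h2, h3, h4⟩ | ⟨h1, h2⟩)
    · rw [ht, ht] at h3; omega
    · rw [ht] at h2; omega
  have hB : ¬ D.TB (tp D true) u v := by
    rintro (⟨h1, h2, h3, h4⟩ | ⟨h1, h2⟩)
    · rw [ht, ht] at h3; omega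
    · rw [ht] at h2; omega
  have hZ : D.InZ u v := by
    unfold Pool.Agent.H54.W.Win.InZ
    omega
  unfold Pool.Agent.H54.W.Win.InO
  show _ ↔ D.fill u v = true
  tauto

/-- **Pockets, first colour** -/
theorem pkc_LF (hL : 5 ≤ L)
    (hav : av (EN D false) (WA O false S) (TA D false) (fmA D false s0) (colp D) (WlA D false s0 L S) i (lt (x, y)))
    (h0 : ¬ InP D false x y) (h1 : InP D false (x + 1) y) (h2 : InP D false x (y + 1))
    (hone : One D false s0 i x y) : False := by
  have hq := fun u v hu hv hv' => quad_LF (u := u) (v := v) h0 h1 h2 hu hv hv'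
  have hc : natc D false x y = colp D i := by
    rw [← hone x y (by omega) (by omega) (by omega) (by omega) h0, colp_arc]
  have hp := par_LF_f h0 h1 h2
  rw [hc] at hp
  have hf : Fill D false (x - 1) (y - 1) :=
    fill_of fun u v _ _ _ _ => hq u v (by omega) (by omega) (by omega)
  have ha := hone (x - 1) (y - 1) (by omega) (by omega) (by omega) (by omega) hf.not_inP
  refine no_fz (g := (x, y)) hL hav (fr_LF h0 h1 h2) ?_ ?_
    (fiA_of hL hf ha h1 (by omega) (by omega) (by omega) (by omega)) ?_
  · refine ev_col (Iff.trans ?_ hp)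
    omega
  · unfold OnT; simp only; omega
  · unfold OnT; simp only; omega

/-- **Pockets, second colour** -/
theorem pkn_LF (hL : 5 ≤ L) (hN : NatS D true S)
    (h0 : ¬ InP D true x y) (h1 : InP D true (x + 1) y) (h2 : InP D true x (y + 1))
    (hone : One D true s0 i x y) (hg : ev g = colp D i) (hgt : OnT g x y)
    (hfree : ∀ u v, OnT g u v → lt (u, v) ∉ WlA D true s0 L S i) : False := by
  have hq := fun u v hu hv hv' => quad_LF (u := u) (v := v) h0 h1 h2 hu hv hv'
  have hc : natc D true x y = colp D i := by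
    rw [← hone x y (by omega) (by omega) (by omega) (by omega) h0, colp_arc]
  have hp := par_LF_t h0 h1 h2
  rw [hc] at hp
  obtain ⟨g1, g2⟩ := g
  have hg' := col_ev hg
  unfold OnT at hgt
  simp only at hgt
  have n1 : ¬ InP D true (x - 1) y := hq _ _ (by omega) (by omega) (by omega)
  have n2 : ¬ InP D true x (y - 1) := hq _ _ (by omega) (by omega) (by omega)
  have c1 : natc D true (x - 1) y = colp D i := by
    rw [← hone (x - 1) y (by omega) (by omega) (by omega) (by omega) n1, colp_arc]
  have c2 : natc D true x (y - 1) = colp D i := by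
    rw [← hone x (y - 1) (by omega) (by omega) (by omega) (by omega) n2, colp_arc]
  have f1 : Fill D true (x - 2) (y - 1) :=
    fill_of fun u v _ _ _ _ => hq u v (by omega) (by omega) (by omega)
  have f2 : Fill D true (x - 1) (y - 2) :=
    fill_of fun u v _ _ _ _ => hq u v (by omega) (by omega) (by omega)
  have a1 := hone (x - 2) (y - 1) (by omega) (by omega) (by omega) (by omega) f1.not_inP
  have a2 := hone (x - 1) (y - 2) (by omega) (by omega) (by omega) (by omega) f2.not_inP
  have r1 : FRt D true (x - 1) y := fr1_LF h0 h1 h2 (by rw [c1]; exact hp)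
  have r2 : FRt D true x (y - 1) := fr2_LF h0 h1 h2 (by rw [c2]; exact hp)
  have hk := dat_LF h0 h1 h2
  have hw := D.aw y hk.1 (by omega)
  have hpl1 := natS_t hN r1 (by have := hk.2.2.1; rw [sh_true] at this; omega)
  have hpl2 := natS_t hN r2 (by have := hk.2.2.1; rw [sh_true] at this; omega)
  have hcs : (g1 = x ∧ g2 = y + 1) ∨ (g1 = x + 1 ∧ g2 = y) := by
    have h3 := hg'.trans hp.symm
    omega
  rcases hcs with ⟨z1, z2⟩ | ⟨z1, z2⟩
  · refine hfree (x - 1) y (by unfold OnT; simp only; omega) ?_
    refine fz_mem (g := (x - 1, y)) hL r1 ?_ ?_ ?_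
      (fiA_of hL f1 a1 h2 (by omega) (by omega) (by omega) (by omega)) ?_
    · rw [hpl1, c1]
    · refine ev_col (Iff.trans ?_ hp)
      omega
    · unfold OnT; simp only; omega
    · unfold OnT; simp only; omega
  · refine hfree x (y - 1) (by unfold OnT; simp only; omega) ?_
    refine fz_mem (g := (x, y - 1)) hL r2 ?_ ?_ ?_
      (fiA_of hL f2 a2 h1 (by omega) (by omega) (by omega) (by omega)) ?_
    · rw [hpl2, c2]
    · refine ev_col (Iff.trans ?_ hp)
      omega
    · unfold OnT; simp only; omega
    · unfold OnT; simp only; omega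

/-- **Pockets are not exits.** -/
theorem pk_LF (hL : 5 ≤ L) (hN : NatS D p S)
    (hav : av (EN D p) (WA O p S) (TA D p) (fmA D p s0) (colp D) (WlA D p s0 L S) i (lt (x, y)))
    (h0 : ¬ InP D p x y) (h1 : InP D p (x + 1) y) (h2 : InP D p x (y + 1))
    (hone : One D p s0 i x y) (hg : ev g = colp D i) (hgt : OnT g x y)
    (hfree : ∀ u v, OnT g u v → lt (u, v) ∉ WlA D p s0 L S i) : False := by
  cases p
  · exact pkc_LF hL hav h0 h1 h2 hone
  · exact pkn_LF hL hN h0 h1 h2 hone hg hgt hfree

/-- **Diagonal tiles of one arc are not exits.** -/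
theorem dg_LF (hL : 5 ≤ L)
    (hav : av (EN D p) (WA O p S) (TA D p) (fmA D p s0) (colp D) (WlA D p s0 L S) i (lt (x, y)))
    (h0 : ¬ InP D p x (y + 1)) (h1 : ¬ InP D p (x + 1) y)
    (h2 : InP D p (x + 1) (y + 1)) (hone : One D p s0 i x y)
    (hg : ev (x + 1, y + 1) = colp D i) : False := by
  have hq := fun u v hu hv hv' => quadD_LF (u := u) (v := v) h0 h1 h2 hu hv hv'
  have hf : Fill D p (x - 1) (y - 1) :=
    fill_of fun u v _ _ _ _ => hq u v (by omega) (by omega) (by omega)
  have ha := hone (x - 1) (y - 1) (by omega) (by omega) (by omega) (by omega) hf.not_inP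
  have hfr : FRt D p x y := by
    refine fr_of_not_ly (near_of h2 (by omega) (by omega) (by omega) (by omega))
      (hq _ _ (by omega) (by omega) (by omega)) fun s hs => ?_
    cases s
    · exact h1 (lyL.2 hs).1
    · exact hq _ _ (by omega) (by omega) (by omega) (lyR.2 hs).1
    · exact h0 (lyF.2 hs).1
    · exact hq _ _ (by omega) (by omega) (by omega) (lyC.2 hs).1
  have hg' := col_ev hg
  refine no_fz (g := (x, y)) hL hav hfr ?_ ?_
    (fiA_of hL hf ha h2 (by omega) (by omega) (by omega) (by omega)) ?_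
  · refine ev_col (Iff.trans ?_ hg')
    omega
  · unfold OnT; simp only; omega
  · unfold OnT; simp only; omega

/-- **Pockets, first colour** -/
theorem pkc_LC (hL : 5 ≤ L)
    (hav : av (EN D false) (WA O false S) (TA D false) (fmA D false s0) (colp D) (WlA D false s0 L S) i (lt (x, y)))
    (h0 : ¬ InP D false x y) (h1 : InP D false (x + 1) y) (h2 : InP D false x (y - 1))
    (hone : One D false s0 i x y) : False := by
  have hq := fun u v hu hv hv' => quad_LC (u := u) (v := v) h0 h1 h2 hu hv hv'
  have hc : natc D false x y = colp D i := by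
    rw [← hone x y (by omega) (by omega) (by omega) (by omega) h0, colp_arc]
  have hp := par_LC_f h0 h1 h2
  rw [hc] at hp
  have hf : Fill D false (x - 1) (y + 1) :=
    fill_of fun u v _ _ _ _ => hq u v (by omega) (by omega) (by omega)
  have ha := hone (x - 1) (y + 1) (by omega) (by omega) (by omega) (by omega) hf.not_inP
  refine no_fz (g := (x, y + 1)) hL hav (fr_LC h0 h1 h2) ?_ ?_
    (fiA_of hL hf ha h1 (by omega) (by omega) (by omega) (by omega)) ?_
  · refine ev_col (Iff.trans ?_ hp)
    omega
  · unfold OnT; simp only; omega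
  · unfold OnT; simp only; omega

/-- **Pockets, second colour** -/
theorem pkn_LC (hL : 5 ≤ L) (hN : NatS D true S)
    (h0 : ¬ InP D true x y) (h1 : InP D true (x + 1) y) (h2 : InP D true x (y - 1))
    (hone : One D true s0 i x y) (hg : ev g = colp D i) (hgt : OnT g x y)
    (hfree : ∀ u v, OnT g u v → lt (u, v) ∉ WlA D true s0 L S i) : False := by
  have hq := fun u v hu hv hv' => quad_LC (u := u) (v := v) h0 h1 h2 hu hv hv'
  have hc : natc D true x y = colp D i := by
    rw [← hone x y (by omega) (by omega) (by omega) (by omega) h0, colp_arc]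
  have hp := par_LC_t h0 h1 h2
  rw [hc] at hp
  obtain ⟨g1, g2⟩ := g
  have hg' := col_ev hg
  unfold OnT at hgt
  simp only at hgt
  have n1 : ¬ InP D true (x - 1) y := hq _ _ (by omega) (by omega) (by omega)
  have n2 : ¬ InP D true x (y + 1) := hq _ _ (by omega) (by omega) (by omega)
  have c1 : natc D true (x - 1) y = colp D i := by
    rw [← hone (x - 1) y (by omega) (by omega) (by omega) (by omega) n1, colp_arc]
  have c2 : natc D true x (y + 1) = colp D i := by
    rw [← hone x (y + 1) (by omega) (by omega) (by omega) (by omega) n2, colp_arc]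
  have f1 : Fill D true (x - 2) (y + 1) :=
    fill_of fun u v _ _ _ _ => hq u v (by omega) (by omega) (by omega)
  have f2 : Fill D true (x - 1) (y + 2) :=
    fill_of fun u v _ _ _ _ => hq u v (by omega) (by omega) (by omega)
  have a1 := hone (x - 2) (y + 1) (by omega) (by omega) (by omega) (by omega) f1.not_inP
  have a2 := hone (x - 1) (y + 2) (by omega) (by omega) (by omega) (by omega) f2.not_inP
  have r1 : FRt D true (x - 1) y := fr1_LC h0 h1 h2 (by rw [c1]; exact hp)
  have r2 : FRt D true x (y + 1) := fr2_LC h0 h1 h2 (by rw [c2]; exact hp)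
  have hk := dat_LC h0 h1 h2
  have hw := D.aw y (by omega) hk.2.1
  have hpl1 := natS_t hN r1 (by have := hk.2.2.1; rw [sh_true] at this; omega)
  have hpl2 := natS_t hN r2 (by have := hk.2.2.1; rw [sh_true] at this; omega)
  have hcs : (g1 = x ∧ g2 = y) ∨ (g1 = x + 1 ∧ g2 = y + 1) := by
    have h3 := hg'.trans hp.symm
    omega
  rcases hcs with ⟨z1, z2⟩ | ⟨z1, z2⟩
  · refine hfree (x - 1) y (by unfold OnT; simp only; omega) ?_
    refine fz_mem (g := (x - 1, y + 1)) hL r1 ?_ ?_ ?_
      (fiA_of hL f1 a1 h2 (by omega) (by omega) (by omega) (by omega)) ?_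
    · rw [hpl1, c1]
    · refine ev_col (Iff.trans ?_ hp)
      omega
    · unfold OnT; simp only; omega
    · unfold OnT; simp only; omega
  · refine hfree x (y + 1) (by unfold OnT; simp only; omega) ?_
    refine fz_mem (g := (x, y + 2)) hL r2 ?_ ?_ ?_
      (fiA_of hL f2 a2 h1 (by omega) (by omega) (by omega) (by omega)) ?_
    · rw [hpl2, c2]
    · refine ev_col (Iff.trans ?_ hp)
      omega
    · unfold OnT; simp only; omega
    · unfold OnT; simp only; omega

/-- **Pockets are not exits.** -/
theorem pk_LC (hL : 5 ≤ L) (hN : NatS D p S)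
    (hav : av (EN D p) (WA O p S) (TA D p) (fmA D p s0) (colp D) (WlA D p s0 L S) i (lt (x, y)))
    (h0 : ¬ InP D p x y) (h1 : InP D p (x + 1) y) (h2 : InP D p x (y - 1))
    (hone : One D p s0 i x y) (hg : ev g = colp D i) (hgt : OnT g x y)
    (hfree : ∀ u v, OnT g u v → lt (u, v) ∉ WlA D p s0 L S i) : False := by
  cases p
  · exact pkc_LC hL hav h0 h1 h2 hone
  · exact pkn_LC hL hN h0 h1 h2 hone hg hgt hfree

/-- **Diagonal tiles of one arc are not exits.** -/
theorem dg_LC (hL : 5 ≤ L)
    (hav : av (EN D p) (WA O p S) (TA D p) (fmA D p s0) (colp D) (WlA D p s0 L S) i (lt (x, y)))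
    (h0 : ¬ InP D p x (y - 1)) (h1 : ¬ InP D p (x + 1) y)
    (h2 : InP D p (x + 1) (y - 1)) (hone : One D p s0 i x y)
    (hg : ev (x + 1, y) = colp D i) : False := by
  have hq := fun u v hu hv hv' => quadD_LC (u := u) (v := v) h0 h1 h2 hu hv hv'
  have hf : Fill D p (x - 1) (y + 1) :=
    fill_of fun u v _ _ _ _ => hq u v (by omega) (by omega) (by omega)
  have ha := hone (x - 1) (y + 1) (by omega) (by omega) (by omega) (by omega) hf.not_inP
  have hfr : FRt D p x y := by
    refine fr_of_not_ly (near_of h2 (by omega) (by omega) (by omega) (by omega))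
      (hq _ _ (by omega) (by omega) (by omega)) fun s hs => ?_
    cases s
    · exact h1 (lyL.2 hs).1
    · exact hq _ _ (by omega) (by omega) (by omega) (lyR.2 hs).1
    · exact hq _ _ (by omega) (by omega) (by omega) (lyF.2 hs).1
    · exact h0 (lyC.2 hs).1
  have hg' := col_ev hg
  refine no_fz (g := (x, y + 1)) hL hav hfr ?_ ?_
    (fiA_of hL hf ha h2 (by omega) (by omega) (by omega) (by omega)) ?_
  · refine ev_col (Iff.trans ?_ hg')
    omega
  · unfold OnT; simp only; omega
  · unfold OnT; simp only; omega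

/-! ### The right wall -/

/-- the diagonal tile at the right end of the bottom -/
theorem dg_RF (hL : 5 ≤ L)
    (hav : av (EN D p) (WA O p S) (TA D p) (fmA D p s0) (colp D) (WlA D p s0 L S) i (lt (x, y)))
    (h0 : ¬ InP D p x (y + 1)) (h1 : ¬ InP D p (x - 1) y)
    (h2 : InP D p (x - 1) (y + 1)) (ha : arc D p s0 (x + 1) (y - 1) = i)
    (hg : ev (x, y + 1) = colp D i) : False := by
  obtain ⟨k1, k2⟩ := dat_RF h0 h1 h2
  have hq : ∀ u v, v ≤ y → ¬ InP D p u v := fun u v hv h => by
    rw [inP_row] at h; omega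
  have hf : Fill D p (x + 1) (y - 1) := fill_of fun u v _ _ _ _ => hq u v (by omega)
  have hfr : FRt D p x y := by
    refine fr_of_not_ly (near_of h2 (by omega) (by omega) (by omega) (by omega))
      (hq _ _ le_rfl) fun s hs => ?_
    cases s
    · exact hq _ _ le_rfl (lyL.2 hs).1
    · exact h1 (lyR.2 hs).1
    · exact h0 (lyF.2 hs).1
    · exact hq _ _ (by omega) (lyC.2 hs).1
  have hg' := col_ev hg
  refine no_fz (g := (x + 1, y)) hL hav hfr ?_ ?_
    (fiA_of hL hf ha h2 (by omega) (by omega) (by omega) (by omega)) ?_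
  · refine ev_col (Iff.trans ?_ hg')
    omega
  · unfold OnT; simp only; omega
  · unfold OnT; simp only; omega

/-- the diagonal tile at the right end of the top -/
theorem dg_RC (hL : 5 ≤ L)
    (hav : av (EN D p) (WA O p S) (TA D p) (fmA D p s0) (colp D) (WlA D p s0 L S) i (lt (x, y)))
    (h0 : ¬ InP D p x (y - 1)) (h1 : ¬ InP D p (x - 1) y)
    (h2 : InP D p (x - 1) (y - 1)) (ha : arc D p s0 (x + 1) (y + 1) = i)
    (hg : ev (x, y) = colp D i) : False := by
  obtain ⟨k1, k2⟩ := dat_RC h0 h1 h2
  have hq : ∀ u v, y ≤ v → ¬ InP D p u v := fun u v hv h => by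
    rw [inP_row] at h; omega
  have hf : Fill D p (x + 1) (y + 1) := fill_of fun u v _ _ _ _ => hq u v (by omega)
  have hfr : FRt D p x y := by
    refine fr_of_not_ly (near_of h2 (by omega) (by omega) (by omega) (by omega))
      (hq _ _ le_rfl) fun s hs => ?_
    cases s
    · exact hq _ _ le_rfl (lyL.2 hs).1
    · exact h1 (lyR.2 hs).1
    · exact hq _ _ (by omega) (lyF.2 hs).1
    · exact h0 (lyC.2 hs).1
  have hg' := col_ev hg
  refine no_fz (g := (x + 1, y + 1)) hL hav hfr ?_ ?_
    (fiA_of hL hf ha h2 (by omega) (by omega) (by omega) (by omega)) ?_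
  · refine ev_col (Iff.trans ?_ hg')
    omega
  · unfold OnT; simp only; omega
  · unfold OnT; simp only; omega

/-- **The solid ring column at the right wall is not available.** -/
theorem no_R (hR : ∀ q, ¬ CA D p (.R, q))
    (hav : av (EN D p) (WA O p S) (TA D p) (fmA D p s0) (colp D) (WlA D p s0 L S) i (lt (x, y)))
    (h1 : InP D p (x - 1) y) (h0 : ¬ InP D p x y) (h2 : lt (x, y) ∈ S ↔ colp D i = false) : False :=
  no_st hav (fr_R hR h1 h0) h2

end Pool.Agent.H49.W.N
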