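import Mathlib
import Pool.Agent.H49.W.PockB
import Pool.Agent.H72.W.NRef

set_option autoImplicit false
open Finset

/-! # No exits at the right wall

For a window without ties on the right wall (`refD D p` of helper72) whose ring column at the right wall is
solid (`SolR`) : an exit near the right wall is far from all ties of its arc. -/

namespace Pool.Agent.H49.W.N

open Pool.Agent.H75.Perc Pool.Agent.H75.TwoArm Pool.Agent.Q1 Pool.Agent.H33.Q1
open Pool.Agent.H69.Q1
open Pool.Agent.H54.W (Win)
open Pool.Agent.H54.W.Win
open Pool.Agent.H72.W.N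
open Pool.Agent.H42.Sp (Sd Ix kt rt kt_odd rt_even)
open Pool.Agent.H13.R45 (ev gp ev_true ev_false Tg)
open Pool.Agent.H39.Q1 (TF mem_TF av)

variable {D : Win} {p : Bool} {x y u v s0 L i h n : ℤ} {g : ℤ × ℤ} {O : OutB D} {S : Finset (ℤ × ℤ)}

/-- the inner end is on the boundary of the tile -/
lemma onT_bt {k : Sd} {c : Bool} : OnT (bt k c (u, v)) u v := by
  cases k <;> cases c <;> (unfold OnT bt; simp only; omega)

/-- the inner end is on the boundary of the inner neighbour -/
lemma onT_bt_in {k : Sd} {c : Bool} : OnT (bt k c (u, v)) (u + (dr k).1) (v + (dr k).2) := by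
  cases k <;> cases c <;> (unfold OnT bt dr; simp only; omega)

lemma two_abs {t : ℤ} (h1 : 2 * |t| < h) : 2 * t < h ∧ -h < 2 * t := by
  have h2 := le_abs_self t
  have h3 := neg_abs_le t
  omega

/-- the arc below the window -/
lemma arc_bot (h1 : y < 0) : arc D p s0 x y = rep D s0 0 := by
  unfold arc ps; rw [if_pos h1]

/-- the arc above the window -/
lemma arc_top (h1 : D.h ≤ y) : arc D p s0 x y = rep D s0 (D.h + 1) := by
  have := D.hh
  unfold arc ps; rw [if_neg (by omega), if_pos h1]

lemma colp_bot : colp D (rep D s0 0) = D.cb := by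
  rw [← arc_bot (p := false) (x := 0) (y := -1) (by norm_num), colp_arc, natc_def, if_pos (by norm_num)]

lemma colp_top : colp D (rep D s0 (D.h + 1)) = D.ct := by
  have := D.hh
  rw [← arc_top (p := false) (x := 0) (y := D.h) le_rfl, colp_arc, natc_def, if_neg (by omega),
    if_pos le_rfl]

/-- **Near the right wall an exit is far from all ties of its arc.** -/
theorem exR (hR : ∀ q, ¬ CA D p (.R, q)) (hSol : SolR D p S) (hS : S ⊆ FR D p) (hL : 5 ≤ L)
    (hA : ∀ y, 0 ≤ y → y < D.h → D.a y + n ≤ D.w) (hDh : n ≤ D.h) (hh : 8 ≤ h)
    (hn : 4 * h + 16 ≤ n) (hg : ev g = colp D i) (hgt : OnT g x y)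
    (hav : av (EN D p) (WA O p S) (TA D p) (fmA D p s0) (colp D) (WlA D p s0 L S) i (lt (x, y)))
    (h0 : ¬ InP D p x y) (hP : InP D p u v) (hgu : OnT g u v) (hx : D.w + h + 4 ≤ g.1 + sh p + n) :
    ∀ a b k, TieP D p k (colp D i) a b → fmA D p s0 (lt (a, b)) = i →
      h ≤ 2 * |g.1 - (bt k (colp D i) (a, b)).1| ∨ h ≤ 2 * |g.2 - (bt k (colp D i) (a, b)).2| := by
  intro a b k ht hf
  by_contra hc
  push Not at hc
  have h3 := onT_bt (k := k) (c := colp D i) (u := a) (v := b)
  have h4 := onT_bt_in (k := k) (c := colp D i) (u := a) (v := b)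
  obtain ⟨c1, c2⟩ := hc
  unfold OnT at h3 h4 hgt hgu
  generalize (bt k (colp D i) (a, b)) = w at *
  have d3 := two_abs c1
  have d4 := two_abs c2
  have hly := ht.ly
  rw [ht.fm] at hf
  obtain ⟨g1, g2⟩ := g
  simp only at hgt hgu hx d3 d4
  obtain ⟨p1, p2, p3, p4⟩ := id hP
  cases k
  · obtain ⟨e1, e2, e3, -, -⟩ := hly
    have := hA b e1 e2
    omega
  · exact hR _ ht.2.1
  · obtain ⟨e1, e2, e3, e4, e5⟩ := hly
    have hb : b = -1 := by
      by_contra hb
      have e6 := e5 (by omega)
      have := hA b (by omega) (by omega)
      omega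
    simp only [dr] at h4 hf
    have hi : i = rep D s0 0 := by rw [← hf]; exact arc_bot (by omega)
    by_cases hy : y < 0
    · have hy1 : y = -1 := by omega
      by_cases hxw : x + sh p < D.w
      · have hin : InP D p x (y + 1) := ⟨by omega, by omega, by
          have := hA 0 le_rfl (by omega)
          rw [show y + 1 = 0 by omega]
          omega, hxw⟩
        have hl : LyA D p .F x y := lyF.1 ⟨hin, h0, fun h => by have := h.1; omega,
          fun h => by have := h.1; omega⟩
        refine no_ly hL hS hav hl ?_
        simp only [dr]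
        rw [hi]
        exact arc_bot (by omega)
      · have e7 : u = x - 1 := by omega
        have e8 : v = 0 := by omega
        subst e7
        subst e8
        have e9 : g1 = x := by omega
        have e10 : g2 = y + 1 := by omega
        rw [e9, e10] at hg
        refine dg_RF hL hav (fun h => by have := h.2.2.2; omega) (fun h => by have := h.1; omega)
          (by rw [show y + 1 = 0 by omega]; exact hP) ?_ hg
        rw [hi]
        exact arc_bot (by omega)
    · have hyh : y < D.h := by omega
      have h5 := hA y (by omega) hyh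
      have h6 : x + sh p = D.w := by
        by_contra h6
        exact h0 ⟨by omega, hyh, by omega, by omega⟩
      refine no_R hR hav ⟨by omega, hyh, by omega, by omega⟩ h0 ?_
      have h7 := hSol y (by omega) hyh
      rw [if_pos (by omega), show D.w - sh p = x by omega] at h7
      rw [h7, hi, colp_bot]
  · obtain ⟨e1, e2, e3, e4, e5⟩ := hly
    have hb : b = D.h := by
      by_contra hb
      have e6 := e5 (by omega)
      have := hA b (by omega) (by omega)
      omega
    simp only [dr] at h4 hf
    have hi : i = rep D s0 (D.h + 1) := by rw [← hf]; exact arc_top (by omega)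
    by_cases hy : D.h ≤ y
    · have hy1 : y = D.h := by omega
      by_cases hxw : x + sh p < D.w
      · have hin : InP D p x (y - 1) := ⟨by omega, by omega, by
          have := hA (D.h - 1) (by omega) (by omega)
          rw [show y - 1 = D.h - 1 by omega]
          omega, hxw⟩
        have hl : LyA D p .C x y := lyC.1 ⟨hin, h0, fun h => by have := h.2.1; omega,
          fun h => by have := h.2.1; omega⟩
        refine no_ly hL hS hav hl ?_
        simp only [dr]
        rw [hi]
        exact arc_top (by omega)
      · have e7 : u = x - 1 := by omega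
        have e8 : v = y - 1 := by omega
        subst e7
        subst e8
        have e9 : g1 = x := by omega
        have e10 : g2 = y := by omega
        rw [e9, e10] at hg
        refine dg_RC hL hav (fun h => by have := h.2.2.2; omega) (fun h => by have := h.2.1; omega)
          hP ?_ hg
        rw [hi]
        exact arc_top (by omega)
    · have hy0 : 0 ≤ y := by omega
      have h5 := hA y hy0 (by omega)
      have h6 : x + sh p = D.w := by
        by_contra h6
        exact h0 ⟨hy0, by omega, by omega, by omega⟩
      refine no_R hR hav ⟨hy0, by omega, by omega, by omega⟩ h0 ?_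
      have h7 := hSol y hy0 (by omega)
      rw [if_neg (by omega), show D.w - sh p = x by omega] at h7
      rw [h7, hi, colp_top]

end Pool.Agent.H49.W.N
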