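import Mathlib
import Pool.Agent.H49.W.ExR
import Pool.Agent.H2.W.BoxC

set_option autoImplicit false
open Finset

/-! # The exits of the layers of the environment `XA` (class `H54.W.Win`)

Successor of `H46/Sp/ExC`. `exA` : the exits of the layer of an arc are in the layer, or far from the ties of
the arc, or at a marked corner of the left arc (`ExA` of helper40), for coarse windows without ties on the
right wall (`refD`), with natural states of the frozen tiles off the line (`NatS`) and a solid ring column at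
the right wall (`SolR`). -/

namespace Pool.Agent.H49.W.N

open Pool.Agent.H75.Perc Pool.Agent.H75.TwoArm Pool.Agent.Q1 Pool.Agent.H33.Q1
open Pool.Agent.H69.Q1
open Pool.Agent.H54.W (Win)
open Pool.Agent.H54.W.Win
open Pool.Agent.H72.W.N
open Pool.Agent.H95.W (CoarseR CoarseRC)
open Pool.Agent.H2.W.CG (dv lt_mul w_ge w_le aw_n Cor box_cases X_le)
open Pool.Agent.H42.Sp (Sd Ix kt rt kt_odd rt_even)
open Pool.Agent.H13.R45 (ev gp ev_true ev_false Tg)
open Pool.Agent.H39.Q1 (TF mem_TF av)
open Pool.Agent.H40.Sp (oT oP flS yV yH eS)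
open Pool.Agent.H40.W.N (cS qS iS GmC gxS gyS iVs iHs NatS NrM ExA)

variable {D : Win} {n H W : ℤ} {A : ℤ → ℤ} {CL : ℤ → Bool} {x y X Y s0 L h i : ℤ} {p : Bool} {O : OutB D}
  {S : Finset (ℤ × ℤ)} {g : ℤ × ℤ}

section

variable (hL : 5 ≤ L) (hS : S ⊆ FR D p) (hN : NatS D p S)
  (hav : av (EN D p) (WA O p S) (TA D p) (fmA D p s0) (colp D) (WlA D p s0 L S) i (lt (x, y)))
  (h0 : ¬ InP D p x y) (hone : One D p s0 i x y) (hg : ev g = colp D i) (hgt : OnT g x y)
  (hfree : ∀ u v, OnT g u v → lt (u, v) ∉ WlA D p s0 L S i)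

include hL hS hN hav h0 hone hg hgt hfree

lemma edge_R (h1 : InP D p (x + 1) y) : False := by
  by_cases h2 : InP D p x (y + 1)
  · exact pk_LF hL hN hav h0 h1 h2 hone hg hgt hfree
  by_cases h3 : InP D p x (y - 1)
  · exact pk_LC hL hN hav h0 h1 h3 hone hg hgt hfree
  have hl : LyA D p .L x y := lyL.1 ⟨h1, h0, h2, h3⟩
  exact no_ly hL hS hav hl (hone _ _ (by unfold dr; simp only; omega) (by unfold dr; simp only; omega)
    (by unfold dr; simp only; omega) (by unfold dr; simp only; omega) hl.far.not_inP)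

omit hN hg hgt hfree in
lemma edge_L (h1 : InP D p (x - 1) y) : False := by
  have hl : LyA D p .R x y := lyR.1 ⟨h1, h0, no_RF h0 h1, no_RC h0 h1⟩
  exact no_ly hL hS hav hl (hone _ _ (by unfold dr; simp only; omega) (by unfold dr; simp only; omega)
    (by unfold dr; simp only; omega) (by unfold dr; simp only; omega) hl.far.not_inP)

lemma edge_U (h1 : InP D p x (y + 1)) : False := by
  by_cases h2 : InP D p (x + 1) y
  · exact pk_LF hL hN hav h0 h2 h1 hone hg hgt hfree
  have hl : LyA D p .F x y := lyF.1 ⟨h1, h0, h2, fun h3 => no_RF h0 h3 h1⟩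
  exact no_ly hL hS hav hl (hone _ _ (by unfold dr; simp only; omega) (by unfold dr; simp only; omega)
    (by unfold dr; simp only; omega) (by unfold dr; simp only; omega) hl.far.not_inP)

lemma edge_D (h1 : InP D p x (y - 1)) : False := by
  by_cases h2 : InP D p (x + 1) y
  · exact pk_LC hL hN hav h0 h2 h1 hone hg hgt hfree
  have hl : LyA D p .C x y := lyC.1 ⟨h1, h0, h2, fun h3 => no_RC h0 h3 h1⟩
  exact no_ly hL hS hav hl (hone _ _ (by unfold dr; simp only; omega) (by unfold dr; simp only; omega)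
    (by unfold dr; simp only; omega) (by unfold dr; simp only; omega) hl.far.not_inP)

/-- **No exit outside of `P^p` if there is only one arc nearby.** -/
theorem no_exit_one {u v : ℤ} (hP : InP D p u v) (hgu : OnT g u v) : False := by
  have eR := edge_R hL hS hN hav h0 hone hg hgt hfree
  have eL := edge_L hL hS hav h0 hone
  have eU := edge_U hL hS hN hav h0 hone hg hgt hfree
  have eD := edge_D hL hS hN hav h0 hone hg hgt hfree
  obtain ⟨g1, g2⟩ := g
  unfold OnT at hgu hgt
  simp only at hgu hgt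
  have hu : u = x ∨ (u = x + 1 ∧ g1 = x + 1) ∨ (u = x - 1 ∧ g1 = x) := by omega
  have hv : v = y ∨ (v = y + 1 ∧ g2 = y + 1) ∨ (v = y - 1 ∧ g2 = y) := by omega
  rcases hu with rfl | ⟨rfl, rfl⟩ | ⟨rfl, rfl⟩
  · rcases hv with rfl | ⟨rfl, rfl⟩ | ⟨rfl, rfl⟩
    · exact h0 hP
    · exact eU hP
    · exact eD hP
  · rcases hv with rfl | ⟨rfl, rfl⟩ | ⟨rfl, rfl⟩
    · exact eR hP
    · exact dg_LF hL hav eU eR hP hone hg
    · exact dg_LC hL hav eD eR hP hone hg
  · rcases hv with rfl | ⟨rfl, rfl⟩ | ⟨rfl, rfl⟩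
    · exact eL hP
    · exact dg_RF hL hav eU eL hP (hone _ _ (by omega) (by omega) (by omega) (by omega) (fun hh => by
        have k := dat_RF eU eL hP
        have := hh.2.2.2
        omega)) hg
    · exact dg_RC hL hav eD eL hP (hone _ _ (by omega) (by omega) (by omega) (by omega) (fun hh => by
        have k := dat_RC eD eL hP
        have := hh.2.2.2
        omega)) hg

end

/-! ### Offsets -/

lemma oT_oP {v : Bool} {a q t : ℤ} (h1 : t ≤ q) (h2 : q ≤ t + 1) :
    oT v a t ≤ oP v a q ∧ oP v a q ≤ oT v a t + 1 := by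
  unfold oT oP
  split_ifs <;> omega

lemma oP_zero {v : Bool} {a q : ℤ} (h : oP v a q = 0) : q = a := by
  unfold oP at h
  split_ifs at h <;> omega

/-- **The exits of the layers of the environment `XA`.** -/
theorem exA (C : CoarseRC D n H W A CL) (hcut : colp D (s0 - 1) ≠ colp D s0)
    (hR : ∀ q, ¬ CA D p (.R, q)) (hSol : SolR D p S)
    (hS : S ⊆ FR D p) (hN : NatS D p S) (hL : 5 ≤ L) (hh : 8 ≤ h) (hn : 4 * h + 16 ≤ n) :
    ExA D p s0 n H A (fun _ => W) O S L h := by
  intro i g X Y hg hgt hlay hav hfree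
  -- a tile of `P^p` at `g` and a tile of the arc
  have hin : ∃ u v, InP D p u v ∧ OnT g u v ∧ ∃ u' v', ¬ InP D p u' v' ∧
      arc D p s0 u' v' = i ∧ u ≤ u' + h ∧ u' ≤ u + h ∧ v ≤ v' + h ∧ v' ≤ v + h := by
    rcases hlay with ⟨u, v, k, h1, h2, h3⟩ | ⟨u, v, h1, h2⟩
    · refine ⟨_, _, h1.ly.inn, ?_, _, _, h1.ly.far.not_inP, ?_, ?_, ?_, ?_, ?_⟩
      · rw [← h3]; exact onT_bt_in
      · rw [← h1.fm, h2]
      all_goals cases k <;> simp only [dr] <;> omega
    · rw [mem_LaA] at h2
      obtain ⟨h3, u', v', h4, h5, h6, h7, h8, h9⟩ := h2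
      exact ⟨u, v, h3, h1, u', v', h4, h5, h6, h7, h8, h9⟩
  obtain ⟨u, v, hP, hgu, u', v', hni', harc, q1, q2, q3, q4⟩ := hin
  by_cases hXY : InP D p X Y
  · by_cases hla : lt (X, Y) ∈ LaA D p s0 h i
    · exact Or.inl hla
    right; left
    intro a b k h1 h2
    by_contra hc
    push Not at hc
    apply hla
    rw [mem_LaA]
    have h3 := onT_bt (k := k) (c := colp D i) (u := a) (v := b)
    refine ⟨hXY, a - (dr k).1, b - (dr k).2, h1.ly.far.not_inP, by rw [← h1.fm, h2], ?_⟩
    obtain ⟨c1, c2⟩ := hc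
    unfold OnT at h3 hgt
    generalize (bt k (colp D i) (a, b)) = w at *
    have d3 := two_abs c1
    have d4 := two_abs c2
    cases k <;> simp only [dr] <;> omega
  -- the lattice point
  have hn0 := C.pos
  have hs0 := sh_nonneg p
  have hs1 := sh_le p
  obtain ⟨x1, x2, -⟩ := dv hn0 (g.1 + sh p + n / 2)
  obtain ⟨y1, y2, -⟩ := dv hn0 (g.2 + n / 2)
  set X0 := (g.1 + sh p + n / 2) / n
  set Y0 := (g.2 + n / 2) / n
  have hbx : ∀ x y, x ≤ g.1 + h + 4 → g.1 ≤ x + h + 4 → y ≤ g.2 + h + 4 → g.2 ≤ y + h + 4 →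
      Pool.Agent.H2.W.CG.Bx n p X0 Y0 x y := by
    intro x y h1 h2 h3 h4
    unfold Pool.Agent.H2.W.CG.Bx
    omega
  have hgt' := hgt
  have hgu' := hgu
  unfold OnT at hgt hgu
  by_cases hXW : W ≤ X0
  · right; left
    have hww := w_le C.toCoarseR
    have hle : n * W ≤ n * X0 := mul_le_mul_of_nonneg_left hXW hn0.le
    have hr := C.toCoarseR.HH
    have hHn : n ≤ D.h := by
      have h1 := C.hh
      have h2 := lt_mul hn0 hr
      omega
    refine exR (n := n) hR hSol hS hL (fun y h1 h2 => ?_) hHn hh hn hg hgt' hav hXY hP hgu' ?_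
    · have h3 := aw_n C.toCoarseR h1 h2
      have h4 := w_ge C.toCoarseR
      omega
    · omega
  rcases box_cases C hcut (X := X0) (Y := Y0) (p := p) (not_le.1 hXW)
      ⟨u, v, hbx _ _ (by omega) (by omega) (by omega) (by omega), hP⟩ with ⟨j, hj⟩ | K
  · exfalso
    have hji : j = i := by
      rw [← hj u' v' (hbx _ _ (by omega) (by omega) (by omega) (by omega)) hni']
      exact harc
    subst hji
    have hone : One D p s0 j X Y := fun a b h1 h2 h3 h4 h5 =>
      hj a b (hbx _ _ (by omega) (by omega) (by omega) (by omega)) h5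
    exact no_exit_one hL hS hN hav hXY hone hg hgt hfree hP hgu
  · have hbX := hbx X Y (by omega) (by omega) (by omega) (by omega)
    have k1 := (K.inn u v (hbx _ _ (by omega) (by omega) (by omega) (by omega))).1 hP
    have k2 := fun hh => hXY ((K.inn X Y hbX).2 hh)
    have o1 := oT_oP (v := true) (a := n * X0 - sh p) hgu.1.1 hgu.1.2
    have o2 := oT_oP (v := flS H A (fun _ => W) (true, Y0)) (a := n * Y0) hgu.2.1 hgu.2.2
    have o3 := oT_oP (v := true) (a := n * X0 - sh p) hgt.1.1 hgt.1.2
    have o4 := oT_oP (v := flS H A (fun _ => W) (true, Y0)) (a := n * Y0) hgt.2.1 hgt.2.2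
    have hnot : ¬ (0 ≤ oT true (n * X0 - sh p) X ∧
      0 ≤ oT (flS H A (fun _ => W) (true, Y0)) (n * Y0) Y) := k2
    have hfar : ∀ a b k, TieP D p k (colp D i) a b → fmA D p s0 (lt (a, b)) = i →
        ¬ (h ≤ 2 * |g.1 - (bt k (colp D i) (a, b)).1| ∨ h ≤ 2 * |g.2 - (bt k (colp D i) (a, b)).2|) →
        ∃ a' b', arc D p s0 a' b' = i ∧ ¬ InP D p a' b' ∧ Pool.Agent.H2.W.CG.Bx n p X0 Y0 a' b' ∧
          2 * a' ≤ 2 * g.1 + h + 3 ∧ 2 * g.1 ≤ 2 * a' + h + 3 ∧ 2 * b' ≤ 2 * g.2 + h + 3 ∧
          2 * g.2 ≤ 2 * b' + h + 3 := by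
      intro a b k h1 h2 hc
      push Not at hc
      have h3 := onT_bt (k := k) (c := colp D i) (u := a) (v := b)
      obtain ⟨c1, c2⟩ := hc
      unfold OnT at h3
      generalize (bt k (colp D i) (a, b)) = w at *
      have d3 := two_abs c1
      have d4 := two_abs c2
      refine ⟨a - (dr k).1, b - (dr k).2, by rw [← h1.fm, h2], h1.ly.far.not_inP, ?_⟩
      have d5 : 2 * (a - (dr k).1) ≤ 2 * g.1 + h + 3 ∧ 2 * g.1 ≤ 2 * (a - (dr k).1) + h + 3 ∧
          2 * (b - (dr k).2) ≤ 2 * g.2 + h + 3 ∧ 2 * g.2 ≤ 2 * (b - (dr k).2) + h + 3 := by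
        cases k <;> simp only [dr] <;> omega
      exact ⟨hbx _ _ (by omega) (by omega) (by omega) (by omega), d5⟩
    right
    rcases K.al u' v' (hbx _ _ (by omega) (by omega) (by omega) (by omega)) hni' with e | e
    · have hi : i = iVs D s0 n H A (fun _ => W) (true, Y0) := harc ▸ e
      by_cases c0 : oP (flS H A (fun _ => W) (true, Y0)) (n * Y0) g.2 = 0
      · by_cases c1 : oP true (n * X0 - sh p) g.1 < h
        · right
          refine ⟨(true, Y0), K.mem, Or.inl ⟨hi, ?_, ?_, ?_⟩⟩
          · exact oP_zero c0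
          · rw [K.gx]
            show 0 ≤ oP true (n * X0 - sh p) g.1
            omega
          · rw [K.gx]; exact c1
        · left
          intro a b k h1 h2
          by_contra hc
          obtain ⟨a', b', f1, f2, f3, f4, f5, f6, f7⟩ := hfar a b k h1 h2 hc
          have f8 : 0 ≤ oT true (n * X0 - sh p) a' := by
            unfold oT
            unfold oP at c1
            split_ifs at c1 ⊢ <;> omega
          have f9 := K.ah a' b' f3 f2 f8
          exact K.ne (by rw [← hi, ← f9, f1])
      · exfalso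
        have c1 : 0 ≤ oT (flS H A (fun _ => W) (true, Y0)) (n * Y0) Y := by omega
        have c2 : oT true (n * X0 - sh p) X = -1 := by omega
        have hb1 := hbx X (Y + 1) (by omega) (by omega) (by omega) (by omega)
        have hb2 := hbx X (Y - 1) (by omega) (by omega) (by omega) (by omega)
        have n1 : ¬ InP D p X (Y + 1) := fun hh => by
          have := ((K.inn _ _ hb1).1 hh).1; omega
        have n2 : ¬ InP D p X (Y - 1) := fun hh => by
          have := ((K.inn _ _ hb2).1 hh).1; omega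
        have c3 : X = n * X0 - sh p - 1 := by
          unfold oT at c2; rw [if_pos rfl] at c2; omega
        have hl : LyA D p .L X Y := lyL.1 ⟨(K.inn _ _ (hbx (X + 1) Y (by omega) (by omega) (by omega)
          (by omega))).2 ⟨by unfold oT; rw [if_pos rfl]; omega, c1⟩, hXY, n1, n2⟩
        refine no_ly hL hS hav hl ?_
        have hb3 := hbx (X - 1) Y (by omega) (by omega) (by omega) (by omega)
        have h3 := hl.far.not_inP
        simp only [dr, sub_zero] at h3 ⊢
        rw [K.av _ _ hb3 h3 c1, hi]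
    · have hi : i = iHs D s0 n H A (fun _ => W) (true, Y0) := harc ▸ e
      by_cases c0 : oP true (n * X0 - sh p) g.1 = 0
      · by_cases c1 : oP (flS H A (fun _ => W) (true, Y0)) (n * Y0) g.2 < h
        · right
          refine ⟨(true, Y0), K.mem, Or.inr ⟨hi, ?_, ?_, ?_⟩⟩
          · rw [K.gx]; exact oP_zero c0
          · show 0 ≤ oP (flS H A (fun _ => W) (true, Y0)) (n * Y0) g.2
            omega
          · exact c1
        · left
          intro a b k h1 h2
          by_contra hc
          obtain ⟨a', b', f1, f2, f3, f4, f5, f6, f7⟩ := hfar a b k h1 h2 hc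
          have f8 : 0 ≤ oT (flS H A (fun _ => W) (true, Y0)) (n * Y0) b' := by
            unfold oT
            unfold oP at c1
            split_ifs at c1 ⊢ <;> omega
          have f9 := K.av a' b' f3 f2 f8
          exact K.ne (by rw [← hi, ← f9, f1])
      · exfalso
        have c1 : 0 ≤ oT true (n * X0 - sh p) X := by omega
        have c2 : oT (flS H A (fun _ => W) (true, Y0)) (n * Y0) Y = -1 := by omega
        have hb1 := hbx (X + 1) Y (by omega) (by omega) (by omega) (by omega)
        have hb2 := hbx (X - 1) Y (by omega) (by omega) (by omega) (by omega)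
        have n1 : ¬ InP D p (X + 1) Y := fun hh => by
          have := ((K.inn _ _ hb1).1 hh).2; omega
        have n2 : ¬ InP D p (X - 1) Y := fun hh => by
          have := ((K.inn _ _ hb2).1 hh).2; omega
        cases hf : flS H A (fun _ => W) (true, Y0)
        · rw [hf] at c2
          have c3 : Y = n * Y0 := by
            unfold oT at c2; rw [if_neg Bool.false_ne_true] at c2; omega
          have hl : LyA D p .C X Y := lyC.1 ⟨(K.inn _ _ (hbx X (Y - 1) (by omega) (by omega) (by omega)
            (by omega))).2 ⟨c1, by rw [hf]; unfold oT; rw [if_neg Bool.false_ne_true]; omega⟩, hXY, n1, n2⟩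
          refine no_ly hL hS hav hl ?_
          have hb3 := hbx X (Y + 1) (by omega) (by omega) (by omega) (by omega)
          have h3 := hl.far.not_inP
          simp only [dr, sub_neg_eq_add, sub_zero] at h3 ⊢
          rw [K.ah _ _ hb3 h3 c1, hi]
        · rw [hf] at c2
          have c3 : Y = n * Y0 - 1 := by
            unfold oT at c2; rw [if_pos rfl] at c2; omega
          have hl : LyA D p .F X Y := lyF.1 ⟨(K.inn _ _ (hbx X (Y + 1) (by omega) (by omega) (by omega)
            (by omega))).2 ⟨c1, by rw [hf]; unfold oT; rw [if_pos rfl]; omega⟩, hXY, n1, n2⟩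
          refine no_ly hL hS hav hl ?_
          have hb3 := hbx X (Y - 1) (by omega) (by omega) (by omega) (by omega)
          have h3 := hl.far.not_inP
          simp only [dr, sub_zero] at h3 ⊢
          rw [K.ah _ _ hb3 h3 c1, hi]

/-- **The reference window of chart I.** -/
theorem exA_ref (C : CoarseRC (refD D p) n H W A CL) (hSol : SolR D p S)
    {O : OutB (refD D p)} (hS : S ⊆ FR (refD D p) p) (hN : NatS (refD D p) p S) (hL : 5 ≤ L)
    (hh : 8 ≤ h) (hn : 4 * h + 16 ≤ n) :
    ExA (refD D p) p 2 n H A (fun _ => W) O S L h :=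
  exA C (cut_ref D.hh) not_CA_R hSol hS hN hL hh hn

end Pool.Agent.H49.W.N
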