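import Pool.Agent.H49.W.TruF
import Pool.Agent.H95.W.FineI

set_option autoImplicit false
open Finset

/-! # The hypotheses on the functional of chart I

`deepI` : the labels of `SgI` are not in the boxes of the flat ties. `vOnI` : helper95's `VOnI` for the
functional `FTr Φ O p (Tlf D p) S` of the true window. -/

namespace Pool.Agent.H49.W.N

open Pool.Agent.H75.Perc hiding ET mem_ET BD mem_BD
open Pool.Agent.H75.TwoArm Pool.Agent.H69.Q1
open Pool.Agent.Q1 Pool.Agent.H33.Q1 Pool.Agent.H99.NC Pool.Agent.H60.Q1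
open Pool.Agent.H39.Q1
open Pool.Agent.H54.W (Win Out)
open Pool.Agent.H54.W.Win
open Pool.Agent.H72.W.N
open Pool.Agent.H42.Sp (Sd Ix kt rt)
open Pool.Agent.H13.R45 (ev gp tg_end tg_lt)
open Pool.Agent.H74.R45 (exists_lt)
open Pool.Agent.H34.W.Lin
open Pool.Agent.H62.W (InT ZS mem_ZS odd_ZS)
open Pool.Agent.H22.W.MskI
open Pool.Agent.H42.W (Agr Msk VF Tog)
open Pool.Agent.H15.W (VLoc)
open Pool.Agent.H95.W (CoarseRC)
open Pool.Agent.H95.W.N
open Pool.Agent.H95.W.SI (VOnI)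
open Pool.Agent.H31.Sp (CQ Ed verS)

variable {D : Win} {p : Bool} {x y u v m L K X1 X2 Y1 Y2 x0 r i n HH W R' : ℤ} {A : ℤ → ℤ}
  {CL : ℤ → Bool} {O : OutB D} {O' : OutB (refD D p)} {S Sr : Finset (ℤ × ℤ)} {e l : ℤ × ℤ}

/-- **The labels of `SgI` are not in the boxes of the flat ties.** -/
theorem deepI (hC : CoarseRC (refD D p) n HH W A CL) (hBx : BoxL D L X1 X2 Y1 Y2) (hm : m ≤ L)
    (hwd : ∀ y, 0 ≤ y → y < D.h → D.a y + m + 3 ≤ D.w)
    (hlow : ∀ y, 0 ≤ y → y < D.h → D.lo + m ≤ D.a y) (w0 : KL HH A (fun _ => W))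
    (h8 : 8 ≤ R') (hR : 128 * R' ≤ m) (w : KL HH A (fun _ => W))
    (he : e ∈ FlD (refD D p) n HH A (fun _ => W) p w0 (2 * R' + 9) w)
    (hl : l ∈ SgI D p X1 X2 Y1 Y2) :
    l ∉ bx (colp (refD D p) (fwD (refD D p) n HH A (fun _ => W) 2 w)) (bA (refD D p) p e) R' := by
  intro hbx
  have hnR : ∀ k, CA (refD D p) p k → k.1 ≠ Sd.R := nR_ref
  have hC' : CoarseC (refD D p) n HH A (fun _ => W) CL := CoarseC.ofR hC
  have hB : ArcB (refD D p) n HH A (fun _ => W) p 2 := arcB hC' (cut_ref D.hh) hnR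
  have hs0 := sh_nonneg p
  have hs1 := sh_le p
  obtain ⟨e1, e2, e3, e4⟩ := mem_FlD.1 he
  have hfw := hfwD hB hC'.toCoarse w0 e e1
  rw [e2] at hfw
  rw [← hfw] at hbx
  obtain ⟨u, v, x, y, k, o, rfl, rfl, hT, d1, d2, d3, d4⟩ := exists_bx e1 hbx
  have hk : k ≠ .R := by rintro rfl; exact TieP_not_R hT
  obtain ⟨w1, w2, w3, -⟩ := tie_wall (w0 := w0) hB hC'.toCoarse hT
  rw [e2] at w1 w2 w3
  have hw : D.w = n * W := hC.ww
  obtain ⟨b1, b2, b3, b4⟩ := hBx
  have hS := mem_SgI.1 hl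
  obtain ⟨⟨s1, s2, s3, s4⟩, hS⟩ := hS
  -- position of the tie
  have pos : D.lo + m ≤ u + 2 ∧ -1 ≤ v ∧ v ≤ D.h ∧ u + sh p + 2 * R' + 2 ≤ D.w := by
    have hly := LyA_ref.1 hT.ly
    have hEd := (mem_EdL.1 w.2).1
    rw [w1] at hEd
    have hOn := onT_bt (k := k) (c := o) (u := u) (v := v)
    have hpo := poD_tie hT
    cases k
    · obtain ⟨k1, k2, k3, -⟩ := hly
      have := hwd v k1 k2
      have := hlow v k1 k2
      omega
    · exact absurd rfl hk
    · obtain ⟨k1, k2, k3, k4, -⟩ := hly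
      have := hlow (v + 1) (by omega) k2
      have hX : w.1.2.1 < W := hEd.1.2.2.2
      have hX' : n * w.1.2.1 + n ≤ n * W := by
        have := mul_le_mul_of_nonneg_left (show w.1.2.1 + 1 ≤ W by omega) hC.pos.le
        linarith
      have hbW : bW n p w.1 = n * w.1.2.1 - sh p := by
        unfold bW
        rw [w1, if_neg (by simp [verS])]
      rw [hpo, if_neg (by simp [verS]), hbW] at e4
      unfold OnT at hOn
      omega
    · obtain ⟨k1, k2, k3, k4, -⟩ := hly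
      have := hlow (v - 1) (by omega) (by omega)
      have hX : w.1.2.1 < W := hEd.2.2.2.2
      have hX' : n * w.1.2.1 + n ≤ n * W := by
        have := mul_le_mul_of_nonneg_left (show w.1.2.1 + 1 ≤ W by omega) hC.pos.le
        linarith
      have hbW : bW n p w.1 = n * w.1.2.1 - sh p := by
        unfold bW
        rw [w1, if_neg (by simp [verS])]
      rw [hpo, if_neg (by simp [verS]), hbW] at e4
      unfold OnT at hOn
      omega
  omega

/-- **helper95's `VOnI` for the functional of the true window.** -/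
theorem vOnI (H : TruI D p m L K X1 X2 Y1 Y2 x0 r O S Sr) (hO : O'.Wo = ∅)
    (hC : CoarseRC (refD D p) n HH W A CL) (hn : 3 * m + 8 ≤ n) (hK : 2 * m + 4 ≤ K) (hmL : m ≤ L)
    (hlow : ∀ y, 0 ≤ y → y < D.h → D.lo + m ≤ D.a y) (w0 : KL HH A (fun _ => W))
    {Φ : Finset (ℤ × ℤ) → ℂ} (hF : ∀ E W : Finset (ℤ × ℤ),
      Tog E W (ZS X1 X2 Y1 Y2 x0 r) (fun w => Φ (w ∪ W))) :
    VOnI (VF (FTr Φ O p (Tlf D p) S) (EN (refD D p) p) (LBA (refD D p) p (m + 1)) (TA (refD D p) p)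
      (fmA (refD D p) p 2) (colp (refD D p))) (SgI D p X1 X2 Y1 Y2) O' n HH W A p 2 L m Sr H.subR
      w0 where
  tog := vtogI H hO (Subset.refl _) (fun e he => by
    obtain ⟨x, y, rfl⟩ := exists_lt (odd_TB he)
    exact mem_EN.2 (mem_LBA.1 he).1) hF
  togX := fun g hg => vtogXI H hO (Subset.refl _) (fun e he => by
    obtain ⟨x, y, rfl⟩ := exists_lt (odd_TB he)
    exact mem_EN.2 (mem_LBA.1 he).1) hC hg hn hK hF
  loc := vlocI H hO (Subset.refl _) (fun e he => by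
    obtain ⟨x, y, rfl⟩ := exists_lt (odd_TB he)
    exact mem_EN.2 (mem_LBA.1 he).1) hF
  deep := fun R' h8 hR w e he l hl => deepI hC H.box hmL H.tr.wd hlow w0 h8 hR w he hl

end Pool.Agent.H49.W.N
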