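import Pool.Agent.H49.W.TieEnv

set_option autoImplicit false
open Finset

/-! # The weights of the ties of a window with a flat right wall

`wk a b c k` : weight of the line at the cap `k` (`a` : line to the north, kinds `L`, `R`; `b` : line to
the west, kind `F`; `c` : line to the east, kind `C`). `qTp_tie` : with the weights `D.qJ τ a b c` the
weight of the tie of the cap `k` is `tw k.2 (wk a b c k)` (`tw` of `H42/Sp/TieVal` : `1 - w (1 - w)` at a
face, `w (1 - w)` at a vertex). `qJ_col`, `qJ_RE`, `qJ_RW`, `qJ_RB`, `qJ_RT` : the weights of the straight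
tiles, `qJ_bulk` : the tiles of the union off the line. -/

namespace Pool.Agent.H49.W

open Pool.Agent.H75.TwoArm Pool.Agent.Q1 Pool.Agent.H33.Q1
open Pool.Agent.H69.Q1
open Pool.Agent.H54.W Pool.Agent.H54.W.Win
open Pool.Agent.H13.R45 Pool.Agent.H13.Q1
open Pool.Agent.H42.Sp (Sd Ix kt rt kt_odd rt_even tw mg_tw mg_tw')

variable {D : Win} {τ : ℤ → ℤ} {a b c : ℂ} {x y : ℤ}

/-- weight of the line at a cap -/
noncomputable def wk (a b c : ℂ) : Ix → ℂ
  | (.L, _) => a
  | (.R, _) => a
  | (.F, _) => b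
  | (.C, _) => c

theorem qJ_lt : D.qJ τ a b c (lt (x, y)) = wal x y (D.wA τ a b c x y) := by
  unfold qJ
  simp only [tt_lt]

theorem wal_odd {w : ℂ} (h : (x + y) % 2 = 1) : wal x y w = 1 - w := by
  unfold wal; rw [if_neg (by omega)]

theorem wal_even {w : ℂ} (h : (x + y) % 2 = 0) : wal x y w = w := by
  unfold wal; rw [if_pos h]

/-! ### The straight tiles -/

/-- vertical tiles of the line -/
theorem qJ_col (h0 : 0 ≤ y) (h1 : y < D.h) (h2 : x = τ y - 1) (h3 : 0 < y → τ y ≤ τ (y - 1))
    (h4 : y + 1 < D.h → τ y ≤ τ (y + 1)) : D.qJ τ a b c (lt (x, y)) = wal x y a := by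
  rw [qJ_lt]
  unfold wA
  rw [if_neg (by omega), if_neg (by omega), if_pos h2, if_neg (by
    rintro ⟨g1, g2⟩
    have := h3 g1
    omega), if_neg (by
    rintro ⟨g1, g2⟩
    have := h4 g1
    omega)]

/-- tiles of a run to the east -/
theorem qJ_RE (H : Pos D τ) (h : D.RE τ x y) : D.qJ τ a b c (lt (x, y)) = wal x y (1 - c) := by
  have k := h.pos H
  obtain ⟨h0, h1, h2, h3⟩ := h
  rw [qJ_lt]
  unfold wA
  rw [if_neg (by omega), if_neg (by omega), if_neg (by omega), if_pos (by omega),
    if_pos ⟨h0, by omega⟩]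

/-- tiles of a run to the west -/
theorem qJ_RW (H : Pos D τ) (h : D.RW τ x y) : D.qJ τ a b c (lt (x, y)) = wal x y (1 - b) := by
  have k := h.pos H
  obtain ⟨h0, h1, h2, h3⟩ := h
  rw [qJ_lt]
  unfold wA
  rw [if_neg (by omega), if_neg (by omega), if_neg (by omega), if_pos (by omega), if_neg (by
    rintro ⟨g1, g2⟩
    exact up_dn H g1 h1 g2 (by omega))]

/-- tiles below the window -/
theorem qJ_RB (h : y < 0) : D.qJ τ a b c (lt (x, y)) = wal x y (1 - b) := by
  rw [qJ_lt]
  unfold wA
  rw [if_pos h]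

/-- tiles above the window -/
theorem qJ_RT (h : D.h ≤ y) : D.qJ τ a b c (lt (x, y)) = wal x y (1 - c) := by
  have := D.hh
  rw [qJ_lt]
  unfold wA
  rw [if_neg (by omega), if_pos h]

/-- tiles of the union off the line -/
theorem qJ_bulk (h : D.InU x y) (h2 : x ≠ τ y - 1) : D.qJ τ a b c (lt (x, y)) = 1 / 2 := by
  obtain ⟨g0, g1, g2, g3⟩ := h
  rw [qJ_lt]
  unfold wA
  rw [if_neg (by omega), if_neg (by omega), if_neg h2, if_neg (by omega)]
  unfold wal
  split_ifs
  · rfl
  · norm_num

/-- the turn of the line to the east at the end of a run -/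
theorem qJ_tE (h0 : 0 < y) (h1 : y < D.h) (h2 : x = τ y - 1) (h3 : τ (y - 1) < τ y) :
    D.qJ τ a b c (lt (x, y)) = wal x y ((1 - c) * a) := by
  rw [qJ_lt]
  unfold wA
  rw [if_neg (by omega), if_neg (by omega), if_pos h2, if_pos ⟨h0, h3⟩]

/-- the turn of the line to the west at the beginning of a run -/
theorem qJ_tW (H : Pos D τ) (h0 : 0 ≤ y) (h1 : y + 1 < D.h) (h2 : x = τ y - 1)
    (h3 : τ (y + 1) < τ y) : D.qJ τ a b c (lt (x, y)) = wal x y (1 - (1 - a) * b) := by
  rw [qJ_lt]
  unfold wA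
  rw [if_neg (by omega), if_neg (by omega), if_pos h2, if_neg (by
    rintro ⟨g1, g2⟩
    exact up_dn H g1 h1 g2 h3), if_pos ⟨h1, h3⟩]

/-! ### The ties -/

/-- **The weights of the ties.** -/
theorem qTp_tie (H : Pos D τ) {P : Finset Ix} (hP : ∀ k ∈ P, CP D τ k) {k : Ix} (hk : k ∈ P) :
    qTp P (D.qJ τ a b c) (lt (kt k)) = tw k.2 (wk a b c k) := by
  rw [qTp_kt H hP hk]
  have hck := hP k hk
  clear hk hP
  obtain ⟨s, x, y⟩ := k
  cases s
  · obtain ⟨g0, g1, g2, g3, g4, g5, g6, g7, g8⟩ := hck
    have k1 : D.qJ τ a b c (lt (x, y)) = wal x y a :=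
      qJ_col (by omega) g1 (by omega) (fun _ => by omega) g7
    have k2 : D.qJ τ a b c (lt (x, y - 1)) = wal x (y - 1) a :=
      qJ_col (by omega) (by omega) (by omega) (fun h => by
        have := g6 (by omega)
        rw [show y - 1 - 1 = y - 2 by ring]
        exact this) (fun _ => by
        rw [sub_add_cancel]; omega)
    unfold wk kt rt
    simp only
    by_cases h : (x + y) % 2 = 1
    · simp only [if_pos h]
      rw [k1, k2, wal_odd h, wal_even (by omega)]
      exact mg_tw' _ _
    · simp only [if_neg h]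
      rw [k1, k2, wal_odd (by omega), wal_even (by omega)]
      exact mg_tw' _ _
  · obtain ⟨g0, g1, g2, g3, g4, g5, g6⟩ := hck
    have a1 := D.aw y (by omega) g1
    have a2 := D.aw (y - 1) (by omega) (by omega)
    have k1 : D.qJ τ a b c (lt (x - 1, y)) = wal (x - 1) y a :=
      qJ_col (by omega) g1 (by omega) (fun _ => by omega) (fun h => by
        by_contra hcon
        have := H.dn y (by omega) h (by omega)
        omega)
    have k2 : D.qJ τ a b c (lt (x - 1, y - 1)) = wal (x - 1) (y - 1) a :=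
      qJ_col (by omega) (by omega) (by omega) (fun h => by
        by_contra hcon
        have := H.up (y - 1 - 1) (by omega) (by omega) (by rw [sub_add_cancel]; omega)
        rw [sub_add_cancel] at this
        omega) (fun _ => by
        rw [sub_add_cancel]; omega)
    unfold wk kt rt
    simp only
    by_cases h : (x + y) % 2 = 1
    · simp only [if_pos h]
      rw [k1, k2, wal_odd (by omega), wal_even (by omega)]
      exact mg_tw' _ _
    · simp only [if_neg h]
      rw [k1, k2, wal_odd (by omega), wal_even (by omega)]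
      exact mg_tw' _ _
  · have key : D.qJ τ a b c (lt (x, y)) = wal x y (1 - b) ∧
        D.qJ τ a b c (lt (x - 1, y)) = wal (x - 1) y (1 - b) := by
      rcases hck with ⟨g1, g2, g3, g4, g5⟩ | ⟨g1, g2, g3, g4⟩
      · exact ⟨qJ_RW H ⟨g1, g2, by omega, by omega⟩, qJ_RW H ⟨g1, g2, by omega, by omega⟩⟩
      · exact ⟨qJ_RB (by omega), qJ_RB (by omega)⟩
    unfold wk kt rt
    simp only
    by_cases h : (x + y) % 2 = 1
    · simp only [if_pos h]
      rw [key.1, key.2, wal_odd h, wal_even (by omega), show (1 : ℂ) - (1 - b) = b by ring]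
      exact mg_tw _ _
    · simp only [if_neg h]
      rw [key.1, key.2, wal_odd (by omega), wal_even (by omega), show (1 : ℂ) - (1 - b) = b by ring]
      exact mg_tw _ _
  · have key : D.qJ τ a b c (lt (x, y - 1)) = wal x (y - 1) (1 - c) ∧
        D.qJ τ a b c (lt (x - 1, y - 1)) = wal (x - 1) (y - 1) (1 - c) := by
      rcases hck with ⟨g1, g2, g3, g4, g5⟩ | ⟨g1, g2, g3, g4⟩
      · have e : y - 1 - 1 = y - 2 := by ring
        exact ⟨qJ_RE H ⟨by omega, g2, by rw [e]; omega, by omega⟩,
          qJ_RE H ⟨by omega, g2, by rw [e]; omega, by omega⟩⟩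
      · exact ⟨qJ_RT (by omega), qJ_RT (by omega)⟩
    unfold wk kt rt
    simp only
    by_cases h : (x + y) % 2 = 1
    · simp only [if_pos h]
      rw [key.1, key.2, wal_odd (by omega), wal_even (by omega), show (1 : ℂ) - (1 - c) = c by ring]
      exact mg_tw _ _
    · simp only [if_neg h]
      rw [key.1, key.2, wal_odd (by omega), wal_even (by omega), show (1 : ℂ) - (1 - c) = c by ring]
      exact mg_tw _ _

end Pool.Agent.H49.W
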