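import Pool.Agent.H42.W.Loc

set_option autoImplicit false
open Finset

/-! # Locality, functionals with more fixed open labels

Successor of the part on locality of `H42/W/Loc`. `W` : fixed open labels of the reference, `Wt` : of the
functional. `AgrK` : in a box around an open tie the labels of `Wt` which are not in `W` are joined to the outer
end of the tie inside the box, belong to the mask and do not touch the layer. `vloc_K` : the field `VLoc`. -/

namespace Pool.Agent.H49.W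

open Pool.Agent.H75.Perc Pool.Agent.H75.TwoArm Pool.Agent.H75.Four Pool.Agent.H69.Q1
open Pool.Agent.Q1 Pool.Agent.H25.Q1.Add Pool.Agent.H99.NC Pool.Agent.H49.Perc
open Pool.Agent.H60.Q1 Pool.Agent.H39.Q1
open Pool.Agent.H15.W (DV TotV Tot0V VTog VTogX VLoc DV_free farV)
open Pool.Agent.H20.Q1 (Eh CS hf near_iff far_iff BR_ends BR_of_ends)
open Pool.Agent.H42.W

/-- **More fixed open labels in a box around an open tie**, `w0` : outer end of the tie -/
structure AgrK (W Wt M Λ T : Finset (ℤ × ℤ)) (b : ℤ × ℤ → ℤ × ℤ) (w w0 : ℤ × ℤ) (m R : ℤ) : Prop where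
  sub : ∀ l ∈ BR w R, l ∈ W → l ∈ Wt
  co : ∀ r, m < r → r ≤ R → ∀ x y, IsUnit4 (y - x) → x + y ∈ BR w r → x + y ∈ Wt → x + y ∉ W →
    Co (Wt ∩ BR w r) x w0
  msk : ∀ l ∈ BR w R, l ∈ Wt → l ∈ M
  nv : ∀ x y, IsUnit4 (y - x) → VO Λ T b x → x + y ∈ BR w R → x + y ∈ Wt → x + y ∈ W

section box

variable {X : Env} {W Wt M Λ Ti W1 K1 Wm Go S : Finset (ℤ × ℤ)} {tv tu tb te : ℤ × ℤ → ℤ × ℤ}
  {F : Finset (ℤ × ℤ) → ℂ} {e0 w t w0 : ℤ × ℤ} {ρ r : ℤ}

/-- **Open colour.** -/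
theorem F_loc_openK (hF : Tog X.E Wt M F) {m R : ℤ} (hK : AgrK W Wt M Λ Ti tv w w0 m R) (hmr : m < r)
    (hrR : r ≤ R) (hM : MskO M Λ Ti Wm tv) (hT : TiesO X W Ti W1 tv tu)
    (hGo : Go ⊆ X.E \ Ti) (hB : BoxO X W Ti W1 tu S w w0 ρ r) (hSL : S ⊆ Λ ∪ Ti)
    (hΛ : Go ∩ BR w r ⊆ Λ)
    (hone : OneX Go S w ρ r t) (he0 : e0 ∈ Ti) (hx : inR w ρ (tv e0))
    (ht : ∃ v, ¬ inR w (r - 1) v ∧ Co (Go ∩ BR w r) (tv e0) v)
    (hct : clO (Go ∪ (W \ W1)) Λ Ti tv e0 ⊆ S)
    (hsol : ¬ Co ((Go ∪ (W \ W1)) ∩ Λ ∪ W1) (tu e0) (tv e0)) :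
    F (Go ∪ (Ti \ clO (Go ∪ (W \ W1)) Λ Ti tv e0)) = F ((Go \ S) ∪ (Ti \ S)) ∧
      F (Go ∪ Ti) = F ((Go \ S) ∪ (Ti \ S) ∪ S) := by
  classical
  set G := Go ∪ (W \ W1) with hG
  set cl := clO G Λ Ti tv e0 with hcl
  set ωo := (Go \ S) ∪ (Ti \ S) with hωo
  have hGoE : Go ⊆ X.E := hGo.trans sdiff_subset
  have hGoTi : ∀ l ∈ Go, l ∉ Ti := fun l hl => (mem_sdiff.1 (hGo hl)).2
  have he0cl : e0 ∈ cl := mem_clO.2 ⟨he0, Co.refl _ _⟩
  have he0S : e0 ∈ S := hct he0cl
  have hωoE : ωo ⊆ X.E \ S := by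
    intro l hl
    rw [hωo, mem_union, mem_sdiff, mem_sdiff] at hl
    rw [mem_sdiff]
    rcases hl with hl | hl
    · exact ⟨hGoE hl.1, hl.2⟩
    · exact ⟨hT.sub hl.1, hl.2⟩
  set A := (ωo ∪ Wt) ∩ BR w r with hA
  have hW1A : W1 ∩ BR w r ⊆ A := by
    intro l hl
    rw [mem_inter] at hl
    exact mem_inter.2 ⟨mem_union_right _ (hK.sub l (BR_mono' hrR hl.2) (hT.w1 hl.1)), hl.2⟩
  have hWtA : Wt ∩ BR w r ⊆ A := inter_subset_inter_right subset_union_right
  have hζA : Go ∩ (BR w r \ S) ⊆ A := by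
    intro l hl
    rw [mem_inter, mem_sdiff] at hl
    exact mem_inter.2 ⟨mem_union_left _ (mem_union_left _ (mem_sdiff.2 ⟨hl.1, hl.2.2⟩)), hl.2.1⟩
  have hSr : S ⊆ BR w r := hB.sr.trans (BR_mono' hB.lt.le)
  have hwl : ∀ u v, IsUnit4 (v - u) → u + v ∈ A → u + v ∉ Go ∩ (BR w r \ S) → Co A v w0 := by
    intro u v huv hl hlζ
    rw [hA, mem_inter] at hl
    rcases mem_union.1 hl.1 with h5 | h5
    · rw [hωo] at h5
      rcases mem_union.1 h5 with h6 | h6
      · exact absurd (mem_inter.2 ⟨(mem_sdiff.1 h6).1, mem_sdiff.2 ⟨hl.2, (mem_sdiff.1 h6).2⟩⟩) hlζ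
      · have h7 := (mem_sdiff.1 h6).1
        have h8 := (hB.b2 _ h7 hl.2).mono hW1A
        rcases end_cases (hT.unit _ h7) (hT.ends _ h7) huv rfl with ⟨-, h9⟩ | ⟨h9, h9'⟩
        · have h10 : Co A (tu (u + v)) (tv (u + v)) :=
            Relation.ReflTransGen.single ⟨hT.unit _ h7, by
              rw [hT.ends _ h7]; exact mem_inter.2 hl⟩
          rw [h9]
          exact h10.symm.trans h8
        · rw [h9']; exact h8
    · by_cases h7 : u + v ∈ W
      · have h6 : u + v ∈ W1 ∩ BR w r := by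
          exact mem_inter.2 ⟨hB.b3 (mem_inter.2 ⟨h7, hl.2⟩), hl.2⟩
        exact (hB.b1 v u (usym huv) (by rw [add_comm]; exact h6)).mono hW1A
      · exact (hK.co r hmr hrR v u (usym huv) (by rw [add_comm]; exact hl.2)
          (by rw [add_comm]; exact h5) (by rw [add_comm]; exact h7)).mono hWtA
  have hty : ∀ s v, (∃ z, IsUnit4 (z - s) ∧ s + z ∈ S) → ¬ inR w (r - 1) v → Co A v s →
      Co A s t ∨ Co A s w0 := by
    rintro s v ⟨z, h1, h2⟩ h3 h4
    exact ty_of (ρ := ρ) (r := r) (w := w) (ζ := Go ∩ (BR w r \ S)) hwl hζA hone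
      (BR_ends h1 (hB.sr h2)).1 h3 h4
  have hadj : ∀ x z y, IsUnit4 (z - x) → x + z ∈ A ∪ S → ¬ Co A x w0 → IsUnit4 (y - x) →
      x + y ∈ M := by
    intro x z y h1 h2 h3 h4
    refine hM.adj x y h4 ?_
    have htie : x + z ∈ Ti → x + z ∈ BR w r → VO Λ Ti tv x := by
      intro h5 h6
      have h8 := (hB.b2 _ h5 h6).mono hW1A
      rcases end_cases (hT.unit _ h5) (hT.ends _ h5) h1 rfl with ⟨h9, -⟩ | ⟨h9, -⟩
      · exact absurd (by rw [h9]; exact h8) h3
      · exact Or.inl ⟨_, h5, h9.symm⟩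
    rcases mem_union.1 h2 with h5 | h5
    · rw [hA, mem_inter] at h5
      rcases mem_union.1 h5.1 with h6 | h6
      · rw [hωo] at h6
        rcases mem_union.1 h6 with h7 | h7
        · exact Or.inr ⟨z, h1, hΛ (mem_inter.2 ⟨(mem_sdiff.1 h7).1, h5.2⟩)⟩
        · exact htie (mem_sdiff.1 h7).1 h5.2
      · exfalso
        apply h3
        by_cases h7 : x + z ∈ W
        · exact (hB.b1 x z h1 (mem_inter.2 ⟨hB.b3 (mem_inter.2 ⟨h7, h5.2⟩), h5.2⟩)).mono hW1A
        · exact (hK.co r hmr hrR x z h1 h5.2 h6 h7).mono hWtA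
    · rcases mem_union.1 (hSL h5) with h6 | h6
      · exact Or.inr ⟨z, h1, h6⟩
      · exact htie h6 (hSr h5)
  have hSM : S ⊆ M := fun l hl => hM.sub (mem_union_left _ (hSL hl))
  have hAM : A ⊆ M := by
    intro l hl
    rw [hA, mem_inter] at hl
    rcases mem_union.1 hl.1 with h5 | h5
    · rw [hωo] at h5
      rcases mem_union.1 h5 with h6 | h6
      · exact hM.sub (mem_union_left _ (mem_union_left _
          (hΛ (mem_inter.2 ⟨(mem_sdiff.1 h6).1, hl.2⟩))))
      · exact hM.sub (mem_union_left _ (mem_union_right _ (mem_sdiff.1 h6).1))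
    · exact hK.msk l (BR_mono' hrR hl.2) h5
  have hodd : ∀ l ∈ S, (l.1 + l.2) % 2 = 1 := fun l hl => X.odd l (hB.sE hl)
  -- the vertex of the tie is joined to `t` in the box
  obtain ⟨v, hv1, hv2⟩ := ht
  have hxt : Co (Go ∩ BR w r) (tv e0) t :=
    near_to_t hB.sr hone (Subset.refl _) hx hv1 hv2
  have hw0 : Co W1 (tu e0) w0 :=
    (hB.b2 e0 he0 (BR_mono' hB.lt.le (hB.sr he0S))).mono inter_subset_left
  -- tied
  have htied : Co (A ∪ ((Go ∩ S) ∪ (Ti ∩ S))) t w0 := by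
    have m1 : Go ∩ BR w r ⊆ A ∪ ((Go ∩ S) ∪ (Ti ∩ S)) := by
      intro l hl
      rw [mem_inter] at hl
      by_cases hlS : l ∈ S
      · exact mem_union_right _ (mem_union_left _ (mem_inter.2 ⟨hl.1, hlS⟩))
      · exact mem_union_left _ (hζA (mem_inter.2 ⟨hl.1, mem_sdiff.2 ⟨hl.2, hlS⟩⟩))
    have h1 : Co (A ∪ ((Go ∩ S) ∪ (Ti ∩ S))) (tu e0) (tv e0) :=
      Relation.ReflTransGen.single ⟨hT.unit _ he0, by
        rw [hT.ends _ he0]
        exact mem_union_right _ (mem_union_right _ (mem_inter.2 ⟨he0, he0S⟩))⟩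
    have h2 := (hB.b2 e0 he0 (BR_mono' hB.lt.le (hB.sr he0S))).mono
      (hW1A.trans (subset_union_left (s₂ := (Go ∩ S) ∪ (Ti ∩ S))))
    exact ((hxt.mono m1).symm.trans h1.symm).trans h2
  -- cut
  have hcut : ¬ Co (A ∪ ((Go ∩ S) ∪ ((Ti ∩ S) \ cl))) t w0 := by
    intro hcon
    have hGΛ : Go ∩ BR w r ⊆ G ∩ Λ := fun l hl =>
      mem_inter.2 ⟨mem_union_left _ (mem_inter.1 hl).1, hΛ hl⟩
    have key : ∀ x, Co (A ∪ ((Go ∩ S) ∪ ((Ti ∩ S) \ cl))) t x → Co (G ∩ Λ) (tv e0) x := by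
      intro x hx'
      induction hx' with
      | refl => exact hxt.mono hGΛ
      | @tail a b _ hab ih =>
        have hsolid : Co W1 (tu e0) a → False := fun h => hsol
          ((h.mono subset_union_right).trans (ih.mono subset_union_left).symm)
        have htie : a + b ∈ Ti → a + b ∉ cl → False := by
          intro h5 h6
          rcases end_cases (hT.unit _ h5) (hT.ends _ h5) hab.1 rfl with ⟨h7, -⟩ | ⟨h7, -⟩
          · apply hsolid
            rw [h7]; exact hT.conn e0 he0 _ h5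
          · apply h6
            rw [hcl, mem_clO]
            refine ⟨h5, ?_⟩
            rw [← h7]; exact ih
        rcases mem_union.1 hab.2 with hl | hl
        · rw [hA, mem_inter] at hl
          rcases mem_union.1 hl.1 with h5 | h5
          · rw [hωo] at h5
            rcases mem_union.1 h5 with h6 | h6
            · exact ih.tail ⟨hab.1, hGΛ (mem_inter.2 ⟨(mem_sdiff.1 h6).1, hl.2⟩)⟩
            · exact (htie (mem_sdiff.1 h6).1 fun h => (mem_sdiff.1 h6).2 (hct h)).elim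
          · have h5' : a + b ∈ W := hK.nv a b hab.1 (VO_of_co he0 ih) (BR_mono' hrR hl.2) h5
            have h6 : a + b ∈ W1 := hB.b3 (mem_inter.2 ⟨h5', hl.2⟩)
            exact (hsolid (hT.conn' a b hab.1 h6 e0 he0)).elim
        · rcases mem_union.1 hl with h5 | h5
          · have h6 := mem_inter.1 h5
            exact ih.tail ⟨hab.1, hGΛ (mem_inter.2 ⟨h6.1, BR_mono' hB.lt.le (hB.sr h6.2)⟩)⟩
          · obtain ⟨h6, h7⟩ := mem_sdiff.1 h5
            exact (htie (mem_inter.1 h6).1 h7).elim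
    have h1 := key w0 hcon
    exact hsol ((hw0.mono subset_union_right).trans (h1.mono subset_union_left).symm)
  have e1 : Go ∪ Ti = ωo ∪ ((Go ∩ S) ∪ (Ti ∩ S)) := by
    rw [hωo]
    ext l
    by_cases hl : l ∈ S <;> simp only [mem_union, mem_sdiff, mem_inter, hl, not_true, not_false_iff,
      and_true, and_false, false_or, or_false]
  have e2 : Go ∪ (Ti \ cl) = ωo ∪ ((Go ∩ S) ∪ ((Ti ∩ S) \ cl)) := by
    rw [hωo]
    ext l
    have h1 : l ∉ S → l ∉ cl := fun h h' => h (hct h')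
    by_cases hl : l ∈ S
    · simp only [mem_union, mem_sdiff, mem_inter, hl, not_true, and_true, and_false, false_or]
    · simp only [mem_union, mem_sdiff, mem_inter, hl, h1 hl, not_false_iff, and_true, and_false,
        or_false]
  have s1 : (Go ∩ S) ∪ (Ti ∩ S) ⊆ S := union_subset inter_subset_right inter_subset_right
  have s2 : (Go ∩ S) ∪ ((Ti ∩ S) \ cl) ⊆ S :=
    union_subset inter_subset_right (sdiff_subset.trans inter_subset_right)
  have hSWt : Disjoint S Wt := by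
    rw [disjoint_left]
    intro l hl hl'
    have h1 : l ∈ W := by
      rcases mem_union.1 (hSL hl) with h2 | h2
      · obtain ⟨g1, g2⟩ := ends_vx (hodd l hl)
        have := hK.nv _ _ g1 (Or.inr ⟨_, g1, by rw [g2]; exact h2⟩) (by
          rw [g2]; exact BR_mono' hrR (hSr hl)) (by rw [g2]; exact hl')
        rwa [g2] at this
      · have g1 := hT.unit l h2
        have g2 := hT.ends l h2
        have := hK.nv (tv l) (tu l) (usym g1) (Or.inl ⟨l, h2, rfl⟩) (by
          rw [add_comm, g2]; exact BR_mono' hrR (hSr hl)) (by rw [add_comm, g2]; exact hl')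
        rwa [add_comm, g2] at this
    exact disjoint_left.1 hB.sW hl h1
  rw [e1, e2]
  exact ⟨(fill_open hF hB.sE hSWt hSM hωoE hAM hty hadj hodd s2).2 hcut,
    (fill_open hF hB.sE hSWt hSM hωoE hAM hty hadj hodd s1).1 htied⟩

end box

section fields

variable {ι : Type*} [DecidableEq ι] {X : Env} {W Wt Bb B TT Sg ω ω' θ P : Finset (ℤ × ℤ)}
  {fm : ℤ × ℤ → ι} {co : ι → Bool} {Wl Wm La Λ M : ι → Finset (ℤ × ℤ)}
  {b o : ℤ × ℤ → ℤ × ℤ} {e x w t : ℤ × ℤ} {i : ι} {m ρ r R : ℤ} {F : Finset (ℤ × ℤ) → ℂ}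

/-- open ties -/
theorem locFOK (h : Multi X W Bb B TT fm co Wl La b o) (hF : Tog X.E Wt (M (fm e)) F)
    (hK : AgrK W Wt (M (fm e)) (La (fm e)) (TF TT fm (fm e)) b w (o e) m R)
    (hM : MskO (M (fm e)) (La (fm e)) (TF TT fm (fm e)) (Wm (fm e)) b)
    (hi : co (fm e) = true)
    (hG : WallO X W Bb TT (TF TT fm (fm e)) (Wl (fm e)) (La (fm e)) b o e w m R)
    (hmρ : m < ρ) (hρr : ρ < r) (hrR : r ≤ R) (he : e ∈ TT) (hω : ω ⊆ B)
    (hx : Gx w ρ r (gr co La (fm e) ω ∩ (BR w r \ BR w ρ)) t)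
    (ht : Co (gr co La (fm e) ω) (b e) t)
    (hcn : ∀ v, WV (TF TT fm (fm e)) b v → Co (gr co La (fm e) ω) (b e) v → inR w m v)
    (hnt : ¬ Tch (gr co La (fm e) ω) (Wl (fm e)) (b e)) :
    DV (VF F Bb B TT fm co) TT fm co La b e ω =
      psiFO F Bb B TT fm co (fm e) ((La (fm e) ∪ TF TT fm (fm e)) ∩ BR w ρ) (ω \ BR w ρ) := by
  classical
  have egr : gr co La (fm e) ω = ω ∩ La (fm e) := by
    unfold gr; rw [if_pos hi]
  rw [DV_O h hi]
  unfold psiFO
  refine Ec_congr fun ω' hω' => ?_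
  set i := fm e with hidef
  set T := TF TT fm i with hT
  set η := gr co La i ω with hη
  set Go := ω ∪ (ω' ∪ oth TT fm co i) with hGo
  set S := (La i ∪ T) ∩ BR w ρ with hS
  have heT : e ∈ T := mem_TF.2 ⟨he, rfl⟩
  have hTO := h.tO i hi
  have hρR : ρ < R := by omega
  have hBR : ∀ {l : ℤ × ℤ}, l ∈ Go → l ∈ BR w R → l ∈ ω ∧ l ∈ La i := by
    intro l h1 h2
    have h3 := hG.inb l (h.go_in hω hω' h1) h2
    exact ⟨h.go_la hω' h1 h3, h3⟩
  have hinm : inR w m (b e) := hcn _ ⟨e, heT, rfl⟩ (Co.refl _ _)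
  have hxρ : inR w ρ (b e) := by
    rw [inR_iff] at hinm ⊢; omega
  have eζ : Go ∩ (BR w r \ S) = η ∩ (BR w r \ BR w ρ) := by
    ext l
    have m1 : l ∈ Go ∩ (BR w r \ S) ↔ l ∈ Go ∧ l ∈ BR w r ∧ l ∉ S := by
      rw [mem_inter, mem_sdiff]
    have m2 : l ∈ η ∩ (BR w r \ BR w ρ) ↔ l ∈ η ∧ l ∈ BR w r ∧ l ∉ BR w ρ := by
      rw [mem_inter, mem_sdiff]
    rw [m1, m2]
    constructor
    · rintro ⟨h1, h2, h3⟩
      obtain ⟨h4, h5⟩ := hBR h1 (BR_mono' hrR h2)
      refine ⟨by rw [egr]; exact mem_inter.2 ⟨h4, h5⟩, h2, fun h6 => h3 ?_⟩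
      exact mem_inter.2 ⟨mem_union_left _ h5, h6⟩
    · rintro ⟨h1, h2, h3⟩
      rw [egr] at h1
      exact ⟨mem_union_left _ (mem_inter.1 h1).1, h2, fun h4 => h3 (mem_inter.1 h4).2⟩
  have hB : BoxO X W T (Wl i) o S w (o e) ρ r := by
    refine ⟨hG.conn ρ hmρ hρR, fun l hl => ?_, ?_, inter_subset_right, hρr, hG.b1 r (by omega) hrR,
      hG.b2 r (by omega) hrR, fun l hl => ?_, fun hl => hG.root (BR_mono' hrR hl)⟩
    · rcases mem_union.1 (mem_inter.1 hl).1 with h1 | h1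
      · exact h.bE (h.bB (h.la i h1))
      · exact hTO.sub h1
    · rw [disjoint_left]
      intro l hl h2
      rcases mem_union.1 (mem_inter.1 hl).1 with h1 | h1
      · exact disjoint_left.1 h.la_W h1 h2
      · exact disjoint_left.1 hTO.disj h1 h2
    · rw [mem_inter] at hl
      exact hG.wsub (mem_inter.2 ⟨hl.1, BR_mono' hrR hl.2⟩)
  have hone : OneX Go S w ρ r t := by
    intro u v h1 h2 h3
    rw [eζ] at h3 ⊢
    exact (hx.2.2 u v (near_iff.2 h1) (far_iff.2 h2) h3).symm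
  have hd : Disjoint (ω' ∪ oth TT fm co i) B := by
    rw [disjoint_union_left]
    refine ⟨disjoint_left.2 fun l h1 h2 => (mem_sdiff.1 (hω' h1)).2 h2,
      disjoint_left.2 fun l h1 h2 => ?_⟩
    exact disjoint_left.1 h.bT (h.bB h2) (mem_oth.1 h1).1.1
  have hcap : (Go ∪ (W \ Wl i)) ∩ La i = η := by
    rw [egr]; exact h.capO hd
  have key := F_loc_openK (Λ := La i) (e0 := e) (t := t) hF hK (by omega) hrR hM hTO
    (h.go_sub hω hω') hB inter_subset_left (fun l hl => ?_) hone heT hxρ ?_ ?_ ?_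
  · rw [key.1, key.2]
    have e1 : Go \ S = ω \ BR w ρ ∪ (ω' ∪ oth TT fm co i) := by
      ext l
      have m1 : l ∈ Go \ S ↔ l ∈ Go ∧ l ∉ S := mem_sdiff
      have m2 : l ∈ ω \ BR w ρ ∪ (ω' ∪ oth TT fm co i) ↔
          (l ∈ ω ∧ l ∉ BR w ρ) ∨ l ∈ ω' ∪ oth TT fm co i := by rw [mem_union, mem_sdiff]
      rw [m1, m2]
      constructor
      · rintro ⟨h1, h2⟩
        rcases mem_union.1 h1 with h3 | h3
        · refine Or.inl ⟨h3, fun h4 => h2 (mem_inter.2 ⟨mem_union_left _ ?_, h4⟩)⟩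
          exact (hBR h1 (BR_mono' hρR.le h4)).2
        · exact Or.inr h3
      · rintro (⟨h1, h2⟩ | h1)
        · exact ⟨mem_union_left _ h1, fun h3 => h2 (mem_inter.1 h3).2⟩
        · refine ⟨mem_union_right _ h1, fun h2 => ?_⟩
          have h3 := hBR (mem_union_right _ h1) (BR_mono' hρR.le (mem_inter.1 h2).2)
          exact disjoint_left.1 hd h1 (hω h3.1)
    rw [e1]
  · obtain ⟨h1, h2⟩ := mem_inter.1 hl
    exact (hBR h1 (BR_mono' hrR h2)).2
  · have hxr : |(b e).1 - w.1| < r ∧ |(b e).2 - w.2| < r := by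
      rw [abs_lt, abs_lt]
      rw [inR_iff] at hinm
      omega
    obtain ⟨v', h1, h2⟩ := open_exit ht hxr hx.1
    refine ⟨v', far_iff.1 h1, h2.mono fun l hl => ?_⟩
    obtain ⟨h3, h4⟩ := mem_inter.1 hl
    rw [egr] at h3
    exact mem_inter.2 ⟨mem_union_left _ (mem_inter.1 h3).1, h4⟩
  · intro e' he'
    rw [mem_clO, hcap] at he'
    have h1 := hcn _ ⟨e', he'.1, rfl⟩ he'.2
    refine mem_inter.2 ⟨mem_union_right _ he'.1, ?_⟩
    rw [← hTO.ends e' he'.1]
    exact tie_box hmρ (hTO.unit e' he'.1) h1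
  · rw [hcap]
    intro h1
    apply hnt
    refine tch_of_co (fun z hz hl => ?_) hG.ne h1
    rw [egr] at hl
    exact hG.oe z hz (mem_inter.1 hl).2

/-- **Field `VLoc`**, more fixed open labels. -/
theorem vloc_K (h : Multi X W Bb B TT fm co Wl La b o) (hF : ∀ i, (TF TT fm i).Nonempty → Tog X.E Wt (M i) F)
    (hM : Msk TT fm co Wm La M b) (hW : Agr X.E W Wt TT fm co Wl La M b o)
    (hKO : ∀ e ∈ TT, co (fm e) = true → ∀ w m R,
      WallO X W Bb TT (TF TT fm (fm e)) (Wl (fm e)) (La (fm e)) b o e w m R →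
      (∀ l ∈ Sg, l ∉ BR w R) → inR w m (b e) → m < R →
      AgrK W Wt (M (fm e)) (La (fm e)) (TF TT fm (fm e)) b w (o e) m R)
    (hKC : ∀ e ∈ TT, co (fm e) = false → ∀ w m R,
      WallC X W Bb TT (TF TT fm (fm e)) (Wl (fm e)) (La (fm e)) b o e w m R →
      (∀ l ∈ Sg, l ∉ BD w R) → ∀ l ∈ BD w R, (l ∈ Wt ↔ l ∈ W))
    (hwm : ∀ i, (TF TT fm i).Nonempty → ∀ l ∈ Wl i, l ∉ Sg → l ∈ M i) :
    VLoc (VF F Bb B TT fm co) X W Bb B TT Sg fm co Wl La b o := by
  classical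
  intro e he w m ρ r R hG hmρ hρr hrR hSgw
  have hTog := vtog_F' h hF hM hW
  set i := fm e with hi
  set T := TF TT fm i with hT
  have heT : e ∈ T := mem_TF.2 ⟨he, rfl⟩
  set Wg := if co i = true then Wl i else du (Wl i) ∅ with hWg
  set psi := if co i = true then
      psiFO F Bb B TT fm co i ((La i ∪ T) ∩ BR w ρ) else
      psiFC F Bb B TT fm co i ((La i ∪ T) ∩ BD w ρ) with hpsi
  refine ⟨fun z => if ∃ t, Gx w ρ r (gr co La i z ∩ (BR w r \ BR w ρ)) t ∧
    ¬ Tch (gr co La i z \ BR w ρ) Wg t then psi z else 0, ?_⟩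
  intro ω hω t hx ht hcn
  set z := ω \ bx (co i) w ρ with hz
  have e1 : gr co La i z \ BR w ρ = gr co La i ω \ BR w ρ := gr_out
  have e2 : gr co La i z ∩ (BR w r \ BR w ρ) = gr co La i ω ∩ (BR w r \ BR w ρ) := by
    have h1 : ∀ η : Finset (ℤ × ℤ), η ∩ (BR w r \ BR w ρ) = (η \ BR w ρ) ∩ BR w r := by
      intro η; ext l; simp only [mem_inter, mem_sdiff]; tauto
    rw [h1, h1, e1]
  have hinm : inR w m (b e) := hcn _ ⟨e, heT, rfl⟩ (Co.refl _ _)
  have hxρ : inR w ρ (b e) := by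
    rw [inR_iff] at hinm ⊢; omega
  have hsep : ∀ y z, IsUnit4 (z - y) → y + z ∈ Wg → Co (gr co La i ω) (b e) y →
      ¬ inR w R y := by
    intro y z h1 h2 h3
    unfold WallG at hG
    rw [← hi] at hG
    rw [hWg] at h2
    unfold gr at h3
    rcases hco : co i with _ | _
    · rw [hco] at hG h2 h3
      rw [if_neg Bool.false_ne_true] at hG h2 h3
      exact hG.sep y z h1 (of_mem_du h2).1 (VC_of_co heT h3)
    · rw [hco] at hG h2 h3
      rw [if_pos rfl] at hG h2 h3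
      exact hG.sep y z h1 h2 (VO_of_co heT h3)
  have hiff := tch_iff (η := gr co La i ω) (Wg := Wg) hxρ hρr hrR hx ht hsep
  by_cases hT' : Tch (gr co La i ω) Wg (b e)
  · have h0 : DV (VF F Bb B TT fm co) TT fm co La b e ω = 0 := by
      refine DV_free h hTog hω he ?_
      unfold fre
      rw [← hi]
      rw [hWg] at hT'
      unfold gr at hT'
      rcases hco : co i with _ | _
      · rw [hco] at hT'
        rw [if_neg Bool.false_ne_true, if_neg Bool.false_ne_true] at hT'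
        rw [if_neg Bool.false_ne_true]
        right
        rw [h.duC']
        refine co_of_tch (fun a b' h1 h2 => ?_) hT'
        exact (h.tC i hco).conn' a b' h1 (of_mem_du h2).1 e heT
      · rw [hco] at hT'
        rw [if_pos rfl, if_pos rfl] at hT'
        rw [if_pos rfl]
        right
        rw [h.capO']
        exact co_of_tch (fun a b' h1 h2 => (h.tO i hco).conn' a b' h1 h2 e heT) hT'
    rw [h0]
    simp only
    rw [if_neg]
    rintro ⟨t', h1, h2⟩
    rw [e2] at h1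
    rw [e1] at h2
    apply h2
    obtain ⟨y, z', h3, h4, h5⟩ := hiff.1 hT'
    refine ⟨y, z', h3, h4, ?_⟩
    have h6 := (Gx.unique h1 hx).mono (show gr co La i ω ∩ (BR w r \ BR w ρ) ⊆
      gr co La i ω \ BR w ρ from fun l hl => by
        obtain ⟨g1, g2⟩ := mem_inter.1 hl
        exact mem_sdiff.2 ⟨g1, (mem_sdiff.1 g2).2⟩)
    exact h6.trans h5
  · simp only
    rw [if_pos ⟨t, by rw [e2]; exact hx, by rw [e1]; exact fun h1 => hT' (hiff.2 h1)⟩]
    rw [hpsi]
    unfold WallG at hG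
    rw [← hi] at hG
    rcases hco : co i with _ | _
    · rw [hco] at hG
      rw [if_neg Bool.false_ne_true] at hG ⊢
      rw [hWg, hco, if_neg Bool.false_ne_true] at hT'
      have hag' : ∀ l ∈ BD w R, (l ∈ Wt ↔ l ∈ W) := by
        refine hKC e he hco w m R hG fun l h3 => ?_
        have h4 := hSgw l h3
        rw [hco] at h4
        unfold bx at h4
        rwa [if_neg Bool.false_ne_true] at h4
      have hwm' : ∀ l ∈ Wl i, l ∈ BD w R → l ∈ M i := by
        intro l h1 h2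
        refine hwm i ⟨e, heT⟩ l h1 fun h3 => hSgw l h3 ?_
        rw [hco]
        unfold bx
        rw [if_neg Bool.false_ne_true]
        exact h2
      have := locFC h (hF i ⟨e, heT⟩) hag' (hM.C i ⟨e, heT⟩ hco) hwm' hco hG hmρ hρr hrR he hω hx ht
        hcn hT'
      rw [this, hz]
      unfold bx
      rw [hco, if_neg Bool.false_ne_true]
    · rw [hco] at hG
      rw [if_pos rfl] at hG ⊢
      rw [hWg, hco, if_pos rfl] at hT'
      have hK' := hKO e he hco w m R hG (fun l h3 => by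
        have h4 := hSgw l h3
        rw [hco] at h4
        unfold bx at h4
        rwa [if_pos rfl] at h4) hinm (by omega)
      have := locFOK h (hF i ⟨e, heT⟩) hK' (hM.O i ⟨e, heT⟩ hco) hco hG hmρ hρr hrR he hω hx ht
        hcn hT'
      rw [this, hz]
      unfold bx
      rw [hco, if_pos rfl]

end fields

end Pool.Agent.H49.W
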