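import Pool.Agent.H49.W.TruB
import Pool.Agent.H49.W.LocK
import Pool.Agent.H34.W.TieT
import Pool.Agent.H22.W.MskI
import Pool.Agent.H15.W.C.OutR

set_option autoImplicit false
open Finset

/-! # The reference environment against the true open labels, chart I

`TruI` : hypotheses on the true window `D`, the frozen tiles `S` (true) and `Sr` (reference), the outside
`O`, the rectangle with the half row. `RI o` : the true labels of the colour `o` in the zone. `fxR_RI` : they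
contain the labels of `FxR`. `col_T`, `col_A` : the column. `agr_of` : the field `Agr`. -/

namespace Pool.Agent.H49.W.N

open Pool.Agent.H75.Perc hiding ET mem_ET
open Pool.Agent.H75.TwoArm Pool.Agent.Q1 Pool.Agent.H33.Q1
open Pool.Agent.H69.Q1 Pool.Agent.H39.Q1
open Pool.Agent.H54.W (Win Out)
open Pool.Agent.H54.W.Win
open Pool.Agent.H72.W.N
open Pool.Agent.H2.W.N (co_box fi_conn an)
open Pool.Agent.H42.Sp (Sd Ix kt rt)
open Pool.Agent.H13.R45 (ev gp Gc InR Gc_true Gc_false grid_V tg_end tg_lt)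
open Pool.Agent.H74.R45 (exists_lt)
open Pool.Agent.H34.W.Lin
open Pool.Agent.H62.W (InT ZS mem_ZS odd_ZS)
open Pool.Agent.H22.W.MskI (StrFar BoxL)
open Pool.Agent.H42.W (AgrO AgrC Agr Msk MskO MskC)

/-- **Hypotheses of chart I.** -/
structure TruI (D : Win) (p : Bool) (m L K X1 X2 Y1 Y2 x0 r : ℤ) (O : OutB D)
    (S Sr : Finset (ℤ × ℤ)) : Prop where
  tr : TrH D m
  hL : 5 ≤ L
  hK : m + 2 ≤ K
  str : StrFar D K x0 r
  box : BoxL D L X1 X2 Y1 Y2
  sub : S ⊆ FR D p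
  subR : Sr ⊆ FR (refD D p) p
  sol : SolR D p Sr
  ss : ∀ x y, (x + sh p < D.w ∨ y < 0 ∨ D.h ≤ y) → (lt (x, y) ∈ Sr ↔ lt (x, y) ∈ S)
  col : ∀ x y, lt (x, y) ∈ ZS X1 X2 Y1 Y2 x0 r → FRt D p x y → x + sh p = D.w → 0 ≤ y → y < D.h →
    (lt (x, y) ∈ S ↔ natc D p x y = true)
  nat : ∀ x y, lt (x, y) ∈ ZS X1 X2 Y1 Y2 x0 r → ¬ InB D x y →
    (lt (x, y) ∈ O.Wo ↔ D.fill x y = true)

variable {D : Win} {p : Bool} {x y u v m L K X1 X2 Y1 Y2 x0 r i : ℤ} {k : Sd} {c o : Bool}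
  {O : OutB D} {O' : OutB (refD D p)} {S Sr Λ : Finset (ℤ × ℤ)} {g : ℤ × ℤ}

/-- **true labels of the colour `o` in the zone** -/
noncomputable def RI (D : Win) (p : Bool) (X1 X2 Y1 Y2 x0 r : ℤ) (O : OutB D) (S : Finset (ℤ × ℤ))
    (o : Bool) : Finset (ℤ × ℤ) :=
  if o = true then WTr O p (Tlf D p) S ∩ ZS X1 X2 Y1 Y2 x0 r
  else (ZS X1 X2 Y1 Y2 x0 r \ EA (refD D p) p) \ WTr O p (Tlf D p) S

/-- tiles of the ties of the left arc are layer tiles of the left arc -/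
lemma inT_ly (h : InT (Tlf D p) x y) : ∃ s, s ≠ Sd.R ∧ LyA D p s x y := by
  obtain ⟨k, h1, h2⟩ := h
  obtain ⟨h3, h4⟩ := mem_Tlf.1 h1
  refine ⟨k.1, h4, ?_⟩
  rcases h2 with h2 | h2
  · have := CA.kt_ly h3
    rwa [h2] at this
  · have := CA.rt_ly h3
    rwa [h2] at this

lemma rt_ly (h : ∃ k ∈ Tlf D p, ev k.2 = true ∧ rt k = (x, y)) : ∃ s, s ≠ Sd.R ∧ LyA D p s x y := by
  obtain ⟨k, h1, -, h2⟩ := h
  exact inT_ly ⟨k, h1, Or.inr h2⟩

/-- fill tiles -/
lemma fill_WTr (hS : S ⊆ FR D p) (hf : Fill D p x y) :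
    lt (x, y) ∈ WTr O p (Tlf D p) S ↔ (InB D x y ∧ natc D p x y = true) ∨ lt (x, y) ∈ O.Wo := by
  rw [mem_WTr]
  constructor
  · rintro (⟨h1, -, -, -, h2⟩ | h | h | h)
    · exact Or.inl ⟨h1, h2⟩
    · exact absurd (mem_FR.1 (hS h)).1.1 hf
    · exact Or.inr h
    · obtain ⟨s, -, h2⟩ := rt_ly h
      exact absurd h2.near hf
  · rintro (⟨h1, h2⟩ | h)
    · refine Or.inl ⟨h1, hf.not_inP, fun h => hf h.1.1, fun h => ?_, h2⟩
      obtain ⟨s, -, h3⟩ := inT_ly h
      exact hf h3.near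
    · exact Or.inr (Or.inr (Or.inl h))

lemma col_near (h0 : 0 ≤ y) (h1 : y < D.h) : LyA D p .R (D.w - sh p) y := LyA_R.2 ⟨h0, h1, rfl⟩

lemma col_inB (h0 : 0 ≤ y) (h1 : y < D.h) : InB D (D.w - sh p) y :=
  (col_near (p := p) h0 h1).inB (by omega) (by omega) (by omega) (by omega)

lemma col_natc (h0 : 0 ≤ y) (h1 : y < D.h) : natc D p (D.w - sh p) y = D.cr y := by
  have h2 := D.aw y h0 h1
  have h3 := sh_le p
  rw [natc_def, if_neg (by omega), if_neg (by omega), if_neg (by omega)]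

/-- **the column, true labels** -/
theorem col_T (hS : S ⊆ FR D p) (hcol : FRt D p (D.w - sh p) y →
      (lt (D.w - sh p, y) ∈ S ↔ natc D p (D.w - sh p) y = true)) (h0 : 0 ≤ y) (h1 : y < D.h) :
    lt (D.w - sh p, y) ∈ WTr O p (Tlf D p) S ↔ D.cr y = true := by
  have hR := col_near (p := p) h0 h1
  have hB := col_inB (p := p) h0 h1
  have hn := col_natc (p := p) h0 h1
  rw [mem_WTr, hn]
  rw [hn] at hcol
  constructor
  · rintro (⟨-, -, -, -, h2⟩ | h | h | h)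
    · exact h2
    · exact (hcol (mem_FR.1 (hS h))).1 h
    · exact absurd hB (O.far _ _ h)
    · obtain ⟨s, hs, h2⟩ := rt_ly h
      exact absurd (h2.unique hR) hs
  · intro h2
    by_cases hF : FRt D p (D.w - sh p) y
    · exact Or.inr (Or.inl ((hcol hF).2 h2))
    · refine Or.inl ⟨hB, hR.out, hF, fun h => ?_, h2⟩
      obtain ⟨s, hs, h3⟩ := inT_ly h
      exact absurd (h3.unique hR) hs

/-- **the column, labels of the reference** -/
theorem col_A (hsol : SolR D p Sr) (h0 : 0 ≤ y) (h1 : y < D.h) :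
    lt (D.w - sh p, y) ∈ WA O' p Sr ↔ (if 2 * y < D.h then D.cb = false else D.ct = false) := by
  have hR : LyA (refD D p) p .R (D.w - sh p) y := LyA_ref.2 (col_near h0 h1)
  rw [mem_WA, ← hsol y h0 h1]
  constructor
  · rintro (⟨-, h, -⟩ | h | h | h)
    · exact absurd hR.near h
    · obtain ⟨k, hs, h2, h3, -⟩ := RO_ref.1 h
      have h4 := CA.rt_ly h2
      rw [h3] at h4
      exact absurd (h4.unique (LyA_ref.1 hR)) hs
    · exact h
    · exact absurd (col_inB h0 h1) (O'.far _ _ h)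
  · exact fun h => Or.inr (Or.inr (Or.inl h))

/-! ### The zone -/

/-- a tile of the large box which is not to the right, or near an end of the right wall -/
lemma zs_of (hK : m + 2 ≤ K) (hm : 1 ≤ m) (hF : StrFar D K x0 r) (hB : BoxL D L X1 X2 Y1 Y2)
    (h : InL D L x y) (hn : NR D x y ∨ NE1 D m y) : lt (x, y) ∈ ZS X1 X2 Y1 Y2 x0 r := by
  obtain ⟨b1, b2, b3, b4⟩ := hB
  obtain ⟨f1, f2, f3⟩ := hF
  obtain ⟨i1, i2, i3, i4⟩ := h
  rw [mem_ZS]
  refine ⟨by omega, ?_⟩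
  rintro ⟨h5, h6⟩
  unfold NR NE1 at hn
  have := f3 y (by omega) (by omega) (by omega) (by omega)
  omega

/-- a tile near the window off the column -/
lemma zs_ring (hL : 5 ≤ L) (hK : m + 2 ≤ K) (hm : 1 ≤ m) (hF : StrFar D K x0 r)
    (hB : BoxL D L X1 X2 Y1 Y2) (h : Ring D p x y) (hc : x + sh p < D.w ∨ y < 0 ∨ D.h ≤ y) :
    lt (x, y) ∈ ZS X1 X2 Y1 Y2 x0 r := by
  refine zs_of hK hm hF hB (InL_of_InB hL h.inB) (Or.inl ?_)
  unfold NR
  by_contra hn
  push Not at hn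
  have h1 := sh_nonneg p
  exact h.2 ⟨hn.1, hn.2.1, by omega, by omega⟩

/-- the labels of the ties of the reference -/
lemma not_EA_ref (h : ¬ InP D p x y) (hT : ∀ s, s ≠ Sd.R → LyA D p s x y → ¬ KA D p x y) :
    lt (x, y) ∉ EA (refD D p) p := by
  rw [mem_EA]
  rintro (h1 | ⟨s, c, h1⟩)
  · exact h h1
  · have hs : s ≠ .R := by rintro rfl; exact TieP_not_R h1
    have h2 := (TieP_ref hs).1 h1
    exact hT s hs h2.ly (KA_iff.2 ⟨s, c, h2⟩)

/-- **The true labels contain those of `FxR`.** -/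
theorem fxR_RI (H : TruI D p m L K X1 X2 Y1 Y2 x0 r O S Sr) (o : Bool) :
    FxR D p L m S o (RI D p X1 X2 Y1 Y2 x0 r O S o) := by
  obtain ⟨⟨hm, hh, hlo, hhi, hwd⟩, hL, hK, hF, hB, hS, -, -, -, hcol, hnat⟩ := H
  have hs0 := sh_nonneg p
  have hs1 := sh_le p
  have memR : ∀ {x y : ℤ}, lt (x, y) ∈ ZS X1 X2 Y1 Y2 x0 r →
      (o = true → lt (x, y) ∈ WTr O p (Tlf D p) S) →
      (o = false → lt (x, y) ∉ EA (refD D p) p ∧ lt (x, y) ∉ WTr O p (Tlf D p) S) →
      lt (x, y) ∈ RI D p X1 X2 Y1 Y2 x0 r O S o := by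
    intro x y h1 h2 h3
    unfold RI
    cases o
    · rw [if_neg Bool.false_ne_true]
      exact mem_sdiff.2 ⟨mem_sdiff.2 ⟨h1, (h3 rfl).1⟩, (h3 rfl).2⟩
    · rw [if_pos rfl]
      exact mem_inter.2 ⟨h2 rfl, h1⟩
  refine ⟨?_, ?_, ?_⟩
  · intro x y h1 h2 h3 h4 h5
    have hz := zs_of hK hm hF hB h1 h5
    refine memR hz (fun ho => ?_) fun ho => ⟨?_, ?_⟩
    · exact (fill_WTr hS h2).2 (Or.inl ⟨h4 ho, by rw [h3, ho]⟩)
    · exact not_EA_ref h2.not_inP fun s _ h6 => absurd h6.near h2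
    · rw [fill_WTr hS h2, h3, ho]
      rintro (⟨-, h6⟩ | h6)
      · exact Bool.false_ne_true h6
      · have h7 : ¬ InB D x y := O.far x y h6
        have h8 : natc D p x y = true := (hnat x y hz h7).1 h6
        rw [h3, ho] at h8
        exact Bool.false_ne_true h8
  · intro y h0 h1 h2 h3
    have hBx := col_inB (p := p) h0 h1
    have hz : lt (D.w - sh p, y) ∈ ZS X1 X2 Y1 Y2 x0 r :=
      zs_of hK hm hF hB (InL_of_InB hL hBx) (Or.inr h2)
    have hT := col_T (O := O) (p := p) hS (fun h => hcol _ _ hz h (by omega) h0 h1) h0 h1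
    refine memR hz (fun ho => ?_) fun ho => ⟨?_, ?_⟩
    · rw [hT, h3, ho]
    · exact not_EA_ref (col_near h0 h1).out fun s hs h6 => absurd (h6.unique (col_near h0 h1)) hs
    · rw [hT, h3, ho]
      exact Bool.false_ne_true
  · intro x y h1 h2 h3
    have hz := zs_ring hL hK hm hF hB h1.1 h2
    refine memR hz (fun ho => ?_) fun ho => ⟨?_, ?_⟩
    · rw [mem_WTr]
      exact Or.inr (Or.inl (h3.2 ho))
    · exact not_EA_ref h1.1.2 fun s _ _ => h1.2.1
    · have hnS : lt (x, y) ∉ S := fun h => by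
        have := h3.1 h
        rw [ho] at this
        exact Bool.false_ne_true this
      rw [mem_WTr]
      rintro (⟨-, -, h6, -⟩ | h6 | h6 | ⟨k, h6, -, h7⟩)
      · exact h6 h1
      · exact hnS h6
      · exact O.far x y h6 h1.1.inB
      · exact h1.2.2 ⟨k, (mem_Tlf.1 h6).1, h7⟩

/-! ### The nodes of the layers -/

/-- **Condition on the layer of the family `i`.** -/
structure LyC (D : Win) (p : Bool) (m i : ℤ) (Λ : Finset (ℤ × ℤ)) : Prop where
  odd : ∀ l ∈ Λ, (l.1 + l.2) % 2 = 1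
  lf : ∀ x y, lt (x, y) ∈ Λ → x + sh p < D.w
  bx : ∀ x y, lt (x, y) ∈ Λ → ∀ X Y, x - 1 ≤ X → X ≤ x + 1 → y - 1 ≤ Y → Y ≤ y + 1 → InB D X Y
  nr : ∀ x y, lt (x, y) ∈ Λ → D.w ≤ x + sh p + 1 → ∃ u v, arc (refD D p) p 2 u v = i ∧
    x ≤ u + m ∧ u ≤ x + m ∧ y ≤ v + m ∧ v ≤ y + m

/-- nodes of the layer -/
def Nd (D : Win) (p : Bool) (m i : ℤ) (g : ℤ × ℤ) : Prop :=
  g.1 + sh p ≤ D.w ∧ (∀ u v, OnT g u v → InB D u v) ∧ ∃ xt yt, OnT g xt yt ∧ xt + sh p < D.w ∧
    (D.w ≤ xt + sh p + 1 → ∃ u v, arc (refD D p) p 2 u v = i ∧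
      xt ≤ u + m ∧ u ≤ xt + m ∧ yt ≤ v + m ∧ v ≤ yt + m)

lemma nd_of (hm : 1 ≤ m) (hΛ : LyC D p m i Λ) {P : ℤ × ℤ}
    (h : if colp (refD D p) i = true then VO Λ (TF (TA (refD D p) p) (fmA (refD D p) p 2) i)
        (bA (refD D p) p) P else VC Λ (TF (TA (refD D p) p) (fmA (refD D p) p 2) i) (bA (refD D p) p) P) :
    ∃ g, Nd D p m i g ∧ ev g = colp (refD D p) i ∧ gp g = P := by
  refine grid_V (Rg := Nd D p m i) hΛ.odd ?_ _ ?_ h
  · intro x y hxy g hg
    have h1 := hΛ.lf x y hxy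
    unfold InR at hg
    refine ⟨by omega, fun u v h2 => ?_, x, y, by unfold OnT; omega, h1, hΛ.nr x y hxy⟩
    unfold OnT at h2
    exact hΛ.bx x y hxy u v (by omega) (by omega) (by omega) (by omega)
  · intro e he
    obtain ⟨h1, h2⟩ := mem_TF.1 he
    obtain ⟨u, v, k, c, rfl, h⟩ := exists_tie h1
    have hc : colp (refD D p) i = c := by rw [← h2]; exact h.co
    have hk : k ≠ .R := by rintro rfl; exact TieP_not_R h
    have hu : u + sh p < D.w := by
      have hl := h.ly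
      cases k
      · obtain ⟨k1, k2, k3, -⟩ := hl
        have := D.aw v k1 k2
        simp only [ref_a] at k3
        omega
      · exact absurd rfl hk
      · obtain ⟨-, -, -, k4, -⟩ := hl
        exact k4
      · obtain ⟨-, -, -, k4, -⟩ := hl
        exact k4
    have hOn : OnT (bt k c (u, v)) u v := onT_bt
    refine ⟨bt k c (u, v), ⟨?_, fun u' v' h3 => ?_, u, v, hOn, hu, fun _ => ?_⟩, ?_, h.b.symm⟩
    · unfold OnT at hOn; omega
    · unfold OnT at hOn h3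
      exact (LyA_ref.1 h.ly).inB (by omega) (by omega) (by omega) (by omega)
    · refine ⟨u - (dr k).1, v - (dr k).2, ?_, ?_⟩
      · rw [← h.fm, h2]
      · cases k <;> simp only [dr] <;> omega
    · rw [hc]; exact ev_bt h.odd

/-! ### Connections -/

section fam

variable {xa ya : ℤ}

/-- labels which are different in the reference -/
def Dif {D : Win} (O : OutB D) (O' : OutB (refD D p)) (S Sr : Finset (ℤ × ℤ)) (o : Bool)
    (l : ℤ × ℤ) : Prop :=
  if o = true then l ∈ WTr O p (Tlf D p) S ∧ l ∉ WA O' p Sr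
  else l ∈ WA O' p Sr ∧ l ∉ WTr O p (Tlf D p) S

/-- **All contacts are joined to the anchor.** -/
theorem touch_all (H : TruI D p m L K X1 X2 Y1 Y2 x0 r O S Sr) (hn : NR D xa ya)
    (hi : arc (refD D p) p 2 xa ya = i) (hc : colp (refD D p) i = o) (hg : Nd D p m i g)
    (he : ev g = o) (hg' : OnT g u v) (hz : lt (u, v) ∈ ZS X1 X2 Y1 Y2 x0 r)
    (h : lt (u, v) ∈ WlA (refD D p) p 2 L Sr i ∨ Dif O O' S Sr o (lt (u, v))) :
    Co (Gc o (RI D p X1 X2 Y1 Y2 x0 r O S o)) (gp g)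
      (gp (an (trW D m) o (arc (trW D m) p (m + 3) xa ya % nP (trW D m)))) := by
  have hR := fxR_RI H o
  obtain ⟨hg1, hg2, xt, yt, hg3, hg4, hg5⟩ := hg
  rcases h with h | h
  · exact touch_wall H.tr H.hL hR hn hi hc H.sol H.ss ((mem_WlA H.hL).1 h) hg' he hg1
  · have hB := hg2 u v hg'
    by_cases hcl : u + sh p < D.w ∨ v < 0 ∨ D.h ≤ v
    · exfalso
      have h1 := mem_WTr_ref (O := O) (O' := O') hcl hB (H.ss u v hcl).symm
      unfold Dif at h
      rw [h1] at h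
      split_ifs at h <;> exact h.2 h.1
    · push Not at hcl
      obtain ⟨c1, c2, c3⟩ := hcl
      have hu : u = D.w - sh p := by unfold OnT at hg'; omega
      subst hu
      have hT := col_T (O := O) (p := p) H.sub (fun h => H.col _ _ hz h (by omega) c2 c3) c2 c3
      have hA := col_A (O' := O') H.sol c2 c3
      have hw : D.w ≤ xt + sh p + 1 := by unfold OnT at hg' hg3; omega
      have key : D.cr v = o ∧ (2 * v < D.h → D.cb = o) ∧ (D.h ≤ 2 * v → D.ct = o) := by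
        unfold Dif at h
        rw [hT, hA] at h
        cases o
        · rw [if_neg Bool.false_ne_true] at h
          obtain ⟨h1, h2⟩ := h
          refine ⟨by simpa using h2, fun h3 => by rwa [if_pos h3] at h1,
            fun h3 => by rwa [if_neg (by omega)] at h1⟩
        · rw [if_pos rfl] at h
          obtain ⟨h1, h2⟩ := h
          refine ⟨h1, fun h3 => ?_, fun h3 => ?_⟩
          · rw [if_pos h3] at h2; simpa using h2
          · rw [if_neg (by omega)] at h2; simpa using h2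
      exact touch_col H.tr H.hL hR hn hi hc c2 c3 hg' he hg1 key.1 key.2.1 key.2.2
        ⟨xt, yt, hg3, hg4, hg5 hw⟩

end fam

/-! ### The field `Agr` -/

lemma tie_not (hS : S ⊆ FR D p) {e : ℤ × ℤ} (he : e ∈ TA (refD D p) p) :
    e ∉ WTr O p (Tlf D p) S := by
  obtain ⟨u, v, rfl⟩ := exists_lt (odd_TA he)
  obtain ⟨s, c, hs, h⟩ := mem_TA_ref.1 he
  rw [mem_WTr]
  rintro (⟨-, -, -, h1, -⟩ | h1 | h1 | ⟨k, -, -, h1⟩)
  · exact h1 ⟨(s, gt s c (u, v)), mem_Tlf.2 ⟨h.2.1, hs⟩, Or.inl (kt_gt h.1)⟩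
  · exact (mem_FR.1 (hS h1)).2.1 (KA_iff.2 ⟨s, c, h⟩)
  · exact O.far _ _ h1 h.inB
  · have h2 := Pool.Agent.H42.Sp.rt_even k
    rw [h1] at h2
    have h3 := h.odd
    simp only at h2
    omega

/-- **The field `Agr`.** -/
theorem agr_of (H : TruI D p m L K X1 X2 Y1 Y2 x0 r O S Sr) {Wm Λ : ℤ → Finset (ℤ × ℤ)}
    (hM : Msk (TA (refD D p) p) (fmA (refD D p) p 2) (colp (refD D p)) Wm Λ
      (fun _ => ZS X1 X2 Y1 Y2 x0 r) (bA (refD D p) p))
    (hΛ : ∀ i, (TF (TA (refD D p) p) (fmA (refD D p) p 2) i).Nonempty → LyC D p m i (Λ i)) :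
    Agr (EA (refD D p) p) (WA O' p Sr) (WTr O p (Tlf D p) S) (TA (refD D p) p)
      (fmA (refD D p) p 2) (colp (refD D p)) (WlA (refD D p) p 2 L Sr) Λ
      (fun _ => ZS X1 X2 Y1 Y2 x0 r) (bA (refD D p) p) (oA (refD D p) p) := by
  have hm := H.tr.hm
  -- labels of the layers
  have hlam : ∀ i, (TF (TA (refD D p) p) (fmA (refD D p) p 2) i).Nonempty → ∀ l ∈ Λ i,
      (l ∈ WTr O p (Tlf D p) S ↔ l ∈ WA O' p Sr) := by
    intro i hi l hl
    obtain ⟨x, y, rfl⟩ := exists_lt ((hΛ i hi).odd l hl)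
    have hcl : x + sh p < D.w ∨ y < 0 ∨ D.h ≤ y := Or.inl ((hΛ i hi).lf x y hl)
    exact mem_WTr_ref hcl ((hΛ i hi).bx x y hl x y (by omega) (by omega) (by omega) (by omega))
      (H.ss x y hcl).symm
  -- a tile of the family
  have hex : ∀ i, (TF (TA (refD D p) p) (fmA (refD D p) p 2) i).Nonempty → ∃ xa ya,
      NR D xa ya ∧ arc (refD D p) p 2 xa ya = i := by
    rintro i ⟨e, he⟩
    obtain ⟨h1, h2⟩ := mem_TF.1 he
    obtain ⟨u, v, k, c, rfl, h⟩ := exists_tie h1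
    have hk : k ≠ .R := by rintro rfl; exact TieP_not_R h
    exact ⟨_, _, TieP.nr ((TieP_ref hk).1 h) hk, by rw [← h.fm, h2]⟩
  have htie : ∀ {i xa ya : ℤ} {o : Bool}, NR D xa ya → arc (refD D p) p 2 xa ya = i →
      colp (refD D p) i = o → ∀ e ∈ TF (TA (refD D p) p) (fmA (refD D p) p 2) i,
      Co (Gc o (RI D p X1 X2 Y1 Y2 x0 r O S o)) (oA (refD D p) p e)
        (gp (an (trW D m) o (arc (trW D m) p (m + 3) xa ya % nP (trW D m)))) := by
    intro i xa ya o hn hi hc e he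
    obtain ⟨h1, h2⟩ := mem_TF.1 he
    obtain ⟨u, v, k, c, rfl, h⟩ := exists_tie h1
    exact touch_tie H.tr H.hL (fxR_RI H o) hn hi hc h h2
  have e1 : RI D p X1 X2 Y1 Y2 x0 r O S true = WTr O p (Tlf D p) S ∩ ZS X1 X2 Y1 Y2 x0 r := by
    unfold RI; rw [if_pos rfl]
  have e2 : du (RI D p X1 X2 Y1 Y2 x0 r O S false) ∅ ⊆
      du (ZS X1 X2 Y1 Y2 x0 r \ EA (refD D p) p) (WTr O p (Tlf D p) S) := by
    unfold RI
    rw [if_neg Bool.false_ne_true]
    exact du_mono fun l hl _ => ⟨(mem_sdiff.1 hl).1, (mem_sdiff.1 hl).2⟩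
  constructor
  · intro i hi hc
    obtain ⟨xa, ya, hn, ha⟩ := hex i hi
    have key : ∀ e ∈ TF (TA (refD D p) p) (fmA (refD D p) p 2) i, ∀ g u v, Nd D p m i g →
        ev g = true → OnT g u v → lt (u, v) ∈ ZS X1 X2 Y1 Y2 x0 r →
        (lt (u, v) ∈ WlA (refD D p) p 2 L Sr i ∨
          Dif O O' S Sr true (lt (u, v))) →
        Co (WTr O p (Tlf D p) S ∩ ZS X1 X2 Y1 Y2 x0 r) (oA (refD D p) p e) (gp g) := by
      intro e he g u v h1 h2 h3 h4 h5
      have k1 := htie hn ha hc e he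
      have k2 := touch_all (O' := O') H hn ha hc h1 h2 h3 h4 h5
      rw [Gc_true, e1] at k1 k2
      exact k1.trans k2.symm
    refine ⟨fun l hl => tie_not H.sub (mem_TF.1 hl).1, fun l h1 h2 => (hlam i hi l h1).2 h2, ?_, ?_⟩
    · intro e he e' he'
      have k1 := htie hn ha hc e he
      have k2 := htie hn ha hc e' he'
      rw [Gc_true, e1] at k1 k2
      exact k1.trans k2.symm
    · intro x y hu hv hl e he
      have hz := (hM.O i hi hc).adj x y hu hv
      obtain ⟨g, g1, g2, rfl⟩ := nd_of (P := x) hm (hΛ i hi) (by rw [if_pos hc]; exact hv)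
      rw [hc] at g2
      have hT := tg_end (e := gp g + y) g2 hu (by rw [if_pos rfl])
      obtain ⟨u, v, huv⟩ := exists_lt (odd_ZS hz)
      rw [huv] at hT hl hz
      have h7 := tg_lt hT
      refine key e he g u v g1 g2 (by unfold OnT; omega) hz ?_
      rcases hl with hl | hl
      · exact Or.inl hl
      · right; unfold Dif; rw [if_pos rfl]; exact hl
  · intro i hi hc
    have hc' : ¬ colp (refD D p) i = true := by rw [hc]; exact Bool.false_ne_true
    obtain ⟨xa, ya, hn, ha⟩ := hex i hi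
    have key : ∀ e ∈ TF (TA (refD D p) p) (fmA (refD D p) p 2) i, ∀ g u v, Nd D p m i g →
        ev g = false → OnT g u v → lt (u, v) ∈ ZS X1 X2 Y1 Y2 x0 r →
        (lt (u, v) ∈ WlA (refD D p) p 2 L Sr i ∨
          Dif O O' S Sr false (lt (u, v))) →
        Co (du (ZS X1 X2 Y1 Y2 x0 r \ EA (refD D p) p) (WTr O p (Tlf D p) S))
          (oA (refD D p) p e) (gp g) := by
      intro e he g u v h1 h2 h3 h4 h5
      have k1 := htie hn ha hc e he
      have k2 := touch_all (O' := O') H hn ha hc h1 h2 h3 h4 h5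
      rw [Gc_false] at k1 k2
      exact (k1.trans k2.symm).mono e2
    refine ⟨fun l hl => tie_not H.sub (mem_TF.1 hl).1, fun l h1 h2 => (hlam i hi l h1).1 h2, ?_, ?_⟩
    · intro e he e' he'
      have k1 := htie hn ha hc e he
      have k2 := htie hn ha hc e' he'
      rw [Gc_false] at k1 k2
      exact (k1.trans k2.symm).mono e2
    · intro x y hu hv hl e he
      have hz := (hM.C i hi hc).adj x y hu hv
      obtain ⟨g, g1, g2, rfl⟩ := nd_of (P := x) hm (hΛ i hi) (by rw [if_neg hc']; exact hv)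
      rw [hc] at g2
      have hT := tg_end (e := gp g + y - (1, 1)) g2 hu (by rw [if_neg Bool.false_ne_true])
      obtain ⟨u, v, huv⟩ := exists_lt (odd_ZS hz)
      rw [huv] at hT hl hz
      have h7 := tg_lt hT
      refine key e he g u v g1 g2 (by unfold OnT; omega) hz ?_
      rcases hl with hl | hl
      · exact Or.inl hl
      · right; unfold Dif; rw [if_neg Bool.false_ne_true]; exact hl

end Pool.Agent.H49.W.N
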