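import Mathlib
import Pool.Agent.H34.W.LinG
import Pool.Agent.H49.W.TruC

set_option autoImplicit false
open Finset

/-! # The frozen tiles of the reference, chart I

`srI D p S` : the states `S` off the column, the column solid. `srI_sub`, `srI_sol`, `srI_ss`, `srI_nat`. `frz_nat`,
`frz_col` : helper34's states `frz O S` are natural off the line and on the right column. -/

namespace Pool.Agent.H49.W.N

open Pool.Agent.H33.Q1 (lt tt tt_lt lt_odd)
open Pool.Agent.H54.W (Win Out Pos)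
open Pool.Agent.H54.W.Win
open Pool.Agent.H72.W.N hiding TA mem_TA TB mem_TB
open Pool.Agent.H42.Sp (Sd Ix kt rt)
open Pool.Agent.H74.R45 (exists_lt)
open Pool.Agent.H40.W.N (NatS tp)
open Pool.Agent.H34.W.Lin (frz ZF)

variable {D : Win} {p : Bool} {x y : ℤ} {S S0 : Finset (ℤ × ℤ)} {O : OutB D}

open Classical in
/-- **the states of the frozen tiles of the reference** -/
noncomputable def srI (D : Win) (p : Bool) (S : Finset (ℤ × ℤ)) : Finset (ℤ × ℤ) :=
  (S.filter fun e => ¬ ((tt e).1 + sh p = D.w ∧ 0 ≤ (tt e).2 ∧ (tt e).2 < D.h)) ∪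
    Pool.Agent.H72.W.N.TB D fun x y => (x + sh p = D.w ∧ 0 ≤ y ∧ y < D.h) ∧
      if 2 * y < D.h then D.cb = false else D.ct = false

lemma mem_srI : lt (x, y) ∈ srI D p S ↔
    (lt (x, y) ∈ S ∧ ¬ (x + sh p = D.w ∧ 0 ≤ y ∧ y < D.h)) ∨
    ((x + sh p = D.w ∧ 0 ≤ y ∧ y < D.h) ∧ if 2 * y < D.h then D.cb = false else D.ct = false) := by
  classical
  unfold srI
  rw [mem_union, mem_filter, Pool.Agent.H72.W.N.mem_TB, tt_lt]
  refine or_congr Iff.rfl ⟨fun h => h.2, fun h => ⟨?_, h⟩⟩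
  obtain ⟨⟨h1, h2, h3⟩, -⟩ := h
  have := col_inB (p := p) h2 h3
  rwa [show D.w - sh p = x by omega] at this

lemma srI_sub (hS : S ⊆ FR D p) : srI D p S ⊆ FR (refD D p) p := by
  intro e he
  have ho : (e.1 + e.2) % 2 = 1 := by
    classical
    unfold srI at he
    rcases mem_union.1 he with h | h
    · exact odd_FR (hS (mem_filter.1 h).1)
    · exact odd_TB h
  obtain ⟨x, y, rfl⟩ := exists_lt ho
  rw [mem_FR]
  rcases mem_srI.1 he with ⟨h1, h2⟩ | ⟨⟨h1, h2, h3⟩, -⟩
  · have h3 := mem_FR.1 (hS h1)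
    refine (FRt_ref ?_).2 h3
    obtain ⟨⟨⟨Z, k1, k2, k3, k4, k5, k6⟩, -⟩, -⟩ := h3
    omega
  · rw [show x = D.w - sh p by omega]
    exact FRt_col h2 h3

lemma srI_sol : SolR D p (srI D p S) := by
  intro y h0 h1
  rw [mem_srI]
  constructor
  · rintro (⟨-, h⟩ | ⟨-, h⟩)
    · exact absurd ⟨by omega, h0, h1⟩ h
    · exact h
  · exact fun h => Or.inr ⟨⟨by omega, h0, h1⟩, h⟩

lemma srI_ss (h : x + sh p < D.w ∨ y < 0 ∨ D.h ≤ y) : lt (x, y) ∈ srI D p S ↔ lt (x, y) ∈ S := by
  rw [mem_srI]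
  constructor
  · rintro (h1 | h1)
    · exact h1.1
    · omega
  · exact fun h1 => Or.inl ⟨h1, by omega⟩

/-- the open tiles off the line are the same off the column -/
lemma InO_ref (hF : FRt D p x y) (h : x + sh p < D.w ∨ y < 0 ∨ D.h ≤ y) :
    (refD D p).InO (tp (refD D p) p) x y ↔ D.InO (tp D p) x y := by
  have e : (refD D p).fill x y = D.fill x y := by
    refine natc_ref (D := D) (q := p) (p := p) ?_
    by_contra hc
    push Not at hc
    have := sh_nonneg p
    exact hF.1.2 ⟨hc.1, hc.2.1, by omega, by omega⟩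
  unfold InO
  rw [e]
  exact Iff.rfl

lemma srI_nat (hN : NatS D p S) : NatS (refD D p) p (srI D p S) := by
  intro x y h1 h2 h3
  have h1' : x + sh p < D.w ∨ y < 0 ∨ D.h ≤ y := h1
  have h4 := (FRt_ref h1').1 h2
  rw [srI_ss h1', InO_ref h4 h1']
  exact hN x y h1' h4 h3

/-! ### helper34's states -/

lemma mem_frz : lt (x, y) ∈ frz O S0 ↔ FRt D false x y ∧ (lt (x, y) ∈ S0 ∨
    lt (x, y) ∈ D.WJ D.a O.out.Wo) := by
  unfold frz
  rw [mem_inter, mem_FR, mem_union]

/-- off the line the states are the natural ones -/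
lemma mem_frz' (hS : S0 ⊆ ZF D) (hF : FRt D false x y) (hE : ¬ D.InE D.a x y) :
    lt (x, y) ∈ frz O S0 ↔ lt (x, y) ∈ D.WJ D.a O.out.Wo := by
  rw [mem_frz]
  constructor
  · rintro ⟨-, h | h⟩
    · have := Pool.Agent.H34.W.Lin.mem_ZF.1 (hS h)
      exact absurd this.2 hE
    · exact h
  · exact fun h => ⟨hF, Or.inr h⟩

lemma tp_false : tp D false = D.a := by
  funext y
  unfold tp
  rw [if_neg Bool.false_ne_true]

/-- a frozen tile is in the small box -/
lemma FRt_InZ (hF : FRt D p x y) : D.InZ x y ∨ (p = true ∧ x + 3 = D.lo) := by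
  obtain ⟨⟨⟨Z, k1, k2, k3, k4, k5, k6⟩, -⟩, -⟩ := hF
  have h1 := D.hlo Z k3 k4
  have h2 := sh_nonneg p
  have h3 := sh_le p
  cases p
  · left
    rw [sh_false] at *
    unfold InZ; omega
  · unfold InZ
    by_cases c : x + 3 = D.lo
    · exact Or.inr ⟨rfl, c⟩
    · left; omega

lemma mem_WJz (hz : D.InZ x y) : lt (x, y) ∈ D.WJ D.a O.out.Wo ↔ D.InO D.a x y := by
  unfold Win.WJ
  rw [mem_union, Win.mem_WR, OutB.out_Wo, mem_union, mem_FB]
  constructor
  · rintro (h | h | h)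
    · exact h
    · exact absurd hz h.2.1
    · exact absurd (InB_of_InZ hz) (O.far _ _ h)
  · exact Or.inl

/-- **off the line the states are natural** -/
theorem frz_natS (hS : S0 ⊆ ZF D) : NatS D false (frz O S0) := by
  intro x y _ h2 h3
  rw [tp_false] at h3 ⊢
  have hz : D.InZ x y := by
    rcases FRt_InZ h2 with h | h
    · exact h
    · exact absurd h.1 (by decide)
  rw [mem_frz' hS h2 h3, mem_WJz hz]

/-- **on the right column the states are natural** -/
theorem frz_col (hS : S0 ⊆ ZF D) (hF : FRt D false x y) (hx : x + sh false = D.w) (h0 : 0 ≤ y)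
    (h1 : y < D.h) : lt (x, y) ∈ frz O S0 ↔ natc D false x y = true := by
  have hz : D.InZ x y := by
    rcases FRt_InZ hF with h | h
    · exact h
    · exact absurd h.1 (by decide)
  have hE : ¬ D.InE D.a x y := Pool.Agent.H34.W.Lin.R_not_InE ⟨h0, h1, hx⟩
  rw [sh_false, add_zero] at hx
  have hh := D.hh
  have hA : ¬ D.TA D.a x y := by
    rintro (⟨k1, k2, -, k4⟩ | ⟨k1, -⟩)
    · have := D.aw (y - 1) (by omega) (by omega)
      omega
    · omega
  have hB : ¬ D.TB D.a x y := by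
    rintro (⟨k1, k2, -, k4⟩ | ⟨k1, -⟩)
    · have := D.aw (y + 1) (by omega) (by omega)
      omega
    · omega
  rw [mem_frz' hS hF hE, mem_WJz hz]
  unfold InO
  constructor
  · rintro ⟨-, -, h | h | h⟩
    · exact absurd h.1 hA
    · exact absurd h.1 hB
    · exact h.2.2
  · exact fun h => ⟨hz, hE, Or.inr (Or.inr ⟨hA, hB, h⟩)⟩

end Pool.Agent.H49.W.N
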