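import Mathlib
import Pool.Agent.H49.W.TruS
import Pool.Agent.H20.W.InstD
import Pool.Agent.H95.W.SeqA
import Pool.Agent.H49.W.TruG

set_option autoImplicit false
open Finset

/-! # Chart I: the windows of the statement

`truI_win` : the hypotheses `TruI` for the window `C.win n he h8 (crz c0 v.2)`, the position `v` with the geometry
`Gd`, any box. `boxL_win` : helper20's box. `vOnI_win` : `VOnI`. `memPI` : the case is in the class `PI`. -/

namespace Pool.Agent.H49.W.N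

open Pool.Agent.H33.Q1 (lt tt tt_lt lt_odd)
open Pool.Agent.H54.W (Win Out Pos CD NE)
open Pool.Agent.H72.W.N
open Pool.Agent.H42.Sp (Sd Ix kt rt)
open Pool.Agent.H74.R45 (exists_lt)
open Pool.Agent.H40.W.N (NatS tp)
open Pool.Agent.H34.W.Lin
open Pool.Agent.H62.W (ZS mem_ZS Phi zone_Phi)
open Pool.Agent.H22.W.MskI (StrFar BoxL)
open Pool.Agent.H42.W (VF Tog)
open Pool.Agent.H95.W (Gd CoarseRC)
open Pool.Agent.H95.W.N
open Pool.Agent.H95.W.SI (VOnI ScI PI caseI)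
open Pool.Agent.H20.W
open Pool.Agent.H31.W (ONat)
open Pool.Agent.H15.W (outR outR_Wo outR_ok CaseV)
open Pool.Agent.Q1.M6e.Wn (mW LW le_mW le_LW mW_le LW_le)

variable {C : CD} {n : ℤ} {he : n % 2 = 0} {h8 : 8 ≤ n} {c0 : Bool} {v : ℤ × ℤ}
  {M m L X1 X2 Y1 Y2 : ℤ} {p : Bool} {S : Finset (ℤ × ℤ)}

/-- left ends of the rows -/
lemma win_row (he : n % 2 = 0) (h8 : 8 ≤ n) {y : ℤ} (h0 : 0 ≤ y) (h1 : y < n * C.H) :
    0 ≤ y / n ∧ y / n < C.H := (C.coarseC he h8 fun _ => true).row h0 h1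

/-- **The hypotheses of chart I.** -/
theorem truI_win (g : Gd C n he h8 c0 v M) (hm : 1 ≤ m) (hmM : 2 * m ≤ M) (hL : 5 ≤ L)
    {O : OutB (C.win n he h8 (crz c0 v.2))} (hO : ONat O (ZS X1 X2 Y1 Y2 v.1 v.2))
    (hB : BoxL (C.win n he h8 (crz c0 v.2)) L X1 X2 Y1 Y2)
    (hS : S ⊆ FR (C.win n he h8 (crz c0 v.2)) p)
    (hcol : ∀ x y, lt (x, y) ∈ ZS X1 X2 Y1 Y2 v.1 v.2 → FRt (C.win n he h8 (crz c0 v.2)) p x y →
      x + sh p = n * C.W → 0 ≤ y → y < n * C.H →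
      (lt (x, y) ∈ S ↔ natc (C.win n he h8 (crz c0 v.2)) p x y = true)) :
    TruI (C.win n he h8 (crz c0 v.2)) p m L (M + 4) X1 X2 Y1 Y2 v.1 v.2 O S
      (srI (C.win n he h8 (crz c0 v.2)) p S) where
  tr := by
    have e1 := g.rlo
    have e2 := g.rhi
    have e3 := g.m2
    have e5 := g.m4
    have e4 := g.crE
    have eh : (C.win n he h8 (crz c0 v.2)).h = n * C.H := rfl
    refine ⟨hm, by rw [eh]; omega, fun y h0 h1 => e4.lo y h0 (by omega),
      fun y h0 h1 => e4.hi y (by omega) h1, fun y h0 h1 => ?_⟩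
    rw [eh] at h1
    have hr := win_row (C := C) he h8 h0 h1
    have h2 := C.AW _ hr.1 hr.2
    have h3 : n * (C.A (y / n) + 1) ≤ n * C.W := mul_le_mul_of_nonneg_left (by omega) (by omega)
    rw [mul_add, mul_one] at h3
    change C.wa n y + m + 3 ≤ n * C.W
    rcases C.wa_cases n y with ⟨-, e⟩ | ⟨-, e⟩ <;> rw [e] <;> have := g.m4 <;> omega
  hL := hL
  hK := by have := g.m4; omega
  str := by
    have e1 := g.rlo
    have e2 := g.rhi
    have e3 := g.m4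
    refine ⟨e1, by change v.2 + (M + 4) < n * C.H; omega, fun y h0 h1 h2 h3 => ?_⟩
    have h4 := (g.dp false (v.1 - (M + 4)) y (by omega) (by omega) (by omega) (by omega)).2.2.1
    rw [sh_false] at h4
    omega
  box := hB
  sub := hS
  subR := srI_sub hS
  sol := srI_sol
  ss := fun _ _ h => srI_ss h
  col := hcol
  nat := hO

/-- **helper20's box** -/
lemma boxL_win (hLn : L ≤ n) {r : ℤ} : BoxL (C.win n he h8 (crz c0 r)) L (bX1 C n) (bX2 C n c0 r)
    (bY1 n) (bY2 C n) where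
  X1 := by
    change n * C.LO - n + L ≤ n * C.LO - 1 + 1
    omega
  X2 := by
    unfold bX2
    change n * C.W + L ≤ _
    split_ifs <;> omega
  Y1 := by unfold bY1; omega
  Y2 := by
    unfold bY2
    change n * C.H + L ≤ _
    omega

/-- the left side is far from the lower bound -/
lemma low_win (hC : LowC C) (hmn : m ≤ n) {cr : ℤ → Bool} : ∀ y, 0 ≤ y →
    y < (C.win n he h8 cr).h → (C.win n he h8 cr).lo + m ≤ (C.win n he h8 cr).a y := by
  intro y h0 h1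
  have hr := win_row (C := C) he h8 h0 h1
  have h2 := hC _ hr.1 hr.2
  have h3 : n * (C.LO + 1) ≤ n * C.A (y / n) := mul_le_mul_of_nonneg_left h2 (by omega)
  rw [mul_add, mul_one] at h3
  change n * C.LO - 1 + m ≤ C.wa n y
  rcases C.wa_cases n y with ⟨-, e⟩ | ⟨-, e⟩ <;> rw [e] <;> omega

/-- the reference window is of the same form -/
lemma ref_win {cr : ℤ → Bool} : refD (C.win n he h8 cr) p =
    C.win n he h8 (fun y => decide ((n * C.W - sh p + y) % 2 = 0)) := rfl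

theorem coarse_ref {cr : ℤ → Bool} : CoarseRC (refD (C.win n he h8 cr) p) n C.H C.W C.A C.CL :=
  C.coarseC he h8 _

/-- **`VOnI`** for the functional of the box -/
theorem vOnI_win (hC : LowC C) (g : Gd C n he h8 c0 v M) (hm : 1 ≤ m) (hmM : 2 * m ≤ M) (hL : 5 ≤ L)
    (hmL : m ≤ L) {O : OutB (C.win n he h8 (crz c0 v.2))} (hO : ONat O (ZS X1 X2 Y1 Y2 v.1 v.2))
    (hB : BoxL (C.win n he h8 (crz c0 v.2)) L X1 X2 Y1 Y2)
    (hS : S ⊆ FR (C.win n he h8 (crz c0 v.2)) p)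
    (hcol : ∀ x y, lt (x, y) ∈ ZS X1 X2 Y1 Y2 v.1 v.2 → FRt (C.win n he h8 (crz c0 v.2)) p x y →
      x + sh p = n * C.W → 0 ≤ y → y < n * C.H →
      (lt (x, y) ∈ S ↔ natc (C.win n he h8 (crz c0 v.2)) p x y = true))
    {O' : OutB (refD (C.win n he h8 (crz c0 v.2)) p)} (hO' : O'.Wo = ∅)
    (w0 : KL C.H C.A (fun _ => C.W)) (Ψ : (NE → NE → Prop) → ℂ) :
    VOnI (VF (FTr (Phi C n c0 v.1 v.2 X1 X2 Y1 Y2 Ψ) O p (Tlf (C.win n he h8 (crz c0 v.2)) p) S)
      (EN (refD (C.win n he h8 (crz c0 v.2)) p) p)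
      (LBA (refD (C.win n he h8 (crz c0 v.2)) p) p (m + 1))
      (TA (refD (C.win n he h8 (crz c0 v.2)) p) p) (fmA (refD (C.win n he h8 (crz c0 v.2)) p) p 2)
      (colp (refD (C.win n he h8 (crz c0 v.2)) p)))
      (SgI (C.win n he h8 (crz c0 v.2)) p X1 X2 Y1 Y2) O' n C.H C.W C.A p 2 L m
      (srI (C.win n he h8 (crz c0 v.2)) p S) (srI_sub hS) w0 := by
  have e1 := g.m4
  have e2 := g.m2
  exact vOnI (truI_win g hm hmM hL hO hB hS hcol) hO' coarse_ref (by omega) (by omega) hmL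
    (low_win hC (by omega)) w0 fun E W => (zone_Phi C n c0).tog E W

/-! ### The case -/

/-- **The case of chart I** at the position `v`, frozen tiles `S` -/
noncomputable def cwI (C : CD) (n : ℤ) (he : n % 2 = 0) (h8 : 8 ≤ n) (c0 : Bool) (v : ℤ × ℤ) (p : Bool)
    (L m : ℤ) (X1 X2 Y1 Y2 : ℤ) (O : OutB (C.win n he h8 (crz c0 v.2))) (S : Finset (ℤ × ℤ))
    (hS : S ⊆ FR (C.win n he h8 (crz c0 v.2)) p) (w0 : KL C.H C.A (fun _ => C.W))
    (Ψ : (NE → NE → Prop) → ℂ) : CaseV :=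
  caseI (outR (refD (C.win n he h8 (crz c0 v.2)) p) L) n C.H C.W C.A p 2 L m
    (srI (C.win n he h8 (crz c0 v.2)) p S) (srI_sub hS) w0
    (VF (FTr (Phi C n c0 v.1 v.2 X1 X2 Y1 Y2 Ψ) O p (Tlf (C.win n he h8 (crz c0 v.2)) p) S)
      (EN (refD (C.win n he h8 (crz c0 v.2)) p) p)
      (LBA (refD (C.win n he h8 (crz c0 v.2)) p) p (m + 1))
      (TA (refD (C.win n he h8 (crz c0 v.2)) p) p) (fmA (refD (C.win n he h8 (crz c0 v.2)) p) p 2)
      (colp (refD (C.win n he h8 (crz c0 v.2)) p)))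
    (SgI (C.win n he h8 (crz c0 v.2)) p X1 X2 Y1 Y2)

/-- **The case is in the class `PI`.** -/
theorem memPI (hC : LowC C) (g : Gd C n he h8 c0 v M) {η : ℝ} {R : ℕ} (hη : 64 ≤ η * R)
    (hηn : η * R ≤ n) (hηM : η * R ≤ 32 * M) (h2 : ((n * C.H : ℤ) : ℝ) ≤ R / η)
    (w2 : ((n * C.W - (n * C.LO - 1) : ℤ) : ℝ) ≤ R / η)
    {O : OutB (C.win n he h8 (crz c0 v.2))} (hO : ONat O (ZS X1 X2 Y1 Y2 v.1 v.2))
    (hB : BoxL (C.win n he h8 (crz c0 v.2)) (LW η R) X1 X2 Y1 Y2)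
    (hS : S ⊆ FR (C.win n he h8 (crz c0 v.2)) p) (hN : NatS (C.win n he h8 (crz c0 v.2)) p S)
    (hcol : ∀ x y, lt (x, y) ∈ ZS X1 X2 Y1 Y2 v.1 v.2 → FRt (C.win n he h8 (crz c0 v.2)) p x y →
      x + sh p = n * C.W → 0 ≤ y → y < n * C.H →
      (lt (x, y) ∈ S ↔ natc (C.win n he h8 (crz c0 v.2)) p x y = true))
    (w0 : KL C.H C.A (fun _ => C.W)) (Ψ : (NE → NE → Prop) → ℂ) :
    PI η R (cwI C n he h8 c0 v p (LW η R) (mW η R) X1 X2 Y1 Y2 O S hS w0 Ψ) := by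
  have k1 : 1 ≤ mW η R := le_mW (by push_cast; linarith)
  have k2 : 5 ≤ LW η R := le_LW (by push_cast; linarith)
  have k3 : mW η R ≤ LW η R := by
    refine le_LW ?_
    have := mW_le (η := η) (R := R)
    linarith
  have k4 : 2 * mW η R ≤ M := by
    have h1 := mW_le (η := η) (R := R)
    have h3 : ((2 * mW η R : ℤ) : ℝ) ≤ (M : ℝ) := by push_cast; linarith
    exact_mod_cast h3
  exact ⟨_, _, n, C.H, C.W, C.A, C.CL, p, 2, srI (C.win n he h8 (crz c0 v.2)) p S,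
    { co := coarse_ref
      n1 := hηn
      h2 := h2
      w2 := w2
      out := outR_ok
      cut := cut_ref (C.win n he h8 (crz c0 v.2)).hh
      nR := not_CA_R
      sub := srI_sub hS
      nat := srI_nat hN
      sol := srI_sol }, w0, _, _,
    vOnI_win hC g k1 k4 k2 k3 hO hB hS hcol outR_Wo w0 Ψ, rfl⟩

end Pool.Agent.H49.W.N
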