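import Mathlib
import Pool.Agent.H44.FM.FineW
import Pool.Agent.H49.W.AsmW3

set_option autoImplicit false
open Finset

/-!
# Theorem C with several walls: the inputs for one environment, natural weights

`FineWV` : the inputs of the assembly (the
analogue of `FineW` for an abstract functional `V`). `resp_fineV` : the response of one wall at the weight `1/4` is `O (M / R)`.
`add_fineV` : the responses are additive up to `o (M / R)`.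
-/

namespace Pool.Agent.H49.W

open Pool.Agent.H75.Perc Pool.Agent.H75.TwoArm Pool.Agent.H75.Four Pool.Agent.H49.Perc
open Pool.Agent.H69.Q1 Pool.Agent.H39.Q1 Pool.Agent.H25.Q1.Add
open Pool.Agent.H99.NC Pool.Agent.H60.Q1 Pool.Agent.H20.Q1 Pool.Agent.H59.Q1 Pool.Agent.Q1
open Pool.Agent.Q1.M6e Pool.Agent.H15.W Pool.Agent.H44.FM.AsmW

section

variable {ι κ : Type} [DecidableEq ι] [DecidableEq κ]

/-- total, weights `s w` on the wall `w` -/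
noncomputable def _root_.Pool.Agent.H44.FM.AsmW.DatW.totV (d : DatW ι κ)
    (V : Finset (ℤ × ℤ) → Finset (ℤ × ℤ) → ℂ) (s : κ → ℂ) : ℂ :=
  TotV V d.B d.TT (fun e => s (d.wl e))

/-- everything tied -/
noncomputable def _root_.Pool.Agent.H44.FM.AsmW.DatW.tot0V (d : DatW ι κ)
    (V : Finset (ℤ × ℤ) → Finset (ℤ × ℤ) → ℂ) : ℂ :=
  Tot0V V d.B d.TT

/-- first order terms -/
noncomputable def _root_.Pool.Agent.H44.FM.AsmW.DatW.fstV (d : DatW ι κ)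
    (V : Finset (ℤ × ℤ) → Finset (ℤ × ℤ) → ℂ) (s : κ → ℂ) : ℂ :=
  ∑ e ∈ d.TT, TmV V d.B d.TT d.fm d.co d.La d.b d.rk (fun e => s (d.wl e)) e

/-- bound of the functional for every configuration of the layer and of the ties -/
def _root_.Pool.Agent.H44.FM.AsmW.DatW.HVV (d : DatW ι κ)
    (V : Finset (ℤ × ℤ) → Finset (ℤ × ℤ) → ℂ) (M : ℝ) : Prop :=
  ∀ ω ⊆ d.B, ∀ P ⊆ d.TT, ‖V ω P‖ ≤ M

/-- **The inputs of the assembly for one environment with walls**, window radius `R'`. `Q` : the relevant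
ties. -/
structure FineWV (C c K : ℝ) (R : ℕ) (R' : ℤ) (d : DatW ι κ) (Sg : Finset (ℤ × ℤ))
    (V : Finset (ℤ × ℤ) → Finset (ℤ × ℤ) → ℂ)
    (FlT : κ → Finset (ℤ × ℤ)) (Q : Finset (ℤ × ℤ) → ℤ × ℤ → Prop) : Prop where
  mul : Multi d.X d.W d.Bb d.B d.TT d.fm d.co d.Wl d.La d.b d.o
  tog : VTog V d.W d.B d.TT d.fm d.co d.Wl d.La d.b d.o
  loc : VLoc V d.X d.W d.Bb d.B d.TT Sg d.fm d.co d.Wl d.La d.b d.o
  walls : WallsV d.X d.W d.Bb d.TT Sg d.fm d.co d.Wl d.La d.b d.o d.rk d.wl d.fw d.ε d.δ FlT R'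
  card : ∀ w, ((FlT w).card : ℝ) ≤ C * R
  irr : ∀ ω ⊆ d.B, ∀ e ∈ d.TT, DV V d.TT d.fm d.co d.La d.b e ω ≠ 0 → Q ω e
  fst : ∀ (M : ℝ), d.HVV V M → ∀ (s : κ → ℂ) (a0 : ℤ),
    (∀ w, ‖s w‖ < 1) → (∀ w, ‖1 - s w‖ ≤ 16 * (1 - ‖s w‖)) → 2 ≤ a0 → a0 ≤ R' →
    (∀ w, K ≤ (1 - ‖s w‖) ^ ((3 : ℝ) / 2) * a0) →
    ‖d.totV V s - d.tot0V V - d.fstV V s‖ ≤ C * M * ((a0 : ℝ) / R) ^ (1 + c)
  crn : ∀ (w : κ) (σ : ℝ) (a0 : ℤ), 1 / 4 ≤ σ → σ < 1 → 2 ≤ a0 → a0 ≤ R' →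
    K ≤ (1 - σ) ^ ((3 : ℝ) / 2) * a0 →
    Ex hf d.B (fun ω => ∑ e ∈ TW d.TT d.wl w,
      crn d.TT d.fm d.co d.La d.b d.rk Q (FlT w) σ e ω) ≤ C * ((a0 : ℝ) / R) * ((R' : ℝ) / R) ^ c

/-- the first order expansion at the weights `0`, `1/4` -/
lemma FineWV.fst4 {C c K : ℝ} {R : ℕ} {R' : ℤ} {d : DatW ι κ} {Sg : Finset (ℤ × ℤ)}
    {V : Finset (ℤ × ℤ) → Finset (ℤ × ℤ) → ℂ}
    {FlT : κ → Finset (ℤ × ℤ)} {Q : Finset (ℤ × ℤ) → ℤ × ℤ → Prop}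
    (hF : FineWV C c K R R' d Sg V FlT Q) {M : ℝ} (hV : d.HVV V M) {a0 : ℤ} (h1 : 2 ≤ a0) (h2 : a0 ≤ R')
    (h3 : K ≤ (3 / 4 : ℝ) ^ ((3 : ℝ) / 2) * a0) (S : Finset κ) :
    ‖d.totV V (q4 S) - d.tot0V V - d.fstV V (q4 S)‖ ≤ C * M * ((a0 : ℝ) / R) ^ (1 + c) := by
  have h1' : (2 : ℝ) ≤ a0 := by exact_mod_cast h1
  refine hF.fst M hV (q4 S) a0 (fun w => (norm_q4 S w).trans_lt (by norm_num))
    (fun w => norm_q4' S w) h1 h2 fun w => h3.trans (mul_le_mul_of_nonneg_right ?_ (by linarith))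
  refine Real.rpow_le_rpow (by norm_num) ?_ (by norm_num)
  linarith [norm_q4 S w]

end

/-- **The response of one wall** at the weight `1/4`. -/
theorem resp_fineV {C c K ζ : ℝ} {R1 : ℕ} (hC : 0 < C) (hc : 0 < c) (hζ : 0 < ζ) (hζ1 : ζ ≤ 1) :
    ∃ (C' : ℝ) (R0 : ℕ), 0 < C' ∧ ∀ {ι κ : Type} [DecidableEq ι] [DecidableEq κ] [Fintype κ] (R : ℕ)
      (d : DatW ι κ) (Sg : Finset (ℤ × ℤ))
      (V : Finset (ℤ × ℤ) → Finset (ℤ × ℤ) → ℂ) (M : ℝ), R0 ≤ R →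
      (∀ R' : ℤ, R1 ≤ R' → (R' : ℝ) ≤ ζ * R → ∃ FlT Q, FineWV C c K R R' d Sg V FlT Q) →
      d.HVV V M → ∀ w, ‖d.totV V (q4 {w}) - d.tot0V V‖ ≤ C' * M / R := by
  obtain ⟨K0, C0, hK0, hC0, hresp⟩ := resp_wallV
  obtain ⟨a0, ha2, haK⟩ := exists_a4 K
  have ha2' : (2 : ℝ) ≤ a0 := by exact_mod_cast ha2
  obtain ⟨R0, hR0⟩ := exists_nat_ge (max (max ((R1 + 2) / ζ) ((a0 + 1) / ζ)) ((K0 + 1) / ζ + 4 / ζ))
  refine ⟨C * a0 ^ (1 + c) + 2 * (C * (C0 * (4 / ζ ^ 2)) + C * a0), R0, by positivity, ?_⟩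
  intro ι κ _ _ _ R d Sg V M hR hF hV w
  have hRr : (R0 : ℝ) ≤ R := by exact_mod_cast hR
  have hM0 : 0 ≤ M := (norm_nonneg _).trans (hV ∅ (empty_subset _) ∅ (empty_subset _))
  have b1 : (R1 + 2) / ζ ≤ R := ((le_max_left _ _).trans (le_max_left _ _)).trans (hR0.trans hRr)
  have b2 : (a0 + 1) / ζ ≤ R := ((le_max_right _ _).trans (le_max_left _ _)).trans (hR0.trans hRr)
  have b3 : (K0 + 1) / ζ + 4 / ζ ≤ R := (le_max_right _ _).trans (hR0.trans hRr)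
  rw [div_le_iff₀ hζ] at b1 b2
  have b3' : K0 + 5 ≤ R * ζ := by
    rw [← add_div, div_le_iff₀ hζ] at b3
    linarith
  have hRpos : (0 : ℝ) < R := by
    by_contra hcon
    push Not at hcon
    nlinarith
  set R' : ℤ := ⌊ζ * R⌋ with hR'
  have s1 : (R' : ℝ) ≤ ζ * R := Int.floor_le _
  have s2 : ζ * R < R' + 1 := Int.lt_floor_add_one _
  have s3 : (R1 : ℤ) ≤ R' := by
    rw [hR', Int.le_floor]; push_cast; linarith
  have s4 : a0 ≤ R' := by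
    rw [hR', Int.le_floor]; linarith
  have s5 : ζ * R / 2 ≤ R' := by linarith
  have s6 : K0 ≤ R' := by linarith
  obtain ⟨FlT, Q, hFi⟩ := hF R' s3 s1
  have h1 := hFi.fst4 hV ha2 s4 haK {w}
  have hc1 := hFi.crn w (1 / 4) a0 le_rfl (by norm_num) ha2 s4 (by
    rw [show (1 - 1 / 4 : ℝ) = 3 / 4 by norm_num]; exact haK)
  have key := hresp d.X d.W d.Bb d.B d.TT Sg d.fm d.co d.Wl d.La d.b d.o V d.rk d.wl d.fw d.ε d.δ
    FlT R' M _ _ (d.tot0V V) Q w hFi.mul hFi.tog hFi.walls hV hFi.irr s6 h1 hc1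
  refine key.trans ?_
  have e1 : ((a0 : ℝ) / R) ^ (1 + c) ≤ (a0 : ℝ) ^ (1 + c) / R := by
    rw [Real.div_rpow (by linarith) hRpos.le]
    refine div_le_div_of_nonneg_left (by positivity) hRpos ?_
    have hR1 : (1 : ℝ) ≤ R := by nlinarith
    calc (R : ℝ) = (R : ℝ) ^ (1 : ℝ) := (Real.rpow_one _).symm
      _ ≤ (R : ℝ) ^ (1 + c) := Real.rpow_le_rpow_of_exponent_le hR1 (by linarith)
  have e2 : ((R' : ℝ) / R) ^ c ≤ 1 := by
    refine Real.rpow_le_one (div_nonneg (by linarith) hRpos.le) ?_ hc.le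
    rw [div_le_one hRpos]
    nlinarith
  have e3 : C0 / (R' : ℝ) ^ 2 ≤ C0 * (4 / ζ ^ 2) / (R : ℝ) ^ 2 := by
    have h2 : (ζ * R / 2) ^ 2 ≤ (R' : ℝ) ^ 2 := pow_le_pow_left₀ (by positivity) s5 2
    calc C0 / (R' : ℝ) ^ 2 ≤ C0 / (ζ * R / 2) ^ 2 :=
          div_le_div_of_nonneg_left hC0.le (by positivity) h2
      _ = C0 * (4 / ζ ^ 2) / (R : ℝ) ^ 2 := by field_simp; norm_num
  have e4 : ((FlT w).card : ℝ) * (C0 / (R' : ℝ) ^ 2) ≤ C * (C0 * (4 / ζ ^ 2)) / R := by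
    calc ((FlT w).card : ℝ) * (C0 / (R' : ℝ) ^ 2) ≤ (C * R) * (C0 * (4 / ζ ^ 2) / (R : ℝ) ^ 2) :=
          mul_le_mul (hFi.card w) e3 (by positivity) (by positivity)
      _ = C * (C0 * (4 / ζ ^ 2)) / R := by field_simp
  have e5 : C * ((a0 : ℝ) / R) * ((R' : ℝ) / R) ^ c ≤ C * a0 / R := by
    calc C * ((a0 : ℝ) / R) * ((R' : ℝ) / R) ^ c ≤ C * ((a0 : ℝ) / R) * 1 :=
          mul_le_mul_of_nonneg_left e2 (by positivity)
      _ = C * a0 / R := by ring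
  calc C * M * ((a0 : ℝ) / R) ^ (1 + c) + 2 * M * ((FlT w).card * (C0 / (R' : ℝ) ^ 2) +
        C * ((a0 : ℝ) / R) * ((R' : ℝ) / R) ^ c)
      ≤ C * M * ((a0 : ℝ) ^ (1 + c) / R) + 2 * M * (C * (C0 * (4 / ζ ^ 2)) / R + C * a0 / R) :=
        add_le_add (mul_le_mul_of_nonneg_left e1 (by positivity))
          (mul_le_mul_of_nonneg_left (add_le_add e4 e5) (by positivity))
    _ = (C * a0 ^ (1 + c) + 2 * (C * (C0 * (4 / ζ ^ 2)) + C * a0)) * M / R := by ring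

/-- **The responses are additive** up to `o (M / R)`. -/
theorem add_fineV (N0 : ℕ) {C c K ζ ε : ℝ} {R1 : ℕ} (hC : 0 < C) (hc : 0 < c) (hζ : 0 < ζ)
    (hε : 0 < ε) :
    ∃ R0 : ℕ, ∀ {ι κ : Type} [DecidableEq ι] [DecidableEq κ] [Fintype κ] (R : ℕ)
      (d : DatW ι κ) (Sg : Finset (ℤ × ℤ))
      (V : Finset (ℤ × ℤ) → Finset (ℤ × ℤ) → ℂ) (M : ℝ), R0 ≤ R →
      Fintype.card κ ≤ N0 →
      (∀ R' : ℤ, R1 ≤ R' → (R' : ℝ) ≤ ζ * R → ∃ FlT Q, FineWV C c K R R' d Sg V FlT Q) →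
      d.HVV V M → ∀ S : Finset κ, ‖d.totV V (q4 S) - d.tot0V V -
        ∑ w ∈ S, (d.totV V (q4 {w}) - d.tot0V V)‖ ≤ ε * M / R := by
  obtain ⟨a0, ha2, haK⟩ := exists_a4 K
  have ha2' : (2 : ℝ) ≤ a0 := by exact_mod_cast ha2
  -- the window
  obtain ⟨ξ, hξ, hξζ, hξs⟩ : ∃ ξ : ℝ, 0 < ξ ∧ ξ ≤ ζ ∧ 4 * (N0 * (C * a0)) * ξ ^ c ≤ ε / 2 := by
    have h1 : Filter.Tendsto (fun x : ℝ => 4 * (N0 * (C * a0)) * x ^ c) (nhds 0) (nhds 0) := by
      have : Continuous fun x : ℝ => 4 * (N0 * (C * a0)) * x ^ c :=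
        continuous_const.mul (continuous_id.rpow_const fun _ => Or.inr hc.le)
      have h2 := this.tendsto 0
      rwa [Real.zero_rpow hc.ne', mul_zero] at h2
    obtain ⟨δ, hδ, h2⟩ := Metric.eventually_nhds_iff.1
      (h1.eventually_lt_const (by positivity : (0 : ℝ) < ε / 2))
    refine ⟨min ζ (δ / 2), lt_min hζ (by positivity), min_le_left _ _, (h2 ?_).le⟩
    rw [Real.dist_eq, sub_zero, abs_of_pos (lt_min hζ (by positivity))]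
    exact (min_le_right _ _).trans_lt (by linarith)
  -- the size
  have h3 : Filter.Tendsto (fun n : ℕ => (N0 + 1) * C * (a0 : ℝ) ^ (1 + c) * ((n : ℝ) ^ (-c)))
      Filter.atTop (nhds 0) := by
    have := ((tendsto_rpow_neg_atTop hc).comp tendsto_natCast_atTop_atTop).const_mul
      ((N0 + 1) * C * (a0 : ℝ) ^ (1 + c))
    rwa [mul_zero] at this
  obtain ⟨R2, hR2⟩ := Filter.eventually_atTop.1
    (h3.eventually_lt_const (by positivity : (0 : ℝ) < ε / 2))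
  obtain ⟨R3, hR3⟩ := exists_nat_ge (max ((R1 + 2) / ξ) ((a0 + 1) / ξ))
  refine ⟨max R2 (max R3 1), ?_⟩
  intro ι κ _ _ _ R d Sg V M hR hN hF hV S
  have hRa : R2 ≤ R := (le_max_left _ _).trans hR
  have hRb : R3 ≤ R := ((le_max_left _ _).trans (le_max_right _ _)).trans hR
  have hRc : 1 ≤ R := ((le_max_right _ _).trans (le_max_right _ _)).trans hR
  have hRr : (R3 : ℝ) ≤ R := by exact_mod_cast hRb
  have hRpos : (0 : ℝ) < R := by exact_mod_cast hRc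
  have hM0 : 0 ≤ M := (norm_nonneg _).trans (hV ∅ (empty_subset _) ∅ (empty_subset _))
  have b1 : (R1 + 2) / ξ ≤ R := (le_max_left _ _).trans (hR3.trans hRr)
  have b2 : (a0 + 1) / ξ ≤ R := (le_max_right _ _).trans (hR3.trans hRr)
  rw [div_le_iff₀ hξ] at b1 b2
  set R' : ℤ := ⌊ξ * R⌋ with hR'
  have s1 : (R' : ℝ) ≤ ξ * R := Int.floor_le _
  have s2 : ξ * R < R' + 1 := Int.lt_floor_add_one _
  have s3 : (R1 : ℤ) ≤ R' := by
    rw [hR', Int.le_floor]; push_cast; linarith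
  have s4 : a0 ≤ R' := by
    rw [hR', Int.le_floor]; linarith
  have s5 : (0 : ℝ) ≤ R' := by
    have : (0 : ℤ) ≤ R' := by omega
    exact_mod_cast this
  obtain ⟨FlT, Q, hFi⟩ := hF R' s3 (s1.trans (mul_le_mul_of_nonneg_right hξζ hRpos.le))
  set E : ℝ := C * M * ((a0 : ℝ) / R) ^ (1 + c) with hE
  have h1 : ∀ T : Finset κ, ‖TotV V d.B d.TT (w4 d.wl T) - d.tot0V V -
      ∑ e ∈ d.TT, TmV V d.B d.TT d.fm d.co d.La d.b d.rk (w4 d.wl T) e‖ ≤ E :=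
    fun T => hFi.fst4 hV ha2 s4 haK T
  have hc1 : ∀ w, Ex hf d.B (fun ω => ∑ e ∈ TW d.TT d.wl w,
      crn d.TT d.fm d.co d.La d.b d.rk Q (FlT w) (1 / 4) e ω) ≤ C * ((a0 : ℝ) / R) * ((R' : ℝ) / R) ^ c :=
    fun w => hFi.crn w (1 / 4) a0 le_rfl (by norm_num) ha2 s4 (by
      rw [show (1 - 1 / 4 : ℝ) = 3 / 4 by norm_num]; exact haK)
  have e2 : ((R' : ℝ) / R) ^ c ≤ ξ ^ c := by
    refine Real.rpow_le_rpow (div_nonneg s5 hRpos.le) ?_ hc.le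
    rw [div_le_iff₀ hRpos]; exact s1
  have hξc : 0 ≤ ξ ^ c := Real.rpow_nonneg hξ.le _
  have hN' : (Fintype.card κ : ℝ) ≤ N0 := by exact_mod_cast hN
  have hZ : Ex hf d.B (fun ω => ∑ e ∈ d.TT,
      crn d.TT d.fm d.co d.La d.b d.rk Q (FlT (d.wl e)) (1 / 4) e ω) ≤
      N0 * (C * ((a0 : ℝ) / R) * ξ ^ c) := by
    have e3 : (fun ω => ∑ e ∈ d.TT, crn d.TT d.fm d.co d.La d.b d.rk Q (FlT (d.wl e)) (1 / 4) e ω) =
        fun ω => ∑ w, ∑ e ∈ TW d.TT d.wl w,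
          crn d.TT d.fm d.co d.La d.b d.rk Q (FlT w) (1 / 4) e ω := by
      funext ω
      rw [sum_TW (wl := d.wl)]
      refine sum_congr rfl fun w _ => sum_congr rfl fun e he => ?_
      rw [(mem_TW.1 he).2]
    rw [e3, Ex_sum]
    refine (sum_le_sum fun w _ => (hc1 w).trans
      (mul_le_mul_of_nonneg_left e2 (by positivity))).trans ?_
    rw [sum_const, nsmul_eq_mul, card_univ]
    exact mul_le_mul_of_nonneg_right hN' (by positivity)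
  have key := add_wallsV (EF' := fun _ => E) hFi.walls hV hFi.irr S (h1 S) (fun w => h1 {w}) hZ
  have hE0 : 0 ≤ E := by rw [hE]; positivity
  refine key.trans ?_
  rw [sum_const, nsmul_eq_mul]
  have hS : (S.card : ℝ) ≤ N0 := by
    have := (card_le_univ S).trans hN
    exact_mod_cast this
  have e4 : E + S.card * E ≤ (N0 + 1) * E := by nlinarith
  have e5 : (N0 + 1) * E ≤ ε / 2 * M / R := by
    have h5 := hR2 R hRa
    have e6 : ((a0 : ℝ) / R) ^ (1 + c) = (a0 : ℝ) ^ (1 + c) * (R : ℝ) ^ (-c) / R := by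
      rw [Real.div_rpow (by linarith) hRpos.le, Real.rpow_add hRpos, Real.rpow_one,
        Real.rpow_neg hRpos.le]
      field_simp
    calc (N0 + 1) * E = ((N0 + 1) * C * (a0 : ℝ) ^ (1 + c) * ((R : ℝ) ^ (-c))) * (M / R) := by
          rw [hE, e6]; ring
      _ ≤ ε / 2 * (M / R) := mul_le_mul_of_nonneg_right h5.le (by positivity)
      _ = ε / 2 * M / R := by ring
  have e7 : 4 * M * (N0 * (C * ((a0 : ℝ) / R) * ξ ^ c)) ≤ ε / 2 * M / R := by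
    calc 4 * M * (N0 * (C * ((a0 : ℝ) / R) * ξ ^ c)) =
          (4 * (N0 * (C * a0)) * ξ ^ c) * (M / R) := by ring
      _ ≤ ε / 2 * (M / R) := mul_le_mul_of_nonneg_right hξs (by positivity)
      _ = ε / 2 * M / R := by ring
  have e8 : ε * M / R = ε / 2 * M / R + ε / 2 * M / R := by ring
  rw [e8]
  linarith

end Pool.Agent.H49.W
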