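import Pool.Agent.H54.W.Def
import Pool.Agent.H42.Sp.TieMem

set_option autoImplicit false
open Finset

/-! # The tied forms of the environments of a window with a flat right wall: caps

A cap is a grid point `g` between two neighbouring straight tiles of the line, with two outside tiles on
the other side, which are open if `g` is a face and closed if `g` is a vertex. Kinds (`Sd` of
`H42/Sp/Tie`): `L` line on a vertical wall of the left arc, `R` line on the right wall, `F` line above `g`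
(runs to the west), `C` line below `g` (runs to the east). `CP D τ k` : there is a cap of the kind `k.1` at
`k.2` when the line is at the position `τ`. `kt`, `rt` : the two tiles of the line at a cap, `kt` the one
with `x + y` odd (kept), `rt` the other one (removed). `OutT D τ x y c` : the tile `(x, y)` is not random
and it is open iff `c = true`, for every choice of the far labels. `cap_CP` : the caps. -/

namespace Pool.Agent.H49.W

open Pool.Agent.H75.TwoArm Pool.Agent.Q1 Pool.Agent.H33.Q1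
open Pool.Agent.H69.Q1
open Pool.Agent.H54.W Pool.Agent.H54.W.Win
open Pool.Agent.H13.R45 Pool.Agent.H13.Q1
open Pool.Agent.H74.R45 (exists_lt)
open Pool.Agent.H42.Sp (Sd Ix kt rt kt_odd rt_even kt_Tg rt_Tg cap_of)

variable {D : Win} {τ : ℤ → ℤ} {x y : ℤ} {c : Bool}

/-! ### Tiles of the outside -/

/-- a tile which is not random and is open iff `c = true` -/
def OutT (D : Win) (τ : ℤ → ℤ) (x y : ℤ) (c : Bool) : Prop :=
  ¬ D.InE τ x y ∧ D.InZ x y ∧ (D.InO τ x y ↔ c = true)

theorem OutT.not_mem (H : Pos D τ) (h : OutT D τ x y c) : lt (x, y) ∉ D.EJ τ := by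
  rw [mem_EJ H]; exact h.1

theorem OutT.mem (h : OutT D τ x y c) (O : Out D) : lt (x, y) ∈ D.WJ τ O.Wo ↔ c = true := by
  unfold WJ
  rw [mem_union, Win.mem_WR, ← h.2.2]
  refine ⟨fun h2 => ?_, Or.inl⟩
  rcases h2 with h2 | h2
  · exact h2
  · exact absurd h.2.1 (O.far _ _ h2)

/-- `V` agrees with the open labels near the window -/
def NearV (D : Win) (τ : ℤ → ℤ) (V : Finset (ℤ × ℤ)) : Prop :=
  ∀ x y, D.InZ x y → (lt (x, y) ∈ V ↔ D.InO τ x y)

theorem nearV_WJ (O : Out D) : NearV D τ (D.WJ τ O.Wo) := by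
  intro x y h
  unfold WJ
  rw [mem_union, Win.mem_WR]
  exact ⟨fun h2 => h2.resolve_right fun h3 => O.far _ _ h3 h, Or.inl⟩

theorem nearV_WR : NearV D τ (D.WR τ) := fun _ _ _ => Win.mem_WR

theorem OutT.memV (h : OutT D τ x y c) {V : Finset (ℤ × ℤ)} (hV : NearV D τ V) :
    lt (x, y) ∈ V ↔ c = true := by
  rw [← h.2.2]; exact hV _ _ h.2.1

/-- tiles outside of the line and of the union -/
theorem outT_of (h1 : ¬ D.InE τ x y) (h2 : D.InZ x y) (h3 : ¬ D.TA τ x y) (h4 : ¬ D.TB τ x y) :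
    OutT D τ x y (D.fill x y) := by
  refine ⟨h1, h2, ?_⟩
  unfold InO
  tauto

theorem fill_L (h0 : 0 ≤ y) (h1 : y < D.h) (h2 : x < D.a y) : D.fill x y = D.cl y := by
  unfold fill; rw [if_neg (by omega), if_neg (by omega), if_pos h2]

theorem fill_R (h0 : 0 ≤ y) (h1 : y < D.h) (h2 : D.a y ≤ x) : D.fill x y = D.cr y := by
  unfold fill; rw [if_neg (by omega), if_neg (by omega), if_neg (by omega)]

theorem fill_B (h0 : y < 0) : D.fill x y = D.cb := by
  unfold fill; rw [if_pos h0]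

theorem fill_T (h0 : D.h ≤ y) : D.fill x y = D.ct := by
  have := D.hh
  unfold fill; rw [if_neg (by omega), if_pos h0]

/-! ### Caps -/

/-- the cap points when the line is at the position `τ` -/
def CP (D : Win) (τ : ℤ → ℤ) : Ix → Prop
  | (.L, (x, y)) => 0 < y ∧ y < D.h ∧ x = D.a y - 1 ∧ τ y = D.a y ∧ τ (y - 1) = D.a y ∧
      D.a (y - 1) = D.a y ∧ (1 < y → τ (y - 1) ≤ τ (y - 2)) ∧ (y + 1 < D.h → τ y ≤ τ (y + 1)) ∧
      ((x + y) % 2 = 1 ↔ D.cl y = true)
  | (.R, (x, y)) => 0 < y ∧ y < D.h ∧ x = D.w ∧ τ y = D.w ∧ τ (y - 1) = D.w ∧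
      D.cr (y - 1) = D.cr y ∧ ((x + y) % 2 = 1 ↔ D.cr y = true)
  | (.F, (x, y)) =>
      (0 ≤ y ∧ y + 1 < D.h ∧ τ (y + 1) < x ∧ x + 1 < τ y ∧ ((x + y) % 2 = 1 ↔ D.cl y = true)) ∨
      (y = -1 ∧ τ 0 < x ∧ x < D.w ∧ ((x + y) % 2 = 1 ↔ D.cb = true))
  | (.C, (x, y)) =>
      (1 < y ∧ y - 1 < D.h ∧ τ (y - 2) < x ∧ x + 1 < τ (y - 1) ∧
        ((x + y) % 2 = 1 ↔ D.cl (y - 1) = true)) ∨
      (y = D.h + 1 ∧ τ (D.h - 1) < x ∧ x < D.w ∧ ((x + y) % 2 = 1 ↔ D.ct = true))

/-- a cap from two random tiles and two outside tiles -/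
theorem cap_ix {V : Finset (ℤ × ℤ)} (hV : NearV D τ V) (H : Pos D τ) {k : Ix} {u1 u2 : ℤ × ℤ}
    {c : Bool} (m1 : D.InE τ (kt k).1 (kt k).2) (m2 : D.InE τ (rt k).1 (rt k).2)
    (hall : ∀ e, Tg k.2 e → e = lt (kt k) ∨ e = lt (rt k) ∨ e = lt u1 ∨ e = lt u2)
    (n1 : OutT D τ u1.1 u1.2 c) (n2 : OutT D τ u2.1 u2.2 c)
    (hc : (k.2.1 + k.2.2) % 2 = 1 ↔ c = true) :
    Cap (D.EJ τ) V (ev k.2) (gp k.2) (lt (kt k)) (lt (rt k)) := by
  refine cap_of (kt_Tg k) (rt_Tg k) (fun h => ?_) ((mem_EJ H).2 m1) ((mem_EJ H).2 m2) hall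
    (n1.not_mem H) (n1.memV hV) (n2.not_mem H) (n2.memV hV) hc
  have h1 := kt_odd k
  have h2 := rt_even k
  rw [h] at h1
  omega

/-- no rise before a drop -/
theorem no_rise (h0 : 0 ≤ y) (h1 : y + 1 < D.h) (h2 : D.a (y + 1) < D.a y) {z : ℤ} (h3 : 0 < z)
    (h4 : z ≤ y) (h5 : y ≤ z + 2) : D.a z ≤ D.a (z - 1) := by
  by_contra hcon
  push Not at hcon
  have := D.ud z (y + 1) h3 (by omega) h1 hcon (by rwa [add_sub_cancel_right])
  omega

/-- no drop after a rise -/
theorem no_drop (h0 : 0 < y) (h1 : y < D.h) (h2 : D.a (y - 1) < D.a y) {z : ℤ} (h3 : y ≤ z)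
    (h4 : z ≤ y + 2) (h5 : z + 1 < D.h) : D.a z ≤ D.a (z + 1) := by
  by_contra hcon
  push Not at hcon
  have := D.ud y (z + 1) h0 (by omega) (by omega) h2 (by rwa [add_sub_cancel_right])
  omega

/-- the tiles at a cap of the left arc -/
theorem tiles_L (H : Pos D τ) (hk : CP D τ (.L, (x, y))) :
    D.InE τ x y ∧ D.InE τ x (y - 1) ∧ OutT D τ (x - 1) y (D.cl y) ∧
      OutT D τ (x - 1) (y - 1) (D.cl y) ∧ ((x + y) % 2 = 1 ↔ D.cl y = true) := by
  obtain ⟨g0, g1, g2, g3, g4, g5, g6, g7, g8⟩ := hk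
  have hw := D.aw y (by omega) g1
  have hlo := D.hlo y (by omega) g1
  have hcl : D.cl (y - 1) = D.cl y := by
    have := D.scl (y - 1) (by omega) (by omega) (by rw [sub_add_cancel]; exact g5)
    rwa [sub_add_cancel] at this
  have e1 : D.fill (x - 1) y = D.cl y := fill_L (by omega) g1 (by omega)
  have e2 : D.fill (x - 1) (y - 1) = D.cl y := by
    rw [fill_L (by omega) (by omega) (by omega), hcl]
  refine ⟨Or.inl ⟨by omega, g1, by omega, by omega⟩, Or.inl ⟨by omega, by omega, by omega, by omega⟩,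
    ?_, ?_, g8⟩
  · rw [← e1]
    refine outT_of ?_ ⟨by omega, by omega, by omega, by omega⟩ ?_ ?_
    · rintro (⟨h1, h2, h3, h4⟩ | ⟨h1, h2, h3, h4⟩ | ⟨h1, h2, h3, h4⟩ | ⟨h1, h2, h3⟩ | ⟨h1, h2, h3⟩)
      · omega
      · omega
      · have := g7 h2; omega
      · omega
      · omega
    · rintro (⟨h1, h2, h3, h4⟩ | ⟨h1, h2⟩)
      · omega
      · omega
    · rintro (⟨h1, h2, h3, h4⟩ | ⟨h1, h2⟩)
      · have := g7 h2; omega
      · omega
  · rw [← e2]
    refine outT_of ?_ ⟨by omega, by omega, by omega, by omega⟩ ?_ ?_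
    · rintro (⟨h1, h2, h3, h4⟩ | ⟨h1, h2, h3, h4⟩ | ⟨h1, h2, h3, h4⟩ | ⟨h1, h2, h3⟩ | ⟨h1, h2, h3⟩)
      · omega
      · have := g6 (by omega)
        rw [show y - 1 - 1 = y - 2 by ring] at h3
        omega
      · rw [show y - 1 + 1 = y by ring] at h3
        omega
      · omega
      · omega
    · rintro (⟨h1, h2, h3, h4⟩ | ⟨h1, h2⟩)
      · have := g6 (by omega)
        rw [show y - 1 - 1 = y - 2 by ring] at h3
        omega
      · omega
    · rintro (⟨h1, h2, h3, h4⟩ | ⟨h1, h2⟩)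
      · rw [show y - 1 + 1 = y by ring] at h3
        omega
      · omega

/-- the tiles at a cap of the right wall -/
theorem tiles_R (H : Pos D τ) (hk : CP D τ (.R, (x, y))) :
    D.InE τ (x - 1) y ∧ D.InE τ (x - 1) (y - 1) ∧ OutT D τ x y (D.cr y) ∧
      OutT D τ x (y - 1) (D.cr y) ∧ ((x + y) % 2 = 1 ↔ D.cr y = true) := by
  obtain ⟨g0, g1, g2, g3, g4, g5, g6⟩ := hk
  have hw := D.aw y (by omega) g1
  have hw' := D.aw (y - 1) (by omega) (by omega)
  have hlo := D.hlo y (by omega) g1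
  have e1 : D.fill x y = D.cr y := fill_R (by omega) g1 (by omega)
  have e2 : D.fill x (y - 1) = D.cr y := by
    rw [fill_R (by omega) (by omega) (by omega), g5]
  have hx : ∀ z, 0 ≤ z → z < D.h → τ z ≤ D.w := fun z h1 h2 => H.hi z h1 h2
  refine ⟨Or.inl ⟨by omega, g1, by omega, by omega⟩, Or.inl ⟨by omega, by omega, by omega, by omega⟩,
    ?_, ?_, g6⟩
  · rw [← e1]
    refine outT_of ?_ ⟨by omega, by omega, by omega, by omega⟩ ?_ ?_
    · rintro (⟨h1, h2, h3, h4⟩ | ⟨h1, h2, h3, h4⟩ | ⟨h1, h2, h3, h4⟩ | ⟨h1, h2, h3⟩ | ⟨h1, h2, h3⟩)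
      · omega
      · omega
      · omega
      · omega
      · omega
    · rintro (⟨h1, h2, h3, h4⟩ | ⟨h1, h2⟩)
      · omega
      · omega
    · rintro (⟨h1, h2, h3, h4⟩ | ⟨h1, h2⟩)
      · omega
      · omega
  · rw [← e2]
    refine outT_of ?_ ⟨by omega, by omega, by omega, by omega⟩ ?_ ?_
    · rintro (⟨h1, h2, h3, h4⟩ | ⟨h1, h2, h3, h4⟩ | ⟨h1, h2, h3, h4⟩ | ⟨h1, h2, h3⟩ | ⟨h1, h2, h3⟩)
      · omega
      · omega
      · omega
      · omega
      · omega
    · rintro (⟨h1, h2, h3, h4⟩ | ⟨h1, h2⟩)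
      · have := hx (y - 1 - 1) (by omega) (by omega)
        omega
      · omega
    · rintro (⟨h1, h2, h3, h4⟩ | ⟨h1, h2⟩)
      · have := hx (y - 1 + 1) (by omega) (by omega)
        omega
      · omega

/-- the tiles at a cap below a run to the west -/
theorem tiles_F (H : Pos D τ) (hk : CP D τ (.F, (x, y))) :
    ∃ c : Bool, D.InE τ (x - 1) y ∧ D.InE τ x y ∧ OutT D τ (x - 1) (y - 1) c ∧
      OutT D τ x (y - 1) c ∧ ((x + y) % 2 = 1 ↔ c = true) := by
  have hh := D.hh
  rcases hk with ⟨g0, g1, g2, g3, g4⟩ | ⟨g0, g2, g3, g4⟩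
  · -- below the floor of the row `y + 1`
    have k1 := H.dn y g0 g1 (by omega)
    have k2 := H.lo (y + 1) (by omega) g1
    have k3 := D.hlo (y + 1) (by omega) g1
    have k4 := D.aw y g0 (by omega)
    have hdrop : D.a (y + 1) < D.a y := by omega
    have hfe := D.fe (y + 1) (by omega) g1 (by rw [add_sub_cancel_right]; omega)
    have hr := no_rise g0 g1 hdrop (z := y) (by omega) le_rfl (by omega)
    have hr' := no_rise g0 g1 hdrop (z := y - 1) (by omega) (by omega) (by omega)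
    have hcl := D.cdn y (by omega) g1 hdrop
    have hlo' := H.lo (y - 1) (by omega) (by omega)
    have out : ∀ u : ℤ, D.lo ≤ u + 1 → u + 1 < D.a y → OutT D τ u (y - 1) (D.cl y) := by
      intro u hu1 hu
      have e : D.fill u (y - 1) = D.cl y := by
        rw [fill_L (by omega) (by omega) (by omega), hcl]
      rw [← e]
      refine outT_of ?_ ⟨by omega, by omega, by omega, by omega⟩ ?_ ?_
      · rintro (⟨h1, h2, h3, h4⟩ | ⟨h1, h2, h3, h4⟩ | ⟨h1, h2, h3, h4⟩ | ⟨h1, h2, h3⟩ | ⟨h1, h2, h3⟩)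
        · omega
        · have q := H.lo (y - 1 - 1) (by omega) (by omega)
          omega
        · rw [show y - 1 + 1 = y by ring] at h3
          omega
        · omega
        · omega
      · rintro (⟨h1, h2, h3, h4⟩ | ⟨h1, h2⟩)
        · have q := H.up (y - 1 - 1) (by omega) (by omega) (by rw [sub_add_cancel]; omega)
          have q2 := H.lo (y - 1 - 1) (by omega) (by omega)
          rw [sub_add_cancel] at q
          omega
        · omega
      · rintro (⟨h1, h2, h3, h4⟩ | ⟨h1, h2⟩)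
        · rw [show y - 1 + 1 = y by ring] at h3 h4
          omega
        · omega
    exact ⟨D.cl y, Or.inr (Or.inr (Or.inl ⟨g0, g1, by omega, by omega⟩)),
      Or.inr (Or.inr (Or.inl ⟨g0, g1, by omega, by omega⟩)), out _ (by omega) (by omega),
      out _ (by omega) (by omega), g4⟩
  · -- below the window
    subst g0
    have k2 := H.lo 0 le_rfl (by omega)
    have k3 := D.hlo 0 le_rfl (by omega)
    have out : ∀ u : ℤ, D.lo ≤ u + 1 → u < D.w → OutT D τ u (-1 - 1) D.cb := by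
      intro u hu1 hu
      have e : D.fill u (-1 - 1) = D.cb := fill_B (by omega)
      rw [← e]
      refine outT_of ?_ ⟨by omega, by omega, by omega, by omega⟩ ?_ ?_
      · rintro (⟨h1, h2, h3, h4⟩ | ⟨h1, h2, h3, h4⟩ | ⟨h1, h2, h3, h4⟩ | ⟨h1, h2, h3⟩ | ⟨h1, h2, h3⟩) <;>
          omega
      · rintro (⟨h1, h2, h3, h4⟩ | ⟨h1, h2⟩) <;> omega
      · rintro (⟨h1, h2, h3, h4⟩ | ⟨h1, h2⟩) <;> omega
    exact ⟨D.cb, Or.inr (Or.inr (Or.inr (Or.inl ⟨rfl, by omega, by omega⟩))),
      Or.inr (Or.inr (Or.inr (Or.inl ⟨rfl, by omega, by omega⟩))), out _ (by omega) (by omega),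
      out _ (by omega) (by omega), g4⟩

/-- the tiles at a cap above a run to the east -/
theorem tiles_C (H : Pos D τ) (hk : CP D τ (.C, (x, y))) :
    ∃ c : Bool, D.InE τ (x - 1) (y - 1) ∧ D.InE τ x (y - 1) ∧ OutT D τ (x - 1) y c ∧
      OutT D τ x y c ∧ ((x + y) % 2 = 1 ↔ c = true) := by
  have hh := D.hh
  rcases hk with ⟨g0, g1, g2, g3, g4⟩ | ⟨g0, g2, g3, g4⟩
  · -- above the ceiling of the row `y - 2`
    have hy : y - 1 - 1 = y - 2 := by ring
    have hy1 : y - 2 + 1 = y - 1 := by ring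
    have k1 := H.up (y - 2) (by omega) (by omega) (by rw [hy1]; omega)
    rw [hy1] at k1
    have k2 := H.lo (y - 2) (by omega) (by omega)
    have k3 := D.hlo (y - 2) (by omega) (by omega)
    have k4 := D.aw (y - 1) (by omega) (by omega)
    have hrise : D.a (y - 2) < D.a (y - 1) := by omega
    have hfe := D.fe (y - 1) (by omega) g1 (by rw [hy]; omega)
    have hr := no_drop (y := y - 1) (by omega) g1 (by rw [hy]; exact hrise) (z := y - 1) le_rfl
      (by omega) (by omega)
    have hr' := no_drop (y := y - 1) (by omega) g1 (by rw [hy]; exact hrise) (z := y) (by omega)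
      (by omega) (by omega)
    rw [sub_add_cancel] at hr
    have hcl : D.cl (y - 1) = D.cl y := by
      have := D.cup (y - 2) (by omega) (by omega) (by rw [hy1]; exact hrise)
      rwa [hy1, show y - 2 + 2 = y by ring] at this
    have out : ∀ u : ℤ, D.lo ≤ u + 1 → u + 1 < D.a (y - 1) → OutT D τ u y (D.cl (y - 1)) := by
      intro u hu1 hu
      have e : D.fill u y = D.cl (y - 1) := by
        rw [fill_L (by omega) (by omega) (by omega), hcl]
      rw [← e]
      refine outT_of ?_ ⟨by omega, by omega, by omega, by omega⟩ ?_ ?_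
      · rintro (⟨h1, h2, h3, h4⟩ | ⟨h1, h2, h3, h4⟩ | ⟨h1, h2, h3, h4⟩ | ⟨h1, h2, h3⟩ | ⟨h1, h2, h3⟩)
        · omega
        · omega
        · have q := H.lo (y + 1) (by omega) (by omega)
          omega
        · omega
        · omega
      · rintro (⟨h1, h2, h3, h4⟩ | ⟨h1, h2⟩)
        · omega
        · omega
      · rintro (⟨h1, h2, h3, h4⟩ | ⟨h1, h2⟩)
        · have q := H.dn y h1 h2 h3
          have q2 := H.lo (y + 1) (by omega) (by omega)
          omega
        · omega
    refine ⟨D.cl (y - 1), Or.inr (Or.inl ⟨by omega, g1, ?_, by omega⟩),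
      Or.inr (Or.inl ⟨by omega, g1, ?_, by omega⟩), out _ (by omega) (by omega),
      out _ (by omega) (by omega), g4⟩
    · rw [hy]; omega
    · rw [hy]; omega
  · -- above the window
    subst g0
    have k2 := H.lo (D.h - 1) (by omega) (by omega)
    have k3 := D.hlo (D.h - 1) (by omega) (by omega)
    have out : ∀ u : ℤ, D.lo ≤ u + 1 → u < D.w → OutT D τ u (D.h + 1) D.ct := by
      intro u hu1 hu
      have e : D.fill u (D.h + 1) = D.ct := fill_T (by omega)
      rw [← e]
      refine outT_of ?_ ⟨by omega, by omega, by omega, by omega⟩ ?_ ?_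
      · rintro (⟨h1, h2, h3, h4⟩ | ⟨h1, h2, h3, h4⟩ | ⟨h1, h2, h3, h4⟩ | ⟨h1, h2, h3⟩ | ⟨h1, h2, h3⟩) <;>
          omega
      · rintro (⟨h1, h2, h3, h4⟩ | ⟨h1, h2⟩) <;> omega
      · rintro (⟨h1, h2, h3, h4⟩ | ⟨h1, h2⟩) <;> omega
    exact ⟨D.ct, Or.inr (Or.inr (Or.inr (Or.inr ⟨by omega, by omega, by omega⟩))),
      Or.inr (Or.inr (Or.inr (Or.inr ⟨by omega, by omega, by omega⟩))), out _ (by omega) (by omega),
      out _ (by omega) (by omega), g4⟩

/-- **The caps**, for any set of open labels which is right near the window. -/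
theorem cap_CPV {V : Finset (ℤ × ℤ)} (hV : NearV D τ V) (H : Pos D τ) {k : Ix} (hk : CP D τ k) :
    Cap (D.EJ τ) V (ev k.2) (gp k.2) (lt (kt k)) (lt (rt k)) := by
  obtain ⟨s, x, y⟩ := k
  cases s
  · obtain ⟨i1, i2, o1, o2, hc⟩ := tiles_L H hk
    refine cap_ix hV H (u1 := (x - 1, y)) (u2 := (x - 1, y - 1)) (c := D.cl y) ?_ ?_ ?_ o1 o2 hc
    · unfold kt; simp only; split_ifs
      · exact i1
      · exact i2
    · unfold rt; simp only; split_ifs
      · exact i2
      · exact i1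
    · intro e he
      unfold Tg at he
      simp only at he
      unfold kt rt
      simp only
      split_ifs <;> rcases he with he | he | he | he <;> rw [he] <;> simp
  · obtain ⟨i1, i2, o1, o2, hc⟩ := tiles_R H hk
    refine cap_ix hV H (u1 := (x, y)) (u2 := (x, y - 1)) (c := D.cr y) ?_ ?_ ?_ o1 o2 hc
    · unfold kt; simp only; split_ifs
      · exact i2
      · exact i1
    · unfold rt; simp only; split_ifs
      · exact i1
      · exact i2
    · intro e he
      unfold Tg at he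
      simp only at he
      unfold kt rt
      simp only
      split_ifs <;> rcases he with he | he | he | he <;> rw [he] <;> simp
  · obtain ⟨c, i1, i2, o1, o2, hc⟩ := tiles_F H hk
    refine cap_ix hV H (u1 := (x - 1, y - 1)) (u2 := (x, y - 1)) (c := c) ?_ ?_ ?_ o1 o2 hc
    · unfold kt; simp only; split_ifs
      · exact i2
      · exact i1
    · unfold rt; simp only; split_ifs
      · exact i1
      · exact i2
    · intro e he
      unfold Tg at he
      simp only at he
      unfold kt rt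
      simp only
      split_ifs <;> rcases he with he | he | he | he <;> rw [he] <;> simp
  · obtain ⟨c, i1, i2, o1, o2, hc⟩ := tiles_C H hk
    refine cap_ix hV H (u1 := (x - 1, y)) (u2 := (x, y)) (c := c) ?_ ?_ ?_ o1 o2 hc
    · unfold kt; simp only; split_ifs
      · exact i1
      · exact i2
    · unfold rt; simp only; split_ifs
      · exact i2
      · exact i1
    · intro e he
      unfold Tg at he
      simp only at he
      unfold kt rt
      simp only
      split_ifs <;> rcases he with he | he | he | he <;> rw [he] <;> simp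

/-- **The caps.** -/
theorem cap_CP (O : Out D) (H : Pos D τ) {k : Ix} (hk : CP D τ k) :
    Cap (D.EJ τ) (D.WJ τ O.Wo) (ev k.2) (gp k.2) (lt (kt k)) (lt (rt k)) :=
  cap_CPV (nearV_WJ O) H hk

/-- the four tiles at a cap are near the window -/
theorem cap_near (H : Pos D τ) {k : Ix} (hk : CP D τ k) {e : ℤ × ℤ} (he : Tg k.2 e) :
    e ∈ D.GA := by
  have kE : ∀ {u v : ℤ}, D.InE τ u v → lt (u, v) ∈ D.GA := fun h => mem_GA.2 (h.inZ H)
  obtain ⟨s, x, y⟩ := k
  unfold Tg at he
  simp only at he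
  cases s
  · obtain ⟨i1, i2, o1, o2, -⟩ := tiles_L H hk
    rcases he with he | he | he | he <;> rw [he]
    · exact kE i1
    · exact mem_GA.2 o1.2.1
    · exact kE i2
    · exact mem_GA.2 o2.2.1
  · obtain ⟨i1, i2, o1, o2, -⟩ := tiles_R H hk
    rcases he with he | he | he | he <;> rw [he]
    · exact mem_GA.2 o1.2.1
    · exact kE i1
    · exact mem_GA.2 o2.2.1
    · exact kE i2
  · obtain ⟨c, i1, i2, o1, o2, -⟩ := tiles_F H hk
    rcases he with he | he | he | he <;> rw [he]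
    · exact kE i2
    · exact kE i1
    · exact mem_GA.2 o2.2.1
    · exact mem_GA.2 o1.2.1
  · obtain ⟨c, i1, i2, o1, o2, -⟩ := tiles_C H hk
    rcases he with he | he | he | he <;> rw [he]
    · exact mem_GA.2 o2.2.1
    · exact mem_GA.2 o1.2.1
    · exact kE i2
    · exact kE i1

end Pool.Agent.H49.W
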