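import Pool.Agent.H49.W.TieInj

set_option autoImplicit false
open Finset

/-! # The tied forms of the environments of a window with a flat right wall

`CPs D τ` : all caps of the position `τ`. For a finite set `P` of caps: `ETp`, `WTp`, `qTp`, `XTp` : random
labels, open labels, weights and the environment in which the two tiles of every cap of `P` are one tile
(`kt k`), `XJ_tied` : the increments are the same at all corners which are not at the points of `P`, for
arbitrary weights `q` of the line. `noroot` : the root corner is not at a cap. `qTp_kt` : the weight of a tie. -/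

namespace Pool.Agent.H49.W

open Pool.Agent.H75.TwoArm Pool.Agent.Q1 Pool.Agent.H33.Q1
open Pool.Agent.H69.Q1
open Pool.Agent.H54.W Pool.Agent.H54.W.Win
open Pool.Agent.H13.R45 Pool.Agent.H13.Q1
open Pool.Agent.H74.R45 (exists_lt)
open Pool.Agent.H42.Sp (Sd Ix kt rt kt_odd rt_even kt_Tg rt_Tg plab_at OTp)

variable {D : Win} {τ : ℤ → ℤ} {x y : ℤ}

/-! ### All caps -/

open Classical in
/-- all caps of the position `τ` -/
noncomputable def CPs (D : Win) (τ : ℤ → ℤ) : Finset Ix :=
  ((univ : Finset Sd) ×ˢ (Icc (D.lo - 2) (D.w + 2) ×ˢ Icc (-1) (D.h + 1))).filter (CP D τ)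

theorem mem_CPs (H : Pos D τ) {k : Ix} : k ∈ CPs D τ ↔ CP D τ k := by
  classical
  unfold CPs
  rw [mem_filter]
  refine ⟨fun h => h.2, fun h => ⟨?_, h⟩⟩
  have hh := D.hh
  obtain ⟨s, x, y⟩ := k
  simp only [mem_product, mem_univ, true_and, mem_Icc]
  cases s
  · obtain ⟨g0, g1, g2, g3, g4, g5, g6, g7, g8⟩ := h
    have := D.hlo y (by omega) g1
    have := D.aw y (by omega) g1
    omega
  · obtain ⟨g0, g1, g2, g3, g4, g5, g6⟩ := h
    have := D.hlo y (by omega) g1
    have := D.aw y (by omega) g1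
    omega
  · rcases h with ⟨g0, g1, g2, g3, g4⟩ | ⟨g0, g2, g3, g4⟩
    · have k1 := H.lo (y + 1) (by omega) g1
      have k2 := D.hlo (y + 1) (by omega) g1
      have k3 := H.hi y g0 (by omega)
      omega
    · have k1 := H.lo 0 le_rfl (by omega)
      have k2 := D.hlo 0 le_rfl (by omega)
      omega
  · rcases h with ⟨g0, g1, g2, g3, g4⟩ | ⟨g0, g2, g3, g4⟩
    · have k1 := H.lo (y - 2) (by omega) (by omega)
      have k2 := D.hlo (y - 2) (by omega) (by omega)
      have k3 := H.hi (y - 1) (by omega) g1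
      omega
    · have k1 := H.lo (D.h - 1) (by omega) (by omega)
      have k2 := D.hlo (D.h - 1) (by omega) (by omega)
      omega

/-! ### The root -/

/-- the root corner is not at a cap -/
theorem noroot (O : Out D) (H : Pos D τ) {k : Ix} (hk : CP D τ k) : ¬ Ag k.2 O.c0 :=
  fun h => O.hroot (cap_near H hk (plab_at h))

/-! ### The environment -/

/-- random labels of the tied form -/
noncomputable def ETp (D : Win) (τ : ℤ → ℤ) (P : Finset Ix) : Finset (ℤ × ℤ) :=
  D.EJ τ \ P.image (fun k => lt (rt k))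

/-- open labels of the tied form -/
noncomputable def WTp (D : Win) (τ : ℤ → ℤ) (P : Finset Ix) (Wo : Finset (ℤ × ℤ)) :
    Finset (ℤ × ℤ) :=
  D.WJ τ Wo ∪ OTp P

open Classical in
/-- open weights of the tied form of a line with the weights `q` -/
noncomputable def qTp (P : Finset Ix) (q : ℤ × ℤ → ℂ) (e : ℤ × ℤ) : ℂ :=
  if h : ∃ k ∈ P, lt (kt k) = e then mg (ev h.choose.2) (q (lt (kt h.choose))) (q (lt (rt h.choose)))
  else q e

theorem qTp_kt (H : Pos D τ) {P : Finset Ix} (hP : ∀ k ∈ P, CP D τ k) {q : ℤ × ℤ → ℂ} {k : Ix}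
    (hk : k ∈ P) : qTp P q (lt (kt k)) = mg (ev k.2) (q (lt (kt k))) (q (lt (rt k))) := by
  classical
  have h : ∃ l ∈ P, lt (kt l) = lt (kt k) := ⟨k, hk, rfl⟩
  unfold qTp
  rw [dif_pos h]
  have h2 := h.choose_spec
  have h3 : h.choose = k := kt_inj H (hP _ h2.1) (hP _ hk) (lt_inj h2.2)
  rw [h3]

theorem qTp_other {P : Finset Ix} {q : ℤ × ℤ → ℂ} {e : ℤ × ℤ} (h : ∀ k ∈ P, lt (kt k) ≠ e) :
    qTp P q e = q e := by
  classical
  unfold qTp
  rw [dif_neg]
  rintro ⟨k, hk, h2⟩
  exact h k hk h2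

theorem ETp_sub {P : Finset Ix} : ETp D τ P ⊆ D.EJ τ := sdiff_subset

theorem OTp_sub (O : Out D) (H : Pos D τ) {P : Finset Ix} (hP : ∀ k ∈ P, CP D τ k) :
    OTp P ⊆ D.EJ τ := by
  intro e he
  unfold OTp at he
  obtain ⟨k, hk, rfl⟩ := mem_image.1 he
  exact (cap_CP O H (hP k (mem_filter.1 hk).1)).m2

theorem disj_ETWTp (O : Out D) (P : Finset Ix) : Disjoint (ETp D τ P) (WTp D τ P O.Wo) := by
  unfold WTp
  rw [disjoint_union_right]
  refine ⟨(disj_EW τ O).mono_left ETp_sub, ?_⟩
  rw [disjoint_left]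
  intro e he he'
  unfold ETp at he
  unfold OTp at he'
  obtain ⟨k, hk, rfl⟩ := mem_image.1 he'
  exact (mem_sdiff.1 he).2 (mem_image_of_mem _ (mem_filter.1 hk).1)

theorem ETWTp_sub (O : Out D) (H : Pos D τ) {P : Finset Ix} (hP : ∀ k ∈ P, CP D τ k) :
    ETp D τ P ∪ WTp D τ P O.Wo ⊆ D.GA ∪ O.Wo := by
  refine Subset.trans ?_ (EW_sub τ O)
  unfold WTp
  refine union_subset (ETp_sub.trans subset_union_left) (union_subset subset_union_right ?_)
  exact (OTp_sub O H hP).trans subset_union_left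

/-- **The tied form of the position `τ`**, the caps of `P` are merged. -/
noncomputable def XTp (O : Out D) (H : Pos D τ) (P : Finset Ix) (hP : ∀ k ∈ P, CP D τ k) : Env :=
  Env.plane (ETp D τ P) (WTp D τ P O.Wo) O.c0 O.k0 O.g (fun _ he => odd_EJ (ETp_sub he))
    (disj_ETWTp O P) O.hk (fun h => O.hroot (EJ_sub (ETp_sub h)))
    (O.hg.anti (ETWTp_sub O H hP)) (fun v hv => O.hlow v (hv.mono (ETWTp_sub O H hP)))

variable {O : Out D} {H : Pos D τ} {P : Finset Ix} {hP : ∀ k ∈ P, CP D τ k} {q : ℤ × ℤ → ℂ}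

@[simp] theorem XTp_E : (XTp O H P hP).E = ETp D τ P := rfl
@[simp] theorem XTp_c0 : (XTp O H P hP).c0 = O.c0 := rfl
@[simp] theorem XTp_k0 : (XTp O H P hP).k0 = O.k0 := rfl
@[simp] theorem XTp_T : (XTp O H P hP).T = 4 := rfl

/-- **The tied form has the same increments** at all corners which are not at the points of `P`, for
arbitrary weights `q`. -/
theorem XJ_tied {z : ℤ × ℤ} (hz : ∀ k ∈ P, ¬ Ag k.2 z) :
    (XTp O H P hP).incW (qTp P q) z = (XJ O τ).incW q z := by
  unfold XTp XJ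
  rw [plane_incW, plane_incW]
  unfold WTp OTp ETp
  exact iW_ties P (fun k => ev k.2) (fun k => gp k.2) (fun k => lt (kt k)) (fun k => lt (rt k))
    (fun k hk => cap_CP O H (hP k hk)) (disj_EW τ O)
    (fun k hk l hl hne => ⟨fun h => hne (kt_inj H (hP k hk) (hP l hl) (lt_inj h)),
      fun h => by
        have e1 := kt_odd k
        have e2 := rt_even l
        rw [lt_inj h] at e1
        omega,
      fun h => hne (rt_inj H (hP k hk) (hP l hl) (lt_inj h))⟩)
    (fun k hk => noroot O H (hP k hk)) hz (fun k hk => qTp_kt H hP hk)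
    (fun e _ hn => qTp_other (fun k hk h => (hn k hk).1 h.symm))

/-- the vertical edges -/
theorem XJ_tied_ve {x y : ℤ} (p1 : ∀ s, (s, (x, y)) ∉ P) (p2 : ∀ s, (s, (x, y + 1)) ∉ P) :
    (XTp O H P hP).incW (qTp P q) (Pool.Agent.H74.R45.ve (x, y)) =
      (XJ O τ).incW q (Pool.Agent.H74.R45.ve (x, y)) := by
  refine XJ_tied fun k hk h => ?_
  obtain ⟨s, g⟩ := k
  rcases ag_ve.1 h with h | h
  · simp only at h; subst h; exact p1 s hk
  · simp only at h; subst h; exact p2 s hk

/-- the horizontal edges -/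
theorem XJ_tied_he {x y : ℤ} (p1 : ∀ s, (s, (x, y)) ∉ P) (p2 : ∀ s, (s, (x + 1, y)) ∉ P) :
    (XTp O H P hP).incW (qTp P q) (Pool.Agent.H74.R45.he (x, y)) =
      (XJ O τ).incW q (Pool.Agent.H74.R45.he (x, y)) := by
  refine XJ_tied fun k hk h => ?_
  obtain ⟨s, g⟩ := k
  rcases ag_he.1 h with h | h
  · simp only at h; subst h; exact p1 s hk
  · simp only at h; subst h; exact p2 s hk

end Pool.Agent.H49.W
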