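import Pool.Agent.H49.W.TieEnv
import Pool.Agent.H49.W.CapF

set_option autoImplicit false
open Finset

/-! # The tied forms for arbitrary functionals

For a functional `F` of the open labels which does not see dangling labels at the caps of `P` (`Leaf`,
`H49/W/CapF`): `Fec_ties` : the mean value of `F (ω ∪ V)` over the random labels of the position `τ` with the
weights `q` is the mean value over the labels `ETp D τ P` with the weights `qTp P q`, the removed tiles of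
the caps at vertices are open (`OTp P`). `V` is any set of open labels which is right near the window
(`NearV`; `nearV_WJ`, `nearV_WR`). `leaf_pv` : functionals of the link pattern of a zone, `leaf_inc` : the
increments. `tie_Fo`, `tie_Fc` : the values at the four states of the two tiles of a cap. -/

namespace Pool.Agent.H49.W

open Pool.Agent.H75.TwoArm Pool.Agent.Q1 Pool.Agent.H33.Q1 Pool.Agent.H80.Sweep
open Pool.Agent.H69.Q1 Pool.Agent.H75.Perc
open Pool.Agent.H54.W Pool.Agent.H54.W.Win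
open Pool.Agent.H13.R45 Pool.Agent.H13.Q1
open Pool.Agent.H42.Sp (Sd Ix kt rt kt_odd rt_even kt_Tg rt_Tg plab_at OTp)

variable {D : Win} {τ : ℤ → ℤ} {V : Finset (ℤ × ℤ)} {F : Finset (ℤ × ℤ) → ℂ} {q : ℤ × ℤ → ℂ}
  {P : Finset Ix}

/-! ### Functionals -/

/-- a label at a grid point -/
theorem tg_of {o : Bool} {g p e : ℤ × ℤ} (hg : ev g = o) (hu : IsUnit4 (p - gp g))
    (he : if o = true then gp g + p = e else gp g + p - (1, 1) = e) : Tg g e := by
  obtain ⟨g1, g2⟩ := g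
  obtain ⟨p1, p2⟩ := p
  obtain ⟨e1, e2⟩ := e
  unfold IsUnit4 gp at hu
  unfold gp at he
  simp only [Prod.mk_sub_mk, Prod.mk.injEq] at hu
  unfold Tg lt
  cases o
  · rw [ev_false] at hg
    simp only [Bool.false_eq_true, if_false, Prod.mk_add_mk, Prod.mk_sub_mk, Prod.mk.injEq] at he ⊢
    omega
  · rw [ev_true] at hg
    simp only [if_true, Prod.mk_add_mk, Prod.mk.injEq] at he ⊢
    omega

/-- functionals of the link pattern of a zone which contains the four labels at the point `g` -/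
theorem leaf_pv {Z : Finset (ℤ × ℤ)} {Lg : Set (ℤ × ℤ)} {g : ℤ × ℤ} (hZ : ∀ e, Tg g e → e ∈ Z)
    (he : ∀ c ∈ Lg, H80.W.Entry Z c)
    (hF : ∀ G G' : Finset (ℤ × ℤ),
      (∀ c ∈ Lg, ∀ d, H80.W.Pat Z G c d ↔ H80.W.Pat Z G' c d) → F G = F G') :
    Leaf F (ev g) (gp g) :=
  leaf_pat he hF (fun ho _ hy => hZ _ (tg_of ho hy (by rw [if_pos rfl])))
    (fun ho _ hy => hZ _ (tg_of ho hy (by rw [if_neg Bool.false_ne_true])))

/-- functionals of the link pattern of a zone which contains the labels near the window -/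
theorem leaf_pw {Z : Finset (ℤ × ℤ)} {Lg : Set (ℤ × ℤ)} (hZ : D.GA ⊆ Z)
    (he : ∀ c ∈ Lg, H80.W.Entry Z c)
    (hF : ∀ G G' : Finset (ℤ × ℤ),
      (∀ c ∈ Lg, ∀ d, H80.W.Pat Z G c d ↔ H80.W.Pat Z G' c d) → F G = F G')
    (H : Pos D τ) {k : Ix} (hk : CP D τ k) : Leaf F (ev k.2) (gp k.2) :=
  leaf_pv (fun _ h => hZ (cap_near H hk h)) he hF

/-- the increments -/
theorem leaf_inc {c0 c : ℤ × ℤ} (k0 : ℤ) {k : Ix} (h0 : ¬ Ag k.2 c0) (hc : ¬ Ag k.2 c) :
    Leaf (iG c0 k0 c) (ev k.2) (gp k.2) := leaf_iG k0 h0 hc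

/-! ### The values at a cap -/

/-- the two tiles of a cap at a vertex: all states but (open, open) have the same value -/
theorem tie_Fo (hV : NearV D τ V) (hd : Disjoint (D.EJ τ) V) (H : Pos D τ) {k : Ix}
    (hk : CP D τ k) (he : ev k.2 = true) (hF : Leaf F (ev k.2) (gp k.2)) {A : Finset (ℤ × ℤ)}
    (hA : A ⊆ D.EJ τ) (h1 : lt (kt k) ∉ A) (h2 : lt (rt k) ∉ A) :
    F (insert (lt (kt k)) (A ∪ V)) = F (A ∪ V) ∧ F (insert (lt (rt k)) (A ∪ V)) = F (A ∪ V) := by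
  have h := cap_CPV hV H hk
  rw [he] at h hF
  exact tie_O h hF hd hA h1 h2

/-- the two tiles of a cap at a face: all states but (closed, closed) have the same value -/
theorem tie_Fc (hV : NearV D τ V) (hd : Disjoint (D.EJ τ) V) (H : Pos D τ) {k : Ix}
    (hk : CP D τ k) (he : ev k.2 = false) (hF : Leaf F (ev k.2) (gp k.2)) {A : Finset (ℤ × ℤ)}
    (h1 : lt (kt k) ∉ A) (h2 : lt (rt k) ∉ A) :
    F (insert (lt (rt k)) (insert (lt (kt k)) (A ∪ V))) = F (insert (lt (kt k)) (A ∪ V)) ∧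
      F (insert (lt (rt k)) (insert (lt (kt k)) (A ∪ V))) = F (insert (lt (rt k)) (A ∪ V)) := by
  have h := cap_CPV hV H hk
  rw [he] at h hF
  exact tie_C h hF hd h1 h2

/-! ### The tied form -/

/-- **The tied form for an arbitrary functional.** -/
theorem Fec_ties (hV : NearV D τ V) (hd : Disjoint (D.EJ τ) V) (H : Pos D τ)
    (hP : ∀ k ∈ P, CP D τ k) (hF : ∀ k ∈ P, Leaf F (ev k.2) (gp k.2)) :
    Ec (qTp P q) (ETp D τ P) (fun ω => F (ω ∪ (V ∪ OTp P))) =
      Ec q (D.EJ τ) (fun ω => F (ω ∪ V)) := by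
  unfold OTp ETp
  exact Ec_ties P (fun k => ev k.2) (fun k => gp k.2) (fun k => lt (kt k)) (fun k => lt (rt k))
    (fun k hk => cap_CPV hV H (hP k hk)) hF hd
    (fun k hk l hl hne => ⟨fun h => hne (kt_inj H (hP k hk) (hP l hl) (lt_inj h)),
      fun h => by
        have e1 := kt_odd k
        have e2 := rt_even l
        rw [lt_inj h] at e1
        omega,
      fun h => hne (rt_inj H (hP k hk) (hP l hl) (lt_inj h))⟩)
    (fun k hk => qTp_kt H hP hk)
    (fun e _ hn => qTp_other (fun k hk h => (hn k hk).1 h.symm))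

/-- with the far labels of an outside -/
theorem Fec_WJ (O : Out D) (H : Pos D τ) (hP : ∀ k ∈ P, CP D τ k)
    (hF : ∀ k ∈ P, Leaf F (ev k.2) (gp k.2)) :
    Ec (qTp P q) (ETp D τ P) (fun ω => F (ω ∪ WTp D τ P O.Wo)) =
      Ec q (D.EJ τ) (fun ω => F (ω ∪ D.WJ τ O.Wo)) :=
  Fec_ties (nearV_WJ O) (disj_EW τ O) H hP hF

/-- without far labels -/
theorem Fec_WR (H : Pos D τ) (hP : ∀ k ∈ P, CP D τ k)
    (hF : ∀ k ∈ P, Leaf F (ev k.2) (gp k.2)) :
    Ec (qTp P q) (ETp D τ P) (fun ω => F (ω ∪ (D.WR τ ∪ OTp P))) =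
      Ec q (D.EJ τ) (fun ω => F (ω ∪ D.WR τ)) :=
  Fec_ties nearV_WR disj_ER H hP hF

/-- **functionals of the link pattern of a zone around the window** -/
theorem Fec_pat {Z : Finset (ℤ × ℤ)} {Lg : Set (ℤ × ℤ)} (hZ : D.GA ⊆ Z)
    (he : ∀ c ∈ Lg, H80.W.Entry Z c)
    (hF : ∀ G G' : Finset (ℤ × ℤ),
      (∀ c ∈ Lg, ∀ d, H80.W.Pat Z G c d ↔ H80.W.Pat Z G' c d) → F G = F G')
    (hV : NearV D τ V) (hd : Disjoint (D.EJ τ) V) (H : Pos D τ) (hP : ∀ k ∈ P, CP D τ k) :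
    Ec (qTp P q) (ETp D τ P) (fun ω => F (ω ∪ (V ∪ OTp P))) =
      Ec q (D.EJ τ) (fun ω => F (ω ∪ V)) :=
  Fec_ties hV hd H hP fun k hk => leaf_pw hZ he hF H (hP k hk)

/-! ### Membership in `OTp` -/

/-- near the window the open labels of the tied form -/
theorem mem_OTp' {e : ℤ × ℤ} : e ∈ OTp P ↔ ∃ k ∈ P, ev k.2 = true ∧ lt (rt k) = e := by
  unfold OTp
  rw [mem_image]
  simp only [mem_filter]
  exact ⟨fun ⟨k, h1, h2⟩ => ⟨k, h1.1, h1.2, h2⟩, fun ⟨k, h1, h2, h3⟩ => ⟨k, ⟨h1, h2⟩, h3⟩⟩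

end Pool.Agent.H49.W
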