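import Pool.Agent.H49.W.Tie

set_option autoImplicit false
open Finset

/-! # Different caps have different tiles

`kt_inj`, `rt_inj` : the kept (removed) tiles of different caps are different. `L_data`, `R_data`,
`F_data`, `C_data` : the data of a cap. -/

namespace Pool.Agent.H49.W

open Pool.Agent.H75.TwoArm Pool.Agent.Q1 Pool.Agent.H33.Q1
open Pool.Agent.H69.Q1
open Pool.Agent.H54.W Pool.Agent.H54.W.Win
open Pool.Agent.H13.R45 Pool.Agent.H13.Q1
open Pool.Agent.H74.R45 (exists_lt)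
open Pool.Agent.H42.Sp (Sd Ix kt rt kt_odd rt_even kt_Tg rt_Tg kt_F rt_F kt_C rt_C kt_L rt_L kt_R rt_R)

variable {D : Win} {τ : ℤ → ℤ} {x y : ℤ}

/-- the region of the tiles of a cap -/
def Rg (D : Win) (τ : ℤ → ℤ) : Sd → ℤ × ℤ → Prop
  | .L, t => 0 ≤ t.2 ∧ t.2 < D.h ∧ t.1 = τ t.2 - 1 ∧ τ t.2 = D.a t.2
  | .R, t => 0 ≤ t.2 ∧ t.2 < D.h ∧ t.1 = τ t.2 - 1 ∧ τ t.2 = D.w
  | .F, t => D.RW τ t.1 t.2 ∨ D.RB τ t.1 t.2
  | .C, t => D.RE τ t.1 t.2 ∨ D.RT τ t.1 t.2

theorem L_data (hk : CP D τ (.L, (x, y))) :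
    x = D.a y - 1 ∧ 0 < y ∧ y < D.h ∧ D.cl (y - 1) = D.cl y ∧ D.a (y - 1) = D.a y ∧
      ((x + y) % 2 = 1 ↔ D.cl y = true) := by
  obtain ⟨g0, g1, g2, g3, g4, g5, g6, g7, g8⟩ := hk
  refine ⟨g2, g0, g1, ?_, g5, g8⟩
  have := D.scl (y - 1) (by omega) (by omega) (by rw [sub_add_cancel]; exact g5)
  rwa [sub_add_cancel] at this

theorem R_data (hk : CP D τ (.R, (x, y))) :
    x = D.w ∧ 0 < y ∧ y < D.h ∧ D.cr (y - 1) = D.cr y ∧ ((x + y) % 2 = 1 ↔ D.cr y = true) := by
  obtain ⟨g0, g1, g2, g3, g4, g5, g6⟩ := hk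
  exact ⟨g2, g0, g1, g5, g6⟩

/-- floor caps: the tiles are in the row `y` -/
theorem F_data (hk : CP D τ (.F, (x, y))) :
    (D.RW τ (x - 1) y ∧ D.RW τ x y) ∨ (D.RB τ (x - 1) y ∧ D.RB τ x y) := by
  rcases hk with ⟨g0, g1, g2, g3, g4⟩ | ⟨g0, g2, g3, g4⟩
  · exact Or.inl ⟨⟨g0, g1, by omega, by omega⟩, ⟨g0, g1, by omega, by omega⟩⟩
  · exact Or.inr ⟨⟨g0, by omega, by omega⟩, ⟨g0, by omega, by omega⟩⟩

/-- ceiling caps: the tiles are in the row `y - 1` -/
theorem C_data (hk : CP D τ (.C, (x, y))) :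
    (D.RE τ (x - 1) (y - 1) ∧ D.RE τ x (y - 1)) ∨ (D.RT τ (x - 1) (y - 1) ∧ D.RT τ x (y - 1)) := by
  have hy : y - 1 - 1 = y - 2 := by ring
  rcases hk with ⟨g0, g1, g2, g3, g4⟩ | ⟨g0, g2, g3, g4⟩
  · refine Or.inl ⟨⟨by omega, g1, ?_, by omega⟩, ⟨by omega, g1, ?_, by omega⟩⟩
    · rw [hy]; omega
    · rw [hy]; omega
  · exact Or.inr ⟨⟨by omega, by omega, by omega⟩, ⟨by omega, by omega, by omega⟩⟩

/-- the tiles of a cap are in its region -/
theorem reg {k : Ix} (hk : CP D τ k) {t : ℤ × ℤ} (ht : t = kt k ∨ t = rt k) : Rg D τ k.1 t := by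
  obtain ⟨s, x, y⟩ := k
  cases s
  · obtain ⟨g0, g1, g2, g3, g4, g5, g6, g7, g8⟩ := hk
    have h3 : t = (x, y) ∨ t = (x, y - 1) := by
      rcases ht with h | h <;> rw [h]
      · exact kt_L
      · exact rt_L
    rcases h3 with h | h <;> subst h <;> (unfold Rg; simp only; omega)
  · obtain ⟨g0, g1, g2, g3, g4, g5, g6⟩ := hk
    have h3 : t = (x - 1, y) ∨ t = (x - 1, y - 1) := by
      rcases ht with h | h <;> rw [h]
      · exact kt_R
      · exact rt_R
    rcases h3 with h | h <;> subst h <;> (unfold Rg; simp only; omega)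
  · have h2 := F_data hk
    have h3 : t = (x, y) ∨ t = (x - 1, y) := by
      rcases ht with h | h <;> rw [h]
      · exact kt_F
      · exact rt_F
    rcases h3 with h | h <;> subst h <;> (unfold Rg; simp only; tauto)
  · have h2 := C_data hk
    have h3 : t = (x, y - 1) ∨ t = (x - 1, y - 1) := by
      rcases ht with h | h <;> rw [h]
      · exact kt_C
      · exact rt_C
    rcases h3 with h | h <;> subst h <;> (unfold Rg; simp only; tauto)

/-- the tiles of a cap are random -/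
theorem reg_E {s : Sd} {t : ℤ × ℤ} (h : Rg D τ s t) (H : Pos D τ) : D.InE τ t.1 t.2 := by
  cases s
  · obtain ⟨g0, g1, g2, g3⟩ := h
    have := D.aw t.2 g0 g1
    exact Or.inl ⟨g0, g1, by omega, by omega⟩
  · obtain ⟨g0, g1, g2, g3⟩ := h
    have := D.aw t.2 g0 g1
    exact Or.inl ⟨g0, g1, by omega, by omega⟩
  · rcases h with h | h
    · exact Or.inr (Or.inr (Or.inl h))
    · exact Or.inr (Or.inr (Or.inr (Or.inl h)))
  · rcases h with h | h
    · exact Or.inr (Or.inl h)
    · exact Or.inr (Or.inr (Or.inr (Or.inr h)))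

/-- the regions are disjoint -/
theorem Rg_uniq (H : Pos D τ) {s s' : Sd} {t : ℤ × ℤ} (h : Rg D τ s t) (h' : Rg D τ s' t) : s = s' := by
  have hFC : ¬ (Rg D τ .F t ∧ Rg D τ .C t) := by
    rintro ⟨h1 | h1, h2 | h2⟩
    · obtain ⟨a1, a2, a3, a4⟩ := h1
      obtain ⟨b1, b2, b3, b4⟩ := h2
      exact up_dn H b1 a2 (by omega) (by omega)
    · obtain ⟨a1, a2, a3, a4⟩ := h1
      obtain ⟨b1, b2, b3⟩ := h2
      omega
    · obtain ⟨a1, a2, a3⟩ := h1
      obtain ⟨b1, b2, b3, b4⟩ := h2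
      omega
    · obtain ⟨a1, a2, a3⟩ := h1
      obtain ⟨b1, b2, b3⟩ := h2
      have := D.hh
      omega
  have hV : ∀ {s : Sd}, (s = .F ∨ s = .C) → Rg D τ s t → ¬ (0 ≤ t.2 ∧ t.2 < D.h ∧ t.1 = τ t.2 - 1) := by
    rintro s (rfl | rfl) (h1 | h1) ⟨e1, e2, e3⟩
    · obtain ⟨a1, a2, a3, a4⟩ := h1; omega
    · obtain ⟨a1, a2, a3⟩ := h1; omega
    · obtain ⟨a1, a2, a3, a4⟩ := h1; omega
    · obtain ⟨a1, a2, a3⟩ := h1; omega
  cases s <;> cases s' <;> try rfl
  · obtain ⟨a1, a2, a3, a4⟩ := h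
    obtain ⟨b1, b2, b3, b4⟩ := h'
    have := D.aw t.2 a1 a2
    omega
  · exact absurd ⟨h.1, h.2.1, h.2.2.1⟩ (hV (Or.inl rfl) h')
  · exact absurd ⟨h.1, h.2.1, h.2.2.1⟩ (hV (Or.inr rfl) h')
  · obtain ⟨a1, a2, a3, a4⟩ := h
    obtain ⟨b1, b2, b3, b4⟩ := h'
    have := D.aw t.2 a1 a2
    omega
  · exact absurd ⟨h.1, h.2.1, h.2.2.1⟩ (hV (Or.inl rfl) h')
  · exact absurd ⟨h.1, h.2.1, h.2.2.1⟩ (hV (Or.inr rfl) h')
  · exact absurd ⟨h'.1, h'.2.1, h'.2.2.1⟩ (hV (Or.inl rfl) h)
  · exact absurd ⟨h'.1, h'.2.1, h'.2.2.1⟩ (hV (Or.inl rfl) h)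
  · exact absurd ⟨h, h'⟩ hFC
  · exact absurd ⟨h'.1, h'.2.1, h'.2.2.1⟩ (hV (Or.inr rfl) h)
  · exact absurd ⟨h'.1, h'.2.1, h'.2.2.1⟩ (hV (Or.inr rfl) h)
  · exact absurd ⟨h', h⟩ hFC

/-- a common tile: the kinds are equal -/
theorem kind_eq (H : Pos D τ) {k l : Ix} (hk : CP D τ k) (hl : CP D τ l) {t : ℤ × ℤ}
    (ht : t = kt k ∨ t = rt k) (ht' : t = kt l ∨ t = rt l) : k.1 = l.1 :=
  Rg_uniq H (reg hk ht) (reg hl ht')

/-- the colour of a cap -/
theorem col_F {x' : ℤ} (hk : CP D τ (.F, (x, y))) (hl : CP D τ (.F, (x', y))) (hx : x' = x + 1) :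
    False := by
  subst hx
  rcases hk with ⟨a1, a2, a3, a4, a5⟩ | ⟨a1, a3, a4, a5⟩ <;>
    rcases hl with ⟨b1, b2, b3, b4, b5⟩ | ⟨b1, b3, b4, b5⟩
  · rw [← a5] at b5; omega
  · omega
  · omega
  · rw [← a5] at b5; omega

theorem col_C {x' : ℤ} (hk : CP D τ (.C, (x, y))) (hl : CP D τ (.C, (x', y))) (hx : x' = x + 1) :
    False := by
  subst hx
  rcases hk with ⟨a1, a2, a3, a4, a5⟩ | ⟨a1, a3, a4, a5⟩ <;>
    rcases hl with ⟨b1, b2, b3, b4, b5⟩ | ⟨b1, b3, b4, b5⟩
  · rw [← a5] at b5; omega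
  · omega
  · omega
  · rw [← a5] at b5; omega

/-- **The kept tiles of different caps are different.** -/
theorem kt_inj (H : Pos D τ) {k l : Ix} (hk : CP D τ k) (hl : CP D τ l) (h : kt k = kt l) :
    k = l := by
  have hs := kind_eq H hk hl (t := kt k) (Or.inl rfl) (Or.inl h)
  obtain ⟨s, x, y⟩ := k
  obtain ⟨s', x', y'⟩ := l
  simp only at hs
  subst hs
  cases s
  · obtain ⟨a1, a2, a3, a4, a5, a6⟩ := L_data hk
    obtain ⟨b1, b2, b3, b4, b5, b6⟩ := L_data hl
    unfold kt at h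
    simp only at h
    split_ifs at h with c1 c2 c2 <;> simp only [Prod.mk.injEq] at h
    · rw [h.1, h.2]
    · exfalso
      have e : y' - 1 = y := h.2.symm
      rw [e] at b4
      rw [← b4, ← a6] at b6
      omega
    · exfalso
      have e : y - 1 = y' := h.2
      rw [e] at a4
      rw [← a4, ← b6] at a6
      omega
    · rw [h.1, show y = y' by omega]
  · obtain ⟨a1, a2, a3, a4, a5⟩ := R_data hk
    obtain ⟨b1, b2, b3, b4, b5⟩ := R_data hl
    unfold kt at h
    simp only at h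
    split_ifs at h with c1 c2 c2 <;> simp only [Prod.mk.injEq] at h
    · rw [show x = x' by omega, show y = y' by omega]
    · exfalso
      have e : y - 1 = y' := h.2
      rw [e] at a4
      rw [← a4, ← b5] at a5
      omega
    · exfalso
      have e : y' - 1 = y := h.2.symm
      rw [e] at b4
      rw [← b4, ← a5] at b5
      omega
    · rw [show x = x' by omega, show y = y' by omega]
  · unfold kt at h
    simp only at h
    split_ifs at h with c1 c2 c2 <;> simp only [Prod.mk.injEq] at h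
    · rw [h.1, h.2]
    · exfalso
      rw [h.2] at hk
      exact col_F hk hl (by omega)
    · exfalso
      rw [h.2] at hk
      exact col_F hl hk (by omega)
    · rw [show x = x' by omega, show y = y' by omega]
  · unfold kt at h
    simp only at h
    split_ifs at h with c1 c2 c2 <;> simp only [Prod.mk.injEq] at h
    · rw [show x = x' by omega, show y = y' by omega]
    · exfalso
      rw [show y = y' by omega] at hk
      exact col_C hl hk (by omega)
    · exfalso
      rw [show y = y' by omega] at hk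
      exact col_C hk hl (by omega)
    · rw [show x = x' by omega, show y = y' by omega]

/-- **The removed tiles of different caps are different.** -/
theorem rt_inj (H : Pos D τ) {k l : Ix} (hk : CP D τ k) (hl : CP D τ l) (h : rt k = rt l) :
    k = l := by
  have hs := kind_eq H hk hl (t := rt k) (Or.inr rfl) (Or.inr h)
  obtain ⟨s, x, y⟩ := k
  obtain ⟨s', x', y'⟩ := l
  simp only at hs
  subst hs
  cases s
  · obtain ⟨a1, a2, a3, a4, a5, a6⟩ := L_data hk
    obtain ⟨b1, b2, b3, b4, b5, b6⟩ := L_data hl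
    unfold rt at h
    simp only at h
    split_ifs at h with c1 c2 c2 <;> simp only [Prod.mk.injEq] at h
    · rw [h.1, show y = y' by omega]
    · exfalso
      have e : y - 1 = y' := h.2
      rw [e] at a4
      rw [← a4, ← b6] at a6
      omega
    · exfalso
      have e : y' - 1 = y := h.2.symm
      rw [e] at b4
      rw [← b4, ← a6] at b6
      omega
    · rw [h.1, h.2]
  · obtain ⟨a1, a2, a3, a4, a5⟩ := R_data hk
    obtain ⟨b1, b2, b3, b4, b5⟩ := R_data hl
    unfold rt at h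
    simp only at h
    split_ifs at h with c1 c2 c2 <;> simp only [Prod.mk.injEq] at h
    · rw [show x = x' by omega, show y = y' by omega]
    · exfalso
      have e : y' - 1 = y := h.2.symm
      rw [e] at b4
      rw [← b4, ← a5] at b5
      omega
    · exfalso
      have e : y - 1 = y' := h.2
      rw [e] at a4
      rw [← a4, ← b5] at a5
      omega
    · rw [show x = x' by omega, show y = y' by omega]
  · unfold rt at h
    simp only at h
    split_ifs at h with c1 c2 c2 <;> simp only [Prod.mk.injEq] at h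
    · rw [show x = x' by omega, show y = y' by omega]
    · exfalso
      rw [h.2] at hk
      exact col_F hl hk (by omega)
    · exfalso
      rw [h.2] at hk
      exact col_F hk hl (by omega)
    · rw [h.1, h.2]
  · unfold rt at h
    simp only at h
    split_ifs at h with c1 c2 c2 <;> simp only [Prod.mk.injEq] at h
    · rw [show x = x' by omega, show y = y' by omega]
    · exfalso
      rw [show y = y' by omega] at hk
      exact col_C hk hl (by omega)
    · exfalso
      rw [show y = y' by omega] at hk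
      exact col_C hl hk (by omega)
    · rw [show x = x' by omega, show y = y' by omega]

end Pool.Agent.H49.W
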