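import Pool.Agent.H49.W.TieEnv

set_option autoImplicit false
open Finset

/-! # Membership in the tied forms of a window with a flat right wall

`InP P x y` (of `H42/Sp/TieMem`) : the tile `(x, y)` is one of the two tiles of a cap of `P`. `mem_ETp`,
`mem_OTp`, `mem_WTp` : random and open labels of the tied form. `odd_ETp`, `odd_WTp` : the tiles with
`x + y` odd are not changed. `off_ETp`, `off_WTp` : the tiles which are not at caps of `P` are not changed.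
`CP_E` : the two tiles of a cap are random. -/

namespace Pool.Agent.H49.W

open Pool.Agent.H75.TwoArm Pool.Agent.Q1 Pool.Agent.H33.Q1
open Pool.Agent.H69.Q1
open Pool.Agent.H54.W Pool.Agent.H54.W.Win
open Pool.Agent.H13.R45 Pool.Agent.H13.Q1
open Pool.Agent.H42.Sp (Sd Ix kt rt kt_odd rt_even OTp InP InP_iff rts_iff kts_iff rt_eq kt_eq mem_OTp)

variable {D : Win} {τ : ℤ → ℤ} {x y : ℤ} {P : Finset Ix}

/-- random tiles of the tied form -/
theorem mem_ETp (H : Pos D τ) :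
    lt (x, y) ∈ ETp D τ P ↔ D.InE τ x y ∧ ¬ ((x + y) % 2 = 0 ∧ InP P x y) := by
  unfold ETp
  rw [mem_sdiff, mem_EJ H, ← rts_iff, mem_image]
  constructor
  · rintro ⟨h1, h2⟩
    exact ⟨h1, fun ⟨k, hk, h3⟩ => h2 ⟨k, hk, by rw [h3]⟩⟩
  · rintro ⟨h1, h2⟩
    exact ⟨h1, fun ⟨k, hk, h3⟩ => h2 ⟨k, hk, lt_inj h3⟩⟩

theorem odd_ETp (H : Pos D τ) (h : (x + y) % 2 = 1) : lt (x, y) ∈ ETp D τ P ↔ D.InE τ x y := by
  rw [mem_ETp H]
  exact ⟨fun h => h.1, fun h2 => ⟨h2, fun h3 => by omega⟩⟩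

theorem off_ETp (H : Pos D τ) (h : ¬ InP P x y) : lt (x, y) ∈ ETp D τ P ↔ D.InE τ x y := by
  rw [mem_ETp H]
  exact ⟨fun h => h.1, fun h2 => ⟨h2, fun h3 => h h3.2⟩⟩

/-- open tiles of the tied form -/
theorem mem_WTp {Wo : Finset (ℤ × ℤ)} : lt (x, y) ∈ WTp D τ P Wo ↔ D.InO τ x y ∨
    lt (x, y) ∈ Wo ∨ ((x + y) % 2 = 0 ∧ ((.L, (x, y)) ∈ P ∨ (.R, (x + 1, y + 1)) ∈ P ∨
    (.F, (x, y)) ∈ P ∨ (.C, (x + 1, y + 1)) ∈ P)) := by
  unfold WTp WJ
  rw [mem_union, mem_union, Win.mem_WR, mem_OTp]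
  tauto

theorem odd_WTp {Wo : Finset (ℤ × ℤ)} (h : (x + y) % 2 = 1) : lt (x, y) ∈ WTp D τ P Wo ↔
    lt (x, y) ∈ D.WJ τ Wo := by
  unfold WTp
  rw [mem_union, mem_OTp]
  exact ⟨fun h2 => h2.resolve_right fun h3 => by omega, Or.inl⟩

theorem off_WTp {Wo : Finset (ℤ × ℤ)} (h : ¬ InP P x y) : lt (x, y) ∈ WTp D τ P Wo ↔
    lt (x, y) ∈ D.WJ τ Wo := by
  unfold WTp
  rw [mem_union, mem_OTp]
  refine ⟨fun h2 => h2.resolve_right fun h3 => h ?_, Or.inl⟩
  unfold InP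
  rcases h3.2 with h | h | h | h <;> tauto

/-- the two tiles of a cap are random -/
theorem CP_E (O : Out D) (H : Pos D τ) {k : Ix} (hk : CP D τ k) :
    D.InE τ (kt k).1 (kt k).2 ∧ D.InE τ (rt k).1 (rt k).2 :=
  ⟨(mem_EJ H).1 (cap_CP O H hk).m1, (mem_EJ H).1 (cap_CP O H hk).m2⟩

/-- tiles in the union off the line are not at caps -/
theorem inP_line (H : Pos D τ) (hP : ∀ k ∈ P, CP D τ k) (h : InP P x y) (hU : D.InU x y) :
    x = τ y - 1 := by
  obtain ⟨k, hk, h2⟩ := InP_iff.1 h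
  have hr : Rg D τ k.1 (x, y) := by
    rcases h2 with h2 | h2
    · exact reg (hP k hk) (Or.inl h2.symm)
    · exact reg (hP k hk) (Or.inr h2.symm)
  obtain ⟨s, g⟩ := k
  cases s
  · unfold Rg at hr
    simp only at hr
    omega
  · unfold Rg at hr
    simp only at hr
    omega
  · exact absurd hU (run_out H (by
      unfold Rg at hr
      simp only at hr
      tauto))
  · exact absurd hU (run_out H (by
      unfold Rg at hr
      simp only at hr
      tauto))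

end Pool.Agent.H49.W
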