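import Pool.Agent.H2.W.Mult
import Pool.Agent.H72.W.NRef

set_option autoImplicit false
open Finset

/-! # Windows which differ in the colours of the right wall

`crW D f` : the window `D` with the colours `f` of the right wall. `rep_run` : two positions are in one arc iff
the colour does not change between them. `NR D x y` : the tile is not to the right of the window; `pz` : its
position in `[h + 1, 2h + 2]`. `arc_tr` : tiles of this kind in one arc of `refD D p` are in one arc of
`crW D f`. `trW D m` : the true colours in the rows at distance at most `m + 1` from the bottom and the top,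
opposite to them in the middle. -/

namespace Pool.Agent.H49.W.N

open Pool.Agent.H75.Perc Pool.Agent.H75.TwoArm Pool.Agent.Q1 Pool.Agent.H33.Q1
open Pool.Agent.H69.Q1
open Pool.Agent.H54.W (Win Out)
open Pool.Agent.H54.W.Win
open Pool.Agent.H72.W.N
open Pool.Agent.H42.Sp (Sd Ix kt rt)
open Pool.Agent.H13.R45 (ev gp)

/-- the window `D` with the colours `f` of the right wall -/
def crW (D : Win) (f : ℤ → Bool) : Win where
  h := D.h
  w := D.w
  lo := D.lo
  a := D.a
  cl := D.cl
  cr := f
  cb := D.cb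
  ct := D.ct
  hh := D.hh
  hlo := D.hlo
  aw := D.aw
  fe := D.fe
  ud := D.ud
  du := D.du
  scl := D.scl
  cup := D.cup
  cdn := D.cdn
  pup := D.pup
  pdn := D.pdn

variable {D : Win} {p q : Bool} {x y u v s s' s0 t m i : ℤ} {k : Sd} {c : Bool} {f : ℤ → Bool}

@[simp] lemma cr_h : (crW D f).h = D.h := rfl
@[simp] lemma cr_w : (crW D f).w = D.w := rfl
@[simp] lemma cr_lo : (crW D f).lo = D.lo := rfl
@[simp] lemma cr_a : (crW D f).a = D.a := rfl
@[simp] lemma cr_cl : (crW D f).cl = D.cl := rfl
@[simp] lemma cr_cr : (crW D f).cr = f := rfl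
@[simp] lemma cr_cb : (crW D f).cb = D.cb := rfl
@[simp] lemma cr_ct : (crW D f).ct = D.ct := rfl
lemma cr_ref : refD (crW D f) p = refD D p := rfl
lemma cr_nP : nP (crW D f) = nP D := rfl

/-- ties which are not on the right wall -/
lemma TieP_cr (hk : k ≠ .R) : TieP (crW D f) p k c u v ↔ TieP D p k c u v :=
  (TieP_ref (D := crW D f) (q := p) hk).symm.trans (TieP_ref (D := D) (q := p) hk)

/-- **not to the right of the window** -/
def NR (D : Win) (x y : ℤ) : Prop := y < 0 ∨ D.h ≤ y ∨ x < D.a y

lemma natc_cr (h : NR D x y) : natc (crW D f) p x y = natc D p x y := by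
  have h1 := natc_ref (D := crW D f) (q := p) (p := p) (x := x) (y := y) h
  have h2 := natc_ref (D := D) (q := p) (p := p) (x := x) (y := y) h
  rw [← h1, ← h2]; rfl

/-- the outer neighbour of a tie which is not on the right wall -/
lemma TieP.nr (h : TieP D p k c u v) (hk : k ≠ .R) : NR D (u - (dr k).1) (v - (dr k).2) := by
  have hs := sh_nonneg p
  have hl := h.ly
  unfold NR
  cases k
  · obtain ⟨h1, h2, h3, -⟩ := hl
    simp only [dr]
    right; right
    rw [sub_zero]; omega
  · exact absurd rfl hk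
  · obtain ⟨h1, h2, h3, h4, h5⟩ := hl
    simp only [dr]
    rw [sub_zero]
    by_cases c0 : v < 1
    · left; omega
    · right; right
      have h6 := h5 (by omega)
      have := drop_lo (D := D) (Y := v) (by omega) h2 (by omega) (Z := v - 1) (by omega) (by omega)
      omega
  · obtain ⟨h1, h2, h3, h4, h5⟩ := hl
    simp only [dr]
    rw [sub_zero, sub_neg_eq_add]
    by_cases c0 : D.h ≤ v + 1
    · right; left; exact c0
    · right; right
      have h6 := h5 (by omega)
      have := rise_hi (D := D) (Y := v) h1 (by omega) (by omega) (Z := v + 1) (by omega) (by omega)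
      omega

/-! ### Runs -/

lemma repN_run {n : ℕ} : ∀ k : ℕ, repN D s0 (n + k) = repN D s0 n → ∀ j : ℕ, j < k →
    colp D (s0 + (n + j : ℕ) + 1) = colp D (s0 + (n + j : ℕ)) := by
  intro k
  induction k with
  | zero => intro _ j hj; omega
  | succ k ih =>
    intro h j hj
    by_cases hc : colp D (s0 + (n + k : ℕ) + 1) = colp D (s0 + (n + k : ℕ))
    · have e : repN D s0 (n + (k + 1)) = repN D s0 (n + k) := by
        rw [← add_assoc]
        exact if_pos hc
      rcases Nat.lt_or_ge j k with h1 | h1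
      · exact ih (by rw [← e]; exact h) j h1
      · have : j = k := by omega
        rw [this]; exact hc
    · exfalso
      have e : repN D s0 (n + (k + 1)) = s0 + (n + k : ℕ) + 1 := by
        rw [← add_assoc]
        exact if_neg hc
      have h1 := (repN_le (D := D) (s0 := s0) n).2
      rw [e] at h
      push_cast at h
      omega

/-- **Two positions are in one arc iff the colour does not change between them.** -/
theorem rep_run (h0 : s0 ≤ s) (h1 : s ≤ s') (h2 : s' < s0 + nP D) :
    rep D s0 s' = rep D s0 s ↔ ∀ t, s ≤ t → t < s' → colp D t = colp D (t + 1) := by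
  constructor
  · intro h t ht ht'
    rw [rep_eq (by omega) h2, rep_eq h0 (by omega)] at h
    have e1 : (s' - s0).toNat = (s - s0).toNat + (s' - s).toNat := by omega
    rw [e1] at h
    have h3 := repN_run (s' - s).toNat h (t - s).toNat (by omega)
    have e2 : s0 + (((s - s0).toNat + (t - s).toNat : ℕ) : ℤ) = t := by
      push_cast
      rw [Int.toNat_of_nonneg (by omega), Int.toNat_of_nonneg (by omega)]
      ring
    rw [e2] at h3
    exact h3.symm
  · intro h
    have key : ∀ n : ℕ, s + n ≤ s' → rep D s0 (s + n) = rep D s0 s := by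
      intro n
      induction n with
      | zero => intro _; simp
      | succ n ih =>
        intro hn
        push_cast at hn ⊢
        rw [← ih (by omega), ← add_assoc]
        exact rep_succ (by omega) (by omega) (h _ (by omega) (by omega))
    have h3 := key (s' - s).toNat (by omega)
    rwa [Int.toNat_of_nonneg (by omega), show s + (s' - s) = s' by ring] at h3

/-- positions of the left arc, two windows -/
theorem rep_tr {D1 D2 : Win} {s1 s2 : ℤ} (hh : D1.h = D2.h)
    (hc : ∀ t, D1.h + 1 ≤ t → t ≤ 2 * D1.h + 2 → colp D1 t = colp D2 t)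
    (a1 : 1 ≤ s1) (a2 : s1 ≤ D1.h + 1) (b1 : 1 ≤ s2) (b2 : s2 ≤ D1.h + 1)
    (hs : D1.h + 1 ≤ s ∧ s ≤ 2 * D1.h + 2) (hs' : D1.h + 1 ≤ s' ∧ s' ≤ 2 * D1.h + 2)
    (h : rep D1 s1 s = rep D1 s1 s') : rep D2 s2 s = rep D2 s2 s' := by
  wlog hle : s ≤ s' with H
  · exact (H hh hc a1 a2 b1 b2 hs' hs h.symm (by omega)).symm
  have e1 : nP D1 = 2 * D1.h + 2 := rfl
  have e2 : nP D2 = 2 * D1.h + 2 := by unfold nP; rw [hh]
  have h1 := (rep_run (D := D1) (s0 := s1) (by omega) hle (by rw [e1]; omega)).1 h.symm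
  refine ((rep_run (D := D2) (s0 := s2) (by omega) hle (by rw [e2]; omega)).2 fun t ht ht' => ?_).symm
  rw [← hc t (by omega) (by omega), ← hc (t + 1) (by omega) (by omega)]
  exact h1 t ht ht'

/-! ### Positions of tiles which are not to the right -/

/-- position in `[h + 1, 2h + 2]` -/
def pz (D : Win) (y : ℤ) : ℤ :=
  if y < 0 then 2 * D.h + 2 else if D.h ≤ y then D.h + 1 else 2 * D.h + 1 - y

lemma pz_rng : D.h + 1 ≤ pz D y ∧ pz D y ≤ 2 * D.h + 2 := by
  have := D.hh
  unfold pz; split_ifs <;> omega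

lemma rep_top : rep D s0 0 = rep D s0 (2 * D.h + 2) := by
  rw [← rep_add (s := 0)]
  unfold nP
  rw [zero_add]

lemma arc_pz (h : NR D x y) : arc D p s0 x y = rep D s0 (pz D y) := by
  unfold arc ps pz
  unfold NR at h
  split_ifs <;> first | rfl | exact rep_top | (exfalso; omega)

lemma arc_right (h0 : 0 ≤ y) (h1 : y < D.h) (h2 : D.a y ≤ x) : arc D p s0 x y = rep D s0 (y + 1) := by
  unfold arc ps
  rw [if_neg (by omega), if_neg (by omega), if_neg (by omega)]

lemma colp_cr {t : ℤ} (h1 : D.h + 1 ≤ t) (h2 : t ≤ 2 * D.h + 2) : colp (crW D f) t = colp D t := by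
  have e1 := colp_ref (D := crW D f) (q := false) h1 h2
  have e2 := colp_ref (D := D) (q := false) h1 h2
  rw [← e1, ← e2]; rfl

/-- **Arcs of the reference and of another window.** -/
theorem arc_tr {s1 s2 : ℤ} (a1 : 1 ≤ s1) (a2 : s1 ≤ D.h + 1) (b1 : 1 ≤ s2) (b2 : s2 ≤ D.h + 1)
    (h1 : NR D x y) (h2 : NR D u v)
    (h : arc (refD D p) p s1 x y = arc (refD D p) p s1 u v) :
    arc (crW D f) p s2 x y = arc (crW D f) p s2 u v := by
  rw [arc_pz (D := refD D p) h1, arc_pz (D := refD D p) h2] at h
  rw [arc_pz (D := crW D f) h1, arc_pz (D := crW D f) h2]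
  refine rep_tr (D1 := refD D p) (D2 := crW D f) rfl (fun t ht ht' => ?_) a1 a2 b1 b2 pz_rng pz_rng h
  have e1 := colp_ref (D := D) (q := p) ht ht'
  have e2 := colp_ref (D := crW D f) (q := p) ht ht'
  rw [← e2]; rfl

/-- a right tile in an arc of the left side is in the first or the last row -/
theorem ref_right (h : rep (refD D p) 2 (y + 1) = rep (refD D p) 2 t) (h0 : 0 ≤ y) (h1 : y < D.h)
    (ht : D.h + 1 ≤ t ∧ t ≤ 2 * D.h + 2) :
    (y = 0 ∧ rep (refD D p) 2 t = rep (refD D p) 2 (2 * D.h + 2)) ∨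
      (y = D.h - 1 ∧ rep (refD D p) 2 t = rep (refD D p) 2 (D.h + 1)) := by
  have hh := D.hh
  have e1 : nP (refD D p) = 2 * D.h + 2 := rfl
  by_cases c0 : y = 0
  · left
    refine ⟨c0, ?_⟩
    subst c0
    have e2 : rep (refD D p) 2 (0 + 1) = rep (refD D p) 2 (2 * D.h + 3) := by
      rw [← rep_add, e1]
      congr 1; ring
    rw [e2] at h
    have h2 := (rep_run (D := refD D p) (s0 := 2) (by omega) (by omega : t ≤ 2 * D.h + 3)
      (by rw [e1]; omega)).1 h
    exact ((rep_run (D := refD D p) (s0 := 2) (by omega) ht.2 (by rw [e1]; omega)).2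
      fun t' k1 k2 => h2 t' k1 (by omega)).symm
  · right
    have h2 := (rep_run (D := refD D p) (s0 := 2) (by omega) (by omega : y + 1 ≤ t)
      (by rw [e1]; omega)).1 h.symm
    have c1 : y = D.h - 1 := by
      by_contra c1
      have h3 := h2 (y + 1) le_rfl (by omega)
      unfold colp at h3
      rw [e1, Int.emod_eq_of_lt (by omega) (by omega), Int.emod_eq_of_lt (by omega) (by omega),
        colq_cr (by omega) (by rw [ref_h]; omega), colq_cr (by omega) (by rw [ref_h]; omega),
        ref_cr, ref_cr, decide_eq_decide] at h3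
      omega
    refine ⟨c1, ?_⟩
    exact (rep_run (D := refD D p) (s0 := 2) (by omega) ht.1 (by rw [e1]; omega)).2
      fun t' k1 k2 => h2 t' (by omega) k2

/-! ### The window of the truth near the corners -/

/-- true colours near the corners, opposite colours in the middle -/
def trW (D : Win) (m : ℤ) : Win := crW D fun y =>
  if y ≤ m + 1 ∨ D.h ≤ y + m + 2 then D.cr y else if 2 * y < D.h then !D.cb else !D.ct

/-- rows near the ends of the right wall -/
def NE1 (D : Win) (m y : ℤ) : Prop := y ≤ m + 1 ∨ D.h ≤ y + m + 2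

lemma tr_cr (h : NE1 D m y) : (trW D m).cr y = D.cr y := if_pos h

lemma colp_R {E : Win} (h0 : 0 ≤ y) (h1 : y < E.h) : colp E (y + 1) = E.cr y := by
  unfold colp nP
  rw [Int.emod_eq_of_lt (by omega) (by omega), colq_cr (by omega) (by omega), add_sub_cancel_right]

lemma colp_R' {E : Win} (h0 : 0 ≤ y) (h1 : y < E.h) : colp E (2 * E.h + 3 + y) = E.cr y := by
  rw [← colp_R h0 h1, ← colp_add (s := y + 1)]
  unfold nP
  congr 1; ring

lemma colp_T {E : Win} : colp E (E.h + 1) = E.ct := by
  have := E.hh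
  unfold colp nP
  rw [Int.emod_eq_of_lt (by omega) (by omega), colq_t]

lemma colp_B {E : Win} : colp E (2 * E.h + 2) = E.cb := by
  unfold colp nP
  rw [Int.emod_self, colq_0]

/-- the rows in the middle are in other arcs -/
theorem tr_mid (hm : 0 ≤ m) (hh : 2 * m + 6 ≤ D.h) (_h0 : 0 ≤ y) (h1 : y < D.h)
    (ht : D.h + 1 ≤ t ∧ t ≤ 2 * D.h + 2)
    (h : rep (trW D m) (m + 3) (y + 1) = rep (trW D m) (m + 3) t) : NE1 D m y := by
  by_contra hc
  unfold NE1 at hc
  push Not at hc
  have e1 : nP (trW D m) = 2 * D.h + 2 := rfl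
  have h2 := (rep_run (D := trW D m) (s0 := m + 3) (by omega) (by omega : y + 1 ≤ t)
    (by rw [e1]; omega)).1 h.symm
  have h3 := (rep_run (D := trW D m) (s0 := m + 3) (s := D.h - m - 2) (s' := D.h + 1) (by omega)
    (by omega) (by rw [e1]; omega)).2 fun t' k1 k2 => h2 t' (by omega) (by omega)
  have h4 : colp (trW D m) (D.h + 1) = colp (trW D m) (D.h - m - 2) := by
    rw [← colp_rep (D := trW D m) (s0 := m + 3) (s := D.h + 1), h3, colp_rep]
  have h5 : colp (trW D m) (D.h + 1) = D.ct := colp_T (E := trW D m)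
  have h6 : colp (trW D m) (D.h - m - 3 + 1) = (trW D m).cr (D.h - m - 3) :=
    colp_R (E := trW D m) (by omega) (by show D.h - m - 3 < D.h; omega)
  have h7 : (trW D m).cr (D.h - m - 3) = !D.ct := by
    show (if D.h - m - 3 ≤ m + 1 ∨ D.h ≤ D.h - m - 3 + m + 2 then D.cr _ else
      if 2 * (D.h - m - 3) < D.h then !D.cb else !D.ct) = !D.ct
    rw [if_neg (by omega), if_neg (by omega)]
  rw [h5, show D.h - m - 2 = D.h - m - 3 + 1 by ring, h6, h7] at h4
  cases h8 : D.ct <;> rw [h8] at h4 <;> exact absurd h4 (by decide)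

/-- the first rows are in the arc of the bottom, if they have its colour -/
theorem tr_low (_hm : 0 ≤ m) (hh : 2 * m + 6 ≤ D.h) (h0 : 0 ≤ y) (h1 : y ≤ m + 1)
    (hc : ∀ z, 0 ≤ z → z ≤ y → D.cr z = D.cb) :
    rep (trW D m) (m + 3) (y + 1) = rep (trW D m) (m + 3) (2 * D.h + 2) := by
  have e1 : nP (trW D m) = 2 * D.h + 2 := rfl
  have e2 : rep (trW D m) (m + 3) (y + 1) = rep (trW D m) (m + 3) (2 * D.h + 3 + y) := by
    rw [← rep_add, e1]
    congr 1; ring
  rw [e2]
  refine (rep_run (D := trW D m) (s0 := m + 3) (by omega) (by omega) (by rw [e1]; omega)).2 ?_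
  have key : ∀ t, 2 * D.h + 2 ≤ t → t ≤ 2 * D.h + 3 + y → colp (trW D m) t = D.cb := by
    intro t k1 k2
    rcases eq_or_lt_of_le k1 with k3 | k3
    · rw [← k3]; exact colp_B (E := trW D m)
    · have h2 := colp_R' (E := trW D m) (y := t - 2 * D.h - 3) (by omega)
        (by show t - 2 * D.h - 3 < D.h; omega)
      have e3 : 2 * (trW D m).h + 3 + (t - 2 * D.h - 3) = t := by
        show 2 * D.h + 3 + (t - 2 * D.h - 3) = t
        ring
      rw [e3] at h2
      rw [h2, tr_cr (by unfold NE1; omega)]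
      exact hc _ (by omega) (by omega)
  intro t k1 k2
  rw [key t k1 (by omega), key (t + 1) (by omega) (by omega)]

/-- the last rows are in the arc of the top, if they have its colour -/
theorem tr_high (_hm : 0 ≤ m) (hh : 2 * m + 6 ≤ D.h) (h0 : D.h ≤ y + m + 2) (h1 : y < D.h)
    (hc : ∀ z, y ≤ z → z < D.h → D.cr z = D.ct) :
    rep (trW D m) (m + 3) (y + 1) = rep (trW D m) (m + 3) (D.h + 1) := by
  have e1 : nP (trW D m) = 2 * D.h + 2 := rfl
  refine ((rep_run (D := trW D m) (s0 := m + 3) (by omega) (by omega) (by rw [e1]; omega)).2 ?_).symm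
  have key : ∀ t, y + 1 ≤ t → t ≤ D.h + 1 → colp (trW D m) t = D.ct := by
    intro t k1 k2
    rcases eq_or_lt_of_le k2 with k3 | k3
    · rw [k3]; exact colp_T (E := trW D m)
    · have h2 := colp_R (E := trW D m) (y := t - 1) (by omega) (by show t - 1 < D.h; omega)
      rw [sub_add_cancel] at h2
      rw [h2, tr_cr (by unfold NE1; omega)]
      exact hc _ (by omega) (by omega)
  intro t k1 k2
  rw [key t k1 (by omega), key (t + 1) (by omega) (by omega)]

end Pool.Agent.H49.W.N
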