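import Pool.Agent.H49.W.TruA

set_option autoImplicit false
open Finset

/-! # Contacts of the families of the reference with the true walls

`D` : the true window, `refD D p` : the reference. `FxR D p L m S o R` : `R` contains the labels of the colour
`o` of the true window at the left arc and near the ends of the right wall. `touch_tie` : outer ends of the
ties, `touch_wall` : points on a tile of the wall of the reference, `touch_col` : points on a tile of the
column `x + sh p = w` which has the true colour `o` but not the colour `o` of the reference. All of them are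
joined in `R`. -/

namespace Pool.Agent.H49.W.N

open Pool.Agent.H75.Perc Pool.Agent.H75.TwoArm Pool.Agent.Q1 Pool.Agent.H33.Q1
open Pool.Agent.H69.Q1 Pool.Agent.H39.Q1
open Pool.Agent.H54.W (Win Out)
open Pool.Agent.H54.W.Win
open Pool.Agent.H72.W.N
open Pool.Agent.H2.W.N (co_box fi_conn an)
open Pool.Agent.H42.Sp (Sd Ix kt rt)
open Pool.Agent.H13.R45 (ev gp Gc InR)

/-- **the true window near the ends of the right wall** -/
structure TrH (D : Win) (m : ℤ) : Prop where
  hm : 1 ≤ m
  hh : 2 * m + 6 ≤ D.h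
  lo : ∀ y, 0 ≤ y → y ≤ m + 1 → D.cr y = D.cr 0
  hi : ∀ y, D.h ≤ y + m + 2 → y < D.h → D.cr y = D.cr (D.h - 1)
  wd : ∀ y, 0 ≤ y → y < D.h → D.a y + m + 3 ≤ D.w

/-- labels of the colour `o` of the true window -/
structure FxR (D : Win) (p : Bool) (L m : ℤ) (S : Finset (ℤ × ℤ)) (o : Bool) (R : Finset (ℤ × ℤ)) :
    Prop where
  fi : ∀ x y, InL D L x y → Fill D p x y → natc D p x y = o → (o = true → InB D x y) →
    (NR D x y ∨ NE1 D m y) → lt (x, y) ∈ R
  col : ∀ y, 0 ≤ y → y < D.h → NE1 D m y → D.cr y = o → lt (D.w - sh p, y) ∈ R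
  fz : ∀ x y, FRt D p x y → (x + sh p < D.w ∨ y < 0 ∨ D.h ≤ y) → (lt (x, y) ∈ S ↔ o = true) →
    lt (x, y) ∈ R

variable {D : Win} {p : Bool} {x y u v m L i i' t x0 y0 : ℤ} {k : Sd} {c o : Bool}
  {S Sr R : Finset (ℤ × ℤ)} {g : ℤ × ℤ}

/-- the fill tiles of an arc of the left side -/
theorem fi_tr (hR : FxR D p L m S o R) (hm : 0 ≤ m) (hh : 2 * m + 6 ≤ D.h)
    (ht : D.h + 1 ≤ t ∧ t ≤ 2 * D.h + 2) (hi : rep (trW D m) (m + 3) t = i')
    (ho : colp (trW D m) i' = o) : ∀ x y, FiA (trW D m) p (m + 3) L i' x y → lt (x, y) ∈ R := by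
  intro x y h
  have hcol := h.col
  rw [ho] at hcol
  obtain ⟨h1, h2, h3, h4⟩ := h
  rw [ho] at h4
  by_cases hn : NR D x y
  · exact hR.fi x y h1 h2 (by rw [← hcol]; exact (natc_cr hn).symm) h4 (Or.inl hn)
  · have hn' := hn
    unfold NR at hn'
    push Not at hn'
    have h5 := arc_right (D := trW D m) (p := p) (s0 := m + 3) (x := x) (y := y) hn'.1 hn'.2.1 hn'.2.2
    have h6 := tr_mid hm hh hn'.1 hn'.2.1 ht (by rw [← h5, h3, hi])
    refine hR.fi x y h1 h2 ?_ h4 (Or.inr h6)
    rw [← hcol, natc_def, natc_def, if_neg (by omega), if_neg (by omega), if_neg (by omega),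
      if_neg (by omega), if_neg (show ¬ (trW D m).h ≤ y by show ¬ D.h ≤ y; omega),
      if_neg (show ¬ x < (trW D m).a y by show ¬ x < D.a y; omega), tr_cr h6]

/-- the window is wide -/
lemma xw_aux (hT : TrH D m) : D.lo + m + 3 ≤ D.w := by
  have h0 := D.hh
  have h1 := hT.wd 0 le_rfl (by omega)
  have h2 := D.hlo 0 le_rfl (by omega)
  omega

section fam

variable (hT : TrH D m) (hL : 5 ≤ L) (hR : FxR D p L m S o R) (hn : NR D x0 y0)
  (hi : arc (refD D p) p 2 x0 y0 = i) (hc : colp (refD D p) i = o)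

include hT hL hR hn hi hc

omit hL hR hc in
/-- tiles of the same arc of the reference -/
lemma same_arc (h : NR D x y) (hi' : arc (refD D p) p 2 x y = i) :
    arc (trW D m) p (m + 3) x y = arc (trW D m) p (m + 3) x0 y0 := by
  have := hT.hm
  have := hT.hh
  exact arc_tr (s1 := 2) (s2 := m + 3) (by omega) (by omega) (by omega) (by omega) h hn (by rw [hi, hi'])

omit hT hL hR in
lemma colp_i' : colp (trW D m) (arc (trW D m) p (m + 3) x0 y0) = o := by
  have h1 : natc (trW D m) p x0 y0 = natc D p x0 y0 := natc_cr hn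
  have h2 : natc (refD D p) p x0 y0 = natc D p x0 y0 := natc_ref hn
  rw [colp_arc, h1, ← h2, ← colp_arc (s0 := 2), hi, hc]

/-- **fill tiles of the true arc** -/
lemma fi_co (h : FiA (trW D m) p (m + 3) L (arc (trW D m) p (m + 3) x0 y0) x y) (hg : OnT g x y)
    (he : ev g = o) : Co (Gc o R) (gp g)
      (gp (an (trW D m) o (arc (trW D m) p (m + 3) x0 y0 % nP (trW D m)))) := by
  have h1 := hT.hm
  exact fi_conn (D := trW D m) hL (fi_tr hR (by omega) hT.hh pz_rng (arc_pz (D := trW D m) hn).symm
    (colp_i' hn hi hc)) h hg he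

/-- fill tiles of the arc of the reference which are not to the right -/
lemma nr_co (h : FiA (refD D p) p 2 L i x y) (hn' : NR D x y) (hg : OnT g x y) (he : ev g = o) :
    Co (Gc o R) (gp g) (gp (an (trW D m) o (arc (trW D m) p (m + 3) x0 y0 % nP (trW D m)))) := by
  obtain ⟨h1, h2, h3, h4⟩ := h
  refine fi_co hT hL hR hn hi hc ⟨h1, h2, same_arc hT hn hi hn' h3, fun h5 => h4 ?_⟩ hg he
  rw [colp_i' hn hi hc] at h5
  rw [hc]; exact h5

omit hT hL hR hc in
/-- a tile in an arc of the family to the right of the window -/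
lemma right_tile (h : arc (refD D p) p 2 x y = i) (h' : ¬ NR D x y) :
    (y = 0 ∧ rep (refD D p) 2 (2 * D.h + 2) = i) ∨ (y = D.h - 1 ∧ rep (refD D p) 2 (D.h + 1) = i) := by
  unfold NR at h'
  push Not at h'
  have h5 := arc_right (D := refD D p) (p := p) (s0 := 2) (x := x) (y := y) h'.1 h'.2.1 h'.2.2
  have h6 := arc_pz (D := refD D p) (p := p) (s0 := 2) (x := x0) (y := y0) hn
  have h7 := ref_right (D := D) (p := p) (t := pz (refD D p) y0) (by rw [← h5, h, ← h6, hi]) h'.1
    h'.2.1 pz_rng
  rw [← h6, hi] at h7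
  rcases h7 with ⟨k1, k2⟩ | ⟨k1, k2⟩
  · exact Or.inl ⟨k1, k2.symm⟩
  · exact Or.inr ⟨k1, k2.symm⟩

omit hT hL hR hn hi in
/-- the colour of the family, bottom -/
lemma cb_of (h : rep (refD D p) 2 (2 * D.h + 2) = i) : D.cb = o := by
  have h1 : colp (refD D p) (2 * D.h + 2) = D.cb := colp_B (E := refD D p)
  rw [← h1, ← colp_rep (s0 := 2), h, hc]

omit hT hL hR hn hi in
/-- the colour of the family, top -/
lemma ct_of (h : rep (refD D p) 2 (D.h + 1) = i) : D.ct = o := by
  have h1 : colp (refD D p) (D.h + 1) = D.ct := colp_T (E := refD D p)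
  rw [← h1, ← colp_rep (s0 := 2), h, hc]

/-- **Ties.** -/
theorem touch_tie (h : TieP (refD D p) p k c u v) (hi' : fmA (refD D p) p 2 (lt (u, v)) = i) :
    Co (Gc o R) (oA (refD D p) p (lt (u, v)))
      (gp (an (trW D m) o (arc (trW D m) p (m + 3) x0 y0 % nP (trW D m)))) := by
  have hk : k ≠ .R := by
    rintro rfl
    exact TieP_not_R h
  have ho : c = o := by
    rw [← hc, ← hi']; exact h.co.symm
  have hn' : NR D (u - (dr k).1) (v - (dr k).2) := TieP.nr ((TieP_ref hk).1 h) hk
  rw [h.o]
  exact nr_co hT hL hR hn hi hc (h.fi hL hi') hn' onT_ot (by rw [ev_ot h.odd, ho])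

/-- **Walls of the reference.** -/
theorem touch_wall (hS : SolR D p Sr)
    (hSS : ∀ x y, (x + sh p < D.w ∨ y < 0 ∨ D.h ≤ y) → (lt (x, y) ∈ Sr ↔ lt (x, y) ∈ S))
    (h : FiA (refD D p) p 2 L i u v ∨ FzA (refD D p) p 2 L Sr i u v) (hg : OnT g u v)
    (he : ev g = o) (hx : g.1 + sh p ≤ D.w) : Co (Gc o R) (gp g)
      (gp (an (trW D m) o (arc (trW D m) p (m + 3) x0 y0 % nP (trW D m)))) := by
  have hm := hT.hm
  have hh := hT.hh
  have hs0 := sh_nonneg p
  have hs1 := sh_le p
  rcases h with h | h
  · by_cases hn' : NR D u v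
    · exact nr_co hT hL hR hn hi hc h hn' hg he
    · exfalso
      have hn2 := hn'
      unfold NR at hn2
      push Not at hn2
      have h1 := (fill_side (D := D) (p := p) hn2.1 hn2.2.1 h.2.1).2.1 (by omega)
      unfold OnT at hg
      omega
  · obtain ⟨h1, h2, g', h3, h4, x', y', h5, h6⟩ := h
    rw [hc] at h2 h3
    have hcol := h5.col
    rw [hc] at hcol
    have hring : Ring D p u v := h1.1
    have hnear : u + sh p ≤ D.w ∧ -1 ≤ v ∧ v ≤ D.h := by
      obtain ⟨⟨Z, k1, k2, k3, k4, k5, k6⟩, -⟩ := hring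
      exact ⟨k6, by omega, by omega⟩
    by_cases hcl : u + sh p < D.w ∨ v < 0 ∨ D.h ≤ v
    · -- off the column
      have hl : lt (u, v) ∈ R := by
        refine hR.fz u v ((FRt_ref hcl).1 h1) hcl ?_
        rw [← hSS u v hcl]; exact h2
      have hbox : Co (Gc o R) (gp g) (gp g') := by
        refine co_box (r0 := u) (r1 := u + 1) (t0 := v) (t1 := v + 1) (by omega) (by omega) ?_
          (by unfold OnT at hg; unfold InR; omega) (by unfold OnT at h4; unfold InR; omega) he h3
        intro a b k1 k2 k3 k4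
        have e1 : a = u := by omega
        have e2 : b = v := by omega
        rw [e1, e2]; exact hl
      refine hbox.trans ?_
      by_cases hn' : NR D x' y'
      · exact nr_co hT hL hR hn hi hc h5 hn' h6 h3
      · have hn2 := hn'
        unfold NR at hn2
        push Not at hn2
        have k1 := (fill_side (D := D) (p := p) hn2.1 hn2.2.1 h5.2.1).2.1 (by omega)
        have k2 := right_tile hn hi h5.2.2.1 hn'
        have k3 : u + sh p = D.w := by
          unfold OnT at h4 h6; omega
        have hw := xw_aux hT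
        rcases k2 with ⟨rfl, k4⟩ | ⟨rfl, k4⟩
        · have k5 : v = -1 ∧ g' = (D.w - sh p + 1, 0) := by
            unfold OnT at h4 h6
            refine ⟨by omega, Prod.ext ?_ ?_⟩ <;> simp only <;> omega
          have hb : InB D (D.w - sh p + 1) (-1) := by unfold InB; omega
          refine nr_co hT hL hR hn hi hc (x := D.w - sh p + 1) (y := -1)
            ⟨InL_of_InB hL hb, fill_colR (D := D) (by omega), ?_, fun _ => hb⟩ (Or.inl (by omega)) ?_ h3
          · rw [arc_pz (D := refD D p) (Or.inl (by omega)), ← k4]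
            unfold pz
            rw [if_pos (by omega)]; rfl
          · rw [k5.2]; unfold OnT; simp only; omega
        · have k5 : v = D.h ∧ g' = (D.w - sh p + 1, D.h) := by
            unfold OnT at h4 h6
            refine ⟨by omega, Prod.ext ?_ ?_⟩ <;> simp only <;> omega
          have hb : InB D (D.w - sh p + 1) D.h := by unfold InB; omega
          refine nr_co hT hL hR hn hi hc (x := D.w - sh p + 1) (y := D.h)
            ⟨InL_of_InB hL hb, fill_colR (D := D) (by omega), ?_, fun _ => hb⟩ (Or.inr (Or.inl le_rfl)) ?_ h3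
          · have e1 : arc (refD D p) p 2 (D.w - sh p + 1) D.h =
                rep (refD D p) 2 (pz (refD D p) D.h) := arc_pz (Or.inr (Or.inl le_rfl))
            rw [e1, ← k4]
            unfold pz
            rw [if_neg (by omega), if_pos (by rw [ref_h])]; rfl
          · rw [k5.2]; unfold OnT; simp only; omega
    · -- the column
      exfalso
      push Not at hcl
      have hu : u = D.w - sh p := by omega
      have h7 := hS v (by omega) (by omega)
      rw [← hu, h2] at h7
      -- the fill tile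
      have key : (y' ≤ 0 ∧ D.cb = o) ∨ (D.h - 1 ≤ y' ∧ D.ct = o) := by
        by_cases hn' : NR D x' y'
        · have hn2 := hn'
          unfold NR at hn2
          by_cases c1 : y' < 0
          · left
            rw [natc_def, if_pos c1] at hcol
            exact ⟨by omega, hcol⟩
          by_cases c2 : D.h ≤ y'
          · right
            rw [natc_def, if_neg c1, if_pos (show (refD D p).h ≤ y' from c2)] at hcol
            exact ⟨by omega, hcol⟩
          exfalso
          have k0 : 0 ≤ y' := by omega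
          have k0' : y' < D.h := by omega
          have k1 := (fill_side (D := D) (p := p) k0 k0' h5.2.1).1.1 (by omega)
          have k2 := hT.wd y' k0 k0'
          unfold OnT at h4 h6
          omega
        · rcases right_tile hn hi h5.2.2.1 hn' with ⟨k1, k2⟩ | ⟨k1, k2⟩
          · exact Or.inl ⟨by omega, cb_of hc k2⟩
          · exact Or.inr ⟨by omega, ct_of hc k2⟩
      unfold OnT at h4 h6
      rcases key with ⟨k1, k2⟩ | ⟨k1, k2⟩
      · rw [if_pos (by omega), k2] at h7
        cases o <;> simp at h7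
      · rw [if_neg (by omega), k2] at h7
        cases o <;> simp at h7

/-- **The column.** -/
theorem touch_col (h0 : 0 ≤ v) (h1 : v < D.h) (hg : OnT g (D.w - sh p) v) (he : ev g = o)
    (hx : g.1 + sh p ≤ D.w) (hv : D.cr v = o) (hb : 2 * v < D.h → D.cb = o)
    (ht : D.h ≤ 2 * v → D.ct = o)
    (hnear : ∃ xt yt, OnT g xt yt ∧ xt + sh p < D.w ∧ ∃ u' v', arc (refD D p) p 2 u' v' = i ∧
      xt ≤ u' + m ∧ u' ≤ xt + m ∧ yt ≤ v' + m ∧ v' ≤ yt + m) : Co (Gc o R) (gp g)
      (gp (an (trW D m) o (arc (trW D m) p (m + 3) x0 y0 % nP (trW D m)))) := by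
  have hm := hT.hm
  have hh := hT.hh
  have hs0 := sh_nonneg p
  have hs1 := sh_le p
  have hw := xw_aux hT
  obtain ⟨xt, yt, k1, k2, u', v', k4, k5, k6, k7, k8⟩ := hnear
  have hxt : xt = D.w - sh p - 1 := by unfold OnT at hg k1; omega
  have hyt : v ≤ yt + 1 ∧ yt ≤ v + 1 := by unfold OnT at hg k1; omega
  have key : (v ≤ m + 1 ∧ rep (refD D p) 2 (2 * D.h + 2) = i) ∨
      (D.h ≤ v + m + 2 ∧ rep (refD D p) 2 (D.h + 1) = i) := by
    by_cases hn' : NR D u' v'
    · have h5 := arc_pz (D := refD D p) (p := p) (s0 := 2) (x := u') (y := v') hn'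
      rw [k4] at h5
      unfold NR at hn'
      unfold pz at h5
      by_cases c1 : v' < 0
      · left
        rw [if_pos c1] at h5
        exact ⟨by omega, h5.symm⟩
      rw [if_neg c1] at h5
      by_cases c2 : D.h ≤ v'
      · right
        rw [if_pos (show (refD D p).h ≤ v' from c2)] at h5
        exact ⟨by omega, h5.symm⟩
      exfalso
      have := hT.wd v' (by omega) (by omega)
      omega
    · rcases right_tile hn hi k4 hn' with ⟨l1, l2⟩ | ⟨l1, l2⟩
      · exact Or.inl ⟨by omega, l2⟩
      · exact Or.inr ⟨by omega, l2⟩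
  have hne : NE1 D m v := by
    unfold NE1
    rcases key with h | h
    · exact Or.inl h.1
    · exact Or.inr h.1
  have hpz : arc (refD D p) p 2 x0 y0 = rep (refD D p) 2 (pz (refD D p) y0) :=
    arc_pz (D := refD D p) hn
  have hpz' : arc (trW D m) p (m + 3) x0 y0 = rep (trW D m) (m + 3) (pz (refD D p) y0) :=
    arc_pz (D := trW D m) hn
  have hcc : ∀ t, (refD D p).h + 1 ≤ t → t ≤ 2 * (refD D p).h + 2 →
      colp (refD D p) t = colp (trW D m) t := fun t g1 g2 => by
    rw [colp_ref (D := D) g1 g2]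
    exact (colp_cr (D := D) g1 g2).symm
  -- the arc of the row
  have harc : rep (trW D m) (m + 3) (v + 1) = arc (trW D m) p (m + 3) x0 y0 := by
    rcases key with ⟨h2, h3⟩ | ⟨h2, h3⟩
    · rw [hpz', tr_low (by omega) hh h0 h2 fun z z0 z1 => ?_]
      · refine rep_tr (D1 := refD D p) (D2 := trW D m) (s1 := 2) rfl hcc (by omega)
          (by rw [ref_h]; omega) (by omega) (by rw [ref_h]; omega) (by rw [ref_h]; omega) pz_rng ?_
        rw [h3, ← hpz, hi]
      · rw [hb (by omega), ← hv, hT.lo z z0 (by omega), hT.lo v h0 h2]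
    · rw [hpz', tr_high (by omega) hh h2 h1 fun z z0 z1 => ?_]
      · refine rep_tr (D1 := refD D p) (D2 := trW D m) (s1 := 2) rfl hcc (by omega)
          (by rw [ref_h]; omega) (by omega) (by rw [ref_h]; omega) (by rw [ref_h]; omega) pz_rng ?_
        rw [h3, ← hpz, hi]
      · rw [ht (by omega), ← hv, hT.hi z (by omega) z1, hT.hi v h2 h1]
  -- the other end
  have hB : InB D (D.w - sh p + 1) v := by unfold InB; omega
  have hF : FiA (trW D m) p (m + 3) L (arc (trW D m) p (m + 3) x0 y0) (D.w - sh p + 1) v := by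
    refine ⟨InL_of_InB hL hB, fill_colR (D := D) (by omega), ?_, fun _ => hB⟩
    have ha := hT.wd v h0 h1
    rw [arc_right (D := trW D m) h0 h1 (by show D.a v ≤ _; omega), harc]
  have hg1 : g.1 = D.w - sh p := by unfold OnT at hg; omega
  have hoth : ∃ g' : ℤ × ℤ, ev g' = o ∧ OnT g' (D.w - sh p) v ∧ OnT g' (D.w - sh p + 1) v := by
    refine ⟨(g.1 + 1, 2 * v + 1 - g.2), ?_, ?_, ?_⟩
    · rw [← he]
      unfold ev
      simp only
      rw [show g.1 + 1 + (2 * v + 1 - g.2) = g.1 + g.2 + 2 * (v + 1 - g.2) by ring]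
      congr 1
      rw [Int.add_mul_emod_self_left]
    · unfold OnT at hg ⊢; simp only; omega
    · unfold OnT at hg ⊢; simp only; omega
  obtain ⟨g', h2, h3, h4⟩ := hoth
  have hl : lt (D.w - sh p, v) ∈ R := hR.col v h0 h1 hne hv
  have hbox : Co (Gc o R) (gp g) (gp g') := by
    refine co_box (r0 := D.w - sh p) (r1 := D.w - sh p + 1) (t0 := v) (t1 := v + 1) (by omega)
      (by omega) ?_ (by unfold OnT at hg; unfold InR; omega) (by unfold OnT at h3; unfold InR; omega)
      he h2
    intro a b e1 e2 e3 e4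
    have e5 : a = D.w - sh p := by omega
    have e6 : b = v := by omega
    rw [e5, e6]; exact hl
  exact hbox.trans (fi_co hT hL hR hn hi hc hF h4 h2)

end fam

end Pool.Agent.H49.W.N
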