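import Pool.Agent.H49.W.TruC

set_option autoImplicit false
open Finset

/-! # The layers of chart I

`lyC_La` : the layers `LaA`, `lyC_LamX` : the wide layers at the marked corners. `vtogI`, `vtogXI` : the
fields `VTog` and `VTogX` for the true functional. -/

namespace Pool.Agent.H49.W.N

open Pool.Agent.H75.Perc hiding ET mem_ET
open Pool.Agent.H75.TwoArm Pool.Agent.Q1 Pool.Agent.H33.Q1
open Pool.Agent.H69.Q1 Pool.Agent.H39.Q1
open Pool.Agent.H54.W (Win Out)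
open Pool.Agent.H54.W.Win
open Pool.Agent.H72.W.N
open Pool.Agent.H42.Sp (Sd Ix kt rt)
open Pool.Agent.H13.R45 (ev gp)
open Pool.Agent.H74.R45 (exists_lt)
open Pool.Agent.H34.W.Lin
open Pool.Agent.H62.W (InT ZS mem_ZS odd_ZS)
open Pool.Agent.H22.W.MskI (StrFar BoxL mskI mskXI lamX_cases)
open Pool.Agent.H42.W (AgrO AgrC Agr Msk MskO MskC VF Tog vtog_F' vtogX_F')
open Pool.Agent.H15.W (VTog VTogX)
open Pool.Agent.H40.W.N
open Pool.Agent.H27.W.N
open Pool.Agent.H40.Sp (tX flS yV yH)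
open Pool.Agent.H95.W (CoarseRC)

variable {D : Win} {p : Bool} {x y u v m L K X1 X2 Y1 Y2 x0 r i n HH W : ℤ} {A B : ℤ → ℤ}
  {CL : ℤ → Bool} {k : Sd} {c o : Bool}
  {O : OutB D} {O' : OutB (refD D p)} {S Sr Λ Bb BB : Finset (ℤ × ℤ)} {g : Bool × ℤ}

lemma lyC_La : LyC D p m i (LaA (refD D p) p 2 m i) where
  odd := fun _ hl => odd_TB hl
  lf := fun x y h => (mem_LaA.1 h).1.2.2.2
  bx := by
    intro x y h X Y h1 h2 h3 h4
    obtain ⟨k1, k2, k3, k4⟩ := (mem_LaA.1 h).1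
    have e1 := sh_nonneg p
    have e2 := sh_le p
    have e3 := D.hlo y k1 k2
    simp only [ref_h, ref_w, ref_a] at k2 k3 k4
    unfold InB
    omega
  nr := by
    intro x y h _
    obtain ⟨-, u, v, -, k1, k2⟩ := mem_LaA.1 h
    exact ⟨u, v, k1, k2⟩

/-- near a marked corner -/
lemma corner_pos (hC : CoarseRC (refD D p) n HH W A CL) (hg : g ∈ GmC (refD D p) n HH)
    (hm : 1 ≤ m) (hn : 3 * m + 8 ≤ n) {i' j' : ℤ} (h1 : -1 ≤ i') (h2 : i' < 2 * m + 2)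
    (h3 : -1 ≤ j') (h4 : j' < 2 * m + 2) {x y : ℤ}
    (he : (x, y) = tq g.1 (flS HH A B g) (wS (refD D p) p n HH A B g) (gxS p n HH A B g) (gyS n g) i' j') :
    x + sh p + 1 < D.w ∧ D.lo ≤ x + 2 ∧ -1 ≤ y ∧ y ≤ D.h := by
  obtain ⟨Z, -⟩ := zc_c (p := p) (B := B) hC (cut_ref (D := D) (q := p) D.hh) hg
  have hg1 : g.1 = true := (mem_GmC.1 hg).1
  obtain ⟨sd, Yg⟩ := g
  simp only at hg1
  subst hg1
  set gx := gxS p n HH A B (true, Yg) with hgx
  set gy := gyS n (true, Yg) with hgy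
  set v2 := flS HH A B (true, Yg) with hv2
  have key : ∀ a b, -1 ≤ a → a < 2 * m + 2 → -1 ≤ b → b < 2 * m + 2 → ∀ {x y : ℤ},
      (x, y) = (tX true gx a, tX v2 gy b) →
      x + sh p + 1 < D.w ∧ D.lo ≤ x + 2 ∧ -1 ≤ y ∧ y ≤ D.h := by
    intro a b a1 a2 b1' b2' x y hxy
    have hly := Z.lyV 0 le_rfl (by omega)
    rw [if_pos rfl] at hly
    obtain ⟨l1, l2, l3, -, -⟩ := hly
    obtain ⟨q1, q2, q3, q4⟩ := (Z.inP (2 * m + 2) (2 * m + 2) (by omega) (by omega) (by omega)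
      (by omega)).2 (by omega)
    have e1 := sh_nonneg p
    have e2 := sh_le p
    have hlo := D.hlo _ l1 l2
    rw [Prod.mk.injEq] at hxy
    obtain ⟨hx, hy⟩ := hxy
    simp only [ref_h, ref_w, ref_a] at l1 l2 l3 q1 q2 q3 q4
    rw [tX_t] at *
    cases hv : v2
    · rw [hv] at l1 l2 l3 q1 q2 q3 hlo hy
      rw [tX_f] at *
      omega
    · rw [hv] at l1 l2 l3 q1 q2 q3 hlo hy
      rw [tX_t] at *
      omega
  unfold tq at he
  by_cases hw' : wS (refD D p) p n HH A B (true, Yg) = true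
  · rw [if_pos hw'] at he; exact key i' j' h1 h2 h3 h4 he
  · rw [if_neg hw'] at he; exact key j' i' h3 h4 h1 h2 he

lemma lyC_LamX (hC : CoarseRC (refD D p) n HH W A CL) (hg : g ∈ GmC (refD D p) n HH)
    (hm : 1 ≤ m) (hn : 3 * m + 8 ≤ n) :
    LyC D p m i (LamX (refD D p) p 2 n HH A B m g i) := by
  have key : ∀ x y, lt (x, y) ∈ LamX (refD D p) p 2 n HH A B m g i →
      lt (x, y) ∈ LaA (refD D p) p 2 m i ∨
      (x + sh p + 1 < D.w ∧ D.lo ≤ x + 2 ∧ -1 ≤ y ∧ y ≤ D.h) := by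
    intro x y h
    rcases lamX_cases h with h1 | ⟨i', j', ⟨⟨h1, h2⟩, h3, h4⟩, h5⟩
    · exact Or.inl h1
    · exact Or.inr (corner_pos hC hg hm hn h1 h2 h3 h4 (lt_inj h5))
  have hL := lyC_La (D := D) (p := p) (m := m) (i := i)
  have e1 := sh_nonneg p
  refine ⟨?_, ?_, ?_, ?_⟩
  · intro l hl
    rcases lamX_cases hl with h | ⟨i', j', -, rfl⟩
    · exact odd_TB h
    · exact lt_odd _
  · intro x y h
    rcases key x y h with h | h
    · exact hL.lf x y h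
    · omega
  · intro x y h X Y h1 h2 h3 h4
    rcases key x y h with h | h
    · exact hL.bx x y h X Y h1 h2 h3 h4
    · unfold InB; omega
  · intro x y h h1
    rcases key x y h with h | h
    · exact hL.nr x y h h1
    · omega

/-! ### The fields -/

/-- **`Multi` of the reference.** -/
theorem multiI (H : TruI D p m L K X1 X2 Y1 Y2 x0 r O S Sr) (hO : O'.Wo = ∅)
    (hB : LBA (refD D p) p (m + 1) ⊆ BB) (hB' : BB ⊆ EN (refD D p) p) :
    Multi (XA O' p Sr H.subR) (WA O' p Sr) (EN (refD D p) p) BB (TA (refD D p) p)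
      (fmA (refD D p) p 2) (colp (refD D p)) (WlA (refD D p) p 2 L Sr) (LaA (refD D p) p 2 m)
      (bA (refD D p) p) (oA (refD D p) p) := by
  have hm := H.tr.hm
  refine multiA H.subR H.hL (fun x y _ _ => ?_) (by omega) hB hB'
  rw [hO]
  exact notMem_empty _

/-- **`VTog` of chart I.** -/
theorem vtogI (H : TruI D p m L K X1 X2 Y1 Y2 x0 r O S Sr) (hO : O'.Wo = ∅)
    (hB : LBA (refD D p) p (m + 1) ⊆ BB) (hB' : BB ⊆ EN (refD D p) p)
    {Φ : Finset (ℤ × ℤ) → ℂ} (hF : ∀ E W : Finset (ℤ × ℤ),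
      Tog E W (ZS X1 X2 Y1 Y2 x0 r) (fun w => Φ (w ∪ W))) :
    VTog (VF (FTr Φ O p (Tlf D p) S) (EN (refD D p) p) BB (TA (refD D p) p) (fmA (refD D p) p 2)
      (colp (refD D p))) (WA O' p Sr) BB (TA (refD D p) p) (fmA (refD D p) p 2) (colp (refD D p))
      (WlA (refD D p) p 2 L Sr) (LaA (refD D p) p 2 m) (bA (refD D p) p) (oA (refD D p) p) := by
  have hM := mskI (p := p) (S := Sr) H.hL H.tr.hm H.hK H.str H.box
  exact vtog_F' (Wt := WTr O p (Tlf D p) S) (M := fun _ => ZS X1 X2 Y1 Y2 x0 r) (multiI H hO hB hB')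
    (fun i _ => hF _ _) hM (agr_of H hM fun i _ => lyC_La)

/-- **`VTogX` of chart I.** -/
theorem vtogXI (H : TruI D p m L K X1 X2 Y1 Y2 x0 r O S Sr) (hO : O'.Wo = ∅)
    (hB : LBA (refD D p) p (m + 1) ⊆ BB) (hB' : BB ⊆ EN (refD D p) p)
    (hC : CoarseRC (refD D p) n HH W A CL) (hg : g ∈ GmC (refD D p) n HH) (hn : 3 * m + 8 ≤ n)
    (hK : 2 * m + 4 ≤ K)
    {Φ : Finset (ℤ × ℤ) → ℂ} (hF : ∀ E W : Finset (ℤ × ℤ),
      Tog E W (ZS X1 X2 Y1 Y2 x0 r) (fun w => Φ (w ∪ W))) :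
    VTogX (VF (FTr Φ O p (Tlf D p) S) (EN (refD D p) p) BB (TA (refD D p) p) (fmA (refD D p) p 2)
      (colp (refD D p))) (WA O' p Sr) (EN (refD D p) p) BB (TA (refD D p) p) (fmA (refD D p) p 2)
      (colp (refD D p)) (WlA (refD D p) p 2 L Sr) (LamX (refD D p) p 2 n HH A B m g)
      (bA (refD D p) p) := by
  have hM := mskXI (p := p) (S := Sr) (B := B) hC hg H.hL H.tr.hm hn hK H.str H.box
  exact vtogX_F' (Wt := WTr O p (Tlf D p) S) (M := fun _ => ZS X1 X2 Y1 Y2 x0 r)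
    (multiI H hO hB hB') (fun i _ => hF _ _) hM (agr_of H hM fun i _ => lyC_LamX hC hg H.tr.hm hn)

end Pool.Agent.H49.W.N
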