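import Pool.Agent.H49.W.TruD

set_option autoImplicit false
open Finset

/-! # The field `VLoc` of chart I

`SgI` : tiles to the right of the window, tiles at the far left, the frame of the rectangle. A box which avoids
`SgI` and contains a tie is in the rectangle (`frame_in`), its true labels which are not those of the reference
are far below or above the window; they are joined to the wall by paths to the lowest (highest) vertex of the box
(`tip_down`, `tip_up`). `agrK_I`, `vlocI`. -/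

namespace Pool.Agent.H49.W.N

open Pool.Agent.H75.Perc hiding ET mem_ET BD mem_BD
open Pool.Agent.H75.TwoArm Pool.Agent.H69.Q1
open Pool.Agent.Q1 Pool.Agent.H33.Q1 Pool.Agent.H99.NC Pool.Agent.H60.Q1
open Pool.Agent.H39.Q1
open Pool.Agent.H54.W (Win Out)
open Pool.Agent.H54.W.Win
open Pool.Agent.H72.W.N
open Pool.Agent.H42.Sp (Sd Ix kt rt)
open Pool.Agent.H13.R45 (ev gp tg_end tg_lt)
open Pool.Agent.H74.R45 (exists_lt)
open Pool.Agent.H34.W.Lin
open Pool.Agent.H62.W (InT ZS mem_ZS odd_ZS)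
open Pool.Agent.H22.W.MskI (StrFar BoxL mskI lfI_ref wl_sub)
open Pool.Agent.H42.W (Agr Msk VF Tog)
open Pool.Agent.H15.W (VLoc)
open Pool.Agent.H49.W (AgrK vloc_K)

variable {D : Win} {p : Bool} {x y u v m L K X1 X2 Y1 Y2 x0 r i m1 R ρ : ℤ} {k : Sd} {c o : Bool}
  {O : OutB D} {O' : OutB (refD D p)} {S Sr Λ A BB : Finset (ℤ × ℤ)} {w e a b : ℤ × ℤ}

/-! ### Boxes in tile coordinates -/

lemma mem_BRt : lt (x, y) ∈ BR w R ↔ (2 * (w.1 - R) ≤ x - y ∧ x - y ≤ 2 * (w.1 + R)) ∧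
    2 * (w.2 - R) ≤ x + y + 1 ∧ x + y + 1 ≤ 2 * (w.2 + R) := by
  unfold BR lt
  rw [mem_Bx]
  simp only
  constructor
  · rintro ⟨h1, h2, -⟩; exact ⟨h1, h2⟩
  · rintro ⟨h1, h2⟩; exact ⟨h1, h2, by omega⟩

lemma mem_BDt : lt (x, y) ∈ BD w R ↔ (2 * (w.1 - R) ≤ x - y + 1 ∧ x - y + 1 ≤ 2 * (w.1 + R)) ∧
    2 * (w.2 - R) ≤ x + y + 2 ∧ x + y + 2 ≤ 2 * (w.2 + R) := by
  rw [mem_BD]
  unfold lt
  simp only
  constructor
  · rintro ⟨h1, h2, -⟩; exact ⟨h1, by omega⟩
  · rintro ⟨h1, h2⟩; exact ⟨h1, by omega, by omega⟩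

/-- **Labels which boxes have to avoid.** -/
def SgP (D : Win) (p : Bool) (X1 X2 Y1 Y2 x y : ℤ) : Prop :=
  (X1 - 1 ≤ x ∧ x ≤ X2 ∧ Y1 - 1 ≤ y ∧ y ≤ Y2) ∧
    ((0 ≤ y ∧ y < D.h ∧ D.w ≤ x + sh p) ∨ x + 5 ≤ D.lo ∨ x + 1 = X1 ∨ x = X2 ∨ y + 1 = Y1 ∨ y = Y2)

open Classical in
/-- tiles to the right of the window, tiles at the far left, the frame -/
noncomputable def SgI (D : Win) (p : Bool) (X1 X2 Y1 Y2 : ℤ) : Finset (ℤ × ℤ) :=
  ((Icc (X1 - 1) X2 ×ˢ Icc (Y1 - 1) Y2).filter fun t => SgP D p X1 X2 Y1 Y2 t.1 t.2).image lt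

lemma mem_SgI : lt (x, y) ∈ SgI D p X1 X2 Y1 Y2 ↔ SgP D p X1 X2 Y1 Y2 x y := by
  classical
  unfold SgI
  rw [mem_image]
  constructor
  · rintro ⟨t, h1, h2⟩
    have := lt_inj h2
    subst this
    exact (mem_filter.1 h1).2
  · intro h
    refine ⟨(x, y), mem_filter.2 ⟨?_, h⟩, rfl⟩
    obtain ⟨⟨h1, h2, h3, h4⟩, -⟩ := h
    rw [mem_product, mem_Icc, mem_Icc]
    exact ⟨⟨h1, h2⟩, h3, h4⟩

lemma exists_SgI {l : ℤ × ℤ} (h : l ∈ SgI D p X1 X2 Y1 Y2) : ∃ x y, l = lt (x, y) ∧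
    SgP D p X1 X2 Y1 Y2 x y := by
  classical
  have h0 := h
  unfold SgI at h
  rw [mem_image] at h
  obtain ⟨t, -, rfl⟩ := h
  exact ⟨t.1, t.2, rfl, mem_SgI.1 h0⟩

/-- **A box which avoids the frame and contains a tile of the rectangle is in the rectangle.** -/
lemma frame_in (hfr : ∀ x y, SgP D p X1 X2 Y1 Y2 x y → lt (x, y) ∉ BR w R) {xe ye : ℤ}
    (he : lt (xe, ye) ∈ BR w R) (hx : X1 ≤ xe ∧ xe < X2 ∧ Y1 ≤ ye ∧ ye < Y2)
    (h : lt (x, y) ∈ BR w R) : X1 ≤ x ∧ x < X2 ∧ Y1 ≤ y ∧ y < Y2 := by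
  have fr : ∀ x y, (X1 - 1 ≤ x ∧ x ≤ X2 ∧ Y1 - 1 ≤ y ∧ y ≤ Y2) →
      (x + 1 = X1 ∨ x = X2 ∨ y + 1 = Y1 ∨ y = Y2) → lt (x, y) ∈ BR w R → False := by
    intro x y h1 h2 h3
    exact hfr x y ⟨h1, by tauto⟩ h3
  rw [mem_BRt] at he h
  -- the central column
  have c1 : X1 ≤ w.1 + w.2 ∧ w.1 + w.2 < X2 := by
    constructor
    · by_contra hc
      exact fr (X1 - 1) ye (by omega) (by omega) (mem_BRt.2 (by omega))
    · by_contra hc
      exact fr X2 ye (by omega) (by omega) (mem_BRt.2 (by omega))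
  have c2 : Y1 ≤ y ∧ y < Y2 := by
    constructor
    · by_contra hc
      exact fr (w.1 + w.2) (Y1 - 1) (by omega) (by omega) (mem_BRt.2 (by omega))
    · by_contra hc
      exact fr (w.1 + w.2) Y2 (by omega) (by omega) (mem_BRt.2 (by omega))
  refine ⟨?_, ?_, c2.1, c2.2⟩
  · by_contra hc
    exact fr (X1 - 1) y (by omega) (by omega) (mem_BRt.2 (by omega))
  · by_contra hc
    exact fr X2 y (by omega) (by omega) (mem_BRt.2 (by omega))

/-! ### Paths to the tips -/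

/-- path to the lowest vertex of the box -/
theorem tip_down {N : ℤ} (hA : ∀ x y, lt (x, y) ∈ BR w ρ → y ≤ N → lt (x, y) ∈ A) :
    ∀ n : ℕ, ∀ a : ℤ × ℤ, inR w ρ a → a.2 - a.1 ≤ N + 1 →
      (w.1 + ρ - a.1) + (a.2 - (w.2 - ρ)) = n → Co A a (w.1 + ρ, w.2 - ρ) := by
  intro n
  induction n with
  | zero =>
    intro a h1 h2 h3
    rw [inR_iff] at h1
    have : a = (w.1 + ρ, w.2 - ρ) := by
      refine Prod.ext ?_ ?_ <;> simp only <;> push_cast at h3 <;> omega
    rw [this]; exact Co.refl _ _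
  | succ n ih =>
    intro a h1 h2 h3
    rw [inR_iff] at h1
    push_cast at h3
    by_cases hc : a.1 < w.1 + ρ
    · have h4 : Co A a (a.1 + 1, a.2) := by
        refine Relation.ReflTransGen.single ⟨?_, ?_⟩
        · unfold IsUnit4
          simp only [Prod.ext_iff, Prod.fst_sub, Prod.snd_sub]
          omega
        · have e1 : a + (a.1 + 1, a.2) = lt (a.1 + a.2, a.2 - a.1 - 1) := by
            unfold lt
            refine Prod.ext ?_ ?_ <;> simp only [Prod.fst_add, Prod.snd_add] <;> ring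
          rw [e1]
          exact hA _ _ (mem_BRt.2 (by omega)) (by omega)
      exact h4.trans (ih _ (by rw [inR_iff]; simp only; omega) (by simp only; omega)
        (by simp only; omega))
    · have h4 : Co A a (a.1, a.2 - 1) := by
        refine Relation.ReflTransGen.single ⟨?_, ?_⟩
        · unfold IsUnit4
          simp only [Prod.ext_iff, Prod.fst_sub, Prod.snd_sub]
          omega
        · have e1 : a + (a.1, a.2 - 1) = lt (a.1 + a.2 - 1, a.2 - a.1 - 1) := by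
            unfold lt
            refine Prod.ext ?_ ?_ <;> simp only [Prod.fst_add, Prod.snd_add] <;> ring
          rw [e1]
          exact hA _ _ (mem_BRt.2 (by omega)) (by omega)
      exact h4.trans (ih _ (by rw [inR_iff]; simp only; omega) (by simp only; omega)
        (by simp only; omega))

/-- path to the highest vertex of the box -/
theorem tip_up {N : ℤ} (hA : ∀ x y, lt (x, y) ∈ BR w ρ → N ≤ y → lt (x, y) ∈ A) :
    ∀ n : ℕ, ∀ a : ℤ × ℤ, inR w ρ a → N ≤ a.2 - a.1 →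
      (a.1 - (w.1 - ρ)) + (w.2 + ρ - a.2) = n → Co A a (w.1 - ρ, w.2 + ρ) := by
  intro n
  induction n with
  | zero =>
    intro a h1 h2 h3
    rw [inR_iff] at h1
    have : a = (w.1 - ρ, w.2 + ρ) := by
      refine Prod.ext ?_ ?_ <;> simp only <;> push_cast at h3 <;> omega
    rw [this]; exact Co.refl _ _
  | succ n ih =>
    intro a h1 h2 h3
    rw [inR_iff] at h1
    push_cast at h3
    by_cases hc : w.1 - ρ < a.1
    · have h4 : Co A a (a.1 - 1, a.2) := by
        refine Relation.ReflTransGen.single ⟨?_, ?_⟩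
        · unfold IsUnit4
          simp only [Prod.ext_iff, Prod.fst_sub, Prod.snd_sub]
          omega
        · have e1 : a + (a.1 - 1, a.2) = lt (a.1 + a.2 - 1, a.2 - a.1) := by
            unfold lt
            refine Prod.ext ?_ ?_ <;> simp only [Prod.fst_add, Prod.snd_add] <;> ring
          rw [e1]
          exact hA _ _ (mem_BRt.2 (by omega)) (by omega)
      exact h4.trans (ih _ (by rw [inR_iff]; simp only; omega) (by simp only; omega)
        (by simp only; omega))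
    · have h4 : Co A a (a.1, a.2 + 1) := by
        refine Relation.ReflTransGen.single ⟨?_, ?_⟩
        · unfold IsUnit4
          simp only [Prod.ext_iff, Prod.fst_sub, Prod.snd_sub]
          omega
        · have e1 : a + (a.1, a.2 + 1) = lt (a.1 + a.2, a.2 - a.1) := by
            unfold lt
            refine Prod.ext ?_ ?_ <;> simp only [Prod.fst_add, Prod.snd_add] <;> ring
          rw [e1]
          exact hA _ _ (mem_BRt.2 (by omega)) (by omega)
      exact h4.trans (ih _ (by rw [inR_iff]; simp only; omega) (by simp only; omega)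
        (by simp only; omega))

/-- the ends of a label of a box, rows -/
lemma ends_row (h1 : IsUnit4 (b - a)) (h2 : a + b = lt (x, y)) (h3 : lt (x, y) ∈ BR w ρ) :
    inR w ρ a ∧ inR w ρ b ∧ (a.2 - a.1) + (b.2 - b.1) = 2 * y + 1 ∧
      y ≤ a.2 - a.1 ∧ a.2 - a.1 ≤ y + 1 := by
  have h4 := unit_cases h1
  have h5 : a.1 + b.1 = x - y := congrArg Prod.fst h2
  have h6 : a.2 + b.2 = x + y + 1 := congrArg Prod.snd h2
  rw [mem_BRt] at h3
  rw [inR_iff, inR_iff]
  omega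

/-- a label has ends -/
lemma exists_ends (x y : ℤ) : ∃ a b : ℤ × ℤ, IsUnit4 (b - a) ∧ a + b = lt (x, y) := by
  rcases Int.even_or_odd (x - y) with ⟨k, hk⟩ | ⟨k, hk⟩
  · refine ⟨(k, (x + y) / 2), (k, (x + y) / 2 + 1), ?_, ?_⟩
    · unfold IsUnit4
      simp only [Prod.ext_iff, Prod.fst_sub, Prod.snd_sub]
      omega
    · unfold lt
      refine Prod.ext ?_ ?_ <;> simp only [Prod.fst_add, Prod.snd_add] <;> omega
  · refine ⟨(k, (x + y + 1) / 2), (k + 1, (x + y + 1) / 2), ?_, ?_⟩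
    · unfold IsUnit4
      simp only [Prod.ext_iff, Prod.fst_sub, Prod.snd_sub]
      omega
    · unfold lt
      refine Prod.ext ?_ ?_ <;> simp only [Prod.fst_add, Prod.snd_add] <;> omega

/-! ### The box around an open tie -/

/-- position of the inner end of a tie -/
lemma b_pos (he : e ∈ TA (refD D p) p) (h : colp (refD D p) (fmA (refD D p) p 2 e) = true) :
    ∃ g u v, e = lt (u, v) ∧ OnT g u v ∧ ev g = true ∧ bA (refD D p) p e = gp g ∧
      g.1 + sh p ≤ D.w ∧ D.lo ≤ g.1 + 2 ∧ 0 ≤ g.2 ∧ g.2 ≤ D.h ∧ LyA D p (kd (refD D p) p u v) u v ∧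
      kd (refD D p) p u v ≠ .R := by
  obtain ⟨u, v, k, c, rfl, hT⟩ := exists_tie he
  have hc : c = true := by rw [← h]; exact hT.co.symm
  subst hc
  have hk : k ≠ .R := by rintro rfl; exact TieP_not_R hT
  have hl := LyA_ref.1 hT.ly
  have hb := hl.box
  refine ⟨bt k true (u, v), u, v, rfl, onT_bt, ev_bt hT.odd, hT.b, ?_⟩
  rw [kd_eq hT.ly]
  have hs0 := sh_nonneg p
  have hs1 := sh_le p
  refine ⟨?_, ?_, ?_, ?_, hl, hk⟩ <;> cases k
  all_goals first
    | exact absurd rfl hk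
    | (obtain ⟨k1, k2, k3, k4, k5⟩ := hl; have := D.aw; simp only [bt]; first | omega | (have := this v (by omega) (by omega); omega))

/-- **An open fill tile of the reference in the box, below the window.** -/
lemma low_tile {g : ℤ × ℤ} (hg : ev g = true) (h1 : g.1 + sh p ≤ D.w) (h2 : D.lo ≤ g.1 + 2) (h3 : 0 ≤ g.2)
    (hb : inR w m1 (gp g)) (hm : m1 < ρ) (hin : ∀ x y, lt (x, y) ∈ BR w ρ → X1 ≤ x ∧ x < X2 ∧ Y1 ≤ y ∧ y < Y2)
    (hfr : ∀ x y, SgP D p X1 X2 Y1 Y2 x y → lt (x, y) ∉ BR w ρ)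
    (huv : lt (u, v) ∈ BR w ρ) (hv : v < 0) (hB : ¬ InB D u v) :
    ∃ x, lt (x, -3) ∈ BR w ρ ∧ InB D x (-3) := by
  have hh := D.hh
  have hs0 := sh_nonneg p
  have hs1 := sh_le p
  have hg' : (g.1 + g.2) % 2 = 0 := by unfold ev at hg; simpa using hg
  unfold gp at hb
  rw [inR_iff] at hb
  simp only at hb
  have huv' := mem_BRt.1 huv
  by_cases hc : w.2 - w.1 < 0
  · refine ⟨g.1, mem_BRt.2 (by omega), ?_⟩
    unfold InB; omega
  · have hi := hin u v huv
    have hu : D.lo ≤ u + 4 := by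
      by_contra hcon
      exact hfr u v ⟨by omega, Or.inr (Or.inl (by omega))⟩ huv
    by_cases hv5 : v ≤ -5
    · have e1 : lt (w.1 + w.2, 0) ∈ BR w ρ := mem_BRt.2 (by omega)
      have e2 : lt (w.1 + w.2, -3) ∈ BR w ρ := mem_BRt.2 (by omega)
      have i1 := hin _ _ e1
      have i2 := hin _ _ e2
      have f1 : w.1 + w.2 + sh p < D.w := by
        by_contra hcon
        exact hfr _ 0 ⟨by omega, Or.inl ⟨le_rfl, by omega, by omega⟩⟩ e1
      have f2 : D.lo ≤ w.1 + w.2 + 4 := by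
        by_contra hcon
        exact hfr _ (-3) ⟨by omega, Or.inr (Or.inl (by omega))⟩ e2
      refine ⟨w.1 + w.2, e2, ?_⟩
      unfold InB; omega
    · exfalso
      have hu' : D.w + 4 ≤ u := by unfold InB at hB; omega
      have e1 : lt (u, 0) ∈ BR w ρ := mem_BRt.2 (by omega)
      have i1 := hin _ _ e1
      exact hfr u 0 ⟨by omega, Or.inl ⟨le_rfl, by omega, by omega⟩⟩ e1

/-- **An open fill tile of the reference in the box, above the window.** -/
lemma high_tile {g : ℤ × ℤ} (hg : ev g = true) (h1 : g.1 + sh p ≤ D.w) (h2 : D.lo ≤ g.1 + 2)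
    (h3 : g.2 ≤ D.h)
    (hb : inR w m1 (gp g)) (hm : m1 < ρ) (hin : ∀ x y, lt (x, y) ∈ BR w ρ → X1 ≤ x ∧ x < X2 ∧ Y1 ≤ y ∧ y < Y2)
    (hfr : ∀ x y, SgP D p X1 X2 Y1 Y2 x y → lt (x, y) ∉ BR w ρ)
    (huv : lt (u, v) ∈ BR w ρ) (hv : D.h ≤ v) (hB : ¬ InB D u v) :
    ∃ x, lt (x, D.h + 2) ∈ BR w ρ ∧ InB D x (D.h + 2) := by
  have hh := D.hh
  have hs0 := sh_nonneg p
  have hs1 := sh_le p
  have hg' : (g.1 + g.2) % 2 = 0 := by unfold ev at hg; simpa using hg
  unfold gp at hb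
  rw [inR_iff] at hb
  simp only at hb
  have huv' := mem_BRt.1 huv
  by_cases hc : D.h < w.2 - w.1
  · refine ⟨g.1, mem_BRt.2 (by omega), ?_⟩
    unfold InB; omega
  · have hi := hin u v huv
    have hu : D.lo ≤ u + 4 := by
      by_contra hcon
      exact hfr u v ⟨by omega, Or.inr (Or.inl (by omega))⟩ huv
    by_cases hv5 : D.h + 4 ≤ v
    · have e1 : lt (w.1 + w.2, D.h - 1) ∈ BR w ρ := mem_BRt.2 (by omega)
      have e2 : lt (w.1 + w.2, D.h + 2) ∈ BR w ρ := mem_BRt.2 (by omega)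
      have i1 := hin _ _ e1
      have i2 := hin _ _ e2
      have f1 : w.1 + w.2 + sh p < D.w := by
        by_contra hcon
        exact hfr _ (D.h - 1) ⟨by omega, Or.inl ⟨by omega, by omega, by omega⟩⟩ e1
      have f2 : D.lo ≤ w.1 + w.2 + 4 := by
        by_contra hcon
        exact hfr _ (D.h + 2) ⟨by omega, Or.inr (Or.inl (by omega))⟩ e2
      refine ⟨w.1 + w.2, e2, ?_⟩
      unfold InB; omega
    · exfalso
      have hu' : D.w + 4 ≤ u := by unfold InB at hB; omega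
      have e1 : lt (u, D.h - 1) ∈ BR w ρ := mem_BRt.2 (by omega)
      have i1 := hin _ _ e1
      exact hfr u (D.h - 1) ⟨by omega, Or.inl ⟨by omega, by omega, by omega⟩⟩ e1

end Pool.Agent.H49.W.N
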