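import Pool.Agent.H49.W.TruE

set_option autoImplicit false
open Finset

/-! # The field `VLoc` of chart I, end

`agrK_I` : open ties, `agrC_I` : closed ties, `vlocI` : the field. -/

namespace Pool.Agent.H49.W.N

open Pool.Agent.H75.Perc hiding ET mem_ET BD mem_BD
open Pool.Agent.H75.TwoArm Pool.Agent.H69.Q1
open Pool.Agent.Q1 Pool.Agent.H33.Q1 Pool.Agent.H99.NC Pool.Agent.H60.Q1
open Pool.Agent.H39.Q1
open Pool.Agent.H54.W (Win Out)
open Pool.Agent.H54.W.Win
open Pool.Agent.H72.W.N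
open Pool.Agent.H42.Sp (Sd Ix kt rt)
open Pool.Agent.H13.R45 (ev gp tg_end tg_lt)
open Pool.Agent.H74.R45 (exists_lt)
open Pool.Agent.H34.W.Lin
open Pool.Agent.H62.W (InT ZS mem_ZS odd_ZS)
open Pool.Agent.H22.W.MskI
open Pool.Agent.H42.W (Agr Msk VF Tog)
open Pool.Agent.H15.W (VLoc)
open Pool.Agent.H49.W (AgrK vloc_K)

variable {D : Win} {p : Bool} {x y u v m L K X1 X2 Y1 Y2 x0 r i m1 R ρ : ℤ} {k : Sd} {c o : Bool}
  {O : OutB D} {O' : OutB (refD D p)} {S Sr Λ A BB : Finset (ℤ × ℤ)} {w e a b : ℤ × ℤ}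

/-- labels of `P^p` -/
lemma inP_not (hS : S ⊆ FR D p) (h : InP D p x y) : lt (x, y) ∉ WTr O p (Tlf D p) S := by
  rw [mem_WTr]
  rintro (⟨-, h1, -⟩ | h1 | h1 | h1)
  · exact h1 h
  · exact (mem_FR.1 (hS h1)).1.2 h
  · exact O.far _ _ h1 h.inB
  · obtain ⟨s, -, h2⟩ := rt_ly h1
    exact h2.out h

/-- the labels of the reference are near the window -/
lemma WA_inB (hS : Sr ⊆ FR (refD D p) p) (hO : O'.Wo = ∅) (h : lt (x, y) ∈ WA O' p Sr) :
    InB D x y := by
  rcases mem_WA.1 h with h | h | h | h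
  · exact h.1
  · obtain ⟨s, hs⟩ := h.ly
    exact (LyA_ref.1 hs).inB (by omega) (by omega) (by omega) (by omega)
  · exact (mem_FR.1 (hS h)).1.inB
  · rw [hO] at h
    exact absurd h (notMem_empty _)

/-- true labels which are not near the window -/
lemma WTr_far (hS : S ⊆ FR D p) (hB : ¬ InB D x y) (h : lt (x, y) ∈ WTr O p (Tlf D p) S) :
    lt (x, y) ∈ O.Wo := by
  rcases mem_WTr.1 h with h | h | h | h
  · exact absurd h.1 hB
  · exact absurd (mem_FR.1 (hS h)).1.inB hB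
  · exact h
  · obtain ⟨s, -, hs⟩ := rt_ly h
    exact absurd (hs.inB (by omega) (by omega) (by omega) (by omega)) hB

/-- **Open ties.** -/
theorem agrK_I (H : TruI D p m L K X1 X2 Y1 Y2 x0 r O S Sr) (hO : O'.Wo = ∅)
    (hMu : Multi (XA O' p Sr H.subR) (WA O' p Sr) (EN (refD D p) p) BB (TA (refD D p) p)
      (fmA (refD D p) p 2) (colp (refD D p)) (WlA (refD D p) p 2 L Sr) (LaA (refD D p) p 2 m)
      (bA (refD D p) p) (oA (refD D p) p))
    (he : e ∈ TA (refD D p) p) (hc : colp (refD D p) (fmA (refD D p) p 2 e) = true)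
    (hW : WallO (XA O' p Sr H.subR) (WA O' p Sr) (EN (refD D p) p) (TA (refD D p) p)
      (TF (TA (refD D p) p) (fmA (refD D p) p 2) (fmA (refD D p) p 2 e))
      (WlA (refD D p) p 2 L Sr (fmA (refD D p) p 2 e)) (LaA (refD D p) p 2 m (fmA (refD D p) p 2 e))
      (bA (refD D p) p) (oA (refD D p) p) e w m1 R)
    (hSg : ∀ l ∈ SgI D p X1 X2 Y1 Y2, l ∉ BR w R) (hb : inR w m1 (bA (refD D p) p e))
    (hmR : m1 < R) :
    AgrK (WA O' p Sr) (WTr O p (Tlf D p) S) (ZS X1 X2 Y1 Y2 x0 r)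
      (LaA (refD D p) p 2 m (fmA (refD D p) p 2 e))
      (TF (TA (refD D p) p) (fmA (refD D p) p 2) (fmA (refD D p) p 2 e)) (bA (refD D p) p) w
      (oA (refD D p) p e) m1 R := by
  have hh := D.hh
  have hs0 := sh_nonneg p
  have hs1 := sh_le p
  have hTO := hMu.tO _ hc
  have heT : e ∈ TF (TA (refD D p) p) (fmA (refD D p) p 2) (fmA (refD D p) p 2 e) :=
    mem_TF.2 ⟨he, rfl⟩
  have hfrR : ∀ x y, SgP D p X1 X2 Y1 Y2 x y → lt (x, y) ∉ BR w R := fun x y h =>
    hSg _ (mem_SgI.2 h)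
  have heB : e ∈ BR w R := by
    have := tie_box (o := oA (refD D p) p) (b := bA (refD D p) p) hmR (hTO.unit e heT) hb
    rwa [hTO.ends e heT] at this
  obtain ⟨g, ue, ve, hue, hOn, hev, hbe, g1, g2, g3, g4, hly, hk⟩ := b_pos he hc
  rw [hue] at heB
  have hbx := hly.box
  have hBx := H.box
  have hL5 := H.hL
  obtain ⟨b1, b2, b3, b4⟩ := hBx
  have hin : ∀ x y, lt (x, y) ∈ BR w R → X1 ≤ x ∧ x < X2 ∧ Y1 ≤ y ∧ y < Y2 := fun x y h =>
    frame_in hfrR heB (by omega) h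
  have hoff : ∀ x y, lt (x, y) ∈ BR w R → 0 ≤ y → y < D.h → x + sh p < D.w := by
    intro x y h h1 h2
    by_contra hcon
    have := hin x y h
    exact hfrR x y ⟨by omega, Or.inl ⟨h1, h2, by omega⟩⟩ h
  have hlf : ∀ x y, lt (x, y) ∈ BR w R → D.lo ≤ x + 4 := by
    intro x y h
    by_contra hcon
    have := hin x y h
    exact hfrR x y ⟨by omega, Or.inr (Or.inl (by omega))⟩ h
  have heqv : ∀ x y, lt (x, y) ∈ BR w R → InB D x y →
      (lt (x, y) ∈ WTr O p (Tlf D p) S ↔ lt (x, y) ∈ WA O' p Sr) := by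
    intro x y h hB
    have hcl : x + sh p < D.w ∨ y < 0 ∨ D.h ≤ y := by
      by_contra hcon
      have := hoff x y h (by omega) (by omega)
      omega
    exact mem_WTr_ref hcl hB (H.ss x y hcl).symm
  have hK0 := H.hK
  have hm0 := H.tr.hm
  obtain ⟨f1, f2, f3⟩ := H.str
  have hz : ∀ x y, lt (x, y) ∈ BR w R → ¬ InP D p x y → lt (x, y) ∈ ZS X1 X2 Y1 Y2 x0 r := by
    intro x y h hP
    refine mem_ZS.2 ⟨hin x y h, ?_⟩
    rintro ⟨h5, h6⟩
    have h7 := hoff x y h (by omega) (by omega)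
    have h8 := f3 y (by omega) (by omega) (by omega) (by omega)
    exact hP ⟨by omega, by omega, by omega, h7⟩
  have hlt : ∀ l ∈ BR w R, ∃ x y, l = lt (x, y) := by
    intro l hl
    unfold BR at hl
    exact exists_lt (mem_Bx.1 hl).2.2
  have hsub : ∀ l ∈ BR w R, l ∈ WA O' p Sr → l ∈ WTr O p (Tlf D p) S := by
    intro l hl hlW
    obtain ⟨x, y, rfl⟩ := hlt l hl
    exact (heqv x y hl (WA_inB H.subR hO hlW)).2 hlW
  refine ⟨hsub, ?_, ?_, ?_⟩
  · intro ρ hρ hρR a b hab hl hT hnW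
    have hl' := BR_mono' hρR hl
    obtain ⟨u, v, huv⟩ := hlt _ hl'
    rw [huv] at hl hT hnW hl'
    have hB : ¬ InB D u v := fun hB => hnW ((heqv u v hl' hB).1 hT)
    have hP : ¬ InP D p u v := fun h => hB h.inB
    have hWo := WTr_far H.sub hB hT
    have hnat : natc D p u v = true := (H.nat u v (hz u v hl' hP) hB).1 hWo
    have hin' := hin u v hl'
    have hlf' := hlf u v hl'
    have hWA1 : WlA (refD D p) p 2 L Sr (fmA (refD D p) p 2 e) ∩ BR w ρ ⊆
        WTr O p (Tlf D p) S ∩ BR w ρ := by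
      intro l h
      obtain ⟨h1, h2⟩ := mem_inter.1 h
      exact mem_inter.2 ⟨hsub l (BR_mono' hρR h2) (hTO.w1 h1), h2⟩
    have hfrρ : ∀ x y, SgP D p X1 X2 Y1 Y2 x y → lt (x, y) ∉ BR w ρ := fun x y h h' =>
      hfrR x y h (BR_mono' hρR h')
    have hinρ : ∀ x y, lt (x, y) ∈ BR w ρ → X1 ≤ x ∧ x < X2 ∧ Y1 ≤ y ∧ y < Y2 := fun x y h =>
      hin x y (BR_mono' hρR h)
    obtain ⟨r1, r2, r3, r4, r5⟩ := ends_row hab huv hl
    have hpos : v < 0 ∨ D.h ≤ v := by
      by_contra hcon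
      have h7 := hoff u v hl' (by omega) (by omega)
      apply hB
      unfold InB
      omega
    rcases hpos with hv | hv
    · have hcb : D.cb = true := by rw [natc_def, if_pos hv] at hnat; exact hnat
      have hA : ∀ x y, lt (x, y) ∈ BR w ρ → y ≤ -2 →
          lt (x, y) ∈ WTr O p (Tlf D p) S ∩ BR w ρ := by
        intro x y h1 h2
        have hn : natc D p x y = true := by rw [natc_def, if_pos (by omega)]; exact hcb
        refine mem_inter.2 ⟨?_, h1⟩
        have hf : Fill D p x y := fill_bot (by omega)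
        by_cases hBx : InB D x y
        · exact (fill_WTr H.sub hf).2 (Or.inl ⟨hBx, hn⟩)
        · exact (fill_WTr H.sub hf).2 (Or.inr ((H.nat x y (hz x y (BR_mono' hρR h1) hf.not_inP) hBx).2 hn))
      have hdown : ∀ a : ℤ × ℤ, inR w ρ a → a.2 - a.1 ≤ -1 →
          Co (WTr O p (Tlf D p) S ∩ BR w ρ) a (w.1 + ρ, w.2 - ρ) := by
        intro a h1 h2
        refine tip_down (N := -2) hA ((w.1 + ρ - a.1) + (a.2 - (w.2 - ρ))).toNat a h1 (by omega) ?_
        rw [inR_iff] at h1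
        rw [Int.toNat_of_nonneg (by omega)]
      have ha : Co (WTr O p (Tlf D p) S ∩ BR w ρ) a (w.1 + ρ, w.2 - ρ) := by
        by_cases h1 : a.2 - a.1 ≤ -1
        · exact hdown a r1 h1
        · refine Co.trans (Relation.ReflTransGen.single ⟨hab, ?_⟩) (hdown b r2 (by omega))
          rw [huv]; exact mem_inter.2 ⟨hT, hl⟩
      rw [hbe] at hb
      obtain ⟨x, q1, q2⟩ := low_tile (X1 := X1) (X2 := X2) (Y1 := Y1) (Y2 := Y2) hev g1 g2 g3 hb hρ
        hinρ hfrρ hl hv hB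
      obtain ⟨a', b', q3, q4⟩ := exists_ends x (-3)
      obtain ⟨t1, -, -, t4, t5⟩ := ends_row q3 q4 q1
      have hWx : lt (x, -3) ∈ WA O' p Sr := by
        refine mem_WA.2 (Or.inl ⟨q2, fill_bot (D := D) (by norm_num), ?_⟩)
        rw [natc_ref (Or.inl (by norm_num)), natc_def, if_pos (by norm_num)]
        exact hcb
      have h2 := hW.wsub (mem_inter.2 ⟨hWx, BR_mono' hρR q1⟩)
      have h3 := hW.b1 ρ hρ hρR a' b' q3 (by rw [q4]; exact mem_inter.2 ⟨h2, q1⟩)
      exact (ha.trans (hdown a' t1 (by omega)).symm).trans (h3.mono hWA1)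
    · have hct : D.ct = true := by
        rw [natc_def, if_neg (by omega), if_pos hv] at hnat; exact hnat
      have hA : ∀ x y, lt (x, y) ∈ BR w ρ → D.h + 1 ≤ y →
          lt (x, y) ∈ WTr O p (Tlf D p) S ∩ BR w ρ := by
        intro x y h1 h2
        have hn : natc D p x y = true := by
          rw [natc_def, if_neg (by omega), if_pos (by omega)]; exact hct
        refine mem_inter.2 ⟨?_, h1⟩
        have hf : Fill D p x y := fill_top (by omega)
        by_cases hBx : InB D x y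
        · exact (fill_WTr H.sub hf).2 (Or.inl ⟨hBx, hn⟩)
        · exact (fill_WTr H.sub hf).2 (Or.inr ((H.nat x y (hz x y (BR_mono' hρR h1) hf.not_inP) hBx).2 hn))
      have hup : ∀ a : ℤ × ℤ, inR w ρ a → D.h + 1 ≤ a.2 - a.1 →
          Co (WTr O p (Tlf D p) S ∩ BR w ρ) a (w.1 - ρ, w.2 + ρ) := by
        intro a h1 h2
        refine tip_up (N := D.h + 1) hA ((a.1 - (w.1 - ρ)) + (w.2 + ρ - a.2)).toNat a h1 h2 ?_
        rw [inR_iff] at h1
        rw [Int.toNat_of_nonneg (by omega)]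
      have ha : Co (WTr O p (Tlf D p) S ∩ BR w ρ) a (w.1 - ρ, w.2 + ρ) := by
        by_cases h1 : D.h + 1 ≤ a.2 - a.1
        · exact hup a r1 h1
        · refine Co.trans (Relation.ReflTransGen.single ⟨hab, ?_⟩) (hup b r2 (by omega))
          rw [huv]; exact mem_inter.2 ⟨hT, hl⟩
      rw [hbe] at hb
      obtain ⟨x, q1, q2⟩ := high_tile (X1 := X1) (X2 := X2) (Y1 := Y1) (Y2 := Y2) hev g1 g2 g4 hb hρ
        hinρ hfrρ hl hv hB
      obtain ⟨a', b', q3, q4⟩ := exists_ends x (D.h + 2)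
      obtain ⟨t1, -, -, t4, t5⟩ := ends_row q3 q4 q1
      have hWx : lt (x, D.h + 2) ∈ WA O' p Sr := by
        refine mem_WA.2 (Or.inl ⟨q2, fill_top (D := D) (by omega), ?_⟩)
        rw [natc_ref (Or.inr (Or.inl (by omega))), natc_def, if_neg (by omega), if_pos (by omega)]
        exact hct
      have h2 := hW.wsub (mem_inter.2 ⟨hWx, BR_mono' hρR q1⟩)
      have h3 := hW.b1 ρ hρ hρR a' b' q3 (by rw [q4]; exact mem_inter.2 ⟨h2, q1⟩)
      exact (ha.trans (hup a' t1 (by omega)).symm).trans (h3.mono hWA1)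
  · intro l hl hT
    obtain ⟨x, y, rfl⟩ := hlt l hl
    exact hz x y hl fun hP => inP_not H.sub hP hT
  · intro x y hu hv hl hT
    obtain ⟨g', g1', g2', rfl⟩ := nd_of (P := x) hm0 (lyC_La (D := D) (p := p) (m := m)) (by
      rw [if_pos hc]; exact hv)
    rw [hc] at g2'
    have hTg := tg_end (e := gp g' + y) g2' hu (by rw [if_pos rfl])
    obtain ⟨u, v, huv⟩ := hlt _ hl
    rw [huv] at hTg hl hT ⊢
    have h7 := tg_lt hTg
    exact (heqv u v hl (g1'.2.1 u v (by unfold OnT; omega))).1 hT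

/-- **Closed ties.** -/
theorem agrC_I (H : TruI D p m L K X1 X2 Y1 Y2 x0 r O S Sr) (hO : O'.Wo = ∅)
    (hc : colp (refD D p) (fmA (refD D p) p 2 e) = false)
    (hW : WallC (XA O' p Sr H.subR) (WA O' p Sr) (EN (refD D p) p) (TA (refD D p) p)
      (TF (TA (refD D p) p) (fmA (refD D p) p 2) (fmA (refD D p) p 2 e))
      (WlA (refD D p) p 2 L Sr (fmA (refD D p) p 2 e)) (LaA (refD D p) p 2 m (fmA (refD D p) p 2 e))
      (bA (refD D p) p) (oA (refD D p) p) e w m1 R)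
    (hSg : ∀ l ∈ SgI D p X1 X2 Y1 Y2, l ∉ BD w R) :
    ∀ l ∈ BD w R, (l ∈ WTr O p (Tlf D p) S ↔ l ∈ WA O' p Sr) := by
  have hs0 := sh_nonneg p
  have hs1 := sh_le p
  obtain ⟨b1, b2, b3, b4⟩ := H.box
  have hL5 := H.hL
  have hfr : ∀ x y, SgP D p X1 X2 Y1 Y2 x y → lt (x, y) ∉ BD w R := fun x y h =>
    hSg _ (mem_SgI.2 h)
  intro l hl
  obtain ⟨x, y, rfl⟩ := exists_lt (mem_BD.1 hl).2.2
  by_cases hB : InB D x y
  · have hcl : x + sh p < D.w ∨ y < 0 ∨ D.h ≤ y := by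
      by_contra hcon
      unfold InB at hB
      exact hfr x y ⟨by omega, Or.inl (by omega)⟩ hl
    exact mem_WTr_ref hcl hB (H.ss x y hcl).symm
  · have hnW : lt (x, y) ∉ WA O' p Sr := fun h => hB (WA_inB H.subR hO h)
    refine ⟨fun hT => ?_, fun h => absurd h hnW⟩
    exfalso
    have hWo := WTr_far H.sub hB hT
    have hcov := hW.cov hl
    rw [mem_union, mem_union, mem_union] at hcov
    rcases hcov with ((h | h) | h) | h
    · exact hB (InP.inB (D := D) (mem_LaA.1 h).1)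
    · obtain ⟨s, c, h1⟩ := mem_TA.1 (mem_TF.1 h).1
      exact hB ((LyA_ref.1 h1.ly).inB (by omega) (by omega) (by omega) (by omega))
    · rcases (mem_WlA hL5).1 h with h1 | h1
      · obtain ⟨k1, k2, k3, -⟩ := h1
        have hcol : natc (refD D p) p x y = false := by
          rw [← colp_arc (s0 := 2), k3, hc]
        have hNR : NR D x y := by
          unfold NR
          by_contra hcon
          push Not at hcon
          have h5 := (fill_side (D := D) (p := p) hcon.1 hcon.2.1 k2).2.1 (by omega)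
          unfold InL at k1
          simp only [ref_lo, ref_w, ref_h] at k1
          exact hfr x y ⟨by omega, Or.inl (by omega)⟩ hl
        have hz := zs_of H.hK H.tr.hm H.str H.box k1 (Or.inl hNR)
        have hnat : natc D p x y = true := (H.nat x y hz hB).1 hWo
        rw [natc_ref hNR, hnat] at hcol
        exact Bool.false_ne_true hcol.symm
      · exact hB h1.1.1.inB
    · exact hnW h

/-- **`VLoc` of chart I.** -/
theorem vlocI (H : TruI D p m L K X1 X2 Y1 Y2 x0 r O S Sr) (hO : O'.Wo = ∅)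
    (hB : LBA (refD D p) p (m + 1) ⊆ BB) (hB' : BB ⊆ EN (refD D p) p)
    {Φ : Finset (ℤ × ℤ) → ℂ} (hF : ∀ E W : Finset (ℤ × ℤ),
      Tog E W (ZS X1 X2 Y1 Y2 x0 r) (fun w => Φ (w ∪ W))) :
    VLoc (VF (FTr Φ O p (Tlf D p) S) (EN (refD D p) p) BB (TA (refD D p) p) (fmA (refD D p) p 2)
      (colp (refD D p))) (XA O' p Sr H.subR) (WA O' p Sr) (EN (refD D p) p) BB (TA (refD D p) p)
      (SgI D p X1 X2 Y1 Y2) (fmA (refD D p) p 2) (colp (refD D p))
      (WlA (refD D p) p 2 L Sr) (LaA (refD D p) p 2 m) (bA (refD D p) p) (oA (refD D p) p) := by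
  have hM := mskI (p := p) (S := Sr) H.hL H.tr.hm H.hK H.str H.box
  have hMu := multiI (O' := O') H hO hB hB'
  refine vloc_K (Wt := WTr O p (Tlf D p) S) (M := fun _ => ZS X1 X2 Y1 Y2 x0 r) hMu
    (fun i _ => hF _ _) hM (agr_of H hM fun i _ => lyC_La) ?_ ?_ ?_
  · intro e he hc w m1 R hW hSg hb hmR
    exact agrK_I H hO hMu he hc hW hSg hb hmR
  · intro e _ hc w m1 R hW hSg
    exact agrC_I H hO hc hW hSg
  · rintro i ⟨e, he⟩ l hl -
    obtain ⟨h1, rfl⟩ := mem_TF.1 he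
    exact wl_sub (lfI_ref h1) H.hL (by have := H.hK; have := H.tr.hm; omega)
      (StrFar.ref.2 H.str) (BoxL.ref.2 H.box) hl

end Pool.Agent.H49.W.N
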